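import Pool.Agent.M7.Basic

/-! # The parametrisation of `X(d7)` (helper9, after helper33) -/

set_option autoImplicit false

namespace Pool.Agent.L9

variable {F : Type*} [Field F] [CharZero F]

private lemma d7_id (m c : F) (hc : c = m ^ 3 - 4 * m ^ 2 + 3 * m + 1) (f : F)
    (hf : f = m ^ 4 - 10 * m ^ 3 + 27 * m ^ 2 - 10 * m - 27) :
    f * (-f ^ 3 - 42 * f ^ 2 - 14 * f ^ 2 * c - 490 * f - 392 * f * c - 63 * f * c ^ 2 - 1372 -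
      2058 * c - 882 * c ^ 2 - 70 * c ^ 3) ^ 2 + 1728 * c ^ 7 =
    m * (m + 1) ^ 3 * (m ^ 2 - 5 * m + 1) ^ 3 * (m ^ 2 - 5 * m + 8) ^ 3 *
      (m ^ 4 - 5 * m ^ 3 + 8 * m ^ 2 - 7 * m + 7) ^ 3 := by
  subst hc hf
  ring

/-- a point of `X(d7)` -/
theorem coreD' (φ : F →+* ℝ) {J α β δ : F} (hJ : J ≠ 0) (hδ : δ ≠ 0)
    (hd : α ^ 2 - 4 * β = -7 * δ ^ 2)
    (hPP : -α ^ 7 + 6 * α ^ 5 * β - 14 * α ^ 5 * J - 10 * α ^ 3 * β ^ 2 + 56 * α ^ 3 * β * J -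
      63 * α ^ 3 * J ^ 2 + 4 * α * β ^ 3 - 42 * α * β ^ 2 * J + 126 * α * β * J ^ 2 -
      70 * α * J ^ 3 - J ^ 4 = 0)
    (hQ : -α ^ 6 * β + 5 * α ^ 4 * β ^ 2 - 14 * α ^ 4 * β * J - 6 * α ^ 2 * β ^ 3 +
      42 * α ^ 2 * β ^ 2 * J - 63 * α ^ 2 * β * J ^ 2 + β ^ 4 - 14 * β ^ 3 * J +
      63 * β ^ 2 * J ^ 2 - 70 * β * J ^ 3 - 7 * J ^ 4 = 0) :
    ∃ m y c : F, 16 * y ^ 2 = -7 * ((2 * m - 5) ^ 4 - 42 * (2 * m - 5) ^ 2 - 7) ∧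
      c = m ^ 3 - 4 * m ^ 2 + 3 * m + 1 ∧
      (J + 1728) * c ^ 7 = m * (m + 1) ^ 3 * (m ^ 2 - 5 * m + 1) ^ 3 * (m ^ 2 - 5 * m + 8) ^ 3 *
      (m ^ 4 - 5 * m ^ 3 + 8 * m ^ 2 - 7 * m + 7) ^ 3 := by
  have h7 : (7 : F) ≠ 0 := by norm_num
  by_cases hDe : J - β = 0
  · exfalso
    have hβ : β = J := by linear_combination -hDe
    subst hβ
    have h1 : β * (α ^ 2 + 3 * β) ^ 3 = 0 := by linear_combination -hQ
    have h2 : α ^ 2 + 3 * β = 0 :=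
      pow_eq_zero_iff (by norm_num) |>.1 ((mul_eq_zero.1 h1).resolve_left hJ)
    have h3 : β = δ ^ 2 := by
      have : 7 * (β - δ ^ 2) = 0 := by linear_combination h2 - hd
      have := (mul_eq_zero.1 this).resolve_left h7
      linear_combination this
    have h4 : φ α ^ 2 + 3 * φ β = 0 := by
      have := congrArg φ h2
      rw [map_add, map_mul, map_pow, map_ofNat, map_zero] at this
      exact this
    have h5 : φ β = φ δ ^ 2 := by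
      have := congrArg φ h3
      simpa using this
    have h6 : φ β ≠ 0 := by
      intro h
      exact hJ ((map_eq_zero φ).1 h)
    have h7 : φ β = 0 := by nlinarith [sq_nonneg (φ α), sq_nonneg (φ δ)]
    exact h6 h7
  · obtain ⟨De, hDe'⟩ : ∃ De, De = J - β := ⟨_, rfl⟩
    obtain ⟨M, hM⟩ : ∃ M, M = α ^ 2 - 3 * β + 6 * J := ⟨_, rfl⟩
    have hDe0 : De ≠ 0 := by rw [hDe']; exact hDe
    obtain ⟨m, hm⟩ : ∃ m, M = m * De := ⟨M / De, by field_simp⟩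
    obtain ⟨c, hc⟩ : ∃ c, c = m ^ 3 - 4 * m ^ 2 + 3 * m + 1 := ⟨_, rfl⟩
    obtain ⟨f, hf⟩ : ∃ f, f = m ^ 4 - 10 * m ^ 3 + 27 * m ^ 2 - 10 * m - 27 := ⟨_, rfl⟩
    have I1 : β * (M ^ 3 - 4 * M ^ 2 * De + 3 * M * De ^ 2 + De ^ 3) + 7 * J * De ^ 3 = 0 := by
      rw [hM, hDe']
      linear_combination -hQ
    have I2 : α ^ 2 * (M ^ 3 - 4 * M ^ 2 * De + 3 * M * De ^ 2 + De ^ 3) * De =
        J * (M ^ 4 - 10 * M ^ 3 * De + 27 * M ^ 2 * De ^ 2 - 10 * M * De ^ 3 - 27 * De ^ 4) := by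
      rw [hM, hDe']
      linear_combination (α ^ 2 + 3 * J) * hQ
    have I3 : -7 * δ ^ 2 * (M ^ 3 - 4 * M ^ 2 * De + 3 * M * De ^ 2 + De ^ 3) * De =
        J * (M ^ 2 - 5 * M * De + De ^ 2) ^ 2 := by
      rw [← hd, hM, hDe']
      linear_combination (α ^ 2 - 4 * β + 7 * J) * hQ
    rw [hm] at I1 I2 I3
    have J1 : β * c = -7 * J := by
      apply mul_right_cancel₀ (pow_ne_zero 3 hDe0)
      rw [hc]
      linear_combination I1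
    have J2 : α ^ 2 * c = J * f := by
      apply mul_right_cancel₀ (pow_ne_zero 4 hDe0)
      rw [hc, hf]
      linear_combination I2
    have J3 : -7 * δ ^ 2 * c = J * (m ^ 2 - 5 * m + 1) ^ 2 := by
      apply mul_right_cancel₀ (pow_ne_zero 4 hDe0)
      rw [hc]
      linear_combination I3
    have hy : (α * (m ^ 2 - 5 * m + 1)) ^ 2 = -7 * f * δ ^ 2 := by
      apply mul_left_cancel₀ hJ
      linear_combination (-α ^ 2) * J3 + (-7 * δ ^ 2) * J2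
    obtain ⟨y, hy'⟩ : ∃ y, y * δ = α * (m ^ 2 - 5 * m + 1) :=
      ⟨α * (m ^ 2 - 5 * m + 1) / δ, by field_simp⟩
    have hyy : y ^ 2 = -7 * f := by
      apply mul_right_cancel₀ (pow_ne_zero 2 hδ)
      rw [← mul_pow, hy', hy]
    refine ⟨m, y, c, ?_, hc, ?_⟩
    · rw [hyy, hf]; ring
    rw [← d7_id m c hc f hf]
    obtain ⟨P, hP⟩ : ∃ P, P = -(α ^ 2) ^ 3 + 6 * (α ^ 2) ^ 2 * β - 14 * (α ^ 2) ^ 2 * J -
      10 * α ^ 2 * β ^ 2 + 56 * α ^ 2 * β * J - 63 * α ^ 2 * J ^ 2 + 4 * β ^ 3 -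
      42 * β ^ 2 * J + 126 * β * J ^ 2 - 70 * J ^ 3 := ⟨_, rfl⟩
    have K1 : α * P = J ^ 4 := by rw [hP]; linear_combination hPP
    obtain ⟨R, hR⟩ : ∃ R, R = -f ^ 3 - 42 * f ^ 2 - 14 * f ^ 2 * c - 490 * f - 392 * f * c -
      63 * f * c ^ 2 - 1372 - 2058 * c - 882 * c ^ 2 - 70 * c ^ 3 := ⟨_, rfl⟩
    have K2 : P * c ^ 3 = J ^ 3 * R := by
      have e : P * c ^ 3 = -(α ^ 2 * c) ^ 3 + 6 * (α ^ 2 * c) ^ 2 * (β * c) -
        14 * (α ^ 2 * c) ^ 2 * (J * c) - 10 * (α ^ 2 * c) * (β * c) ^ 2 +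
        56 * (α ^ 2 * c) * (β * c) * (J * c) - 63 * (α ^ 2 * c) * (J * c) ^ 2 + 4 * (β * c) ^ 3 -
        42 * (β * c) ^ 2 * (J * c) + 126 * (β * c) * (J * c) ^ 2 - 70 * (J * c) ^ 3 := by
        rw [hP]; ring
      rw [e, J1, J2, hR]
      ring
    have K3 : f * R ^ 2 = J * c ^ 7 := by
      apply mul_left_cancel₀ (pow_ne_zero 7 hJ)
      have e : J ^ 7 * (f * R ^ 2) = (J * f) * (J ^ 3 * R) ^ 2 := by ring
      rw [e, ← J2, ← K2]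
      have e2 : α ^ 2 * c * (P * c ^ 3) ^ 2 = (α * P) ^ 2 * c ^ 7 := by ring
      rw [e2, K1]
      ring
    rw [← hR, K3]
    ring

end Pool.Agent.L9
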