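import Pool.Agent.M7.AlgE1

/-! # The parametrisation of `X(e7)` (helper9, after helper33) -/

set_option autoImplicit false

namespace Pool.Agent.L9

open Pool.Agent.M7

variable {F : Type*} [Field F] [CharZero F]

private lemma e7_id (τ c : F) (hc : c = τ ^ 3 - 7 * τ ^ 2 + 7 * τ + 7) (q : F)
    (hq : q = τ ^ 4 - 28 * τ ^ 2 + 42 * τ + 21) (g : F)
    (hg : g = 2 * τ ^ 4 - 14 * τ ^ 3 + 21 * τ ^ 2 + 28 * τ + 7) :
    784 * (τ - 3) * g * (63 * c ^ 2 + 56 * (τ - 3) * q - (28 * (τ - 3) + 14 * c) ^ 2 / 4 +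
      28 * g - q * (28 * (τ - 3) + 14 * c) + 2 * q ^ 2) ^ 2 + 1728 * c ^ 7 =
    64 * (τ * (τ ^ 2 + 7) * (τ ^ 2 - 7 * τ + 14) * (5 * τ ^ 2 - 14 * τ - 7)) ^ 3 := by
  subst hc hq hg
  ring

private lemma coreE_end' {J α ω v : F} (hJ : J ≠ 0) (hJ' : J ≠ -1728) (hA : α ^ 2 = -12 * J)
    (hω : ω = 3 * J)
    (h1 : v ^ 2 * (α ^ 2 + 4 * ω - 14 * J) = 2 * (α ^ 2 * ω ^ 2 + 70 * J ^ 3 -
      (α ^ 2 + 14 * J) / 2 * (63 * J ^ 2 + 2 * α ^ 2 * ω - ((α ^ 2 + 14 * J) / 2) ^ 2)))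
    (h3 : 2 * α * v * ((63 * J ^ 2 + 2 * α ^ 2 * ω - ((α ^ 2 + 14 * J) / 2) ^ 2 + v ^ 2) / 2 -
      ω * ((α ^ 2 + 14 * J) / 2 - ω)) = -J ^ 4) : False := by
  rw [hA, hω] at h1 h3
  have hV : v ^ 2 = 4 * J ^ 2 := by
    have h4 : (-14 * J) * v ^ 2 = (-14 * J) * (4 * J ^ 2) := by linear_combination h1
    exact mul_left_cancel₀ (mul_ne_zero (by norm_num) hJ) h4
  rw [hV] at h3
  have h5 : J ^ 2 * (6 * (α * v)) = J ^ 2 * (-J ^ 2) := by linear_combination h3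
  have h6 : 6 * (α * v) = -J ^ 2 := mul_left_cancel₀ (pow_ne_zero 2 hJ) h5
  have h7 : 36 * (α ^ 2 * v ^ 2) = J ^ 4 := by linear_combination (6 * (α * v) - J ^ 2) * h6
  rw [hA, hV] at h7
  have h8 : J ^ 3 * J = J ^ 3 * (-1728) := by linear_combination -h7
  exact hJ' (mul_left_cancel₀ (pow_ne_zero 3 hJ) h8)

/-- a point of `X(e7)` -/
theorem coreE' (φ : F →+* ℝ) (h7 : ∀ z : F, z ^ 2 ≠ 7) (h14 : ∀ z : F, z ^ 2 ≠ 14)
    {J α β γ δ β' γ' δ' : F} (hJ : J ≠ 0) (hJ' : J ≠ -1728)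
    (e6 : β + β' - α ^ 2 = 14 * J) (e5 : γ + γ' + α * β' - α * β = 0)
    (e4 : δ + δ' + α * γ' - α * γ + β * β' = 63 * J ^ 2)
    (e3 : α * δ' - α * δ + β * γ' + γ * β' = 0)
    (e2 : β * δ' + β' * δ + γ * γ' = 70 * J ^ 3)
    (e1 : γ * δ' + γ' * δ = -J ^ 4) (e0 : δ * δ' = -7 * J ^ 4) :
    ∃ τ y c : F, y ^ 2 = 7 * (2 * τ ^ 4 - 14 * τ ^ 3 + 21 * τ ^ 2 + 28 * τ + 7) ∧
      c = τ ^ 3 - 7 * τ ^ 2 + 7 * τ + 7 ∧
      (J + 1728) * c ^ 7 = 64 * (τ * (τ ^ 2 + 7) * (τ ^ 2 - 7 * τ + 14) *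
      (5 * τ ^ 2 - 14 * τ - 7)) ^ 3 := by
  obtain ⟨v, hv⟩ : ∃ v : F, v = (β - β') / 2 := ⟨_, rfl⟩
  obtain ⟨w, hw⟩ : ∃ w : F, w = (γ - γ') / 2 := ⟨_, rfl⟩
  obtain ⟨D, hD⟩ : ∃ D : F, D = (δ + δ') / 2 := ⟨_, rfl⟩
  obtain ⟨z, hz⟩ : ∃ z : F, z = (δ - δ') / 2 := ⟨_, rfl⟩
  obtain ⟨B, hB⟩ : ∃ B : F, B = (α ^ 2 + 14 * J) / 2 := ⟨_, rfl⟩
  have b1 : β = B + v := by
    rw [hB, hv]
    linear_combination (1 / 2) * e6
  have b2 : β' = B - v := by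
    rw [hB, hv]
    linear_combination (1 / 2) * e6
  have g1 : γ = α * v + w := by
    rw [hv, hw]
    linear_combination (1 / 2) * e5
  have g2 : γ' = α * v - w := by
    rw [hv, hw]
    linear_combination (1 / 2) * e5
  have d1 : δ = D + z := by
    rw [hD, hz]
    ring
  have d2 : δ' = D - z := by
    rw [hD, hz]
    ring
  clear hv hw hD hz
  subst b1 b2 g1 g2 d1 d2
  have f4 : 2 * D = 63 * J ^ 2 + 2 * α * w - B ^ 2 + v ^ 2 := by linear_combination e4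
  have f3 : -2 * α * z + 2 * α * v * B - 2 * v * w = 0 := by linear_combination e3
  have f2 : 2 * B * D - 2 * v * z + α ^ 2 * v ^ 2 - w ^ 2 = 70 * J ^ 3 := by linear_combination e2
  have f1 : 2 * α * v * D - 2 * w * z = -J ^ 4 := by linear_combination e1
  have f0 : D ^ 2 - z ^ 2 = -7 * J ^ 4 := by linear_combination e0
  clear e0 e1 e2 e3 e4 e5 e6
  have hJ4 : J ^ 4 ≠ 0 := pow_ne_zero 4 hJ
  by_cases hα : α = 0
  · exfalso
    subst hα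
    have i1 : 2 * w * z = J ^ 4 := by linear_combination -f1
    have hw0 : w ≠ 0 := by
      rintro rfl
      apply hJ4
      rw [← i1]
      ring
    have i2 : w * v = w * 0 := by linear_combination (-1 / 2) * f3
    have i3 : v = 0 := mul_left_cancel₀ hw0 i2
    subst i3
    have i4 : B = 7 * J := by
      rw [hB]
      ring
    subst i4
    have i5 : D = 7 * J ^ 2 := by linear_combination (1 / 2) * f4
    subst i5
    have i6 : z ^ 2 = 56 * J ^ 4 := by linear_combination -f0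
    apply h14 (z / (2 * J ^ 2))
    rw [div_pow, i6]
    field_simp
    ring
  · obtain ⟨ω, rfl⟩ : ∃ ω : F, w = α * ω := ⟨w / α, by field_simp⟩
    have i1 : z = v * (B - ω) := by
      have : (2 * α) * z = (2 * α) * (v * (B - ω)) := by linear_combination -f3
      exact mul_left_cancel₀ (mul_ne_zero two_ne_zero hα) this
    subst i1
    have i2 : D = (63 * J ^ 2 + 2 * α ^ 2 * ω - B ^ 2 + v ^ 2) / 2 := by
      linear_combination (1 / 2) * f4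
    subst i2
    subst hB
    have h1 : v ^ 2 * (α ^ 2 + 4 * ω - 14 * J) = 2 * (α ^ 2 * ω ^ 2 + 70 * J ^ 3 -
        (α ^ 2 + 14 * J) / 2 * (63 * J ^ 2 + 2 * α ^ 2 * ω - ((α ^ 2 + 14 * J) / 2) ^ 2)) := by
      linear_combination 2 * f2
    have h2 : ((63 * J ^ 2 + 2 * α ^ 2 * ω - ((α ^ 2 + 14 * J) / 2) ^ 2 + v ^ 2) / 2) ^ 2 -
        v ^ 2 * ((α ^ 2 + 14 * J) / 2 - ω) ^ 2 + 7 * J ^ 4 = 0 := by
      linear_combination f0
    have h3 : 2 * α * v * ((63 * J ^ 2 + 2 * α ^ 2 * ω - ((α ^ 2 + 14 * J) / 2) ^ 2 + v ^ 2) / 2 -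
        ω * ((α ^ 2 + 14 * J) / 2 - ω)) = -J ^ 4 := by
      linear_combination f1
    have hA : α ^ 2 ≠ 0 := pow_ne_zero 2 hα
    rcases algE_elim hA h1 h2 with h4 | h4
    · -- `F1 = 0`
      exfalso
      have k1 : (16 * ω - 3 * α ^ 2 - 84 * J) ^ 2 + 7 * (α ^ 2 + 12 * J) ^ 2 = 0 := by
        linear_combination 16 * h4
      have k2 : φ (16 * ω - 3 * α ^ 2 - 84 * J) ^ 2 + 7 * φ (α ^ 2 + 12 * J) ^ 2 = 0 := by
        have := congrArg φ k1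
        rw [map_add, map_pow, map_mul, map_pow, map_zero, map_ofNat] at this
        exact this
      have k3 : φ (α ^ 2 + 12 * J) ^ 2 = 0 := by
        nlinarith [sq_nonneg (φ (16 * ω - 3 * α ^ 2 - 84 * J)), sq_nonneg (φ (α ^ 2 + 12 * J))]
      have k4 : φ (16 * ω - 3 * α ^ 2 - 84 * J) ^ 2 = 0 := by
        rw [k3] at k2
        linarith
      have k5 : α ^ 2 + 12 * J = 0 := (map_eq_zero φ).mp (pow_eq_zero_iff two_ne_zero |>.mp k3)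
      have k6 : 16 * ω - 3 * α ^ 2 - 84 * J = 0 :=
        (map_eq_zero φ).mp (pow_eq_zero_iff two_ne_zero |>.mp k4)
      have k7 : α ^ 2 = -12 * J := by linear_combination k5
      have k8 : ω = 3 * J := by linear_combination (1 / 16) * k6 + (3 / 16) * k5
      exact coreE_end' hJ hJ' k7 k8 h1 h3
    · -- `Q4 = 0`
      obtain ⟨τ, c, hc, hc0, hAc, hωc, hVc⟩ := algE_tau φ h7 hA hJ h1 h2 h4
      obtain ⟨q, hq⟩ : ∃ q, q = τ ^ 4 - 28 * τ ^ 2 + 42 * τ + 21 := ⟨_, rfl⟩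
      obtain ⟨g, hg⟩ : ∃ g, g = 2 * τ ^ 4 - 14 * τ ^ 3 + 21 * τ ^ 2 + 28 * τ + 7 := ⟨_, rfl⟩
      rw [← hq] at hωc
      rw [← hg] at hVc
      refine ⟨τ, v * c / (2 * J), c, ?_, hc, ?_⟩
      · rw [div_pow, mul_pow, hVc, ← hg]
        field_simp
        ring
      obtain ⟨S, hS⟩ : ∃ S, S = 63 * c ^ 2 + 56 * (τ - 3) * q - (28 * (τ - 3) + 14 * c) ^ 2 / 4 +
        28 * g - q * (28 * (τ - 3) + 14 * c) + 2 * q ^ 2 := ⟨_, rfl⟩
      obtain ⟨X, hX⟩ : ∃ X, X = (63 * J ^ 2 + 2 * α ^ 2 * ω - ((α ^ 2 + 14 * J) / 2) ^ 2 +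
        v ^ 2) / 2 - ω * ((α ^ 2 + 14 * J) / 2 - ω) := ⟨_, rfl⟩
      rw [← hX] at h3
      have K1 : 2 * X * c ^ 2 = J ^ 2 * S := by
        have e : 2 * X * c ^ 2 = 63 * (J * c) ^ 2 + 2 * (α ^ 2 * c) * (ω * c) -
            (((α ^ 2 * c) + 14 * (J * c)) / 2) ^ 2 + v ^ 2 * c ^ 2 -
            2 * (ω * c) * (((α ^ 2 * c) + 14 * (J * c)) / 2 - ω * c) := by
          rw [hX]; ring
        rw [e, hAc, hωc, hVc, hS]
        ring
      have K2 : (α ^ 2 * c) * (v ^ 2 * c ^ 2) * (2 * X * c ^ 2) ^ 2 = J ^ 8 * c ^ 7 := by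
        have e : (α ^ 2 * c) * (v ^ 2 * c ^ 2) * (2 * X * c ^ 2) ^ 2 =
            (2 * α * v * X) ^ 2 * c ^ 7 := by ring
        rw [e, h3]
        ring
      rw [hAc, hVc, K1] at K2
      have K3 : 784 * (τ - 3) * g * S ^ 2 = J * c ^ 7 := by
        apply mul_left_cancel₀ (pow_ne_zero 7 hJ)
        linear_combination K2
      rw [← e7_id τ c hc q hq g hg, ← hS, K3]
      ring

end Pool.Agent.L9
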