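import Pool.Agent.L9.OutE

/-! # The curve `X(e7)`: removing the hypothesis that 7 is not a square (helper83, after helper33
and helper9) -/

set_option autoImplicit false

namespace Pool.Agent.L9

open Pool.Agent.M7

variable {F : Type*} [Field F] [CharZero F]

/-- the denominator does not vanish -/
lemma algE_den4 (φ : F →+* ℝ) {A w J : F} (hA : A ≠ 0) (hJ : J ≠ 0)
    (hne : ¬ (A = 2 * J ∧ w = 3 * J))
    (h3 : A ^ 4 - 2 * A ^ 3 * w - 36 * A ^ 2 * w ^ 2 + 8 * A * w ^ 3 + 14 * A ^ 3 * J +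
      280 * A ^ 2 * w * J - 168 * A * w ^ 2 * J - 560 * A ^ 2 * J ^ 2 + 784 * A * w * J ^ 2 -
      1008 * A * J ^ 3 - 224 * w * J ^ 3 + 672 * J ^ 4 = 0) :
    8 * J ^ 2 - 8 * A * J + 2 * A * w - A ^ 2 ≠ 0 := by
  intro hD
  have e1 : 64 * A * ((A - 2 * J) * (A ^ 2 + 3 * A * J + 4 * J ^ 2)) ^ 2 = 0 := by
    linear_combination (512 * A * J ^ 4 - 128 * A ^ 2 * J ^ 2 * w + 768 * A ^ 2 * J ^ 3 -
      544 * A ^ 3 * J * w + 1408 * A ^ 3 * J ^ 2 + 32 * A ^ 3 * w ^ 2 + 336 * A ^ 4 * J -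
      128 * A ^ 4 * w - 72 * A ^ 5) * hD - (8 * A ^ 3) * h3
  have e2 : (A - 2 * J) * (A ^ 2 + 3 * A * J + 4 * J ^ 2) = 0 := by
    rcases mul_eq_zero.mp e1 with h | h
    · rcases mul_eq_zero.mp h with h | h
      · norm_num at h
      · exact absurd h hA
    · exact (pow_eq_zero_iff two_ne_zero).mp h
  have e3 : A - 2 * J = 0 := (mul_eq_zero.mp e2).resolve_right (algE_def1 φ hJ)
  have e4 : A = 2 * J := sub_eq_zero.mp e3
  subst e4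
  have e5 : w = 3 * J := by
    have : (4 * J) * (w - 3 * J) = 0 := by linear_combination hD
    rcases mul_eq_zero.mp this with h | h
    · rcases mul_eq_zero.mp h with h | h
      · norm_num at h
      · exact absurd h hJ
    · exact sub_eq_zero.mp h
  exact hne ⟨rfl, e5⟩

/-- the two conditions in the case `Q4 = 0` -/
lemma algE_tau4 (φ : F →+* ℝ) {A w V J : F} (hA : A ≠ 0) (hJ : J ≠ 0)
    (h1 : V * (A + 4 * w - 14 * J) = 2 * (A * w ^ 2 + 70 * J ^ 3 -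
      (A + 14 * J) / 2 * (63 * J ^ 2 + 2 * A * w - ((A + 14 * J) / 2) ^ 2)))
    (h2 : ((63 * J ^ 2 + 2 * A * w - ((A + 14 * J) / 2) ^ 2 + V) / 2) ^ 2 -
      V * ((A + 14 * J) / 2 - w) ^ 2 + 7 * J ^ 4 = 0)
    (h3 : A ^ 4 - 2 * A ^ 3 * w - 36 * A ^ 2 * w ^ 2 + 8 * A * w ^ 3 + 14 * A ^ 3 * J +
      280 * A ^ 2 * w * J - 168 * A * w ^ 2 * J - 560 * A ^ 2 * J ^ 2 + 784 * A * w * J ^ 2 -
      1008 * A * J ^ 3 - 224 * w * J ^ 3 + 672 * J ^ 4 = 0) :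
    ∃ τ c : F, c = τ ^ 3 - 7 * τ ^ 2 + 7 * τ + 7 ∧ c ≠ 0 ∧ A * c = 28 * (τ - 3) * J ∧
      w * c = (τ ^ 4 - 28 * τ ^ 2 + 42 * τ + 21) * J ∧
      V * c ^ 2 = 28 * (2 * τ ^ 4 - 14 * τ ^ 3 + 21 * τ ^ 2 + 28 * τ + 7) * J ^ 2 := by
  by_cases hne : A = 2 * J ∧ w = 3 * J
  · obtain ⟨rfl, rfl⟩ := hne
    obtain ⟨τ, hτ⟩ : ∃ τ, τ = (V - 39 * J ^ 2) / (14 * J ^ 2) := ⟨_, rfl⟩
    have hJ2 : (14 * J ^ 2) ≠ 0 := mul_ne_zero (by norm_num) (pow_ne_zero 2 hJ)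
    have hV : V = (39 + 14 * τ) * J ^ 2 := by
      have : τ * (14 * J ^ 2) = V - 39 * J ^ 2 := by rw [hτ]; field_simp
      linear_combination -this
    have h7 : τ ^ 2 = 7 := by
      have h4 : (14 * J ^ 2) ^ 2 * τ ^ 2 = (14 * J ^ 2) ^ 2 * 7 := by
        rw [hV] at h2
        linear_combination 4 * h2
      exact mul_left_cancel₀ (pow_ne_zero 2 hJ2) h4
    have hc : τ ^ 3 - 7 * τ ^ 2 + 7 * τ + 7 = 14 * (τ - 3) := by
      linear_combination (τ - 7) * h7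
    refine ⟨τ, τ ^ 3 - 7 * τ ^ 2 + 7 * τ + 7, rfl, ?_, ?_, ?_, ?_⟩
    · rw [hc]
      refine mul_ne_zero (by norm_num) ?_
      intro h
      have h5 : τ = 3 := sub_eq_zero.mp h
      rw [h5] at h7
      norm_num at h7
    · rw [hc]; ring
    · rw [hc]
      linear_combination -J * (τ ^ 2 - 21) * h7
    · rw [hc, hV]
      linear_combination J ^ 2 * (2744 * τ - 8820 - 28 * (2 * τ ^ 2 - 14 * τ + 35)) * h7
  have hD := algE_den4 φ hA hJ hne h3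
  obtain ⟨D, hDe⟩ : ∃ D, D = 8 * J ^ 2 - 8 * A * J + 2 * A * w - A ^ 2 := ⟨_, rfl⟩
  obtain ⟨N, hNe⟩ : ∃ N, N = 8 * w * J - 40 * A * J + 10 * A * w - A ^ 2 := ⟨_, rfl⟩
  rw [← hDe] at hD
  obtain ⟨τ, hτ⟩ : ∃ τ, τ = N / D := ⟨_, rfl⟩
  have hN : N = τ * D := by rw [hτ]; field_simp
  have i1 : A * (N ^ 3 - 7 * N ^ 2 * D + 7 * N * D ^ 2 + 7 * D ^ 3) -
      28 * J * (N - 3 * D) * D ^ 2 = 0 := by
    have e : A * (N ^ 3 - 7 * N ^ 2 * D + 7 * N * D ^ 2 + 7 * D ^ 3) -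
      28 * J * (N - 3 * D) * D ^ 2 = (-8 * A ^ 3 - 8 * A ^ 2 * J + 16 * A * J ^ 2 + 64 * J ^ 3) *
      (A ^ 4 - 2 * A ^ 3 * w - 36 * A ^ 2 * w ^ 2 + 8 * A * w ^ 3 + 14 * A ^ 3 * J +
      280 * A ^ 2 * w * J - 168 * A * w ^ 2 * J - 560 * A ^ 2 * J ^ 2 + 784 * A * w * J ^ 2 -
      1008 * A * J ^ 3 - 224 * w * J ^ 3 + 672 * J ^ 4) := by
      rw [hNe, hDe]; ring
    rw [e, h3, mul_zero]
  have i2 : w * (N ^ 3 - 7 * N ^ 2 * D + 7 * N * D ^ 2 + 7 * D ^ 3) * D -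
      J * (N ^ 4 - 28 * N ^ 2 * D ^ 2 + 42 * N * D ^ 3 + 21 * D ^ 4) = 0 := by
    have e : w * (N ^ 3 - 7 * N ^ 2 * D + 7 * N * D ^ 2 + 7 * D ^ 3) * D -
      J * (N ^ 4 - 28 * N ^ 2 * D ^ 2 + 42 * N * D ^ 3 + 21 * D ^ 4) =
      (8 * A ^ 4 * w - 36 * A ^ 4 * J - 16 * A ^ 3 * w ^ 2 + 152 * A ^ 3 * w * J -
      328 * A ^ 3 * J ^ 2 + 96 * A ^ 2 * w ^ 2 * J - 880 * A ^ 2 * w * J ^ 2 +
      2048 * A ^ 2 * J ^ 3 + 256 * A * w ^ 2 * J ^ 2 - 1472 * A * w * J ^ 3 + 1600 * A * J ^ 4 +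
      128 * w ^ 2 * J ^ 3 - 256 * w * J ^ 4 - 128 * J ^ 5) *
      (A ^ 4 - 2 * A ^ 3 * w - 36 * A ^ 2 * w ^ 2 + 8 * A * w ^ 3 + 14 * A ^ 3 * J +
      280 * A ^ 2 * w * J - 168 * A * w ^ 2 * J - 560 * A ^ 2 * J ^ 2 + 784 * A * w * J ^ 2 -
      1008 * A * J ^ 3 - 224 * w * J ^ 3 + 672 * J ^ 4) := by
      rw [hNe, hDe]; ring
    rw [e, h3, mul_zero]
  rw [hN] at i1 i2
  have hAc : A * (τ ^ 3 - 7 * τ ^ 2 + 7 * τ + 7) = 28 * (τ - 3) * J := by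
    apply mul_right_cancel₀ (pow_ne_zero 3 hD)
    linear_combination i1
  have hwc : w * (τ ^ 3 - 7 * τ ^ 2 + 7 * τ + 7) = (τ ^ 4 - 28 * τ ^ 2 + 42 * τ + 21) * J := by
    apply mul_right_cancel₀ (pow_ne_zero 4 hD)
    linear_combination i2
  obtain ⟨c, hc⟩ : ∃ c, c = τ ^ 3 - 7 * τ ^ 2 + 7 * τ + 7 := ⟨_, rfl⟩
  rw [← hc] at hAc hwc
  have hc0 : c ≠ 0 := by
    intro h0
    rw [h0, mul_zero] at hAc
    have h4 : τ - 3 = 0 := by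
      rcases mul_eq_zero.mp hAc.symm with h | h
      · rcases mul_eq_zero.mp h with h | h
        · norm_num at h
        · exact h
      · exact absurd h hJ
    have h5 : τ = 3 := sub_eq_zero.mp h4
    rw [h5, h0] at hc
    norm_num at hc
  refine ⟨τ, c, hc, hc0, hAc, hwc, ?_⟩
  have hL : c * (A + 4 * w - 14 * J) = 2 * (2 * τ ^ 2 - 7 * τ + 7) * (τ ^ 2 - 7) * J := by
    have e : c * (A + 4 * w - 14 * J) = A * c + 4 * (w * c) - 14 * c * J := by ring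
    rw [e, hAc, hwc, hc]
    ring
  have hL0 : c * (A + 4 * w - 14 * J) ≠ 0 := by
    rw [hL]
    refine mul_ne_zero (mul_ne_zero (mul_ne_zero two_ne_zero (algE_def2 φ τ)) ?_) hJ
    intro h
    have h7 : τ ^ 2 = 7 := sub_eq_zero.mp h
    have hc' : c = 14 * (τ - 3) := by rw [hc]; linear_combination (τ - 7) * h7
    have h3' : (14 : F) * (τ - 3) ≠ 0 := by rw [← hc']; exact hc0
    apply hne
    constructor
    · apply mul_right_cancel₀ h3'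
      rw [hc'] at hAc
      linear_combination hAc
    · apply mul_right_cancel₀ h3'
      rw [hc'] at hwc
      linear_combination hwc + J * (τ ^ 2 - 21) * h7
  apply mul_right_cancel₀ hL0
  have e1 : V * c ^ 2 * (c * (A + 4 * w - 14 * J)) = 2 * ((A * c) * (w * c) ^ 2 + 70 * (J * c) ^ 3 -
      ((A * c) + 14 * (J * c)) / 2 * (63 * (J * c) ^ 2 + 2 * (A * c) * (w * c) -
        (((A * c) + 14 * (J * c)) / 2) ^ 2)) := by
    linear_combination c ^ 3 * h1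
  rw [e1, hL, hAc, hwc, hc]
  ring

private lemma e7_id (τ c : F) (hc : c = τ ^ 3 - 7 * τ ^ 2 + 7 * τ + 7) (q : F)
    (hq : q = τ ^ 4 - 28 * τ ^ 2 + 42 * τ + 21) (g : F)
    (hg : g = 2 * τ ^ 4 - 14 * τ ^ 3 + 21 * τ ^ 2 + 28 * τ + 7) :
    784 * (τ - 3) * g * (63 * c ^ 2 + 56 * (τ - 3) * q - (28 * (τ - 3) + 14 * c) ^ 2 / 4 +
      28 * g - q * (28 * (τ - 3) + 14 * c) + 2 * q ^ 2) ^ 2 + 1728 * c ^ 7 =
    64 * (τ * (τ ^ 2 + 7) * (τ ^ 2 - 7 * τ + 14) * (5 * τ ^ 2 - 14 * τ - 7)) ^ 3 := by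
  subst hc hq hg
  ring

private lemma coreE_end' {J α ω v : F} (hJ : J ≠ 0) (hJ' : J ≠ -1728) (hA : α ^ 2 = -12 * J)
    (hω : ω = 3 * J)
    (h1 : v ^ 2 * (α ^ 2 + 4 * ω - 14 * J) = 2 * (α ^ 2 * ω ^ 2 + 70 * J ^ 3 -
      (α ^ 2 + 14 * J) / 2 * (63 * J ^ 2 + 2 * α ^ 2 * ω - ((α ^ 2 + 14 * J) / 2) ^ 2)))
    (h3 : 2 * α * v * ((63 * J ^ 2 + 2 * α ^ 2 * ω - ((α ^ 2 + 14 * J) / 2) ^ 2 + v ^ 2) / 2 -
      ω * ((α ^ 2 + 14 * J) / 2 - ω)) = -J ^ 4) : False := by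
  rw [hA, hω] at h1 h3
  have hV : v ^ 2 = 4 * J ^ 2 := by
    have h4 : (-14 * J) * v ^ 2 = (-14 * J) * (4 * J ^ 2) := by linear_combination h1
    exact mul_left_cancel₀ (mul_ne_zero (by norm_num) hJ) h4
  rw [hV] at h3
  have h5 : J ^ 2 * (6 * (α * v)) = J ^ 2 * (-J ^ 2) := by linear_combination h3
  have h6 : 6 * (α * v) = -J ^ 2 := mul_left_cancel₀ (pow_ne_zero 2 hJ) h5
  have h7 : 36 * (α ^ 2 * v ^ 2) = J ^ 4 := by linear_combination (6 * (α * v) - J ^ 2) * h6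
  rw [hA, hV] at h7
  have h8 : J ^ 3 * J = J ^ 3 * (-1728) := by linear_combination -h7
  exact hJ' (mul_left_cancel₀ (pow_ne_zero 3 hJ) h8)

/-- a point of `X(e7)` -/
theorem coreE4 (φ : F →+* ℝ) (h14 : ∀ z : F, z ^ 2 ≠ 14)
    {J α β γ δ β' γ' δ' : F} (hJ : J ≠ 0) (hJ' : J ≠ -1728)
    (e6 : β + β' - α ^ 2 = 14 * J) (e5 : γ + γ' + α * β' - α * β = 0)
    (e4 : δ + δ' + α * γ' - α * γ + β * β' = 63 * J ^ 2)
    (e3 : α * δ' - α * δ + β * γ' + γ * β' = 0)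
    (e2 : β * δ' + β' * δ + γ * γ' = 70 * J ^ 3)
    (e1 : γ * δ' + γ' * δ = -J ^ 4) (e0 : δ * δ' = -7 * J ^ 4) :
    ∃ τ y c : F, y ^ 2 = 7 * (2 * τ ^ 4 - 14 * τ ^ 3 + 21 * τ ^ 2 + 28 * τ + 7) ∧
      c = τ ^ 3 - 7 * τ ^ 2 + 7 * τ + 7 ∧
      (J + 1728) * c ^ 7 = 64 * (τ * (τ ^ 2 + 7) * (τ ^ 2 - 7 * τ + 14) *
      (5 * τ ^ 2 - 14 * τ - 7)) ^ 3 := by
  obtain ⟨v, hv⟩ : ∃ v : F, v = (β - β') / 2 := ⟨_, rfl⟩
  obtain ⟨w, hw⟩ : ∃ w : F, w = (γ - γ') / 2 := ⟨_, rfl⟩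
  obtain ⟨D, hD⟩ : ∃ D : F, D = (δ + δ') / 2 := ⟨_, rfl⟩
  obtain ⟨z, hz⟩ : ∃ z : F, z = (δ - δ') / 2 := ⟨_, rfl⟩
  obtain ⟨B, hB⟩ : ∃ B : F, B = (α ^ 2 + 14 * J) / 2 := ⟨_, rfl⟩
  have b1 : β = B + v := by
    rw [hB, hv]
    linear_combination (1 / 2) * e6
  have b2 : β' = B - v := by
    rw [hB, hv]
    linear_combination (1 / 2) * e6
  have g1 : γ = α * v + w := by
    rw [hv, hw]
    linear_combination (1 / 2) * e5
  have g2 : γ' = α * v - w := by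
    rw [hv, hw]
    linear_combination (1 / 2) * e5
  have d1 : δ = D + z := by
    rw [hD, hz]
    ring
  have d2 : δ' = D - z := by
    rw [hD, hz]
    ring
  clear hv hw hD hz
  subst b1 b2 g1 g2 d1 d2
  have f4 : 2 * D = 63 * J ^ 2 + 2 * α * w - B ^ 2 + v ^ 2 := by linear_combination e4
  have f3 : -2 * α * z + 2 * α * v * B - 2 * v * w = 0 := by linear_combination e3
  have f2 : 2 * B * D - 2 * v * z + α ^ 2 * v ^ 2 - w ^ 2 = 70 * J ^ 3 := by linear_combination e2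
  have f1 : 2 * α * v * D - 2 * w * z = -J ^ 4 := by linear_combination e1
  have f0 : D ^ 2 - z ^ 2 = -7 * J ^ 4 := by linear_combination e0
  clear e0 e1 e2 e3 e4 e5 e6
  have hJ4 : J ^ 4 ≠ 0 := pow_ne_zero 4 hJ
  by_cases hα : α = 0
  · exfalso
    subst hα
    have i1 : 2 * w * z = J ^ 4 := by linear_combination -f1
    have hw0 : w ≠ 0 := by
      rintro rfl
      apply hJ4
      rw [← i1]
      ring
    have i2 : w * v = w * 0 := by linear_combination (-1 / 2) * f3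
    have i3 : v = 0 := mul_left_cancel₀ hw0 i2
    subst i3
    have i4 : B = 7 * J := by
      rw [hB]
      ring
    subst i4
    have i5 : D = 7 * J ^ 2 := by linear_combination (1 / 2) * f4
    subst i5
    have i6 : z ^ 2 = 56 * J ^ 4 := by linear_combination -f0
    apply h14 (z / (2 * J ^ 2))
    rw [div_pow, i6]
    field_simp
    ring
  · obtain ⟨ω, rfl⟩ : ∃ ω : F, w = α * ω := ⟨w / α, by field_simp⟩
    have i1 : z = v * (B - ω) := by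
      have : (2 * α) * z = (2 * α) * (v * (B - ω)) := by linear_combination -f3
      exact mul_left_cancel₀ (mul_ne_zero two_ne_zero hα) this
    subst i1
    have i2 : D = (63 * J ^ 2 + 2 * α ^ 2 * ω - B ^ 2 + v ^ 2) / 2 := by
      linear_combination (1 / 2) * f4
    subst i2
    subst hB
    have h1 : v ^ 2 * (α ^ 2 + 4 * ω - 14 * J) = 2 * (α ^ 2 * ω ^ 2 + 70 * J ^ 3 -
        (α ^ 2 + 14 * J) / 2 * (63 * J ^ 2 + 2 * α ^ 2 * ω - ((α ^ 2 + 14 * J) / 2) ^ 2)) := by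
      linear_combination 2 * f2
    have h2 : ((63 * J ^ 2 + 2 * α ^ 2 * ω - ((α ^ 2 + 14 * J) / 2) ^ 2 + v ^ 2) / 2) ^ 2 -
        v ^ 2 * ((α ^ 2 + 14 * J) / 2 - ω) ^ 2 + 7 * J ^ 4 = 0 := by
      linear_combination f0
    have h3 : 2 * α * v * ((63 * J ^ 2 + 2 * α ^ 2 * ω - ((α ^ 2 + 14 * J) / 2) ^ 2 + v ^ 2) / 2 -
        ω * ((α ^ 2 + 14 * J) / 2 - ω)) = -J ^ 4 := by
      linear_combination f1
    have hA : α ^ 2 ≠ 0 := pow_ne_zero 2 hα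
    rcases algE_elim hA h1 h2 with h4 | h4
    · -- `F1 = 0`
      exfalso
      have k1 : (16 * ω - 3 * α ^ 2 - 84 * J) ^ 2 + 7 * (α ^ 2 + 12 * J) ^ 2 = 0 := by
        linear_combination 16 * h4
      have k2 : φ (16 * ω - 3 * α ^ 2 - 84 * J) ^ 2 + 7 * φ (α ^ 2 + 12 * J) ^ 2 = 0 := by
        have := congrArg φ k1
        rw [map_add, map_pow, map_mul, map_pow, map_zero, map_ofNat] at this
        exact this
      have k3 : φ (α ^ 2 + 12 * J) ^ 2 = 0 := by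
        nlinarith [sq_nonneg (φ (16 * ω - 3 * α ^ 2 - 84 * J)), sq_nonneg (φ (α ^ 2 + 12 * J))]
      have k4 : φ (16 * ω - 3 * α ^ 2 - 84 * J) ^ 2 = 0 := by
        rw [k3] at k2
        linarith
      have k5 : α ^ 2 + 12 * J = 0 := (map_eq_zero φ).mp (pow_eq_zero_iff two_ne_zero |>.mp k3)
      have k6 : 16 * ω - 3 * α ^ 2 - 84 * J = 0 :=
        (map_eq_zero φ).mp (pow_eq_zero_iff two_ne_zero |>.mp k4)
      have k7 : α ^ 2 = -12 * J := by linear_combination k5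
      have k8 : ω = 3 * J := by linear_combination (1 / 16) * k6 + (3 / 16) * k5
      exact coreE_end' hJ hJ' k7 k8 h1 h3
    · -- `Q4 = 0`
      obtain ⟨τ, c, hc, hc0, hAc, hωc, hVc⟩ := algE_tau4 φ hA hJ h1 h2 h4
      obtain ⟨q, hq⟩ : ∃ q, q = τ ^ 4 - 28 * τ ^ 2 + 42 * τ + 21 := ⟨_, rfl⟩
      obtain ⟨g, hg⟩ : ∃ g, g = 2 * τ ^ 4 - 14 * τ ^ 3 + 21 * τ ^ 2 + 28 * τ + 7 := ⟨_, rfl⟩
      rw [← hq] at hωc
      rw [← hg] at hVc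
      refine ⟨τ, v * c / (2 * J), c, ?_, hc, ?_⟩
      · rw [div_pow, mul_pow, hVc, ← hg]
        field_simp
        ring
      obtain ⟨S, hS⟩ : ∃ S, S = 63 * c ^ 2 + 56 * (τ - 3) * q - (28 * (τ - 3) + 14 * c) ^ 2 / 4 +
        28 * g - q * (28 * (τ - 3) + 14 * c) + 2 * q ^ 2 := ⟨_, rfl⟩
      obtain ⟨X, hX⟩ : ∃ X, X = (63 * J ^ 2 + 2 * α ^ 2 * ω - ((α ^ 2 + 14 * J) / 2) ^ 2 +
        v ^ 2) / 2 - ω * ((α ^ 2 + 14 * J) / 2 - ω) := ⟨_, rfl⟩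
      rw [← hX] at h3
      have K1 : 2 * X * c ^ 2 = J ^ 2 * S := by
        have e : 2 * X * c ^ 2 = 63 * (J * c) ^ 2 + 2 * (α ^ 2 * c) * (ω * c) -
            (((α ^ 2 * c) + 14 * (J * c)) / 2) ^ 2 + v ^ 2 * c ^ 2 -
            2 * (ω * c) * (((α ^ 2 * c) + 14 * (J * c)) / 2 - ω * c) := by
          rw [hX]; ring
        rw [e, hAc, hωc, hVc, hS]
        ring
      have K2 : (α ^ 2 * c) * (v ^ 2 * c ^ 2) * (2 * X * c ^ 2) ^ 2 = J ^ 8 * c ^ 7 := by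
        have e : (α ^ 2 * c) * (v ^ 2 * c ^ 2) * (2 * X * c ^ 2) ^ 2 =
            (2 * α * v * X) ^ 2 * c ^ 7 := by ring
        rw [e, h3]
        ring
      rw [hAc, hVc, K1] at K2
      have K3 : 784 * (τ - 3) * g * S ^ 2 = J * c ^ 7 := by
        apply mul_left_cancel₀ (pow_ne_zero 7 hJ)
        linear_combination K2
      rw [← e7_id τ c hc q hq g hg, ← hS, K3]
      ring

end Pool.Agent.L9
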