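import Pool.Agent.L9.AlgE
import Pool.Agent.M7.FrameDef

/-! # From the third outcome to the curve `X(e7)` (helper9, after helper33) -/

namespace Pool.Agent.L9

open Pool.Agent.M7

open Polynomial in
private lemma quartic_of {F K : Type*} [Field F] [Field K] [DecidableEq K] [Algebra F K]
    [IsGalois F K] {S : Finset K} (hS : S.card = 4) (h : ∀ σ : K ≃ₐ[F] K, S.image σ = S) :
    ∃ a3 a2 a1 a0 : F, ∀ x ∈ S, x ^ 4 + algebraMap F K a3 * x ^ 3 + algebraMap F K a2 * x ^ 2 +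
      algebraMap F K a1 * x + algebraMap F K a0 = 0 := by
  set P : K[X] := ∏ s ∈ S, (X - C s) with hP
  have hmon : P.Monic := monic_prod_of_monic _ _ (fun s _ => monic_X_sub_C s)
  have hdeg : P.natDegree = 4 := by
    rw [hP, natDegree_prod_of_monic _ _ (fun s _ => monic_X_sub_C s)]
    simp [hS]
  have hfix : ∀ (σ : K ≃ₐ[F] K) (i : ℕ), σ (P.coeff i) = P.coeff i := by
    intro σ i
    have h1 : P.map (σ : K →+* K) = P := by
      rw [hP, Polynomial.map_prod]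
      conv_rhs => rw [← h σ, Finset.prod_image (fun x _ y _ hxy => σ.injective hxy)]
      apply Finset.prod_congr rfl
      intro s _
      simp
    conv_rhs => rw [← h1, coeff_map]
    rfl
  have hex : ∀ i : ℕ, ∃ a : F, algebraMap F K a = P.coeff i := fun i =>
    (InfiniteGalois.mem_range_algebraMap_iff_fixed _).mpr (fun σ => hfix σ i)
  obtain ⟨a3, h3⟩ := hex 3
  obtain ⟨a2, h2⟩ := hex 2
  obtain ⟨a1, h1⟩ := hex 1
  obtain ⟨a0, h0⟩ := hex 0
  refine ⟨a3, a2, a1, a0, ?_⟩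
  intro x hx
  have he : P.eval x = 0 := by
    rw [hP, eval_prod]
    exact Finset.prod_eq_zero hx (by simp)
  rw [eval_eq_sum_range' (n := 5) (by omega)] at he
  simp only [Finset.sum_range_succ, Finset.sum_range_zero] at he
  have h4 : P.coeff 4 = 1 := by
    rw [← hdeg]
    exact hmon.coeff_natDegree
  rw [h4] at he
  rw [h3, h2, h1, h0]
  linear_combination he

open Polynomial in
private lemma oct_coeffs {K : Type*} [Field K] {S : Finset K} (hS : S.card = 8)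
    {c7 c6 c5 c4 c3 c2 c1 c0 : K} (h : ∀ x ∈ S, c7 * x ^ 7 + c6 * x ^ 6 + c5 * x ^ 5 + c4 * x ^ 4 +
      c3 * x ^ 3 + c2 * x ^ 2 + c1 * x + c0 = 0) :
    c7 = 0 ∧ c6 = 0 ∧ c5 = 0 ∧ c4 = 0 ∧ c3 = 0 ∧ c2 = 0 ∧ c1 = 0 ∧ c0 = 0 := by
  set f : K[X] := C c7 * X ^ 7 + C c6 * X ^ 6 + C c5 * X ^ 5 + C c4 * X ^ 4 +
      C c3 * X ^ 3 + C c2 * X ^ 2 + C c1 * X + C c0 with hf
  have hdeg : f.degree ≤ 7 := by
    rw [hf]
    compute_degree
  have hlt : f.degree < S.card := by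
    rw [hS]
    exact lt_of_le_of_lt hdeg (by norm_num)
  have hz : f = 0 := by
    apply eq_zero_of_degree_lt_of_eval_finset_eq_zero S hlt
    intro x hx
    rw [hf]
    simp only [eval_add, eval_mul, eval_C, eval_pow, eval_X]
    exact h x hx
  have hc : ∀ i : ℕ, f.coeff i = 0 := fun i => by rw [hz, coeff_zero]
  have k : ∀ i : ℕ, f.coeff i = (if i = 7 then c7 else 0) + (if i = 6 then c6 else 0) +
      (if i = 5 then c5 else 0) + (if i = 4 then c4 else 0) + (if i = 3 then c3 else 0) +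
      (if i = 2 then c2 else 0) + (if i = 1 then c1 else 0) + (if i = 0 then c0 else 0) := by
    intro i
    rw [hf, show (C c1 * X : K[X]) = C c1 * X ^ 1 by rw [pow_one], coeff_add, coeff_add, coeff_add,
      coeff_add, coeff_add, coeff_add, coeff_add, coeff_C_mul_X_pow, coeff_C_mul_X_pow,
      coeff_C_mul_X_pow, coeff_C_mul_X_pow, coeff_C_mul_X_pow, coeff_C_mul_X_pow,
      coeff_C_mul_X_pow, coeff_C]
  refine ⟨?_, ?_, ?_, ?_, ?_, ?_, ?_, ?_⟩
  · simpa [k] using hc 7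
  · simpa [k] using hc 6
  · simpa [k] using hc 5
  · simpa [k] using hc 4
  · simpa [k] using hc 3
  · simpa [k] using hc 2
  · simpa [k] using hc 1
  · simpa [k] using hc 0

theorem outE' {F K : Type*} [Field F] [CharZero F] [Field K] [DecidableEq K] [Algebra F K]
    [IsGalois F K] (φ : F →+* ℝ) (h7 : ∀ z : F, z ^ 2 ≠ 7)
    (h14 : ∀ z : F, z ^ 2 ≠ 14) {J : F} (hJ : J ≠ 0) (hJ' : J ≠ -1728) {S T : Finset K}
    (hS : S.card = 4) (hT : T.card = 4) (hST : Disjoint S T)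
    (hxS : ∀ x ∈ S, G8 (algebraMap F K J) x = 0) (hxT : ∀ x ∈ T, G8 (algebraMap F K J) x = 0)
    (h : ∀ σ : K ≃ₐ[F] K, S.image σ = S ∧ T.image σ = T) :
    ∃ τ y c : F, y ^ 2 = 7 * (2 * τ ^ 4 - 14 * τ ^ 3 + 21 * τ ^ 2 + 28 * τ + 7) ∧
      c = τ ^ 3 - 7 * τ ^ 2 + 7 * τ + 7 ∧
      (J + 1728) * c ^ 7 = 64 * (τ * (τ ^ 2 + 7) * (τ ^ 2 - 7 * τ + 14) *
      (5 * τ ^ 2 - 14 * τ - 7)) ^ 3 := by
  obtain ⟨a3, a2, a1, a0, ha⟩ := quartic_of hS (fun σ => (h σ).1)
  obtain ⟨b3, b2, b1, b0, hb⟩ := quartic_of hT (fun σ => (h σ).2)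
  have hcard : (S ∪ T).card = 8 := by
    rw [Finset.card_union_of_disjoint hST, hS, hT]
  set r := algebraMap F K with hr
  have hrinj : ∀ x : F, r x = 0 → x = 0 := fun x hx => (map_eq_zero r).mp hx
  have key := oct_coeffs hcard (c7 := r (-(a3 + b3))) (c6 := r (14 * J - (a2 + b2 + a3 * b3)))
    (c5 := r (-(a1 + b1 + a3 * b2 + a2 * b3)))
    (c4 := r (63 * J ^ 2 - (a0 + b0 + a3 * b1 + a1 * b3 + a2 * b2)))
    (c3 := r (-(a3 * b0 + a0 * b3 + a2 * b1 + a1 * b2)))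
    (c2 := r (70 * J ^ 3 - (a2 * b0 + a0 * b2 + a1 * b1)))
    (c1 := r (-J ^ 4 - (a1 * b0 + a0 * b1))) (c0 := r (-7 * J ^ 4 - a0 * b0)) (by
      intro x hx
      have hG : G8 (r J) x = 0 := by
        rcases Finset.mem_union.mp hx with h1 | h1
        · exact hxS x h1
        · exact hxT x h1
      have hP : (x ^ 4 + r a3 * x ^ 3 + r a2 * x ^ 2 + r a1 * x + r a0) *
          (x ^ 4 + r b3 * x ^ 3 + r b2 * x ^ 2 + r b1 * x + r b0) = 0 := by
        rcases Finset.mem_union.mp hx with h1 | h1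
        · rw [ha x h1, zero_mul]
        · rw [hb x h1, mul_zero]
      unfold G8 at hG
      simp only [map_neg, map_add, map_sub, map_mul, map_pow, map_ofNat]
      linear_combination hG - hP)
  obtain ⟨k7, k6, k5, k4, k3, k2, k1, k0⟩ := key
  have e7 := hrinj _ k7
  have hb3 : b3 = -a3 := by linear_combination -e7
  subst hb3
  refine coreE' φ h7 h14 hJ hJ' (α := a3) (β := a2) (γ := a1) (δ := a0) (β' := b2) (γ' := b1)
    (δ' := b0) ?_ ?_ ?_ ?_ ?_ ?_ ?_
  · linear_combination -hrinj _ k6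
  · linear_combination -hrinj _ k5
  · linear_combination -hrinj _ k4
  · linear_combination -hrinj _ k3
  · linear_combination -hrinj _ k2
  · linear_combination -hrinj _ k1
  · linear_combination -hrinj _ k0

end Pool.Agent.L9
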