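import Pool.Agent.L9.OutD
import Pool.Agent.L9.OutE
import Pool.Agent.M7.Mat7
import Pool.Agent.M7.Frame7
import Pool.Agent.M7.Red7
import Pool.Agent.M7.Stab7
import Pool.Agent.M7.Pts7c
import Pool.Agent.M7.Three
import Pool.Agent.H23T.ModGen

/-! # Elliptic curves and the curves `X₀(3)`, `X(s3)`, `X₀(5)`, `X₀(7)`, `X(d7)`, `X(e7)` (helper9) -/

set_option autoImplicit false

namespace Pool.Agent.L9

open WeierstrassCurve WeierstrassCurve.Affine Pool.Agent.H42M Pool.Agent.M7 Pool.Agent.H23T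

section general

variable {F K : Type*} [Field F] [CharZero F] [Field K] [CharZero K] [IsAlgClosed K]
  [DecidableEq K] [Algebra F K] [IsGalois F K]

lemma jrel' (W : WeierstrassCurve F) [W.IsElliptic] : JRel (-27 * W.c₄) (-54 * W.c₆) W.j := by
  refine ⟨disc_ne_zero W, ?_⟩
  have hrel := W.c_relation
  have hj : W.j * W.Δ = W.c₄ ^ 3 := j_mul_disc W
  linear_combination (78732 * W.j) * hrel - 136048896 * hj

lemma jrel_map {A B j : F} (h : JRel A B j) :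
    JRel (algebraMap F K A) (algebraMap F K B) (algebraMap F K j) := by
  obtain ⟨h1, h2⟩ := h
  refine ⟨fun h3 => h1 ?_, ?_⟩
  · apply (algebraMap F K).injective
    simpa only [map_add, map_mul, map_pow, map_ofNat, map_zero] using h3
  · have := congrArg (algebraMap F K) h2
    simpa only [map_add, map_mul, map_pow, map_ofNat] using this

/-- the Galois group of `F(ζ₇)` does not act absolutely irreducibly on `E[7]`: a stable subgroup of
order 7, or a point of `X(d7)` or `X(e7)` -/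
theorem seven_cases (φ : F →+* ℝ) (h7 : ∀ z : F, z ^ 2 ≠ 7)
    (h14 : ∀ z : F, z ^ 2 ≠ 14) (c : K ≃ₐ[F] K) (hcc : ∀ z, c (c z) = z)
    (hc7 : ∀ z : K, z ^ 2 = -7 → c z = -z) (W : WeierstrassCurve F) [W.IsElliptic]
    (h0 : W.j ≠ 0) (h1 : W.j ≠ 1728)
    (hirr : (∃ C : AddSubgroup (WeierstrassCurve.Affine.baseChange W K).Point, Nat.card C = 7 ∧
        ∀ σ : K ≃ₐ[F] K, Z7 σ → C.map (act W σ) = C) ∨
      ∀ σ τ : K ≃ₐ[F] K, Z7 σ → Z7 τ →
        ∀ R : (WeierstrassCurve.Affine.baseChange W K).Point, (7 : ℤ) • R = 0 →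
          act W σ (act W τ R) = act W τ (act W σ R)) :
    (∃ C : AddSubgroup (WeierstrassCurve.Affine.baseChange W K).Point, Nat.card C = 7 ∧
      ∀ σ : K ≃ₐ[F] K, C.map (act W σ) = C) ∨
    (∃ m y c : F, 16 * y ^ 2 = -7 * ((2 * m - 5) ^ 4 - 42 * (2 * m - 5) ^ 2 - 7) ∧
      c = m ^ 3 - 4 * m ^ 2 + 3 * m + 1 ∧
      W.j * c ^ 7 = m * (m + 1) ^ 3 * (m ^ 2 - 5 * m + 1) ^ 3 * (m ^ 2 - 5 * m + 8) ^ 3 *
      (m ^ 4 - 5 * m ^ 3 + 8 * m ^ 2 - 7 * m + 7) ^ 3) ∨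
    (∃ τ y c : F, y ^ 2 = 7 * (2 * τ ^ 4 - 14 * τ ^ 3 + 21 * τ ^ 2 + 28 * τ + 7) ∧
      c = τ ^ 3 - 7 * τ ^ 2 + 7 * τ + 7 ∧
      W.j * c ^ 7 = 64 * (τ * (τ ^ 2 + 7) * (τ ^ 2 - 7 * τ + 14) *
      (5 * τ ^ 2 - 14 * τ - 7)) ^ 3) := by
  have hEll : (WeierstrassCurve.Affine.baseChange W K).IsElliptic := by
    rw [WeierstrassCurve.isElliptic_iff]
    have h1 : (WeierstrassCurve.Affine.baseChange W K).Δ = algebraMap F K W.Δ := W.map_Δ _
    rw [h1]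
    exact W.isUnit_Δ.map _
  have hc4 : (WeierstrassCurve.Affine.baseChange W K).c₄ = algebraMap F K W.c₄ := W.map_c₄ _
  have hc6 : (WeierstrassCurve.Affine.baseChange W K).c₆ = algebraMap F K W.c₆ := W.map_c₆ _
  have hj : JRel (-27 * (WeierstrassCurve.Affine.baseChange W K).c₄)
      (-54 * (WeierstrassCurve.Affine.baseChange W K).c₆) (algebraMap F K W.j) := by
    have h2 := jrel_map (K := K) (jrel' W)
    rw [map_mul, map_mul, map_neg, map_neg, map_ofNat, map_ofNat] at h2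
    rw [hc4, hc6]
    exact h2
  have hJ : W.j - 1728 ≠ 0 := sub_ne_zero.mpr h1
  have hJ' : W.j - 1728 ≠ -1728 := by
    intro h2
    apply h0
    linear_combination h2
  have hJJ : W.j - 1728 + 1728 = W.j := by ring
  obtain ⟨i, hi, hii, hsub, hcube, hcyc⟩ := exists_zeta F (K := K)
  obtain ⟨m, val, H, hmc, hcomm⟩ := frame7 (W := W) hj h0 h1 c hcc hc7
  have hc2 : c * c = 1 := by
    ext z
    exact hcc z
  have hstab : ∀ {x : K}, G8 (algebraMap F K (W.j - 1728)) x = 0 →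
      (∀ σ : K ≃ₐ[F] K, σ x = x) →
      ∃ C : AddSubgroup (WeierstrassCurve.Affine.baseChange W K).Point, Nat.card C = 7 ∧
        ∀ σ : K ≃ₐ[F] K, C.map (act W σ) = C := fun hx hσ => stable_of_fixed hj h0 h1 hx hσ
  -- the elements of `Z7` commute or there is a stable subgroup
  have hZ : (∃ C : AddSubgroup (WeierstrassCurve.Affine.baseChange W K).Point, Nat.card C = 7 ∧
      ∀ σ : K ≃ₐ[F] K, C.map (act W σ) = C) ∨
      ∀ σ τ : K ≃ₐ[F] K, Z7 σ → Z7 τ → m σ * m τ = m τ * m σ := by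
    rcases hirr with ⟨C, hC, hst⟩ | hab
    · obtain ⟨x, hx, hσ⟩ := fixed_of_stable hj Z7 C hC hst
      obtain ⟨x₀, y₀, hne, rfl⟩ := exists_val H hx
      rcases red_line H hne hσ with h2 | h2
      · exact Or.inl (hstab (H.root x₀ y₀ hne) h2)
      · exact Or.inr h2
    · exact Or.inr fun σ τ hσ hτ => hcomm σ τ (hab σ τ hσ hτ)
  rcases hZ with hZ | hZ
  · exact Or.inl hZ
  rcases red_commute H hsub hcube hcyc hZ with ⟨x, hx, hσ⟩ | hN
  · exact Or.inl (hstab hx hσ)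
  rcases outcome_of_commute hJ hJ' H hi hii c hc2 hmc (hc7 i hi) hN with
    ⟨x, hx, hσ⟩ | ⟨x, x', hne, hx, hx', hσ⟩ | ⟨S, T, hS, hT, hST, hxS, hxT, hσ⟩
  · exact Or.inl (hstab hx hσ)
  · right; left
    obtain ⟨m, y, c, e1, e2, e3⟩ := outD' φ hJ hi hne hx hx' hσ
    rw [hJJ] at e3
    exact ⟨m, y, c, e1, e2, e3⟩
  · right; right
    obtain ⟨m, y, c, e1, e2, e3⟩ := outE' φ h7 h14 hJ hJ' hS hT hST hxS hxT hσ
    rw [hJJ] at e3
    exact ⟨m, y, c, e1, e2, e3⟩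

omit [CharZero K] [IsAlgClosed K] in
/-- the point of `X₀(5)` -/
theorem five_point (W : WeierstrassCurve F) [W.IsElliptic]
    (C₅ : AddSubgroup (WeierstrassCurve.Affine.baseChange W K).Point)
    (hC₅ : Nat.card C₅ = 5) (hst₅ : ∀ σ : K ≃ₐ[F] K, C₅.map (act W σ) = C₅) :
    ∃ k : F, k ≠ 0 ∧ W.j * k = (k ^ 2 + 10 * k + 5) ^ 3 := by
  have : CharZero K := charZero_of_injective_algebraMap (algebraMap F K).injective
  have hdisc := disc_ne_zero W
  obtain ⟨x₁, x₂, s, p, hs, hp, hne, hd1, hd2⟩ := five hC₅ hst₅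
  obtain ⟨hk1, hk2⟩ := sym5 hne hd1 hd2
  rw [← hs, ← hp] at hk1 hk2
  have e1 : 4 * (-54 * W.c₆) = s ^ 3 - 6 * p * s - 2 * (-27 * W.c₄) * s := by
    apply (algebraMap F K).injective
    simpa only [map_add, map_mul, map_sub, map_pow, map_neg, map_ofNat, map_zero] using hk1
  have e2 : (-27 * W.c₄) ^ 2 + 2 * (-27 * W.c₄) * s ^ 2 - 2 * (-27 * W.c₄) * p - s ^ 4 +
      5 * s ^ 2 * p + 5 * p ^ 2 = 0 := by
    have h0 : 2 * ((-27 * W.c₄) ^ 2 + 2 * (-27 * W.c₄) * s ^ 2 - 2 * (-27 * W.c₄) * p - s ^ 4 +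
      5 * s ^ 2 * p + 5 * p ^ 2) = 0 := by
      apply (algebraMap F K).injective
      simpa only [map_add, map_mul, map_sub, map_pow, map_neg, map_ofNat, map_zero] using hk2
    exact (mul_eq_zero.mp h0).resolve_left two_ne_zero
  have hD : s ^ 2 - 4 * p ≠ 0 := by
    intro h0
    have h1 : algebraMap F K (s ^ 2 - 4 * p) = 0 := by rw [h0, map_zero]
    simp only [map_mul, map_sub, map_pow, map_ofNat, hs, hp] at h1
    have h2 : (x₁ - x₂) ^ 2 = 0 := by linear_combination h1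
    exact hne (sub_eq_zero.mp (pow_eq_zero_iff (two_ne_zero) |>.mp h2))
  obtain ⟨σ, D, -, hσ0, hD0, hAD, hdD⟩ := five_str hdisc e1 e2 hD
  exact ⟨σ, hσ0, j_five (j_eq W) hD0 hAD hdD⟩

/-- the point of `X₀(3)` of a root of the 3-division polynomial -/
theorem three_point {A B x j : F} (hA0 : A ≠ 0) (hdisc : 4 * A ^ 3 + 27 * B ^ 2 ≠ 0)
    (h3 : 3 * x ^ 4 + 6 * A * x ^ 2 + 12 * B * x - A ^ 2 = 0)
    (hj : 6912 * A ^ 3 = j * (4 * A ^ 3 + 27 * B ^ 2)) :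
    ∃ h : F, h ≠ 0 ∧ j * h = (h + 27) * (h + 3) ^ 3 := by
  have hx : x ≠ 0 := by
    rintro rfl
    have hA : A = 0 := by
      have : A ^ 2 = 0 := by linear_combination -h3
      exact pow_eq_zero_iff (by norm_num) |>.mp this
    exact hA0 hA
  obtain ⟨β, hβ⟩ : ∃ β : F, 6 * x * β = 3 * x ^ 2 + A :=
    ⟨(3 * x ^ 2 + A) / (6 * x), by field_simp⟩
  have hA : A = 6 * x * β - 3 * x ^ 2 := by linear_combination -hβ
  have hB : B = 3 * x * β ^ 2 - 6 * x ^ 2 * β + 2 * x ^ 3 := by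
    have : 12 * x * (B - (3 * x * β ^ 2 - 6 * x ^ 2 * β + 2 * x ^ 3)) = 0 := by
      rw [hA] at h3
      linear_combination h3
    exact sub_eq_zero.mp ((mul_eq_zero.mp this).resolve_left (mul_ne_zero (by norm_num) hx))
  have hdisc' : 4 * A ^ 3 + 27 * B ^ 2 = 27 * x ^ 2 * β ^ 3 * (9 * β - 4 * x) := by
    rw [hA, hB]; ring
  have hβ0 : β ≠ 0 := by
    rintro rfl
    apply hdisc; rw [hdisc']; ring
  have hlast : 9 * β - 4 * x ≠ 0 := by
    intro h0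
    apply hdisc; rw [hdisc', h0]; ring
  obtain ⟨h, hh⟩ : ∃ h : F, h * β = 12 * x - 27 * β := ⟨(12 * x - 27 * β) / β, by field_simp⟩
  have hh0 : h ≠ 0 := by
    rintro rfl
    apply hlast
    linear_combination hh / 3
  refine ⟨h, hh0, ?_⟩
  have hx' : x = (h + 27) * β / 12 := by linear_combination -hh / 12
  rw [hdisc', hA, hx'] at hj
  have hne : (h + 27) ^ 2 * β ^ 6 ≠ 0 := by
    refine mul_ne_zero (pow_ne_zero 2 ?_) (pow_ne_zero 6 hβ0)
    intro h0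
    apply hx
    rw [hx', h0]; ring
  apply mul_left_cancel₀ hne
  linear_combination (16 : F) * hj

/-- the point of `X(s3)` -/
theorem split_point {A B u v j : F} (hdisc : 4 * A ^ 3 + 27 * B ^ 2 ≠ 0)
    (r1 : 4 * B = 2 * u * v - u ^ 3 - 2 * A * u)
    (r2 : A ^ 2 + 6 * A * v + 3 * u ^ 2 * v - 3 * v ^ 2 = 0)
    (hj : 6912 * A ^ 3 = j * (4 * A ^ 3 + 27 * B ^ 2)) :
    ∃ m g : F, j = m ^ 3 ∧ g ^ 2 = m ^ 2 + 12 * m + 144 := by
  have hz3 : (3 * u ^ 2 + 4 * A) ^ 3 = 16 * (4 * A ^ 3 + 27 * B ^ 2) := by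
    linear_combination 36 * u ^ 2 * r2 - 27 * (4 * B + (2 * u * v - u ^ 3 - 2 * A * u)) * r1
  have hz : 3 * u ^ 2 + 4 * A ≠ 0 := by
    intro h0
    rw [h0] at hz3
    apply hdisc
    linear_combination -hz3 / 16
  obtain ⟨m, hm⟩ : ∃ m : F, m * (3 * u ^ 2 + 4 * A) = 48 * A := ⟨_, div_mul_cancel₀ _ hz⟩
  obtain ⟨g, hg⟩ : ∃ g : F, g * (3 * u ^ 2 + 4 * A) = 36 * (2 * v - 2 * A - u ^ 2) :=
    ⟨_, div_mul_cancel₀ _ hz⟩
  have hm3 : j = m ^ 3 := by
    have h1 : (m * (3 * u ^ 2 + 4 * A)) ^ 3 = (48 * A) ^ 3 := by rw [hm]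
    rw [mul_pow, hz3] at h1
    apply mul_right_cancel₀ hdisc
    linear_combination -hj - h1 / 16
  have hgg : g ^ 2 = m ^ 2 + 12 * m + 144 := by
    rw [← sub_eq_zero]
    apply (mul_eq_zero.mp _).resolve_left (pow_ne_zero 2 hz)
    linear_combination (g * (3 * u ^ 2 + 4 * A) + 36 * (2 * v - 2 * A - u ^ 2)) * hg -
      (m * (3 * u ^ 2 + 4 * A) + 48 * A + 12 * (3 * u ^ 2 + 4 * A)) * hm - 1728 * r2
  exact ⟨m, g, hm3, hgg⟩

end general

end Pool.Agent.L9
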