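import Pool.Agent.L9.Res

/-! # The exceptional structures modulo a prime of norm `q` (helper94, for helper9) -/

set_option autoImplicit false

namespace Pool.Agent.L9

open WithZero

variable {F : Type*} [Field F] {v : Valuation F ℤᵐ⁰}

lemma memA {x : F} (h : G v 0 x) : x ∈ v.valuationSubring := by
  rw [Valuation.mem_valuationSubring_iff]; exact G_iff_one.mp h

lemma F0mul {x y : F} (h : G v 0 x) (h' : G v 0 y) : G v 0 (x * y) := (h.mul h').mono (by norm_num)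

lemma F0pow {x : F} (h : G v 0 x) (k : ℕ) : G v 0 (x ^ k) := (h.pow k).mono (by norm_num)

lemma F1mul {x y : F} (h : G v 1 x) (h' : G v 0 y) : G v 1 (x * y) := (h.mul h').mono (by norm_num)

lemma F_not {x : F} (h : E v 0 x) : ¬ G v 1 x := fun h' => by have := h.le h'; omega

lemma unit_of {k : F} (hk : k ≠ 0) (h1 : ∀ n : ℤ, n < 0 → ¬ E v n k) (h2 : ¬ G v 1 k) :
    E v 0 k := by
  obtain ⟨n, hn⟩ := exists_E (v := v) hk
  rcases lt_trichotomy n 0 with h | h | h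
  · exact absurd hn (h1 n h)
  · rwa [h] at hn
  · exact absurd (hn.g (by omega)) h2

lemma int_of {k : F} (h1 : ∀ n : ℤ, n < 0 → ¬ E v n k) : G v 0 k := by
  by_cases hk : k = 0
  · rw [hk]; exact G.zero
  obtain ⟨n, hn⟩ := exists_E (v := v) hk
  by_cases h : n < 0
  · exact absurd hn (h1 n h)
  · exact hn.g (by omega)

lemma E.mono_pole {n : ℤ} {x a : F} (h : E v n x) (ha : G v 0 a) (hn : n < 0) : E v n (x + a) :=
  h.add ha hn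

/-- the pole part of a quadratic -/
lemma pole2 {n : ℤ} {x a b : F} (h : E v n x) (ha : G v 0 a) (hb : G v 0 b) (hn : n < 0) :
    E v (2 * n) (x ^ 2 + a * x + b) := by
  have h1 : E v (2 * n) (x ^ 2) := (h.pow 2).congr (by norm_num) rfl
  have h2 : G v n (a * x) := (ha.mul (h.g le_rfl)).mono (by omega)
  exact ((h1.add h2 (by omega)).add hb (by omega))

/-- the pole part of a cubic -/
lemma pole3 {n : ℤ} {x a b c : F} (h : E v n x) (ha : G v 0 a) (hb : G v 0 b) (hc : G v 0 c)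
    (hn : n < 0) : E v (3 * n) (x ^ 3 + a * x ^ 2 + b * x + c) := by
  have h1 : E v (3 * n) (x ^ 3) := (h.pow 3).congr (by norm_num) rfl
  have h2 : G v (2 * n) (a * x ^ 2) :=
    (ha.mul ((h.pow 2).g (m := 2 * n) (by push_cast; omega))).mono (by omega)
  have h3 : G v n (b * x) := (hb.mul (h.g le_rfl)).mono (by omega)
  exact (((h1.add h2 (by omega)).add h3 (by omega)).add hc (by omega))

/-- the pole part of a quartic -/
lemma pole4 {n : ℤ} {x a b c d : F} (h : E v n x) (ha : G v 0 a) (hb : G v 0 b) (hc : G v 0 c)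
    (hd : G v 0 d) (hn : n < 0) : E v (4 * n) (x ^ 4 + a * x ^ 3 + b * x ^ 2 + c * x + d) := by
  have h1 : E v (4 * n) (x ^ 4) := (h.pow 4).congr (by norm_num) rfl
  have h2 : G v (3 * n) (a * x ^ 3) :=
    (ha.mul ((h.pow 3).g (m := 3 * n) (by push_cast; omega))).mono (by omega)
  have h3 : G v (2 * n) (b * x ^ 2) :=
    (hb.mul ((h.pow 2).g (m := 2 * n) (by push_cast; omega))).mono (by omega)
  have h4 : G v n (c * x) := (hc.mul (h.g le_rfl)).mono (by omega)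
  exact ((((h1.add h2 (by omega)).add h3 (by omega)).add h4 (by omega)).add hd (by omega))

/-! ### the parameters are integral -/

lemma five_int (u5 : E v 0 (5 : F)) {j k : F} (hj : G v 0 j) (hk : k ≠ 0)
    (h : j * k = (k ^ 2 + 10 * k + 5) ^ 3) : E v 0 k := by
  refine unit_of hk (fun n hn hE => ?_) fun h1 => ?_
  · have h2 := (pole2 hE (G.ofNat 10) (G.ofNat 5) hn).pow 3
    rw [← h] at h2
    have := h2.le ((hj.mul (hE.g le_rfl)).mono (m := n) (by omega))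
    push_cast at this
    omega
  · have h2 : E v 0 (k ^ 2 + 10 * k + 5) :=
      E.add' (((h1.pow 2).mono (m := 1) (by norm_num)).add
        ((G.ofNat 10).mul h1 |>.mono (m := 1) (by norm_num))) u5 (by norm_num)
    have h3 : E v 0 ((k ^ 2 + 10 * k + 5) ^ 3) := (h2.pow 3).congr (by norm_num) rfl
    rw [← h] at h3
    exact F_not h3 ((hj.mul h1).mono (by norm_num))

lemma b3_int (u3 : E v 0 (3 : F)) {j k : F} (hj : G v 0 j) (hk : k ≠ 0)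
    (h : j * k = (k + 27) * (k + 3) ^ 3) : E v 0 k := by
  refine unit_of hk (fun n hn hE => ?_) fun h1 => ?_
  · have h2 := (hE.add (G.ofNat 27) hn).mul ((hE.add (G.ofNat 3) hn).pow 3)
    rw [← h] at h2
    have := h2.le ((hj.mul (hE.g le_rfl)).mono (m := n) (by omega))
    push_cast at this
    omega
  · have u27 : E v 0 (27 : F) := (u3.pow 3).congr (by norm_num) (by norm_num)
    have h2 : E v 0 (k + 27) := E.add' h1 u27 (by norm_num)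
    have h4 : E v 0 (k + 3) := E.add' h1 u3 (by norm_num)
    have h3 : E v 0 ((k + 27) * (k + 3) ^ 3) := (h2.mul (h4.pow 3)).congr (by norm_num) rfl
    rw [← h] at h3
    exact F_not h3 ((hj.mul h1).mono (by norm_num))

lemma s3_int {j m g : F} (hj : G v 0 j) (hm : j = m ^ 3) (hg : g ^ 2 = m ^ 2 + 12 * m + 144) :
    G v 0 m ∧ G v 0 g := by
  have h1 : G v 0 m := by
    refine int_of fun n hn hE => ?_
    have h2 := hE.pow 3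
    rw [← hm] at h2
    have := h2.le hj
    push_cast at this
    omega
  refine ⟨h1, int_of fun n hn hE => ?_⟩
  have h2 := hE.pow 2
  rw [hg] at h2
  have h3 : G v 0 (m ^ 2 + 12 * m + 144) :=
    ((F0pow h1 2).add (F0mul (G.ofNat 12) h1)).add (G.ofNat 144)
  have := h2.le h3
  push_cast at this
  omega

lemma b7_int (u7 : E v 0 (7 : F)) {j k : F} (hj : G v 0 j) (hk : k ≠ 0)
    (h : j * k = (k ^ 2 + 13 * k + 49) * (k ^ 2 + 5 * k + 1) ^ 3) : E v 0 k := by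
  refine unit_of hk (fun n hn hE => ?_) fun h1 => ?_
  · have h2 := (pole2 hE (G.ofNat 13) (G.ofNat 49) hn).mul
      ((pole2 hE (G.ofNat 5) (E.one.g le_rfl) hn).pow 3)
    rw [← h] at h2
    have := h2.le ((hj.mul (hE.g le_rfl)).mono (m := n) (by omega))
    push_cast at this
    omega
  · have u49 : E v 0 (49 : F) := (u7.pow 2).congr (by norm_num) (by norm_num)
    have hk2 : G v 1 (k ^ 2) := (h1.pow 2).mono (by norm_num)
    have h2 : E v 0 (k ^ 2 + 13 * k + 49) :=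
      E.add' (hk2.add ((G.ofNat 13).mul h1 |>.mono (m := 1) (by norm_num))) u49 (by norm_num)
    have h4 : E v 0 (k ^ 2 + 5 * k + 1) :=
      E.add' (hk2.add ((G.ofNat 5).mul h1 |>.mono (m := 1) (by norm_num))) E.one (by norm_num)
    have h3 : E v 0 ((k ^ 2 + 13 * k + 49) * (k ^ 2 + 5 * k + 1) ^ 3) :=
      (h2.mul (h4.pow 3)).congr (by norm_num) rfl
    rw [← h] at h3
    exact F_not h3 ((hj.mul h1).mono (by norm_num))

lemma sq_int {y z a : F} (ua : E v 0 a) (hz : G v 0 z) (h : a * y ^ 2 = z) : G v 0 y := by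
  refine int_of fun n hn hE => ?_
  have h2 := ua.mul (hE.pow 2)
  rw [h] at h2
  have := h2.le hz
  push_cast at this
  omega

lemma d7_int (u2 : E v 0 (2 : F)) {m y c j : F} (hj : G v 0 j)
    (hy : 16 * y ^ 2 = -7 * ((2 * m - 5) ^ 4 - 42 * (2 * m - 5) ^ 2 - 7))
    (hc : c = m ^ 3 - 4 * m ^ 2 + 3 * m + 1)
    (hjc : j * c ^ 7 = m * (m + 1) ^ 3 * (m ^ 2 - 5 * m + 1) ^ 3 * (m ^ 2 - 5 * m + 8) ^ 3 *
      (m ^ 4 - 5 * m ^ 3 + 8 * m ^ 2 - 7 * m + 7) ^ 3) : G v 0 m ∧ G v 0 y := by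
  have h1 : G v 0 m := by
    refine int_of fun n hn hE => ?_
    have a1 : G v 0 (-4 : F) := (G.ofNat 4).neg
    have a2 : G v 0 (-5 : F) := (G.ofNat 5).neg
    have a3 : G v 0 (-7 : F) := (G.ofNat 7).neg
    have e1 : E v (3 * n) c := by
      refine (pole3 hE a1 (G.ofNat 3) (E.one.g le_rfl) hn).congr rfl ?_
      rw [hc]; ring
    have e2 : E v (2 * n) (m ^ 2 - 5 * m + 1) :=
      (pole2 hE a2 (E.one.g le_rfl) hn).congr rfl (by ring)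
    have e3 : E v (2 * n) (m ^ 2 - 5 * m + 8) :=
      (pole2 hE a2 (G.ofNat 8) hn).congr rfl (by ring)
    have e4 : E v (4 * n) (m ^ 4 - 5 * m ^ 3 + 8 * m ^ 2 - 7 * m + 7) :=
      (pole4 hE a2 (G.ofNat 8) a3 (G.ofNat 7) hn).congr rfl (by ring)
    have e5 : E v n (m + 1) := hE.add (E.one.g le_rfl) hn
    have h2 := (((hE.mul (e5.pow 3)).mul (e2.pow 3)).mul (e3.pow 3)).mul (e4.pow 3)
    rw [← hjc] at h2
    have := h2.le (hj.mul ((e1.pow 7).g le_rfl))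
    push_cast at this
    omega
  refine ⟨h1, sq_int (a := 16) ((u2.pow 4).congr (by norm_num) (by norm_num)) ?_ hy⟩
  have h2 : G v 0 (2 * m - 5) := (F0mul (G.ofNat 2) h1).sub (G.ofNat 5)
  exact F0mul (G.ofNat 7).neg (((F0pow h2 4).sub (F0mul (G.ofNat 42) (F0pow h2 2))).sub (G.ofNat 7))

lemma e7_int {τ y : F} (hτ : G v 0 τ)
    (hy : y ^ 2 = 7 * (2 * τ ^ 4 - 14 * τ ^ 3 + 21 * τ ^ 2 + 28 * τ + 7)) : G v 0 y := by
  refine sq_int (a := 1) E.one (z := 7 * (2 * τ ^ 4 - 14 * τ ^ 3 + 21 * τ ^ 2 + 28 * τ + 7)) ?_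
    (by rw [one_mul, hy])
  refine F0mul (G.ofNat 7) ((((F0mul (G.ofNat 2) (F0pow hτ 4)).sub
    (F0mul (G.ofNat 14) (F0pow hτ 3))).add (F0mul (G.ofNat 21) (F0pow hτ 2))).add
    (F0mul (G.ofNat 28) hτ) |>.add (G.ofNat 7))

/-! ### the residues -/

section red

variable {q : ℕ} [Fact q.Prime] (φ : v.valuationSubring →+* ZMod q)
  (hφ : ∀ x : v.valuationSubring, φ x = 0 ↔ G v 1 (x : F))

include hφ

theorem five_red (u5 : E v 0 (5 : F)) {j k : F} (hj : G v 0 j) (hk : k ≠ 0)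
    (h : j * k = (k ^ 2 + 10 * k + 5) ^ 3) :
    ∃ κ : ZMod q, κ ≠ 0 ∧ φ ⟨j, memA hj⟩ * κ = (κ ^ 2 + 10 * κ + 5) ^ 3 := by
  have hu := five_int u5 hj hk h
  refine ⟨φ ⟨k, memA (hu.g le_rfl)⟩, fun h0 => F_not hu ((hφ _).mp h0), ?_⟩
  have h1 : (⟨j, memA hj⟩ : v.valuationSubring) * ⟨k, memA (hu.g le_rfl)⟩ =
      ((⟨k, memA (hu.g le_rfl)⟩ : v.valuationSubring) ^ 2 + 10 * ⟨k, memA (hu.g le_rfl)⟩ + 5) ^ 3 :=
    Subtype.ext h
  have h2 := congrArg φ h1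
  simpa only [map_mul, map_pow, map_add, map_ofNat] using h2

theorem b3_red (u3 : E v 0 (3 : F)) {j k : F} (hj : G v 0 j) (hk : k ≠ 0)
    (h : j * k = (k + 27) * (k + 3) ^ 3) :
    ∃ κ : ZMod q, κ ≠ 0 ∧ φ ⟨j, memA hj⟩ * κ = (κ + 27) * (κ + 3) ^ 3 := by
  have hu := b3_int u3 hj hk h
  refine ⟨φ ⟨k, memA (hu.g le_rfl)⟩, fun h0 => F_not hu ((hφ _).mp h0), ?_⟩
  have h1 : (⟨j, memA hj⟩ : v.valuationSubring) * ⟨k, memA (hu.g le_rfl)⟩ =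
      ((⟨k, memA (hu.g le_rfl)⟩ : v.valuationSubring) + 27) *
        ((⟨k, memA (hu.g le_rfl)⟩ : v.valuationSubring) + 3) ^ 3 :=
    Subtype.ext h
  have h2 := congrArg φ h1
  simpa only [map_mul, map_pow, map_add, map_ofNat] using h2

omit hφ in
theorem s3_red {j m g : F} (hj : G v 0 j) (hm : j = m ^ 3)
    (hg : g ^ 2 = m ^ 2 + 12 * m + 144) :
    ∃ μ γ : ZMod q, φ ⟨j, memA hj⟩ = μ ^ 3 ∧ γ ^ 2 = μ ^ 2 + 12 * μ + 144 := by
  obtain ⟨hm0, hg0⟩ := s3_int hj hm hg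
  refine ⟨φ ⟨m, memA hm0⟩, φ ⟨g, memA hg0⟩, ?_, ?_⟩
  · have h1 : (⟨j, memA hj⟩ : v.valuationSubring) = ⟨m, memA hm0⟩ ^ 3 := Subtype.ext hm
    have h2 := congrArg φ h1
    simpa only [map_pow] using h2
  · have h1 : (⟨g, memA hg0⟩ : v.valuationSubring) ^ 2 =
        ⟨m, memA hm0⟩ ^ 2 + 12 * ⟨m, memA hm0⟩ + 144 := Subtype.ext hg
    have h2 := congrArg φ h1
    simpa only [map_mul, map_pow, map_add, map_ofNat] using h2

theorem b7_red (u7 : E v 0 (7 : F)) {j k : F} (hj : G v 0 j) (hk : k ≠ 0)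
    (h : j * k = (k ^ 2 + 13 * k + 49) * (k ^ 2 + 5 * k + 1) ^ 3) :
    ∃ κ : ZMod q, κ ≠ 0 ∧
      φ ⟨j, memA hj⟩ * κ = (κ ^ 2 + 13 * κ + 49) * (κ ^ 2 + 5 * κ + 1) ^ 3 := by
  have hu := b7_int u7 hj hk h
  refine ⟨φ ⟨k, memA (hu.g le_rfl)⟩, fun h0 => F_not hu ((hφ _).mp h0), ?_⟩
  have h1 : (⟨j, memA hj⟩ : v.valuationSubring) * ⟨k, memA (hu.g le_rfl)⟩ =
      ((⟨k, memA (hu.g le_rfl)⟩ : v.valuationSubring) ^ 2 + 13 * ⟨k, memA (hu.g le_rfl)⟩ + 49) *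
        ((⟨k, memA (hu.g le_rfl)⟩ : v.valuationSubring) ^ 2 + 5 * ⟨k, memA (hu.g le_rfl)⟩ + 1)
          ^ 3 :=
    Subtype.ext h
  have h2 := congrArg φ h1
  simpa only [map_mul, map_pow, map_add, map_ofNat, map_one] using h2

omit hφ in
theorem d7_red (u2 : E v 0 (2 : F)) {m y c j : F} (hj : G v 0 j)
    (hy : 16 * y ^ 2 = -7 * ((2 * m - 5) ^ 4 - 42 * (2 * m - 5) ^ 2 - 7))
    (hc : c = m ^ 3 - 4 * m ^ 2 + 3 * m + 1)
    (hjc : j * c ^ 7 = m * (m + 1) ^ 3 * (m ^ 2 - 5 * m + 1) ^ 3 * (m ^ 2 - 5 * m + 8) ^ 3 *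
      (m ^ 4 - 5 * m ^ 3 + 8 * m ^ 2 - 7 * m + 7) ^ 3) :
    ∃ μ γ : ZMod q, 16 * γ ^ 2 = -7 * ((2 * μ - 5) ^ 4 - 42 * (2 * μ - 5) ^ 2 - 7) ∧
      φ ⟨j, memA hj⟩ * (μ ^ 3 - 4 * μ ^ 2 + 3 * μ + 1) ^ 7 =
        μ * (μ + 1) ^ 3 * (μ ^ 2 - 5 * μ + 1) ^ 3 * (μ ^ 2 - 5 * μ + 8) ^ 3 *
          (μ ^ 4 - 5 * μ ^ 3 + 8 * μ ^ 2 - 7 * μ + 7) ^ 3 := by
  obtain ⟨hm0, hy0⟩ := d7_int u2 hj hy hc hjc
  refine ⟨φ ⟨m, memA hm0⟩, φ ⟨y, memA hy0⟩, ?_, ?_⟩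
  · have h1 : 16 * (⟨y, memA hy0⟩ : v.valuationSubring) ^ 2 =
        -7 * ((2 * ⟨m, memA hm0⟩ - 5) ^ 4 - 42 * (2 * ⟨m, memA hm0⟩ - 5) ^ 2 - 7) :=
      Subtype.ext hy
    have h2 := congrArg φ h1
    simpa only [map_mul, map_pow, map_add, map_sub, map_neg, map_ofNat] using h2
  · rw [hc] at hjc
    have h1 : (⟨j, memA hj⟩ : v.valuationSubring) * (⟨m, memA hm0⟩ ^ 3 - 4 * ⟨m, memA hm0⟩ ^ 2 +
        3 * ⟨m, memA hm0⟩ + 1) ^ 7 =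
        ⟨m, memA hm0⟩ * (⟨m, memA hm0⟩ + 1) ^ 3 * (⟨m, memA hm0⟩ ^ 2 - 5 * ⟨m, memA hm0⟩ + 1) ^ 3 *
        (⟨m, memA hm0⟩ ^ 2 - 5 * ⟨m, memA hm0⟩ + 8) ^ 3 *
          (⟨m, memA hm0⟩ ^ 4 - 5 * ⟨m, memA hm0⟩ ^ 3 + 8 * ⟨m, memA hm0⟩ ^ 2 -
            7 * ⟨m, memA hm0⟩ + 7) ^ 3 :=
      Subtype.ext hjc
    have h2 := congrArg φ h1
    simpa only [map_mul, map_pow, map_add, map_sub, map_neg, map_ofNat, map_one] using h2

theorem e7_red {τ y c j : F} (hj : G v 0 j)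
    (hy : y ^ 2 = 7 * (2 * τ ^ 4 - 14 * τ ^ 3 + 21 * τ ^ 2 + 28 * τ + 7))
    (hc : c = τ ^ 3 - 7 * τ ^ 2 + 7 * τ + 7)
    (hjc : j * c ^ 7 = 64 * (τ * (τ ^ 2 + 7) * (τ ^ 2 - 7 * τ + 14) *
      (5 * τ ^ 2 - 14 * τ - 7)) ^ 3) :
    (∃ μ γ : ZMod q, γ ^ 2 = 7 * (2 * μ ^ 4 - 14 * μ ^ 3 + 21 * μ ^ 2 + 28 * μ + 7) ∧
      φ ⟨j, memA hj⟩ * (μ ^ 3 - 7 * μ ^ 2 + 7 * μ + 7) ^ 7 =
        64 * (μ * (μ ^ 2 + 7) * (μ ^ 2 - 7 * μ + 14) * (5 * μ ^ 2 - 14 * μ - 7)) ^ 3) ∨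
    (∃ γ : ZMod q, γ ^ 2 = 14 ∧ φ ⟨j, memA hj⟩ = 8000) := by
  by_cases hτ : G v 0 τ
  · left
    have hy0 := e7_int hτ hy
    refine ⟨φ ⟨τ, memA hτ⟩, φ ⟨y, memA hy0⟩, ?_, ?_⟩
    · have h1 : (⟨y, memA hy0⟩ : v.valuationSubring) ^ 2 =
          7 * (2 * ⟨τ, memA hτ⟩ ^ 4 - 14 * ⟨τ, memA hτ⟩ ^ 3 + 21 * ⟨τ, memA hτ⟩ ^ 2 +
            28 * ⟨τ, memA hτ⟩ + 7) :=
        Subtype.ext hy
      have h2 := congrArg φ h1
      simpa only [map_mul, map_pow, map_add, map_sub, map_neg, map_ofNat] using h2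
    · rw [hc] at hjc
      have h1 : (⟨j, memA hj⟩ : v.valuationSubring) * (⟨τ, memA hτ⟩ ^ 3 -
          7 * ⟨τ, memA hτ⟩ ^ 2 + 7 * ⟨τ, memA hτ⟩ + 7) ^ 7 =
          64 * (⟨τ, memA hτ⟩ * (⟨τ, memA hτ⟩ ^ 2 + 7) *
            (⟨τ, memA hτ⟩ ^ 2 - 7 * ⟨τ, memA hτ⟩ + 14) *
            (5 * ⟨τ, memA hτ⟩ ^ 2 - 14 * ⟨τ, memA hτ⟩ - 7)) ^ 3 :=
        Subtype.ext hjc
      have h2 := congrArg φ h1
      simpa only [map_mul, map_pow, map_add, map_sub, map_neg, map_ofNat, map_one] using h2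
  · right
    have hτ0 : τ ≠ 0 := by rintro rfl; exact hτ G.zero
    obtain ⟨n, hn⟩ := exists_E (v := v) hτ0
    have hn0 : n < 0 := by
      by_contra h
      exact hτ (hn.g (by omega))
    -- the parameter at infinity
    obtain ⟨σ, hσ⟩ : ∃ σ : F, σ = τ⁻¹ := ⟨_, rfl⟩
    have hστ : σ * τ = 1 := by rw [hσ]; exact inv_mul_cancel₀ hτ0
    have hσ0 : σ ≠ 0 := by rintro rfl; rw [zero_mul] at hστ; exact zero_ne_one hστ
    obtain ⟨n', hn'⟩ := exists_E (v := v) hσ0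
    have hnn : n' + n = 0 := by
      have h1 := hn'.mul hn
      rw [hστ] at h1
      exact h1.unique E.one
    have hσ1 : G v 1 σ := hn'.g (by omega)
    have hσG : G v 0 σ := hσ1.mono (by norm_num)
    obtain ⟨y', hy'⟩ : ∃ y' : F, y' = y * σ ^ 2 := ⟨_, rfl⟩
    have h1 : y' ^ 2 = 7 * (2 - 14 * σ + 21 * σ ^ 2 + 28 * σ ^ 3 + 7 * σ ^ 4) := by
      have e1 : y' ^ 2 = σ ^ 4 * y ^ 2 := by rw [hy']; ring
      rw [e1, hy]
      have e2 : σ ^ 4 * (7 * (2 * τ ^ 4 - 14 * τ ^ 3 + 21 * τ ^ 2 + 28 * τ + 7)) =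
          7 * (2 * (σ * τ) ^ 4 - 14 * (σ * τ) ^ 3 * σ + 21 * (σ * τ) ^ 2 * σ ^ 2 +
            28 * (σ * τ) * σ ^ 3 + 7 * σ ^ 4) := by ring
      rw [e2, hστ]; ring
    have hy0 : G v 0 y' := by
      refine sq_int (a := 1) E.one
        (z := 7 * (2 - 14 * σ + 21 * σ ^ 2 + 28 * σ ^ 3 + 7 * σ ^ 4)) ?_ (by rw [one_mul, h1])
      exact F0mul (G.ofNat 7) (((((G.ofNat 2).sub (F0mul (G.ofNat 14) hσG)).add
        (F0mul (G.ofNat 21) (F0pow hσG 2))).add (F0mul (G.ofNat 28) (F0pow hσG 3))).add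
        (F0mul (G.ofNat 7) (F0pow hσG 4)))
    have h2 : j * (1 - 7 * σ + 7 * σ ^ 2 + 7 * σ ^ 3) ^ 7 =
        64 * ((1 + 7 * σ ^ 2) * (1 - 7 * σ + 14 * σ ^ 2) * (5 - 14 * σ - 7 * σ ^ 2)) ^ 3 := by
      have e1 : 1 - 7 * σ + 7 * σ ^ 2 + 7 * σ ^ 3 = σ ^ 3 * c := by
        have : σ ^ 3 * c = (σ * τ) ^ 3 - 7 * (σ * τ) ^ 2 * σ + 7 * (σ * τ) * σ ^ 2 + 7 * σ ^ 3 := by
          rw [hc]; ring
        rw [this, hστ]; ring
      have e2 : j * (σ ^ 3 * c) ^ 7 = σ ^ 21 * (j * c ^ 7) := by ring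
      rw [e1, e2, hjc]
      have e3 : σ ^ 21 * (64 * (τ * (τ ^ 2 + 7) * (τ ^ 2 - 7 * τ + 14) *
          (5 * τ ^ 2 - 14 * τ - 7)) ^ 3) =
          64 * ((σ * τ) * ((σ * τ) ^ 2 + 7 * σ ^ 2) *
            ((σ * τ) ^ 2 - 7 * (σ * τ) * σ + 14 * σ ^ 2) *
            (5 * (σ * τ) ^ 2 - 14 * (σ * τ) * σ - 7 * σ ^ 2)) ^ 3 := by ring
      rw [e3, hστ]; ring
    have hφσ : φ ⟨σ, memA hσG⟩ = 0 := (hφ _).mpr hσ1
    refine ⟨φ ⟨y', memA hy0⟩, ?_, ?_⟩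
    · have h3 : (⟨y', memA hy0⟩ : v.valuationSubring) ^ 2 =
          7 * (2 - 14 * ⟨σ, memA hσG⟩ + 21 * ⟨σ, memA hσG⟩ ^ 2 + 28 * ⟨σ, memA hσG⟩ ^ 3 +
            7 * ⟨σ, memA hσG⟩ ^ 4) :=
        Subtype.ext h1
      have h4 := congrArg φ h3
      simp only [map_mul, map_pow, map_add, map_sub, map_ofNat, hφσ] at h4
      rw [h4]; ring
    · have h3 : (⟨j, memA hj⟩ : v.valuationSubring) * (1 - 7 * ⟨σ, memA hσG⟩ +
          7 * ⟨σ, memA hσG⟩ ^ 2 + 7 * ⟨σ, memA hσG⟩ ^ 3) ^ 7 =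
          64 * ((1 + 7 * ⟨σ, memA hσG⟩ ^ 2) * (1 - 7 * ⟨σ, memA hσG⟩ + 14 * ⟨σ, memA hσG⟩ ^ 2) *
            (5 - 14 * ⟨σ, memA hσG⟩ - 7 * ⟨σ, memA hσG⟩ ^ 2)) ^ 3 :=
        Subtype.ext h2
      have h4 := congrArg φ h3
      simp only [map_mul, map_pow, map_add, map_sub, map_ofNat, map_one, hφσ] at h4
      have h5 : φ ⟨j, memA hj⟩ * (1 - 7 * 0 + 7 * 0 ^ 2 + 7 * 0 ^ 3) ^ 7 = φ ⟨j, memA hj⟩ := by
        ring
      rw [h5] at h4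
      rw [h4]; ring

end red

end Pool.Agent.L9
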