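import Pool.Agent.L9.Fin

/-! # No good reduction at a prime of norm 13 (helper94, for helper9) -/

set_option autoImplicit false
set_option maxRecDepth 100000

namespace Pool.Agent.L9

open WithZero

namespace N13

instance : Fact (Nat.Prime 13) := ⟨by norm_num⟩

/-- the values of `j` for the structure at 5 -/
def L5 : Finset (ZMod 13) := {1, 2, 7, 9, 10, 12}

/-- the values of `j` for the structure at 3 -/
def L3 : Finset (ZMod 13) := {0, 1, 2, 3, 4, 5, 6, 7, 8, 9, 10, 11, 12}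

/-- the values of `j` for the structure at 7 -/
def L7 : Finset (ZMod 13) := {0, 3, 4, 5, 6, 11}

lemma solve {ρ κ a : ZMod 13} (hκ : κ ≠ 0) (h : ρ * κ = a) : ρ = a * κ ^ 11 := by
  rw [← h, mul_assoc, ← pow_succ']
  have := ZMod.pow_card_sub_one_eq_one hκ
  norm_num at this
  rw [this, mul_one]

lemma solve7 {ρ κ a : ZMod 13} (hκ : κ ≠ 0) (h : ρ * κ ^ 7 = a) : ρ = a * κ ^ 5 := by
  rw [← h, mul_assoc, ← pow_add]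
  have := ZMod.pow_card_sub_one_eq_one hκ
  norm_num at this
  rw [this, mul_one]

lemma sq_pow : ∀ x : ZMod 13, (x ^ 2) ^ 7 = x ^ 2 := by decide

lemma sq_pow' : ∀ x : ZMod 13, (16 * x ^ 2) ^ 7 = 16 * x ^ 2 := by decide

lemma five_list : ∀ κ : ZMod 13, κ ≠ 0 → (κ ^ 2 + 10 * κ + 5) ^ 3 * κ ^ 11 ∈ L5 := by
  decide

lemma b3_list : ∀ κ : ZMod 13, κ ≠ 0 → (κ + 27) * (κ + 3) ^ 3 * κ ^ 11 ∈ L3 := by
  decide

lemma s3_list : ∀ μ : ZMod 13, (μ ^ 2 + 12 * μ + 144) ^ 7 = μ ^ 2 + 12 * μ + 144 →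
    μ ^ 3 ∈ L3 := by decide

lemma b7_list : ∀ κ : ZMod 13, κ ≠ 0 →
    (κ ^ 2 + 13 * κ + 49) * (κ ^ 2 + 5 * κ + 1) ^ 3 * κ ^ 11 ∈ L7 := by
  decide

lemma d7_cop : ∀ μ : ZMod 13, μ ^ 3 - 4 * μ ^ 2 + 3 * μ + 1 = 0 →
    μ * (μ + 1) ^ 3 * (μ ^ 2 - 5 * μ + 1) ^ 3 * (μ ^ 2 - 5 * μ + 8) ^ 3 *
          (μ ^ 4 - 5 * μ ^ 3 + 8 * μ ^ 2 - 7 * μ + 7) ^ 3 ≠ 0 := by
  decide

lemma d7_list : ∀ μ : ZMod 13,
    (-7 * ((2 * μ - 5) ^ 4 - 42 * (2 * μ - 5) ^ 2 - 7)) ^ 7 =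
      -7 * ((2 * μ - 5) ^ 4 - 42 * (2 * μ - 5) ^ 2 - 7) →
    μ * (μ + 1) ^ 3 * (μ ^ 2 - 5 * μ + 1) ^ 3 * (μ ^ 2 - 5 * μ + 8) ^ 3 *
          (μ ^ 4 - 5 * μ ^ 3 + 8 * μ ^ 2 - 7 * μ + 7) ^ 3 *
      (μ ^ 3 - 4 * μ ^ 2 + 3 * μ + 1) ^ 5 ∈ L7 := by
  decide

lemma e7_cop : ∀ μ : ZMod 13, μ ^ 3 - 7 * μ ^ 2 + 7 * μ + 7 = 0 →
    64 * (μ * (μ ^ 2 + 7) * (μ ^ 2 - 7 * μ + 14) * (5 * μ ^ 2 - 14 * μ - 7)) ^ 3 ≠ 0 := by
  decide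

lemma e7_list : ∀ μ : ZMod 13,
    (7 * (2 * μ ^ 4 - 14 * μ ^ 3 + 21 * μ ^ 2 + 28 * μ + 7)) ^ 7 =
      7 * (2 * μ ^ 4 - 14 * μ ^ 3 + 21 * μ ^ 2 + 28 * μ + 7) →
    64 * (μ * (μ ^ 2 + 7) * (μ ^ 2 - 7 * μ + 14) * (5 * μ ^ 2 - 14 * μ - 7)) ^ 3 *
      (μ ^ 3 - 7 * μ ^ 2 + 7 * μ + 7) ^ 5 ∈ L7 := by
  decide

lemma inf_list : (14 : ZMod 13) ^ 7 = 14 → (8000 : ZMod 13) ∈ L7 := by
  decide

lemma disj : ∀ x : ZMod 13, x ∈ L5 → x ∈ L7 → False := by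
  decide

end N13

variable {F : Type*} [Field F] {v : Valuation F ℤᵐ⁰}

open N13

/-- no good reduction at a prime of norm 13 -/
theorem no_good13 (hq : G v 1 (13 : F)) (hres : ∀ z : F, G v 0 z → G v 1 (z ^ 13 - z))
    {j : F} (h5 : ∃ k : F, k ≠ 0 ∧ j * k = (k ^ 2 + 10 * k + 5) ^ 3)
    (h7 : (∃ t : F, t ≠ 0 ∧ j * t = (t ^ 2 + 13 * t + 49) * (t ^ 2 + 5 * t + 1) ^ 3) ∨
      (∃ m y c : F, 16 * y ^ 2 = -7 * ((2 * m - 5) ^ 4 - 42 * (2 * m - 5) ^ 2 - 7) ∧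
        c = m ^ 3 - 4 * m ^ 2 + 3 * m + 1 ∧
        j * c ^ 7 = m * (m + 1) ^ 3 * (m ^ 2 - 5 * m + 1) ^ 3 * (m ^ 2 - 5 * m + 8) ^ 3 *
        (m ^ 4 - 5 * m ^ 3 + 8 * m ^ 2 - 7 * m + 7) ^ 3) ∨
      (∃ τ y c : F, y ^ 2 = 7 * (2 * τ ^ 4 - 14 * τ ^ 3 + 21 * τ ^ 2 + 28 * τ + 7) ∧
        c = τ ^ 3 - 7 * τ ^ 2 + 7 * τ + 7 ∧
        j * c ^ 7 = 64 * (τ * (τ ^ 2 + 7) * (τ ^ 2 - 7 * τ + 14) *
        (5 * τ ^ 2 - 14 * τ - 7)) ^ 3)) :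
    1 < v j := by
  by_contra hcon
  have hj : G v 0 j := G_iff_one.mpr (not_lt.mp hcon)
  have hq' : G v 1 (((13 : ℕ) : F)) := by simpa using hq
  have hqz : G v 1 (((13 : ℤ) : F)) := by simpa using hq
  have u2 : E v 0 (2 : F) := by
    have := E.int hqz (n := 2) (by norm_num); simpa using this
  have u3 : E v 0 (3 : F) := by
    have := E.int hqz (n := 3) (by norm_num); simpa using this
  have u5 : E v 0 (5 : F) := by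
    have := E.int hqz (n := 5) (by norm_num); simpa using this
  have u7 : E v 0 (7 : F) := by
    have := E.int hqz (n := 7) (by norm_num); simpa using this
  obtain ⟨φ, hφ⟩ := exists_red hq' hres
  set ρ := φ ⟨j, memA hj⟩ with hρ
  have m5 : ρ ∈ L5 := by
    obtain ⟨k, hk, h⟩ := h5
    obtain ⟨κ, hκ, e⟩ := five_red φ hφ u5 hj hk h
    rw [hρ, solve hκ e]
    exact five_list κ hκ
  have m7 : ρ ∈ L7 := by
    rcases h7 with ⟨t, ht, h⟩ | ⟨m, y, c, i1, i2, i3⟩ | ⟨τ, y, c, i1, i2, i3⟩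
    · obtain ⟨κ, hκ, e⟩ := b7_red φ hφ u7 hj ht h
      rw [hρ, solve hκ e]
      exact b7_list κ hκ
    · obtain ⟨μ, γ, e1, e2⟩ := d7_red φ u2 hj i1 i2 i3
      have hc : μ ^ 3 - 4 * μ ^ 2 + 3 * μ + 1 ≠ 0 := by
        intro h0
        rw [h0, zero_pow (by norm_num), mul_zero] at e2
        exact d7_cop μ h0 e2.symm
      rw [hρ, solve7 hc e2]
      refine d7_list μ ?_
      rw [← e1]
      exact sq_pow' γ
    · rcases e7_red φ hφ hj i1 i2 i3 with ⟨μ, γ, e1, e2⟩ | ⟨γ, e1, e2⟩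
      · have hc : μ ^ 3 - 7 * μ ^ 2 + 7 * μ + 7 ≠ 0 := by
          intro h0
          rw [h0, zero_pow (by norm_num), mul_zero] at e2
          exact e7_cop μ h0 e2.symm
        rw [hρ, solve7 hc e2]
        refine e7_list μ ?_
        rw [← e1]
        exact sq_pow γ
      · rw [hρ, e2]
        refine inf_list ?_
        rw [← e1]
        exact sq_pow γ
  exact disj ρ m5 m7

end Pool.Agent.L9
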