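import Pool.Agent.L9.FinC

/-! # Good reduction at a prime of norm 5 (helper42, for helper9) -/

set_option autoImplicit false

namespace Pool.Agent.L9

open NumberField WeierstrassCurve WeierstrassCurve.Affine IsDedekindDomain WithZero
  Pool.Agent.H42M Pool.Agent.M7

namespace N5

instance : Fact (Nat.Prime 5) := ⟨by norm_num⟩

/-- the values of `j` for the structure at 3 -/
def L3 : Finset (ZMod 5) := {0, 2}

/-- the values of `j` for the structure at 7 -/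
def L7 : Finset (ZMod 5) := {0, 4}

lemma solve {ρ κ a : ZMod 5} (hκ : κ ≠ 0) (h : ρ * κ = a) : ρ = a * κ ^ 3 := by
  rw [← h, mul_assoc, ← pow_succ']
  have := ZMod.pow_card_sub_one_eq_one hκ
  norm_num at this
  rw [this, mul_one]

lemma solve7 {ρ κ a : ZMod 5} (hκ : κ ≠ 0) (h : ρ * κ ^ 7 = a) : ρ = a * κ := by
  have := ZMod.pow_card_sub_one_eq_one hκ
  norm_num at this
  rw [← h, mul_assoc, ← pow_succ, show 7 + 1 = 4 * 2 by norm_num, pow_mul, this, one_pow, mul_one]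

lemma sq_pow : ∀ x : ZMod 5, (x ^ 2) ^ 3 = x ^ 2 := by decide

lemma sq_pow' : ∀ x : ZMod 5, (16 * x ^ 2) ^ 3 = 16 * x ^ 2 := by decide

lemma b3_list : ∀ κ : ZMod 5, κ ≠ 0 → (κ + 27) * (κ + 3) ^ 3 * κ ^ 3 ∈ L3 := by
  decide

lemma s3_list : ∀ μ : ZMod 5, (μ ^ 2 + 12 * μ + 144) ^ 3 = μ ^ 2 + 12 * μ + 144 →
    μ ^ 3 ∈ L3 := by decide

lemma b7_list : ∀ κ : ZMod 5, κ ≠ 0 →
    (κ ^ 2 + 13 * κ + 49) * (κ ^ 2 + 5 * κ + 1) ^ 3 * κ ^ 3 ∈ L7 := by
  decide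

lemma b7_unit : ∀ κ : ZMod 5, κ ^ 2 + 13 * κ + 49 ≠ 0 := by decide

lemma d7_cop : ∀ μ : ZMod 5, μ ^ 3 - 4 * μ ^ 2 + 3 * μ + 1 = 0 →
    μ * (μ + 1) ^ 3 * (μ ^ 2 - 5 * μ + 1) ^ 3 * (μ ^ 2 - 5 * μ + 8) ^ 3 *
          (μ ^ 4 - 5 * μ ^ 3 + 8 * μ ^ 2 - 7 * μ + 7) ^ 3 ≠ 0 := by
  decide

lemma d7_list : ∀ μ : ZMod 5,
    (-7 * ((2 * μ - 5) ^ 4 - 42 * (2 * μ - 5) ^ 2 - 7)) ^ 3 =
      -7 * ((2 * μ - 5) ^ 4 - 42 * (2 * μ - 5) ^ 2 - 7) →
    μ * (μ + 1) ^ 3 * (μ ^ 2 - 5 * μ + 1) ^ 3 * (μ ^ 2 - 5 * μ + 8) ^ 3 *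
          (μ ^ 4 - 5 * μ ^ 3 + 8 * μ ^ 2 - 7 * μ + 7) ^ 3 *
      (μ ^ 3 - 4 * μ ^ 2 + 3 * μ + 1) ∈ L7 := by
  decide

lemma e7_cop : ∀ μ : ZMod 5, μ ^ 3 - 7 * μ ^ 2 + 7 * μ + 7 = 0 →
    64 * (μ * (μ ^ 2 + 7) * (μ ^ 2 - 7 * μ + 14) * (5 * μ ^ 2 - 14 * μ - 7)) ^ 3 ≠ 0 := by
  decide

lemma e7_list : ∀ μ : ZMod 5,
    (7 * (2 * μ ^ 4 - 14 * μ ^ 3 + 21 * μ ^ 2 + 28 * μ + 7)) ^ 3 =
      7 * (2 * μ ^ 4 - 14 * μ ^ 3 + 21 * μ ^ 2 + 28 * μ + 7) →
    64 * (μ * (μ ^ 2 + 7) * (μ ^ 2 - 7 * μ + 14) * (5 * μ ^ 2 - 14 * μ - 7)) ^ 3 *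
      (μ ^ 3 - 7 * μ ^ 2 + 7 * μ + 7) ∈ L7 := by
  decide

lemma inf_list : (8000 : ZMod 5) ∈ L7 := by
  decide

lemma disj : ∀ x : ZMod 5, x ∈ L3 → x ∈ L7 → x = 0 := by
  decide

end N5

section local_

variable {F : Type*} [Field F] {v : Valuation F ℤᵐ⁰}

open N5

/-- no ordinary good reduction at a prime of norm 5 -/
theorem no_ord5 (hq : G v 1 (5 : F)) (hres : ∀ z : F, G v 0 z → G v 1 (z ^ 5 - z))
    {j : F} (h3 : (∃ h : F, h ≠ 0 ∧ j * h = (h + 27) * (h + 3) ^ 3) ∨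
      (∃ m g : F, j = m ^ 3 ∧ g ^ 2 = m ^ 2 + 12 * m + 144))
    (h7 : ((∃ t : F, t ≠ 0 ∧ j * t = (t ^ 2 + 13 * t + 49) * (t ^ 2 + 5 * t + 1) ^ 3) ∨
      (∃ m y c : F, 16 * y ^ 2 = -7 * ((2 * m - 5) ^ 4 - 42 * (2 * m - 5) ^ 2 - 7) ∧
        c = m ^ 3 - 4 * m ^ 2 + 3 * m + 1 ∧
        j * c ^ 7 = m * (m + 1) ^ 3 * (m ^ 2 - 5 * m + 1) ^ 3 * (m ^ 2 - 5 * m + 8) ^ 3 *
        (m ^ 4 - 5 * m ^ 3 + 8 * m ^ 2 - 7 * m + 7) ^ 3) ∨
      (∃ τ y c : F, y ^ 2 = 7 * (2 * τ ^ 4 - 14 * τ ^ 3 + 21 * τ ^ 2 + 28 * τ + 7) ∧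
        c = τ ^ 3 - 7 * τ ^ 2 + 7 * τ + 7 ∧
        j * c ^ 7 = 64 * (τ * (τ ^ 2 + 7) * (τ ^ 2 - 7 * τ + 14) *
        (5 * τ ^ 2 - 14 * τ - 7)) ^ 3)) ∨ j = 8000) (hj : G v 0 j) :
    G v 1 j := by
  have hq' : G v 1 (((5 : ℕ) : F)) := by simpa using hq
  have hqz : G v 1 (((5 : ℤ) : F)) := by simpa using hq
  have u2 : E v 0 (2 : F) := by
    have := E.int hqz (n := 2) (by norm_num); simpa using this
  have u3 : E v 0 (3 : F) := by
    have := E.int hqz (n := 3) (by norm_num); simpa using this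
  have u7 : E v 0 (7 : F) := by
    have := E.int hqz (n := 7) (by norm_num); simpa using this
  obtain ⟨φ, hφ⟩ := exists_red hq' hres
  set ρ := φ ⟨j, memA hj⟩ with hρ
  have m3 : ρ ∈ L3 := by
    rcases h3 with ⟨k, hk, h⟩ | ⟨m, g, h, hg⟩
    · obtain ⟨κ, hκ, e⟩ := b3_red φ hφ u3 hj hk h
      rw [hρ, solve hκ e]
      exact b3_list κ hκ
    · obtain ⟨μ, γ, e1, e2⟩ := s3_red φ hj h hg
      rw [hρ, e1]
      refine s3_list μ ?_
      rw [← e2]
      exact sq_pow γ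
  have m7 : ρ ∈ L7 := by
    rcases h7 with (⟨t, ht, h⟩ | ⟨m, y, c, i1, i2, i3⟩ | ⟨τ, y, c, i1, i2, i3⟩) | h
    · obtain ⟨κ, hκ, e⟩ := b7_red φ hφ u7 hj ht h
      rw [hρ, solve hκ e]
      exact b7_list κ hκ
    · obtain ⟨μ, γ, e1, e2⟩ := d7_red φ u2 hj i1 i2 i3
      have hc : μ ^ 3 - 4 * μ ^ 2 + 3 * μ + 1 ≠ 0 := by
        intro h0
        rw [h0, zero_pow (by norm_num), mul_zero] at e2
        exact d7_cop μ h0 e2.symm
      rw [hρ, solve7 hc e2]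
      refine d7_list μ ?_
      rw [← e1]
      exact sq_pow' γ
    · rcases e7_red φ hφ hj i1 i2 i3 with ⟨μ, γ, e1, e2⟩ | ⟨γ, e1, e2⟩
      · have hc : μ ^ 3 - 7 * μ ^ 2 + 7 * μ + 7 ≠ 0 := by
          intro h0
          rw [h0, zero_pow (by norm_num), mul_zero] at e2
          exact e7_cop μ h0 e2.symm
        rw [hρ, solve7 hc e2]
        refine e7_list μ ?_
        rw [← e1]
        exact sq_pow γ
      · rw [hρ, e2]
        exact inf_list
    · have h1 : (⟨j, memA hj⟩ : v.valuationSubring) = 8000 := Subtype.ext h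
      rw [hρ, h1, map_ofNat]
      exact inf_list
  exact (hφ _).mp (disj ρ m3 m7)

/-- no good reduction at a prime of norm 5 and ramification index 1 with structures of order 5
and 7 -/
theorem no_good5 (hq : E v 1 (5 : F)) (hres : ∀ z : F, G v 0 z → G v 1 (z ^ 5 - z))
    {j k t : F} (hj0 : j ≠ 0) (hk0 : k ≠ 0) (hk : j * k = (k ^ 2 + 10 * k + 5) ^ 3)
    (ht0 : t ≠ 0) (ht : j * t = (t ^ 2 + 13 * t + 49) * (t ^ 2 + 5 * t + 1) ^ 3)
    (h3 : (∃ h : F, h ≠ 0 ∧ j * h = (h + 27) * (h + 3) ^ 3) ∨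
      (∃ m g : F, j = m ^ 3 ∧ g ^ 2 = m ^ 2 + 12 * m + 144)) : 1 < v j := by
  by_contra hcon
  have hj : G v 0 j := G_iff_one.mpr (not_lt.mp hcon)
  have hqG : G v 1 (5 : F) := hq.g le_rfl
  have hj1 := no_ord5 hqG hres h3 (Or.inl (Or.inl ⟨t, ht0, ht⟩)) hj
  obtain ⟨n, hn⟩ := exists_E (v := v) hj0
  have hn1 := hn.le hj1
  have hq' : G v 1 (((5 : ℕ) : F)) := by simpa using hqG
  have hqz : G v 1 (((5 : ℤ) : F)) := by simpa using hqG
  have u7 : E v 0 (7 : F) := by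
    have := E.int hqz (n := 7) (by norm_num); simpa using this
  obtain ⟨φ, hφ⟩ := exists_red hq' hres
  -- the order of `j` is a multiple of 3
  have ut := b7_int u7 hj ht0 ht
  have it : G v 0 t := ut.g le_rfl
  have iq : G v 0 (t ^ 2 + 13 * t + 49) :=
    ((F0pow it 2).add (F0mul (G.ofNat 13) it)).add (G.ofNat 49)
  have uq : E v 0 (t ^ 2 + 13 * t + 49) := by
    rcases iq.cases with h | h
    · exact h
    · exfalso
      have h1 : φ ⟨t ^ 2 + 13 * t + 49, memA iq⟩ = 0 := (hφ _).mpr h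
      have h2 : (⟨t ^ 2 + 13 * t + 49, memA iq⟩ : v.valuationSubring) =
          ⟨t, memA it⟩ ^ 2 + 13 * ⟨t, memA it⟩ + 49 := Subtype.ext rfl
      rw [h2, map_add, map_add, map_mul, map_pow, map_ofNat, map_ofNat] at h1
      exact b7_unit _ h1
  have hb0 : t ^ 2 + 5 * t + 1 ≠ 0 := by
    intro h0
    rw [h0, zero_pow three_ne_zero, mul_zero] at ht
    exact mul_ne_zero hj0 ht0 ht
  obtain ⟨b, hb⟩ := exists_E (v := v) hb0
  have e1 := (hn.mul ut).unique ((uq.mul (hb.pow 3)).congr rfl ht.symm)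
  push_cast at e1
  -- the order of `j` is 1 or 2
  have ha0 : k ^ 2 + 10 * k + 5 ≠ 0 := by
    intro h0
    rw [h0, zero_pow three_ne_zero] at hk
    exact mul_ne_zero hj0 hk0 hk
  obtain ⟨a, ha⟩ := exists_E (v := v) ha0
  obtain ⟨s, hs⟩ := exists_E (v := v) hk0
  have e2 := (hn.mul hs).unique ((ha.pow 3).congr rfl hk.symm)
  push_cast at e2
  have i10 : G v 1 (10 : F) := ((G.ofNat 2).mul hqG).congr le_rfl (by norm_num)
  have h10 : G v (1 + s) (10 * k) := i10.mul (hs.g le_rfl)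
  rcases lt_trichotomy s 0 with h | h | h
  · have h1 : E v (2 * s) (k ^ 2 + 10 * k + 5) :=
      (((hs.pow 2).congr (by norm_num) rfl).add (h10.mono le_rfl) (by omega)).add hqG (by omega)
    have := ha.unique h1
    omega
  · subst h
    have h1 : E v 0 (k ^ 2 + 10 * k + 5) :=
      (((hs.pow 2).congr (by norm_num) rfl).add (h10.mono le_rfl) (by omega)).add hqG (by omega)
    have := ha.unique h1
    omega
  · have h1 : E v 1 (k ^ 2 + 10 * k + 5) := by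
      have h2 : G v 2 (k ^ 2) := (hs.pow 2).g (by push_cast; omega)
      exact E.add' (h2.add (h10.mono (by omega))) hq (by norm_num)
    have := ha.unique h1
    omega

end local_

section global_

open scoped Classical in
/-- the theorem at the primes of norm 5 and ramification index 1 -/
theorem norm5 {F : Type*} [Field F] [NumberField F] [IsTotallyReal F]
    (W : WeierstrassCurve F) [W.IsElliptic]
    (h5 : ∃ C : AddSubgroup (W⁄(AlgebraicClosure F)).Point, Nat.card C = 5 ∧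
      ∀ σ : AlgebraicClosure F ≃ₐ[F] AlgebraicClosure F,
        C.map (Point.map (W' := W) (σ : AlgebraicClosure F →ₐ[F] AlgebraicClosure F)) = C)
    (hab : ∀ σ τ : AlgebraicClosure F ≃ₐ[F] AlgebraicClosure F,
        (∀ z : AlgebraicClosure F, z ^ 2 = -3 → σ z = z ∧ τ z = z) →
        ∀ R : (W⁄(AlgebraicClosure F)).Point, 3 • R = 0 →
          Point.map (W' := W) (σ : AlgebraicClosure F →ₐ[F] AlgebraicClosure F)
            (Point.map (W' := W) (τ : AlgebraicClosure F →ₐ[F] AlgebraicClosure F) R) =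
          Point.map (W' := W) (τ : AlgebraicClosure F →ₐ[F] AlgebraicClosure F)
            (Point.map (W' := W) (σ : AlgebraicClosure F →ₐ[F] AlgebraicClosure F) R))
    (P : HeightOneSpectrum (𝓞 F)) (hP : Ideal.absNorm P.asIdeal = 5)
    (hP2 : (5 : 𝓞 F) ∉ P.asIdeal ^ 2) :
    (((∃ C : AddSubgroup (W⁄(AlgebraicClosure F)).Point, Nat.card C = 7 ∧
        ∀ σ : AlgebraicClosure F ≃ₐ[F] AlgebraicClosure F,
          (∀ z : AlgebraicClosure F, z ^ 7 = 1 → σ z = z) →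
          C.map (Point.map (W' := W) (σ : AlgebraicClosure F →ₐ[F] AlgebraicClosure F)) = C) ∨
      ∀ σ τ : AlgebraicClosure F ≃ₐ[F] AlgebraicClosure F,
        (∀ z : AlgebraicClosure F, z ^ 7 = 1 → σ z = z ∧ τ z = z) →
        ∀ R : (W⁄(AlgebraicClosure F)).Point, 7 • R = 0 →
          Point.map (W' := W) (σ : AlgebraicClosure F →ₐ[F] AlgebraicClosure F)
            (Point.map (W' := W) (τ : AlgebraicClosure F →ₐ[F] AlgebraicClosure F) R) =
          Point.map (W' := W) (τ : AlgebraicClosure F →ₐ[F] AlgebraicClosure F)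
            (Point.map (W' := W) (σ : AlgebraicClosure F →ₐ[F] AlgebraicClosure F) R)) →
      P.valuation F W.j ≠ 1) ∧
    ((∃ C : AddSubgroup (W⁄(AlgebraicClosure F)).Point, Nat.card C = 7 ∧
        ∀ σ : AlgebraicClosure F ≃ₐ[F] AlgebraicClosure F,
          C.map (Point.map (W' := W) (σ : AlgebraicClosure F →ₐ[F] AlgebraicClosure F)) = C) →
      1 < P.valuation F W.j) := by
  obtain ⟨C₅, hC₅, hst₅⟩ := h5
  obtain ⟨k, hk0, hk⟩ := five_point (K := AlgebraicClosure F) W C₅ hC₅ hst₅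
  have hmem : (5 : 𝓞 F) ∈ P.asIdeal := by
    have h2 := Ideal.absNorm_mem P.asIdeal
    rw [hP] at h2
    exact_mod_cast h2
  have e5 : E (P.valuation F) 1 (5 : F) := by
    have := E_of_mem (n := 5) (by norm_num) (P := P) (by exact_mod_cast hmem)
      (by exact_mod_cast hP2)
    exact_mod_cast this
  have hres : ∀ z : F, G (P.valuation F) 0 z → G (P.valuation F) 1 (z ^ 5 - z) := by
    intro z hz
    have := pow_norm_res P hz
    rwa [hP] at this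
  have hs : ∀ s : F, s ^ 2 ≠ 5 := by
    intro s h
    have hs0 : s ≠ 0 := by
      rintro rfl
      apply e5.ne_zero
      rw [← h]; ring
    obtain ⟨n, hn⟩ := exists_E (v := P.valuation F) hs0
    have := e5.unique ((hn.pow 2).congr rfl h)
    push_cast at this
    omega
  obtain ⟨hj0, hj1⟩ := j_ne hs hk
  have h3 := three_struct W hj0 hab
  refine ⟨fun hirr h1 => ?_, fun hC => ?_⟩
  · have h7 := seven_struct W hj0 hj1 hirr
    have u : E (P.valuation F) 0 W.j := E_iff_one.mpr h1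
    exact F_not u (no_ord5 (e5.g le_rfl) hres h3 h7 (u.g le_rfl))
  · obtain ⟨φ⟩ := exists_real F
    obtain ⟨C₇, hC₇, hst₇⟩ := hC
    have hu : ∀ t : F, uu t ≠ 0 := by
      intro t ht
      have h2 := congrArg φ ht
      unfold uu at h2
      rw [map_add, map_add, map_mul, map_pow, map_ofNat, map_ofNat, map_zero] at h2
      nlinarith [sq_nonneg (φ t + 13 / 2)]
    obtain ⟨t, M, hM, hjt, h4, h6⟩ := borel7 hC₇ hst₇ (jrel' W) hu
    have ht0 : t ≠ 0 := by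
      rintro rfl
      have h1 : uu (0 : F) * aa (0 : F) ^ 3 = 49 := by unfold uu aa; ring
      rw [h1, mul_zero] at hjt
      norm_num at hjt
    have hjt' : W.j * t = (t ^ 2 + 13 * t + 49) * (t ^ 2 + 5 * t + 1) ^ 3 := by
      rw [hjt]; unfold uu aa; ring
    exact no_good5 e5 hres hj0 hk0 hk ht0 hjt' h3

end global_

end Pool.Agent.L9
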