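import Pool.Agent.L9.Loc7

/-! # The curves `X₀(3)`, `X(s3)`, `X₀(5)`, `X₀(7)` at the places above 3 (helper9) -/

set_option autoImplicit false

namespace Pool.Agent.L9

open WithZero

variable {F : Type*} [Field F] {v : Valuation F ℤᵐ⁰}

lemma unit3 (h3 : G v 1 (3 : F)) (n : ℤ) (h : IsCoprime n 3) : E v 0 (n : F) :=
  E.int (p := 3) (by simpa using h3) h

/-- `X₀(5)` at a place above 3 whose residue field contains no square root of -1 -/
theorem five_odd (h3 : G v 1 (3 : F)) (hres : ∀ z : F, ¬ G v 1 (z ^ 2 + 1)) {j k : F}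
    (hk : k ≠ 0) (hj : j * k = (k ^ 2 + 10 * k + 5) ^ 3) : 1 ≤ v j := by
  have u5 : E v 0 (5 : F) := (unit3 h3 5 (by norm_num)).congr rfl (by norm_num)
  by_cases hj0 : j = 0
  · exfalso
    have hq : k ^ 2 + 10 * k + 5 = 0 := by
      rw [hj0, zero_mul] at hj
      exact (pow_eq_zero_iff (by norm_num)).mp hj.symm
    apply hres (k + 5)
    have : G v 1 (7 * 3 : F) := ((G.ofNat 7).mul h3).mono (by norm_num)
    exact this.congr le_rfl (by linear_combination -hq)
  obtain ⟨n, hn⟩ := exists_E (v := v) hj0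
  rw [le_one_of_E hn]
  by_contra hcon
  obtain ⟨hk1, a, hna, ha⟩ := five_order u5 hk hj hn (by omega)
  apply hres (k + 5)
  have h1 : G v 1 (7 * 3 : F) := ((G.ofNat 7).mul h3).mono (by norm_num)
  have h2 : G v 1 (k ^ 2 + 10 * k + 5) := ha.g (by omega)
  exact (h2.add h1).congr le_rfl (by ring)

/-- `X₀(5)` at a place above 7 whose residue field contains no square root of -1 -/
theorem five_odd7 (h7 : G v 1 (7 : F)) (hres : ∀ z : F, ¬ G v 1 (z ^ 2 + 1)) {j k : F}
    (hk : k ≠ 0) (hj : j * k = (k ^ 2 + 10 * k + 5) ^ 3) : 1 ≤ v (j - 1728) := by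
  have un : ∀ n : ℤ, IsCoprime n 7 → E v 0 (n : F) := fun n h =>
    E.int (p := 7) (by simpa using h7) h
  have u5 : E v 0 (5 : F) := (un 5 (by norm_num)).congr rfl (by norm_num)
  have u2 : E v 0 (2 : F) := (un 2 (by norm_num)).congr rfl (by norm_num)
  have u3 : E v 0 (3 : F) := (un 3 (by norm_num)).congr rfl (by norm_num)
  have u125 : E v 0 (125 : F) := (un 125 (by norm_num)).congr rfl (by norm_num)
  have key : (j - 1728) * k = (k ^ 2 + 22 * k + 125) * (k ^ 2 + 4 * k - 1) ^ 2 := by
    linear_combination hj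
  have n1 : ¬ G v 1 (k ^ 2 + 22 * k + 125) := by
    intro h
    apply hres ((k + 11) / 2)
    have h2 := u2.ne_zero
    have e : ((k + 11) / 2) ^ 2 + 1 = (k ^ 2 + 22 * k + 125) * (2⁻¹ * 2⁻¹) := by
      field_simp
      ring
    rw [e]
    have i2 : E v 0 (2⁻¹ : F) := by
      rw [E_iff_one] at *
      rw [map_inv₀, u2, inv_one]
    exact (h.mul ((i2.mul i2).g le_rfl)).mono (by norm_num)
  have n2 : ¬ G v 1 (k ^ 2 + 4 * k - 1) := by
    intro h
    apply hres ((k + 2) / 3)
    have h3 := u3.ne_zero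
    have e : ((k + 2) / 3) ^ 2 + 1 = ((k ^ 2 + 4 * k - 1) + 2 * 7) * (3⁻¹ * 3⁻¹) := by
      field_simp
      ring
    rw [e]
    have i3 : E v 0 (3⁻¹ : F) := by
      rw [E_iff_one] at *
      rw [map_inv₀, u3, inv_one]
    have h5 : G v 1 (2 * 7 : F) := ((G.ofNat 2).mul h7).mono (by norm_num)
    exact ((h.add h5).mul ((i3.mul i3).g le_rfl)).mono (by norm_num)
  have hA0 : k ^ 2 + 22 * k + 125 ≠ 0 := fun h => n1 (by rw [h]; exact G.zero)
  have hB0 : k ^ 2 + 4 * k - 1 ≠ 0 := fun h => n2 (by rw [h]; exact G.zero)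
  have hJ0 : j - 1728 ≠ 0 := by
    intro h
    rw [h, zero_mul] at key
    exact mul_ne_zero hA0 (pow_ne_zero 2 hB0) key.symm
  obtain ⟨n, hn⟩ := exists_E (v := v) hJ0
  obtain ⟨s, hs⟩ := exists_E (v := v) hk
  obtain ⟨a, ha⟩ := exists_E (v := v) hA0
  obtain ⟨b, hb⟩ := exists_E (v := v) hB0
  have ha1 : a ≤ 0 := by
    by_contra h
    exact n1 (ha.g (by omega))
  have hb1 : b ≤ 0 := by
    by_contra h
    exact n2 (hb.g (by omega))
  have h1 := (hn.mul hs).unique ((ha.mul (hb.pow 2)).congr rfl key.symm)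
  push_cast at h1
  rw [le_one_of_E hn]
  by_contra hcon
  have hs0 : s < 0 := by
    by_contra h
    omega
  have i22 : G v 0 (22 : F) := G.ofNat 22
  have i4 : G v 0 (4 : F) := G.ofNat 4
  have h2 : E v (2 * s) (k ^ 2 + 22 * k + 125) :=
    (((hs.pow 2).congr (by norm_num) rfl).add ((i22.mul (hs.g le_rfl)).mono le_rfl)
      (by omega)).add (u125.g le_rfl) (by omega)
  have h3 : E v (2 * s) (k ^ 2 + 4 * k - 1) :=
    ((((hs.pow 2).congr (by norm_num) rfl).add ((i4.mul (hs.g le_rfl)).mono le_rfl)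
      (by omega)).add (E.one.neg.g le_rfl) (by omega)).congr rfl (by ring)
  have h4 := ha.unique h2
  have h5 := hb.unique h3
  omega

section unramified

variable (h3 : E v 1 (3 : F))

include h3

/-- `X₀(7)` at an unramified place above 3 -/
theorem seven_three {j t : F} (ht : t ≠ 0)
    (hj : j * t = (t ^ 2 + 13 * t + 49) * (t ^ 2 + 5 * t + 1) ^ 3)
    {n : ℤ} (hn : E v n j) (hn1 : 1 ≤ n) : E v 0 t ∧ n ≤ 3 := by
  have g3 : G v 1 (3 : F) := h3.g le_rfl
  obtain ⟨s, hs⟩ := exists_E (v := v) ht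
  have h1 := hn.mul hs
  have u1 : E v 0 (1 : F) := E.one
  have u49 : E v 0 (49 : F) := (unit3 g3 49 (by norm_num)).congr rfl (by norm_num)
  have u4 : E v 0 (4 : F) := (unit3 g3 4 (by norm_num)).congr rfl (by norm_num)
  have i13 : G v 0 (13 : F) := G.ofNat 13
  have i5 : G v 0 (5 : F) := G.ofNat 5
  have hp0 : t ^ 2 + 13 * t + 49 ≠ 0 := by
    intro h0
    apply h1.ne_zero
    rw [hj, h0]; ring
  have hq0 : t ^ 2 + 5 * t + 1 ≠ 0 := by
    intro h0
    apply h1.ne_zero
    rw [hj, h0]; ring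
  obtain ⟨a, ha⟩ := exists_E (v := v) hp0
  obtain ⟨b, hb⟩ := exists_E (v := v) hq0
  have h2 := h1.unique ((ha.mul (hb.pow 3)).congr rfl hj.symm)
  push_cast at h2
  have hs0 : s = 0 := by
    rcases lt_trichotomy s 0 with h | h | h
    · have h4 : E v (2 * s) (t ^ 2 + 13 * t + 49) :=
        (((hs.pow 2).congr (by norm_num) rfl).add ((i13.mul (hs.g le_rfl)).mono le_rfl)
          (by omega)).add (u49.g le_rfl) (by omega)
      have h5 : E v (2 * s) (t ^ 2 + 5 * t + 1) :=
        (((hs.pow 2).congr (by norm_num) rfl).add ((i5.mul (hs.g le_rfl)).mono le_rfl)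
          (by omega)).add (u1.g le_rfl) (by omega)
      have := ha.unique h4
      have := hb.unique h5
      omega
    · exact h
    · have h4 : E v 0 (t ^ 2 + 13 * t + 49) := by
        have h4 : G v 1 (t ^ 2 + 13 * t) :=
          ((hs.pow 2).g (by push_cast; omega)).add ((i13.mul (hs.g le_rfl)).mono (by omega))
        exact E.add' h4 u49 (by norm_num)
      have h5 : E v 0 (t ^ 2 + 5 * t + 1) := by
        have h4 : G v 1 (t ^ 2 + 5 * t) :=
          ((hs.pow 2).g (by push_cast; omega)).add ((i5.mul (hs.g le_rfl)).mono (by omega))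
        exact E.add' h4 u1 (by norm_num)
      have := ha.unique h4
      have := hb.unique h5
      omega
  subst hs0
  refine ⟨hs, ?_⟩
  have u2 : G v 0 (2 : F) := G.ofNat 2
  have ix : G v 0 (2 * t + 13) := ((u2.mul (hs.g le_rfl)).mono le_rfl).add i13
  have h27 : E v 3 (27 : F) := (h3.pow 3).congr (by norm_num) (by norm_num)
  have hA : E v (0 + a) (4 * (t ^ 2 + 13 * t + 49)) := u4.mul ha
  have hB : E v (0 + b) (4 * (t ^ 2 + 5 * t + 1)) := u4.mul hb
  have u64 : E v 0 (64 : F) := (unit3 g3 64 (by norm_num)).congr rfl (by norm_num)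
  rcases ix.cases with hx | hx
  · -- `2 t + 13` is a unit
    have ha0 : 0 + a = 0 :=
      hA.unique (((hx.pow 2).congr (by norm_num) rfl).add (h27.g (by norm_num : (1:ℤ) ≤ 3))
        (by norm_num) |>.congr rfl (by ring))
    have iy : G v 0 (2 * t + 5) := ((u2.mul (hs.g le_rfl)).mono le_rfl).add i5
    have h21 : E v 1 (-21 : F) :=
      (((unit3 g3 (-7) (by norm_num)).congr rfl (by norm_num) : E v 0 (-7 : F)).mul h3).congr
        (by norm_num) (by norm_num)
    rcases iy.cases with hy | hy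
    · have hb0 : 0 + b = 0 :=
        hB.unique (((hy.pow 2).congr (by norm_num) rfl).add (h21.g le_rfl)
          (by norm_num) |>.congr rfl (by ring))
      omega
    · have hb0 : 0 + b = 1 :=
        hB.unique (h21.add ((hy.pow 2).mono (by norm_num : (2:ℤ) ≤ _)) (by norm_num)
          |>.congr rfl (by ring))
      omega
  · -- `2 t + 13` is not a unit
    have hb0 : 0 + b = 0 := by
      have h5 : G v 1 ((2 * t + 13) * (2 * t - 3) + -(3 * 7)) := by
        refine ((hx.mul (((u2.mul (hs.g le_rfl)).mono le_rfl).sub (G.ofNat 3))).mono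
          (by norm_num)).add ?_
        exact ((g3.mul (G.ofNat 7)).neg).mono (by norm_num)
      exact hB.unique (u64.add h5 (by norm_num) |>.congr rfl (by ring))
    have hxx : 2 * t + 13 = 0 ∨ ∃ m, E v m (2 * t + 13) := by
      by_cases h : 2 * t + 13 = 0
      · exact Or.inl h
      · exact Or.inr (exists_E h)
    have hA3 : 0 + a ≤ 3 := by
      rcases hxx with h | ⟨m, hm⟩
      · have := hA.unique (h27.congr rfl (by linear_combination -(2 * t + 13) * h))
        omega
      · have hm1 := hm.le hx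
        by_cases h : m = 1
        · subst h
          have := hA.unique (((hm.pow 2).congr (by norm_num : _ = (2:ℤ)) rfl).add
            (h27.g le_rfl) (by norm_num) |>.congr rfl (by ring))
          omega
        · have := hA.unique (h27.add ((hm.pow 2).g (by push_cast; omega : (4:ℤ) ≤ _))
            (by norm_num) |>.congr rfl (by ring))
          omega
    omega

/-- `X₀(5)` at an unramified place above 3 -/
theorem five_three {j k : F} (hj1 : j ≠ 1728) (hk : E v 0 k)
    (hj : j * k = (k ^ 2 + 10 * k + 5) ^ 3) (hq : E v 1 (k ^ 2 + 10 * k + 5))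
    {b : ℤ} (hb : E v (2 * b) (j - 1728)) : 3 ≤ b := by
  have g3 : G v 1 (3 : F) := h3.g le_rfl
  have hk0 := hk.ne_zero
  have key : (j - 1728) * k = (k ^ 2 + 22 * k + 125) * (k ^ 2 + 4 * k - 1) ^ 2 := by
    linear_combination hj
  have hJ : j - 1728 ≠ 0 := sub_ne_zero.mpr hj1
  have hA0 : k ^ 2 + 22 * k + 125 ≠ 0 := by
    intro h0
    rw [h0, zero_mul] at key
    rcases mul_eq_zero.mp key with h | h
    · exact hJ h
    · exact hk0 h
  have hB0 : k ^ 2 + 4 * k - 1 ≠ 0 := by
    intro h0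
    rw [h0] at key
    have : (j - 1728) * k = 0 := by rw [key]; ring
    rcases mul_eq_zero.mp this with h | h
    · exact hJ h
    · exact hk0 h
  -- `k + 1` is a unit
  have u4 : E v 0 (-4 : F) := (unit3 g3 (-4) (by norm_num)).congr rfl (by norm_num)
  have ik : G v 0 k := hk.g le_rfl
  have uk1 : E v 0 (k + 1) := by
    rcases (ik.add (E.one.g le_rfl) : G v 0 (k + 1)).cases with h | h
    · exact h
    · exfalso
      have h1 : E v 0 (k ^ 2 + 10 * k + 5) :=
        (u4.add ((h.mul (ik.add (G.ofNat 9))).mono (by norm_num : (1:ℤ) ≤ _))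
          (by norm_num)).congr rfl (by ring)
      have := h1.unique hq
      omega
  have g6 : G v 1 (6 : F) := ((G.ofNat 2).mul g3 |>.mono (by norm_num : (1:ℤ) ≤ _)).congr
    le_rfl (by norm_num)
  have uk7 : E v 0 (k + 7) := (uk1.add g6 (by norm_num)).congr rfl (by ring)
  have u2 : E v 0 (2 : F) := (unit3 g3 2 (by norm_num)).congr rfl (by norm_num)
  have h18 : E v 2 (18 * (k + 7)) := by
    have := (u2.mul (h3.pow 2)).mul uk7
    exact this.congr (by norm_num) (by ring)
  obtain ⟨a, ha⟩ := exists_E (v := v) hA0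
  obtain ⟨c, hc⟩ := exists_E (v := v) hB0
  have hc1 : 1 ≤ c := by
    have h1 : G v 1 (k ^ 2 + 4 * k - 1) := by
      have h2 : G v 1 (6 * (k + 1)) := (g6.mul (uk1.g le_rfl)).mono (by norm_num)
      exact ((hq.g le_rfl).sub h2).congr le_rfl (by ring)
    exact hc.le h1
  have h4 := (hb.mul hk).unique (((ha.mul (hc.pow 2))).congr rfl key.symm)
  push_cast at h4
  by_cases h : c = 1
  · subst h
    have h5 : E v 1 (k ^ 2 + 22 * k + 125) :=
      (hc.add (h18.g le_rfl) (by norm_num)).congr rfl (by ring)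
    have := ha.unique h5
    omega
  · have h5 : G v 2 (k ^ 2 + 22 * k + 125) :=
      ((hc.g (by omega : (2:ℤ) ≤ c)).add (h18.g le_rfl)).congr le_rfl (by ring)
    have := ha.le h5
    omega

/-- `X₀(3)` at an unramified place above 3 -/
theorem three_three {j h : F} (hh : h ≠ 0) (hj : j * h = (h + 27) * (h + 3) ^ 3)
    {n : ℤ} (hn : E v n j) (hn1 : 1 ≤ n) (hJ : G v 6 (j - 1728)) : False := by
  have g3 : G v 1 (3 : F) := h3.g le_rfl
  have key : (j - 1728) * h = (h ^ 2 + 18 * h - 27) ^ 2 := by linear_combination hj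
  obtain ⟨s, hs⟩ := exists_E (v := v) hh
  have h27 : E v 3 (27 : F) := (h3.pow 3).congr (by norm_num) (by norm_num)
  have h18 : G v 2 (18 : F) := ((G.ofNat 2).mul (g3.pow 2) |>.mono
    (by norm_num : (2:ℤ) ≤ _)).congr le_rfl (by norm_num)
  have hs1 : 1 ≤ s := by
    by_contra hcon
    have e1 : E v s (h + 27) := hs.add (h27.g le_rfl) (by omega)
    have e2 : G v s (h + 3) := (hs.g le_rfl).add (g3.mono (by omega))
    have h1 := hn.mul hs
    rw [hj] at h1
    by_cases h0 : s = 0
    · subst h0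
      have e3 : E v 0 (h + 3) := hs.add g3 (by norm_num)
      have := h1.unique (e1.mul (e3.pow 3))
      push_cast at this
      omega
    · have e3 : E v s (h + 3) := hs.add (g3) (by omega)
      have := h1.unique (e1.mul (e3.pow 3))
      push_cast at this
      omega
  by_cases hq : h ^ 2 + 18 * h - 27 = 0
  · -- impossible: the order of this number is at most 3
    have e27 : E v 3 (-27 : F) := h27.neg
    by_cases h1 : s = 1
    · subst h1
      have : E v 2 (h ^ 2 + 18 * h - 27) :=
        (((hs.pow 2).congr (by norm_num : _ = (2:ℤ)) rfl).add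
          ((h18.mul (hs.g le_rfl)).mono (by norm_num : (3:ℤ) ≤ _)) (by norm_num)).add
          (e27.g le_rfl) (by norm_num) |>.congr rfl (by ring)
      exact this.ne_zero hq
    · have : E v 3 (h ^ 2 + 18 * h - 27) := by
        have h4 : G v 4 (h ^ 2 + 18 * h) :=
          ((hs.pow 2).g (by push_cast; omega)).add ((h18.mul (hs.g le_rfl)).mono (by omega))
        exact (E.add' h4 e27 (by norm_num)).congr rfl (by ring)
      exact this.ne_zero hq
  have hJ0 : j - 1728 ≠ 0 := by
    intro h0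
    rw [h0, zero_mul] at key
    exact pow_ne_zero 2 hq key.symm
  obtain ⟨r, hr⟩ := exists_E (v := v) hJ0
  have hr6 := hr.le hJ
  have h1 := hr.mul hs
  rw [key] at h1
  have e27 : E v 3 (-27 : F) := h27.neg
  by_cases h0 : s = 1
  · subst h0
    have : E v 2 (h ^ 2 + 18 * h - 27) :=
      (((hs.pow 2).congr (by norm_num : _ = (2:ℤ)) rfl).add
        ((h18.mul (hs.g le_rfl)).mono (by norm_num : (3:ℤ) ≤ _)) (by norm_num)).add
        (e27.g le_rfl) (by norm_num) |>.congr rfl (by ring)
    have := h1.unique (this.pow 2)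
    push_cast at this
    omega
  · have : E v 3 (h ^ 2 + 18 * h - 27) := by
      have h4 : G v 4 (h ^ 2 + 18 * h) :=
        ((hs.pow 2).g (by push_cast; omega)).add ((h18.mul (hs.g le_rfl)).mono (by omega))
      exact (E.add' h4 e27 (by norm_num)).congr rfl (by ring)
    have := h1.unique (this.pow 2)
    push_cast at this
    omega

/-- `X(s3)` at an unramified place above 3 -/
theorem split_three {j m g : F} (hj : j = m ^ 3) (hg : g ^ 2 = m ^ 2 + 12 * m + 144)
    (hn : E v 3 j) (hJ : G v 6 (j - 1728)) : False := by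
  have g3 : G v 1 (3 : F) := h3.g le_rfl
  have h30 := h3.ne_zero
  have hm0 : m ≠ 0 := by
    rintro rfl
    apply hn.ne_zero
    rw [hj]; ring
  obtain ⟨a, ha⟩ := exists_E (v := v) hm0
  have h1 := hn.unique ((ha.pow 3).congr rfl hj.symm)
  push_cast at h1
  have ha1 : a = 1 := by omega
  subst ha1
  obtain ⟨c, hc⟩ : ∃ c, m = 3 * c := ⟨m / 3, by field_simp⟩
  obtain ⟨e, he⟩ : ∃ e, g = 3 * e := ⟨g / 3, by field_simp⟩
  have hc0 : c ≠ 0 := by
    rintro rfl
    apply hm0
    rw [hc]; ring
  obtain ⟨l, hl⟩ := exists_E (v := v) hc0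
  have h2 := ha.unique ((h3.mul hl).congr rfl hc.symm)
  have hl0 : l = 0 := by omega
  subst hl0
  have hg' : e ^ 2 = c ^ 2 + 4 * c + 16 := by
    have : (3 * 3 : F) * (e ^ 2 - (c ^ 2 + 4 * c + 16)) = 0 := by
      rw [hc, he] at hg
      linear_combination hg
    exact sub_eq_zero.mp ((mul_eq_zero.mp this).resolve_left (mul_ne_zero h30 h30))
  have ic : G v 0 c := hl.g le_rfl
  rcases (ic.sub (E.one.g le_rfl) : G v 0 (c - 1)).cases with h | h
  · -- `c - 1` is a unit: `j - 1728` has order 3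
    have u1 : E v 0 (c - 4) := (h.add (g3.neg) (by norm_num)).congr rfl (by ring)
    have u2 : E v 0 (c ^ 2 + 4 * c + 16) := by
      have h4 : G v 1 (3 * (2 * c + 5)) :=
        (g3.mul (((G.ofNat 2).mul ic |>.mono (by norm_num : (0:ℤ) ≤ _)).add
          (G.ofNat 5))).mono (by norm_num)
      exact (((h.pow 2).congr (by norm_num : _ = (0:ℤ)) rfl).add h4 (by norm_num)).congr rfl
        (by ring)
    have h5 : E v 3 (j - 1728) := by
      have := (h3.pow 3).mul (u1.mul u2)
      exact this.congr (by norm_num) (by rw [hj, hc]; ring)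
    have := h5.le hJ
    omega
  · -- `c - 1` is not a unit: the order of `e²` is odd
    have h4 : G v 1 (c + 2) := (h.add g3).congr le_rfl (by ring)
    have h12 : E v 1 (12 : F) :=
      (((unit3 g3 4 (by norm_num)).congr rfl (by norm_num) : E v 0 (4 : F)).mul h3).congr
        (by norm_num) (by norm_num)
    have h5 : E v 1 (e ^ 2) := by
      rw [hg']
      exact (h12.add ((h4.pow 2).mono (by norm_num : (2:ℤ) ≤ _)) (by norm_num)).congr rfl
        (by ring)
    have he0 : e ≠ 0 := by
      rintro rfl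
      apply h5.ne_zero
      ring
    obtain ⟨r, hr⟩ := exists_E (v := v) he0
    have := h5.unique (hr.pow 2)
    push_cast at this
    omega

end unramified

end Pool.Agent.L9
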