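import Pool.Agent.L9.ThreeA

/-! # The residue field of a prime of norm `q` (helper83) -/

set_option autoImplicit false

namespace Pool.Agent.L9

open NumberField IsDedekindDomain WithZero

variable {F : Type*} [Field F] [NumberField F]

/-- every integral element satisfies `z ^ q = z` modulo a prime of norm `q` -/
theorem pow_norm_res (P : HeightOneSpectrum (𝓞 F)) {z : F} (hz : G (P.valuation F) 0 z) :
    G (P.valuation F) 1 (z ^ Ideal.absNorm P.asIdeal - z) := by
  classical
  have hz' : P.valuation F z ≤ 1 := G_iff_one.mp hz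
  obtain ⟨a, ha⟩ := P.exists_valuation_sub_lt_of_integer (K := F) hz' 1
  have : P.asIdeal.IsMaximal := P.isMaximal
  letI : Field (𝓞 F ⧸ P.asIdeal) := Ideal.Quotient.field P.asIdeal
  haveI : Finite (𝓞 F ⧸ P.asIdeal) := Ideal.finiteQuotientOfFreeOfNeBot P.asIdeal P.ne_bot
  letI : Fintype (𝓞 F ⧸ P.asIdeal) := Fintype.ofFinite _
  have hcard : Fintype.card (𝓞 F ⧸ P.asIdeal) = Ideal.absNorm P.asIdeal := by
    rw [← Nat.card_eq_fintype_card]
    rfl
  have h1 : a ^ Ideal.absNorm P.asIdeal - a ∈ P.asIdeal := by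
    rw [← Ideal.Quotient.eq_zero_iff_mem, map_sub, map_pow, ← hcard, FiniteField.pow_card, sub_self]
  have hlt : ∀ x : F, P.valuation F x < 1 → G (P.valuation F) 1 x := by
    intro x hx
    by_cases h0 : x = 0
    · rw [h0]; exact G.zero
    obtain ⟨n, hn⟩ := exists_E (v := P.valuation F) h0
    exact hn.g ((lt_one_of_E hn).mp hx)
  have h2 : G (P.valuation F) 1 ((algebraMap (𝓞 F) F a) ^ Ideal.absNorm P.asIdeal -
      algebraMap (𝓞 F) F a) := by
    apply hlt
    rw [← map_pow, ← map_sub, P.valuation_of_algebraMap]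
    exact (P.intValuation_lt_one_iff_mem _).mpr h1
  have ia : G (P.valuation F) 0 (algebraMap (𝓞 F) F a) := by
    rw [G_iff_one]
    exact P.valuation_le_one a
  have h3 : Cg (P.valuation F) (algebraMap (𝓞 F) F a) z := by
    refine ⟨ia, hz, hlt _ ?_⟩
    simpa using ha
  have h4 := (h3.pow (Ideal.absNorm P.asIdeal)).sub h3
  exact (h2.sub h4.2.2).congr le_rfl (by ring)

end Pool.Agent.L9
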