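import Pool.Agent.L9.OutE5
import Pool.Agent.L9.Final
import Pool.Agent.L9.ResNorm
import Pool.Agent.L9.Fin13
import Pool.Agent.L9.Fin47

/-! # The theorem at the primes of norm 13 and 47 (helper94, for helper9) -/

set_option autoImplicit false

namespace Pool.Agent.L9

open NumberField WeierstrassCurve WeierstrassCurve.Affine IsDedekindDomain WithZero
  Pool.Agent.H42M Pool.Agent.M7

section local_

variable {F : Type*} [Field F] {v : Valuation F ℤᵐ⁰}

/-- the exceptional value 8000 at a prime of norm 13 -/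
theorem no_8000_13 (hq : G v 1 (13 : F)) (hres : ∀ z : F, G v 0 z → G v 1 (z ^ 13 - z))
    {j k : F} (hj8 : j = 8000) (hk : k ≠ 0) (h : j * k = (k ^ 2 + 10 * k + 5) ^ 3) : False := by
  have hq' : G v 1 (((13 : ℕ) : F)) := by simpa using hq
  have hqz : G v 1 (((13 : ℤ) : F)) := by simpa using hq
  have u5 : E v 0 (5 : F) := by
    have := E.int hqz (n := 5) (by norm_num); simpa using this
  have hj : G v 0 j := by
    rw [hj8]
    have := G.int (v := v) 8000
    simpa using this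
  obtain ⟨φ, hφ⟩ := exists_red hq' hres
  obtain ⟨κ, hκ, e⟩ := five_red φ hφ u5 hj hk h
  have h1 := N13.five_list κ hκ
  rw [← N13.solve hκ e] at h1
  have h2 : φ ⟨j, memA hj⟩ = 8000 := by
    rw [show (⟨j, memA hj⟩ : v.valuationSubring) = 8000 from Subtype.ext hj8]
    exact map_ofNat φ 8000
  rw [h2] at h1
  revert h1
  decide

/-- the exceptional value 8000 at a prime of norm 47 -/
theorem no_8000_47 (hq : G v 1 (47 : F)) (hres : ∀ z : F, G v 0 z → G v 1 (z ^ 47 - z))
    {j k : F} (hj8 : j = 8000) (hk : k ≠ 0) (h : j * k = (k ^ 2 + 10 * k + 5) ^ 3) : False := by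
  have hq' : G v 1 (((47 : ℕ) : F)) := by simpa using hq
  have hqz : G v 1 (((47 : ℤ) : F)) := by simpa using hq
  have u5 : E v 0 (5 : F) := by
    have := E.int hqz (n := 5) (by norm_num); simpa using this
  have hj : G v 0 j := by
    rw [hj8]
    have := G.int (v := v) 8000
    simpa using this
  obtain ⟨φ, hφ⟩ := exists_red hq' hres
  obtain ⟨κ, hκ, e⟩ := five_red φ hφ u5 hj hk h
  have h1 := N47.five_list κ hκ
  rw [← N47.solve hκ e] at h1
  have h2 : φ ⟨j, memA hj⟩ = 8000 := by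
    rw [show (⟨j, memA hj⟩ : v.valuationSubring) = 8000 from Subtype.ext hj8]
    exact map_ofNat φ 8000
  rw [h2] at h1
  revert h1
  decide

/-- 5 is not a square at a prime of norm 13 -/
theorem sq_ne_five13 (hq : G v 1 (13 : F)) (hres : ∀ z : F, G v 0 z → G v 1 (z ^ 13 - z))
    (s : F) : s ^ 2 ≠ 5 := by
  intro hs
  have hqz : G v 1 (((13 : ℤ) : F)) := by simpa using hq
  have u5 : E v 0 (5 : F) := by
    have := E.int hqz (n := 5) (by norm_num); simpa using this
  have h0 : s ≠ 0 := by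
    rintro rfl
    apply u5.ne_zero
    rw [← hs]; ring
  obtain ⟨n, hn⟩ := exists_E (v := v) h0
  have h1 := u5.unique ((hn.pow 2).congr rfl hs)
  have hn0 : n = 0 := by push_cast at h1; omega
  subst hn0
  have h2 := hres s (hn.g le_rfl)
  have u : E v 0 (15624 : F) := by
    have := E.int hqz (n := 15624) (by norm_num); simpa using this
  have h3 : E v 0 (s ^ 13 - s) := (hn.mul u).congr (by norm_num) (by
    have : s ^ 13 = (s ^ 2) ^ 6 * s := by ring
    rw [this, hs]; ring)
  have h4 := h3.le h2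
  omega

/-- 5 is not a square at a prime of norm 47 -/
theorem sq_ne_five47 (hq : G v 1 (47 : F)) (hres : ∀ z : F, G v 0 z → G v 1 (z ^ 47 - z))
    (s : F) : s ^ 2 ≠ 5 := by
  intro hs
  have hqz : G v 1 (((47 : ℤ) : F)) := by simpa using hq
  have u5 : E v 0 (5 : F) := by
    have := E.int hqz (n := 5) (by norm_num); simpa using this
  have h0 : s ≠ 0 := by
    rintro rfl
    apply u5.ne_zero
    rw [← hs]; ring
  obtain ⟨n, hn⟩ := exists_E (v := v) h0
  have h1 := u5.unique ((hn.pow 2).congr rfl hs)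
  have hn0 : n = 0 := by push_cast at h1; omega
  subst hn0
  have h2 := hres s (hn.g le_rfl)
  have u : E v 0 (11920928955078124 : F) := by
    have := E.int hqz (n := 11920928955078124) (by norm_num); simpa using this
  have h3 : E v 0 (s ^ 47 - s) := (hn.mul u).congr (by norm_num) (by
    have : s ^ 47 = (s ^ 2) ^ 23 * s := by ring
    rw [this, hs]; ring)
  have h4 := h3.le h2
  omega

end local_

section global_

variable {F : Type*} [Field F] [NumberField F]

lemma G_of_norm {P : HeightOneSpectrum (𝓞 F)} {q : ℕ} (hN : Ideal.absNorm P.asIdeal = q) :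
    G (P.valuation F) 1 (q : F) := by
  have h2 := Ideal.absNorm_mem P.asIdeal
  rw [hN] at h2
  have hval : P.valuation F (q : F) = P.intValuation (q : 𝓞 F) := by
    have h1 : (q : F) = algebraMap (𝓞 F) F (q : 𝓞 F) := by simp
    rw [h1]; exact P.valuation_of_algebraMap (K := F) _
  rw [G_one_iff, hval]
  exact (P.intValuation_lt_one_iff_mem _).mpr h2

end global_

section structures

variable {F : Type*} [Field F] [NumberField F] [IsTotallyReal F]

open scoped Classical in
/-- the structure at 7: a point of `X₀(7)`, of `X(d7)` or of `X(e7)`, or `j = 8000` -/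
theorem seven_struct (W : WeierstrassCurve F) [W.IsElliptic] (hj0 : W.j ≠ 0) (hj1 : W.j ≠ 1728)
    (hirr : (∃ C : AddSubgroup (W⁄(AlgebraicClosure F)).Point, Nat.card C = 7 ∧
        ∀ σ : AlgebraicClosure F ≃ₐ[F] AlgebraicClosure F,
          (∀ z : AlgebraicClosure F, z ^ 7 = 1 → σ z = z) →
          C.map (Point.map (W' := W) (σ : AlgebraicClosure F →ₐ[F] AlgebraicClosure F)) = C) ∨
      ∀ σ τ : AlgebraicClosure F ≃ₐ[F] AlgebraicClosure F,
        (∀ z : AlgebraicClosure F, z ^ 7 = 1 → σ z = z ∧ τ z = z) →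
        ∀ R : (W⁄(AlgebraicClosure F)).Point, 7 • R = 0 →
          Point.map (W' := W) (σ : AlgebraicClosure F →ₐ[F] AlgebraicClosure F)
            (Point.map (W' := W) (τ : AlgebraicClosure F →ₐ[F] AlgebraicClosure F) R) =
          Point.map (W' := W) (τ : AlgebraicClosure F →ₐ[F] AlgebraicClosure F)
            (Point.map (W' := W) (σ : AlgebraicClosure F →ₐ[F] AlgebraicClosure F) R)) :
    ((∃ t : F, t ≠ 0 ∧ W.j * t = (t ^ 2 + 13 * t + 49) * (t ^ 2 + 5 * t + 1) ^ 3) ∨
      (∃ m y c : F, 16 * y ^ 2 = -7 * ((2 * m - 5) ^ 4 - 42 * (2 * m - 5) ^ 2 - 7) ∧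
        c = m ^ 3 - 4 * m ^ 2 + 3 * m + 1 ∧
        W.j * c ^ 7 = m * (m + 1) ^ 3 * (m ^ 2 - 5 * m + 1) ^ 3 * (m ^ 2 - 5 * m + 8) ^ 3 *
        (m ^ 4 - 5 * m ^ 3 + 8 * m ^ 2 - 7 * m + 7) ^ 3) ∨
      (∃ τ y c : F, y ^ 2 = 7 * (2 * τ ^ 4 - 14 * τ ^ 3 + 21 * τ ^ 2 + 28 * τ + 7) ∧
        c = τ ^ 3 - 7 * τ ^ 2 + 7 * τ + 7 ∧
        W.j * c ^ 7 = 64 * (τ * (τ ^ 2 + 7) * (τ ^ 2 - 7 * τ + 14) *
        (5 * τ ^ 2 - 14 * τ - 7)) ^ 3)) ∨ W.j = 8000 := by
  obtain ⟨φ⟩ := exists_real F
  obtain ⟨c, hcc, hc3, hc7⟩ := exists_conj7 (K := AlgebraicClosure F) φ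
  have hu : ∀ t : F, uu t ≠ 0 := by
    intro t ht
    have h2 := congrArg φ ht
    unfold uu at h2
    rw [map_add, map_add, map_mul, map_pow, map_ofNat, map_ofNat, map_zero] at h2
    nlinarith [sq_nonneg (φ t + 13 / 2)]
  have hA := seven_cases5 (K := AlgebraicClosure F) φ
    c hcc hc7 W hj0 hj1 (by
      rcases hirr with ⟨C, hC, hst⟩ | hab
      · exact Or.inl ⟨C, hC, fun σ hσ => hst σ hσ⟩
      · refine Or.inr fun σ τ hσ hτ R hR => hab σ τ (fun z hz => ⟨hσ z hz, hτ z hz⟩) R ?_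
        rw [← natCast_zsmul]
        exact_mod_cast hR)
  rcases hA with ⟨C₇, hC₇, hst₇⟩ | h | h | h
  · refine Or.inl (Or.inl ?_)
    obtain ⟨t, M, hM, hjt, h4, h6⟩ := borel7 hC₇ hst₇ (jrel' W) hu
    refine ⟨t, ?_, ?_⟩
    · rintro rfl
      have h1 : uu (0 : F) * aa (0 : F) ^ 3 = 49 := by unfold uu aa; ring
      rw [h1, mul_zero] at hjt
      norm_num at hjt
    · rw [hjt]; unfold uu aa; ring
  · exact Or.inl (Or.inr (Or.inl h))
  · exact Or.inl (Or.inr (Or.inr h))
  · exact Or.inr h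

open scoped Classical in
/-- the structure at 3: a point of `X₀(3)` or of `X(s3)` -/
theorem three_struct (W : WeierstrassCurve F) [W.IsElliptic] (hj0 : W.j ≠ 0)
    (hab : ∀ σ τ : AlgebraicClosure F ≃ₐ[F] AlgebraicClosure F,
        (∀ z : AlgebraicClosure F, z ^ 2 = -3 → σ z = z ∧ τ z = z) →
        ∀ R : (W⁄(AlgebraicClosure F)).Point, 3 • R = 0 →
          Point.map (W' := W) (σ : AlgebraicClosure F →ₐ[F] AlgebraicClosure F)
            (Point.map (W' := W) (τ : AlgebraicClosure F →ₐ[F] AlgebraicClosure F) R) =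
          Point.map (W' := W) (τ : AlgebraicClosure F →ₐ[F] AlgebraicClosure F)
            (Point.map (W' := W) (σ : AlgebraicClosure F →ₐ[F] AlgebraicClosure F) R)) :
    (∃ h : F, h ≠ 0 ∧ W.j * h = (h + 27) * (h + 3) ^ 3) ∨
      (∃ m g : F, W.j = m ^ 3 ∧ g ^ 2 = m ^ 2 + 12 * m + 144) := by
  obtain ⟨φ⟩ := exists_real F
  obtain ⟨c, hcc, hc3, hc7⟩ := exists_conj7 (K := AlgebraicClosure F) φ
  have hA0 : -27 * W.c₄ ≠ 0 := by
    intro h0
    have hc : W.c₄ = 0 := (mul_eq_zero.mp h0).resolve_left (by norm_num)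
    have h1 := Pool.Agent.H23T.j_mul_disc W
    rw [hc, zero_pow three_ne_zero] at h1
    rcases mul_eq_zero.mp h1 with h1 | h1
    · exact hj0 h1
    · exact W.isUnit_Δ.ne_zero h1
  rcases three_cases c hcc hc3 W (fun σ τ h R hR => hab σ τ h R (by
        rw [show (3 : ℕ) • R = R + R + R by abel, hR, neg_add_cancel])) with
    ⟨x, hx⟩ | ⟨u, w, r1, r2⟩
  · exact Or.inl (three_point hA0 (disc_ne_zero W) hx (Pool.Agent.H23T.j_eq W))
  · exact Or.inr (split_point (disc_ne_zero W) r1 r2 (Pool.Agent.H23T.j_eq W))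

end structures

/-- `j ≠ 0` and `j ≠ 1728` when 5 is not a square -/
lemma j_ne {F : Type*} [Field F] [NumberField F] [IsTotallyReal F] (hs : ∀ s : F, s ^ 2 ≠ 5)
    {j k : F} (hk : j * k = (k ^ 2 + 10 * k + 5) ^ 3) : j ≠ 0 ∧ j ≠ 1728 := by
  obtain ⟨φ⟩ := exists_real F
  constructor
  · intro h0
    rw [h0, zero_mul] at hk
    have h1 : k ^ 2 + 10 * k + 5 = 0 := (pow_eq_zero_iff (by norm_num)).mp hk.symm
    apply hs ((k + 5) / 2)
    linear_combination h1 / 4
  · intro h0
    rw [h0] at hk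
    have h1 : (k ^ 2 + 22 * k + 125) * (k ^ 2 + 4 * k - 1) ^ 2 = 0 := by linear_combination -hk
    rcases mul_eq_zero.mp h1 with h2 | h2
    · have h3 := congrArg φ h2
      rw [map_add, map_add, map_mul, map_pow, map_ofNat, map_ofNat, map_zero] at h3
      nlinarith [sq_nonneg (φ k + 11)]
    · have h3 : k ^ 2 + 4 * k - 1 = 0 := (pow_eq_zero_iff (by norm_num)).mp h2
      apply hs (k + 2)
      linear_combination h3

open scoped Classical in
/-- the theorem at the primes of norm 13 -/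
theorem norm13 {F : Type*} [Field F] [NumberField F] [IsTotallyReal F]
    (W : WeierstrassCurve F) [W.IsElliptic]
    (h5 : ∃ C : AddSubgroup (W⁄(AlgebraicClosure F)).Point, Nat.card C = 5 ∧
      ∀ σ : AlgebraicClosure F ≃ₐ[F] AlgebraicClosure F,
        C.map (Point.map (W' := W) (σ : AlgebraicClosure F →ₐ[F] AlgebraicClosure F)) = C)
    (hirr : (∃ C : AddSubgroup (W⁄(AlgebraicClosure F)).Point, Nat.card C = 7 ∧
        ∀ σ : AlgebraicClosure F ≃ₐ[F] AlgebraicClosure F,
          (∀ z : AlgebraicClosure F, z ^ 7 = 1 → σ z = z) →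
          C.map (Point.map (W' := W) (σ : AlgebraicClosure F →ₐ[F] AlgebraicClosure F)) = C) ∨
      ∀ σ τ : AlgebraicClosure F ≃ₐ[F] AlgebraicClosure F,
        (∀ z : AlgebraicClosure F, z ^ 7 = 1 → σ z = z ∧ τ z = z) →
        ∀ R : (W⁄(AlgebraicClosure F)).Point, 7 • R = 0 →
          Point.map (W' := W) (σ : AlgebraicClosure F →ₐ[F] AlgebraicClosure F)
            (Point.map (W' := W) (τ : AlgebraicClosure F →ₐ[F] AlgebraicClosure F) R) =
          Point.map (W' := W) (τ : AlgebraicClosure F →ₐ[F] AlgebraicClosure F)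
            (Point.map (W' := W) (σ : AlgebraicClosure F →ₐ[F] AlgebraicClosure F) R))
    (P : HeightOneSpectrum (𝓞 F)) (hP : Ideal.absNorm P.asIdeal = 13) :
    1 < P.valuation F W.j := by
  obtain ⟨C₅, hC₅, hst₅⟩ := h5
  obtain ⟨k, hk0, hk⟩ := five_point (K := AlgebraicClosure F) W C₅ hC₅ hst₅
  have hq : G (P.valuation F) 1 (13 : F) := by
    have := G_of_norm hP
    simpa using this
  have hres : ∀ z : F, G (P.valuation F) 0 z → G (P.valuation F) 1 (z ^ 13 - z) := by
    intro z hz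
    have := pow_norm_res P hz
    rwa [hP] at this
  obtain ⟨hj0, hj1⟩ := j_ne (sq_ne_five13 hq hres) hk
  rcases seven_struct W hj0 hj1 hirr with h | h
  · exact no_good13 hq hres ⟨k, hk0, hk⟩ h
  · exact (no_8000_13 hq hres h hk0 hk).elim

open scoped Classical in
/-- the theorem at the primes of norm 47 -/
theorem norm47 {F : Type*} [Field F] [NumberField F] [IsTotallyReal F]
    (W : WeierstrassCurve F) [W.IsElliptic]
    (h5 : ∃ C : AddSubgroup (W⁄(AlgebraicClosure F)).Point, Nat.card C = 5 ∧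
      ∀ σ : AlgebraicClosure F ≃ₐ[F] AlgebraicClosure F,
        C.map (Point.map (W' := W) (σ : AlgebraicClosure F →ₐ[F] AlgebraicClosure F)) = C)
    (hab : ∀ σ τ : AlgebraicClosure F ≃ₐ[F] AlgebraicClosure F,
        (∀ z : AlgebraicClosure F, z ^ 2 = -3 → σ z = z ∧ τ z = z) →
        ∀ R : (W⁄(AlgebraicClosure F)).Point, 3 • R = 0 →
          Point.map (W' := W) (σ : AlgebraicClosure F →ₐ[F] AlgebraicClosure F)
            (Point.map (W' := W) (τ : AlgebraicClosure F →ₐ[F] AlgebraicClosure F) R) =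
          Point.map (W' := W) (τ : AlgebraicClosure F →ₐ[F] AlgebraicClosure F)
            (Point.map (W' := W) (σ : AlgebraicClosure F →ₐ[F] AlgebraicClosure F) R))
    (hirr : (∃ C : AddSubgroup (W⁄(AlgebraicClosure F)).Point, Nat.card C = 7 ∧
        ∀ σ : AlgebraicClosure F ≃ₐ[F] AlgebraicClosure F,
          (∀ z : AlgebraicClosure F, z ^ 7 = 1 → σ z = z) →
          C.map (Point.map (W' := W) (σ : AlgebraicClosure F →ₐ[F] AlgebraicClosure F)) = C) ∨
      ∀ σ τ : AlgebraicClosure F ≃ₐ[F] AlgebraicClosure F,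
        (∀ z : AlgebraicClosure F, z ^ 7 = 1 → σ z = z ∧ τ z = z) →
        ∀ R : (W⁄(AlgebraicClosure F)).Point, 7 • R = 0 →
          Point.map (W' := W) (σ : AlgebraicClosure F →ₐ[F] AlgebraicClosure F)
            (Point.map (W' := W) (τ : AlgebraicClosure F →ₐ[F] AlgebraicClosure F) R) =
          Point.map (W' := W) (τ : AlgebraicClosure F →ₐ[F] AlgebraicClosure F)
            (Point.map (W' := W) (σ : AlgebraicClosure F →ₐ[F] AlgebraicClosure F) R))
    (P : HeightOneSpectrum (𝓞 F)) (hP : Ideal.absNorm P.asIdeal = 47) :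
    1 < P.valuation F W.j := by
  obtain ⟨C₅, hC₅, hst₅⟩ := h5
  obtain ⟨k, hk0, hk⟩ := five_point (K := AlgebraicClosure F) W C₅ hC₅ hst₅
  have hq : G (P.valuation F) 1 (47 : F) := by
    have := G_of_norm hP
    simpa using this
  have hres : ∀ z : F, G (P.valuation F) 0 z → G (P.valuation F) 1 (z ^ 47 - z) := by
    intro z hz
    have := pow_norm_res P hz
    rwa [hP] at this
  obtain ⟨hj0, hj1⟩ := j_ne (sq_ne_five47 hq hres) hk
  rcases seven_struct W hj0 hj1 hirr with h | h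
  · exact no_good47 hq hres ⟨k, hk0, hk⟩ (three_struct W hj0 hab) h
  · exact (no_8000_47 hq hres h hk0 hk).elim

end Pool.Agent.L9
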