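import Pool.Agent.L9.Val

/-! # The curves `X(d7)`, `X(e7)` and `X₀(5)` at an unramified prime above 7 (helper9) -/

set_option autoImplicit false

namespace Pool.Agent.L9

open WithZero

variable {F : Type*} [Field F] {v : Valuation F ℤᵐ⁰}

lemma unit7 (h7 : E v 1 (7 : F)) (n : ℤ) (h : IsCoprime n 7) : E v 0 (n : F) :=
  E.int (p := 7) (by have := h7.g le_rfl; simpa using this) h

/-- the curve `16 y² = -7 (w⁴ - 42 w² - 7)` -/
lemma d7_small (h7 : E v 1 (7 : F)) {w y : F} (hy : 16 * y ^ 2 = -7 * (w ^ 4 - 42 * w ^ 2 - 7)) :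
    G v 1 w := by
  by_cases hw : w = 0
  · rw [hw]; exact G.zero
  obtain ⟨k, hk⟩ := exists_E (v := v) hw
  by_contra hcon
  have hk0 : k ≤ 0 := by
    by_contra h
    exact hcon (hk.g (by omega))
  have u16 : E v 0 (16 : F) := (unit7 h7 16 (by norm_num)).congr rfl (by norm_num)
  have u6 : E v 0 (6 : F) := (unit7 h7 6 (by norm_num)).congr rfl (by norm_num)
  have h1 : E v (4 * k) (w ^ 4) := (hk.pow 4).congr (by norm_num) rfl
  have h2 : G v (2 * k + 1) (-(42 * w ^ 2)) := by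
    have : E v (0 + 1 + (2 : ℕ) * k) (6 * 7 * w ^ 2) := (u6.mul h7).mul (hk.pow 2)
    refine (this.neg.g le_rfl).congr (by push_cast; omega) (by ring)
  have h3 : G v 1 (-(7 : F)) := (h7.g le_rfl).neg
  have h4 : E v (4 * k) (w ^ 4 - 42 * w ^ 2 - 7) :=
    ((h1.add h2 (by omega)).add h3 (by omega)).congr rfl (by ring)
  have h5 : E v (1 + 4 * k) (16 * y ^ 2) := by
    rw [hy]; exact (h7.neg.mul h4)
  have hy0 : y ≠ 0 := by
    rintro rfl
    apply h5.ne_zero
    ring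
  obtain ⟨l, hl⟩ := exists_E (v := v) hy0
  have h6 : E v (0 + (2 : ℕ) * l) (16 * y ^ 2) := u16.mul (hl.pow 2)
  have := h5.unique h6
  push_cast at this
  omega

/-- the order of `j` at a point of `X(d7)` -/
theorem d7_order (h7 : E v 1 (7 : F)) {m y c j : F} (hj : j ≠ 0)
    (hy : 16 * y ^ 2 = -7 * ((2 * m - 5) ^ 4 - 42 * (2 * m - 5) ^ 2 - 7))
    (hc : c = m ^ 3 - 4 * m ^ 2 + 3 * m + 1)
    (hjc : j * c ^ 7 = m * (m + 1) ^ 3 * (m ^ 2 - 5 * m + 1) ^ 3 * (m ^ 2 - 5 * m + 8) ^ 3 *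
      (m ^ 4 - 5 * m ^ 3 + 8 * m ^ 2 - 7 * m + 7) ^ 3) : ∃ n, 1 ≤ n ∧ E v (3 * n + 2) j := by
  have hw := d7_small h7 hy
  obtain ⟨w, hwm⟩ : ∃ w, w = 2 * m - 5 := ⟨_, rfl⟩
  rw [← hwm] at hw
  have u2 : E v 0 (2 : F) := (unit7 h7 2 (by norm_num)).congr rfl (by norm_num)
  have u4 : E v 0 (4 : F) := (unit7 h7 4 (by norm_num)).congr rfl (by norm_num)
  have u5 : E v 0 (5 : F) := (unit7 h7 5 (by norm_num)).congr rfl (by norm_num)
  have u8 : E v 0 (8 : F) := (unit7 h7 8 (by norm_num)).congr rfl (by norm_num)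
  have u16 : E v 0 (16 : F) := (unit7 h7 16 (by norm_num)).congr rfl (by norm_num)
  have div : ∀ {a x : F} {n : ℤ}, E v 0 a → E v n (a * x) → E v n x := by
    intro a x n ha hx
    have hx0 : x ≠ 0 := by
      rintro rfl
      exact hx.ne_zero (mul_zero a)
    obtain ⟨l, hl⟩ := exists_E (v := v) hx0
    have := hx.unique (ha.mul hl)
    exact hl.congr (by omega) rfl
  have um : E v 0 m := div u2 ((u5.add hw (by norm_num)).congr rfl (by rw [hwm]; ring))
  have g1 : G v 1 (m + 1) := by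
    have h1 : G v 1 (w + 7) := hw.add (h7.g le_rfl)
    by_cases h0 : m + 1 = 0
    · rw [h0]; exact G.zero
    obtain ⟨l, hl⟩ := exists_E (v := v) h0
    have h2 : E v (0 + l) (w + 7) := (u2.mul hl).congr rfl (by rw [hwm]; ring)
    exact hl.g (by have := h2.le h1; omega)
  have hw2 : G v 2 (w ^ 2) := (hw.pow 2).mono (by norm_num)
  have e1 : E v 1 (m ^ 2 - 5 * m + 1) := by
    apply div u4
    have h1 : E v (0 + 1) ((-3 : F) * 7) :=
      ((unit7 h7 (-3) (by norm_num)).congr rfl (by norm_num)).mul h7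
    exact (h1.add hw2 (by norm_num)).congr (by norm_num) (by rw [hwm]; ring)
  have e2 : E v 1 (m ^ 2 - 5 * m + 8) := by
    apply div u4
    exact (h7.add hw2 (by norm_num)).congr rfl (by rw [hwm]; ring)
  have e3 : E v 1 (m ^ 4 - 5 * m ^ 3 + 8 * m ^ 2 - 7 * m + 7) := by
    apply div u16
    have h1 : G v 2 (w * (14 + 32 * w + 10 * w ^ 2 + w ^ 3)) := by
      have h14 : G v 1 (14 : F) := ((u2.mul h7).g (by norm_num)).congr le_rfl (by norm_num)
      have i32 : G v 0 (32 : F) := G.ofNat 32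
      have i10 : G v 0 (10 : F) := G.ofNat 10
      have h2 : G v 1 (14 + 32 * w + 10 * w ^ 2 + w ^ 3) :=
        ((h14.add ((i32.mul hw).mono (by norm_num))).add ((i10.mul hw2).mono (by norm_num))).add
          ((hw.pow 3).mono (by norm_num))
      exact (hw.mul h2).mono (by norm_num)
    exact (h7.add h1 (by norm_num)).congr rfl (by rw [hwm]; ring)
  have ec : E v 1 c := by
    apply div u8
    have h1 : G v 2 (w * (7 + 7 * w + w ^ 2)) := by
      have h2 : G v 1 (7 + 7 * w + w ^ 2) :=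
        ((h7.g le_rfl).add (((h7.g le_rfl).mul hw).mono (by norm_num))).add
          (hw2.mono (by norm_num))
      exact (hw.mul h2).mono (by norm_num)
    exact (h7.neg.add h1 (by norm_num)).congr rfl (by rw [hwm, hc]; ring)
  have hm1 : m + 1 ≠ 0 := by
    intro h0
    rw [h0] at hjc
    have : j * c ^ 7 = 0 := by rw [hjc]; ring
    rcases mul_eq_zero.mp this with h | h
    · exact hj h
    · exact pow_ne_zero 7 ec.ne_zero h
  obtain ⟨n, hn⟩ := exists_E (v := v) hm1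
  obtain ⟨l, hl⟩ := exists_E (v := v) hj
  have hn1 := hn.le g1
  have h1 := hl.mul (ec.pow 7)
  rw [hjc] at h1
  have h2 := (((um.mul (hn.pow 3)).mul (e1.pow 3)).mul (e2.pow 3)).mul (e3.pow 3)
  have h3 := h1.unique h2
  push_cast at h3
  exact ⟨n, hn1, hl.congr (by omega) rfl⟩

/-- the curve `y² = 7 (2 τ⁴ - 14 τ³ + 21 τ² + 28 τ + 7)` -/
lemma e7_small (h7 : E v 1 (7 : F)) {τ y : F}
    (hy : y ^ 2 = 7 * (2 * τ ^ 4 - 14 * τ ^ 3 + 21 * τ ^ 2 + 28 * τ + 7)) : G v 1 τ := by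
  by_cases hw : τ = 0
  · rw [hw]; exact G.zero
  obtain ⟨k, hk⟩ := exists_E (v := v) hw
  by_contra hcon
  have hk0 : k ≤ 0 := by
    by_contra h
    exact hcon (hk.g (by omega))
  have u2 : E v 0 (2 : F) := (unit7 h7 2 (by norm_num)).congr rfl (by norm_num)
  have u3 : E v 0 (3 : F) := (unit7 h7 3 (by norm_num)).congr rfl (by norm_num)
  have u4 : E v 0 (4 : F) := (unit7 h7 4 (by norm_num)).congr rfl (by norm_num)
  have h1 : E v (4 * k) (2 * τ ^ 4) := (u2.mul (hk.pow 4)).congr (by norm_num) rfl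
  have h2 : G v (3 * k + 1) (-(14 * τ ^ 3)) := by
    have : E v (0 + 1 + (3 : ℕ) * k) (2 * 7 * τ ^ 3) := (u2.mul h7).mul (hk.pow 3)
    exact (this.neg.g le_rfl).congr (by push_cast; omega) (by ring)
  have h3 : G v (2 * k + 1) (21 * τ ^ 2) := by
    have : E v (0 + 1 + (2 : ℕ) * k) (3 * 7 * τ ^ 2) := (u3.mul h7).mul (hk.pow 2)
    exact (this.g le_rfl).congr (by push_cast; omega) (by ring)
  have h4 : G v (k + 1) (28 * τ) := by
    have : E v (0 + 1 + k) (4 * 7 * τ) := (u4.mul h7).mul hk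
    exact (this.g le_rfl).congr (by omega) (by ring)
  have h5 : E v (4 * k) (2 * τ ^ 4 - 14 * τ ^ 3 + 21 * τ ^ 2 + 28 * τ + 7) :=
    ((((h1.add h2 (by omega)).add h3 (by omega)).add h4 (by omega)).add (h7.g le_rfl)
      (by omega)).congr rfl (by ring)
  have h6 : E v (1 + 4 * k) (y ^ 2) := by
    rw [hy]; exact h7.mul h5
  have hy0 : y ≠ 0 := by
    rintro rfl
    apply h6.ne_zero
    ring
  obtain ⟨l, hl⟩ := exists_E (v := v) hy0
  have := h6.unique (hl.pow 2)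
  push_cast at this
  omega

/-- the order of `j` at a point of `X(e7)` -/
theorem e7_order (h7 : E v 1 (7 : F)) {τ y c j : F} (hj : j ≠ 0)
    (hy : y ^ 2 = 7 * (2 * τ ^ 4 - 14 * τ ^ 3 + 21 * τ ^ 2 + 28 * τ + 7))
    (hc : c = τ ^ 3 - 7 * τ ^ 2 + 7 * τ + 7)
    (hjc : j * c ^ 7 = 64 * (τ * (τ ^ 2 + 7) * (τ ^ 2 - 7 * τ + 14) *
      (5 * τ ^ 2 - 14 * τ - 7)) ^ 3) : ∃ n, 1 ≤ n ∧ E v (3 * n + 2) j := by
  have hw := e7_small h7 hy
  have u2 : E v 0 (2 : F) := (unit7 h7 2 (by norm_num)).congr rfl (by norm_num)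
  have u64 : E v 0 (64 : F) := (unit7 h7 64 (by norm_num)).congr rfl (by norm_num)
  have hw2 : G v 2 (τ ^ 2) := (hw.pow 2).mono (by norm_num)
  have g7 : G v 1 (7 : F) := h7.g le_rfl
  have g7w : G v 2 (7 * τ) := (g7.mul hw).mono (by norm_num)
  have e1 : E v 1 (τ ^ 2 + 7) := hw2.mono le_rfl |> fun h => E.add' h h7 (by norm_num)
  have e2 : E v 1 (τ ^ 2 - 7 * τ + 14) := by
    have h1 : E v 1 (2 * 7 : F) := (u2.mul h7).congr (by norm_num) rfl
    exact (h1.add (hw2.sub g7w) (by norm_num)).congr rfl (by ring)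
  have e3 : E v 1 (5 * τ ^ 2 - 14 * τ - 7) := by
    have h1 : G v 2 (5 * τ ^ 2) := ((G.ofNat 5).mul hw2).mono (by norm_num)
    have h2 : G v 2 (2 * (7 * τ)) := ((G.ofNat 2).mul g7w).mono (by norm_num)
    exact (h7.neg.add (h1.sub h2) (by norm_num)).congr rfl (by ring)
  have ec : E v 1 c := by
    have h1 : G v 2 (τ ^ 3) := (hw.pow 3).mono (by norm_num)
    have h2 : G v 2 (7 * τ ^ 2) := (g7.mul hw2).mono (by norm_num)
    exact (h7.add ((h1.sub h2).add g7w) (by norm_num)).congr rfl (by rw [hc]; ring)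
  have hτ : τ ≠ 0 := by
    rintro rfl
    have : j * c ^ 7 = 0 := by rw [hjc]; ring
    rcases mul_eq_zero.mp this with h | h
    · exact hj h
    · exact pow_ne_zero 7 ec.ne_zero h
  obtain ⟨n, hn⟩ := exists_E (v := v) hτ
  obtain ⟨l, hl⟩ := exists_E (v := v) hj
  have h1 := hl.mul (ec.pow 7)
  rw [hjc] at h1
  have h2 := u64.mul ((((hn.mul e1).mul e2).mul e3).pow 3)
  have h3 := h1.unique h2
  push_cast at h3
  exact ⟨n, hn.le hw, hl.congr (by omega) rfl⟩

/-- the order of `j` at a point of `X₀(5)`, at the places not above 5 -/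
theorem five_order (h5 : E v 0 (5 : F)) {j k : F} (hk : k ≠ 0)
    (hj : j * k = (k ^ 2 + 10 * k + 5) ^ 3) {n : ℤ} (hn : E v n j) (hn1 : 1 ≤ n) :
    E v 0 k ∧ ∃ a, n = 3 * a ∧ E v a (k ^ 2 + 10 * k + 5) := by
  obtain ⟨s, hs⟩ := exists_E (v := v) hk
  have h1 := hn.mul hs
  have hq : k ^ 2 + 10 * k + 5 ≠ 0 := by
    intro h0
    apply h1.ne_zero
    rw [hj, h0]; ring
  obtain ⟨a, ha⟩ := exists_E (v := v) hq
  have h2 := h1.unique ((ha.pow 3).congr rfl hj.symm)
  push_cast at h2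
  have i10 : G v 0 (10 : F) := G.ofNat 10
  have hs0 : s = 0 := by
    rcases lt_trichotomy s 0 with h | h | h
    · have h3 : E v (2 * s) (k ^ 2 + 10 * k + 5) :=
        (((hs.pow 2).congr (by norm_num) rfl).add ((i10.mul (hs.g le_rfl)).mono le_rfl)
          (by omega)).add (h5.g le_rfl) (by omega)
      have := ha.unique h3
      omega
    · exact h
    · have h3 : E v 0 (k ^ 2 + 10 * k + 5) := by
        have h4 : G v 1 (k ^ 2 + 10 * k) :=
          ((hs.pow 2).g (by push_cast; omega)).add ((i10.mul (hs.g le_rfl)).mono (by omega))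
        exact E.add' h4 h5 (by norm_num)
      have := ha.unique h3
      omega
  subst hs0
  exact ⟨hs, a, by omega, ha⟩

end Pool.Agent.L9
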