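import Pool.Agent.L9.Val

/-! # The discriminant of a pair of subgroups of order 3, away from 3 (helper9) -/

set_option autoImplicit false

namespace Pool.Agent.L9

open WithZero

variable {F : Type*} [Field F] {v : Valuation F ℤᵐ⁰}

/-- the order of `a ^ 2 + 6 a - 3` is even at the places of residue characteristic other than 3
whose residue field does not contain a primitive third root of unity -/
theorem even_disc (h3 : E v 0 (3 : F)) (hres : ∀ z : F, ¬ G v 1 (z ^ 2 + z + 1))
    {a c j k : F} (hj : j = 27 * c ^ 3) (hc : c * ((3 + a) * (1 - a)) = 16 * a) (hk0 : k ≠ 0)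
    (hk : j * k = (k ^ 2 + 10 * k + 5) ^ 3) (hj0 : j ≠ 0)
    (h2 : G v 1 (2 : F) → 1 ≤ v j) {n : ℤ}
    (hn : E v n (a ^ 2 + 6 * a - 3)) : Even n := by
  have g (m : ℕ) [m.AtLeastTwo] : G v 0 (OfNat.ofNat m : F) := G.ofNat m
  by_cases ha0 : a = 0
  · subst ha0
    have : E v 0 ((0 : F) ^ 2 + 6 * 0 - 3) := (h3.neg).congr rfl (by ring)
    rw [hn.unique this]; exact Even.zero
  obtain ⟨s, hs⟩ := exists_E (v := v) ha0
  have h6 : G v 0 (6 : F) := g 6
  rcases lt_trichotomy s 0 with hs0 | hs0 | hs0
  · -- pole
    have h1 : E v (2 * s) (a ^ 2 + 6 * a - 3) := by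
      have e1 : E v ((2 : ℕ) * s) (a ^ 2) := hs.pow 2
      have e2 : G v (0 + s) (6 * a) := h6.mul (hs.g le_rfl)
      have e3 : G v 0 (-(3 : F)) := (g 3).neg
      refine ((e1.add e2 (by push_cast; omega)).add e3 (by push_cast; omega)).congr
        (by push_cast; ring) (by ring)
    rw [hn.unique h1]; exact even_two_mul s
  swap
  · have h1 : E v 0 (a ^ 2 + 6 * a - 3) := by
      have e1 : G v 1 (a ^ 2 + 6 * a) := by
        have e11 : G v ((2 : ℕ) * s) (a ^ 2) := (hs.pow 2).g le_rfl
        have e12 : G v (0 + s) (6 * a) := h6.mul (hs.g le_rfl)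
        exact (e11.mono (by push_cast; omega)).add (e12.mono (by omega))
      exact (E.add' e1 h3.neg (by norm_num)).congr rfl (by ring)
    rw [hn.unique h1]; exact Even.zero
  subst hs0
  -- `a` is a unit
  have hn0 : 0 ≤ n := by
    apply hn.le
    have e1 : G v 0 (a ^ 2) := (hs.g le_rfl).pow 2 |>.mono (by norm_num)
    have e2 : G v 0 (6 * a) := (h6.mul (hs.g le_rfl)).mono (by norm_num)
    exact ((e1.add e2).sub (g 3))
  rcases (g 2).cases with e2 | g2
  · -- residue characteristic other than 2 and 3
    rcases hn0.eq_or_lt with h0 | hn1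
    · rw [← h0]; exact Even.zero
    by_contra hodd
    have t2 : (2 : F) ≠ 0 := e2.ne_zero
    have hD1 : G v 1 (a ^ 2 + 6 * a - 3) := hn.g hn1
    have e12 : E v 0 (12 : F) := ((e2.mul e2).mul h3).congr (by norm_num) (by norm_num)
    have e4 : E v 0 (4 : F) := (e2.mul e2).congr (by norm_num) (by norm_num)
    have ga : G v 0 a := hs.g le_rfl
    have unit_of : ∀ {x y : F}, G v 0 x → G v 0 y → E v 0 (x * y) → E v 0 x := by
      intro x y hx hy hxy
      rcases hx.cases with h | h
      · exact h
      · have := hxy.le (h.mul hy)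
        omega
    have ea3 : E v 0 (3 + a) := by
      refine unit_of (y := 3 + a) ((g 3).add ga) ((g 3).add ga) ?_
      exact (E.add' hD1 e12 (by norm_num)).congr rfl (by ring)
    have ea1 : E v 0 (1 - a) := by
      have g1 : G v 0 (1 : F) := E.one.g le_rfl
      refine unit_of (y := -(a + 7)) (g1.sub ga) ((ga.add (g 7)).neg) ?_
      exact (E.add' hD1 e4.neg (by norm_num)).congr rfl (by ring)
    have ha3 := ea3.ne_zero
    have ha1 := ea1.ne_zero
    -- the order of `c - 4`
    have hcc : (c - 4) * ((3 + a) * (1 - a)) = 4 * (a ^ 2 + 6 * a - 3) := by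
      linear_combination hc
    have hc4 : c - 4 ≠ 0 := by
      intro h0
      rw [h0, zero_mul] at hcc
      exact mul_ne_zero e4.ne_zero hn.ne_zero hcc.symm
    obtain ⟨q, hq⟩ := exists_E (v := v) hc4
    have hqn : q = n := by
      have h1 : E v (q + (0 + 0)) ((c - 4) * ((3 + a) * (1 - a))) := hq.mul (ea3.mul ea1)
      have h2 : E v (0 + n) ((c - 4) * ((3 + a) * (1 - a))) := (e4.mul hn).congr rfl hcc.symm
      have := h1.unique h2
      omega
    subst hqn
    have ec : E v 0 c := (e4.add (hq.g (m := 1) hn1) (by norm_num)).congr rfl (by ring)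
    have eq48 : E v 0 (c ^ 2 + 4 * c + 16) := by
      have h48 : E v 0 (48 : F) := ((e4.mul e4).mul h3).congr (by norm_num) (by norm_num)
      have h1 : G v 1 ((c - 4) * (c + 8)) :=
        ((hq.g (m := 1) hn1).mul ((ec.g le_rfl).add (g 8))).mono (by norm_num)
      exact (h48.add h1 (by norm_num)).congr rfl (by ring)
    have e27 : E v 0 (27 : F) := ((h3.mul h3).mul h3).congr (by norm_num) (by norm_num)
    have ej : E v 0 j := (e27.mul (ec.pow 3)).congr (by norm_num) hj.symm
    have eJ : E v q (j - 1728) := by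
      refine (e27.mul (hq.mul eq48)).congr (by ring) ?_
      rw [hj]; ring
    -- a square root of -1
    have hi : ∃ i : F, G v 0 i ∧ G v 1 (i ^ 2 + 1) := by
      rcases (g 5).cases with e5 | g5
      swap
      · exact ⟨2, g 2, g5.congr le_rfl (by norm_num)⟩
      obtain ⟨κ, hκ⟩ := exists_E (v := v) hk0
      have hκ0 : κ = 0 := by
        have h1 : E v (0 + κ) ((k ^ 2 + 10 * k + 5) ^ 3) := (ej.mul hκ).congr rfl hk
        rcases lt_trichotomy κ 0 with h | h | h
        · have e1 : E v ((2 : ℕ) * κ) (k ^ 2) := hκ.pow 2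
          have e2' : G v (0 + κ) (10 * k) := (g 10).mul (hκ.g le_rfl)
          have e3 : E v ((3 : ℕ) * ((2 : ℕ) * κ)) ((k ^ 2 + 10 * k + 5) ^ 3) :=
            ((e1.add e2' (by push_cast; omega)).add (g 5) (by push_cast; omega)).pow 3
          have := h1.unique e3
          push_cast at this
          omega
        · exact h
        · have e1 : G v 1 (k ^ 2 + 10 * k) := by
            have e11 : G v ((2 : ℕ) * κ) (k ^ 2) := (hκ.pow 2).g le_rfl
            have e12 : G v (0 + κ) (10 * k) := (g 10).mul (hκ.g le_rfl)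
            exact (e11.mono (by push_cast; omega)).add (e12.mono (by omega))
          have e3 : E v ((3 : ℕ) * 0) ((k ^ 2 + 10 * k + 5) ^ 3) :=
            (E.add' e1 e5 (by norm_num)).pow 3
          have := h1.unique e3
          push_cast at this
          omega
      subst hκ0
      have gk : G v 0 k := hκ.g le_rfl
      have key : (j - 1728) * k = (k ^ 2 + 22 * k + 125) * (k ^ 2 + 4 * k - 1) ^ 2 := by
        linear_combination hk
      have hA0 : k ^ 2 + 22 * k + 125 ≠ 0 := by
        intro h0
        rw [h0, zero_mul] at key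
        exact mul_ne_zero eJ.ne_zero hk0 key
      have hB0 : k ^ 2 + 4 * k - 1 ≠ 0 := by
        intro h0
        rw [h0] at key
        apply mul_ne_zero eJ.ne_zero hk0
        rw [key]; ring
      obtain ⟨α, hα⟩ := exists_E (v := v) hA0
      obtain ⟨β, hβ⟩ := exists_E (v := v) hB0
      have h1 := (eJ.mul hκ).unique ((hα.mul (hβ.pow 2)).congr rfl key.symm)
      push_cast at h1
      have hα0 : 0 ≤ α := by
        apply hα.le
        have e1 : G v 0 (k ^ 2) := (gk.pow 2).mono (by norm_num)
        have e2' : G v 0 (22 * k) := ((g 22).mul gk).mono (by norm_num)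
        exact ((e1.add e2').add (g 125))
      have hα1 : 1 ≤ α := by
        rcases hα0.eq_or_lt with h | h
        · exfalso
          apply hodd
          exact ⟨β, by omega⟩
        · omega
      have i2 : G v 0 (2⁻¹ : F) := by
        have : E v 0 (2⁻¹ : F) := by
          rw [E_iff_one] at *
          rw [map_inv₀, e2, inv_one]
        exact this.g le_rfl
      refine ⟨(k + 11) * 2⁻¹, ((gk.add (g 11)).mul i2).mono (by norm_num), ?_⟩
      refine ((hα.g hα1).mul (i2.mul i2)).congr (by norm_num) ?_
      field_simp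
      ring
    obtain ⟨i, hi0, hi1⟩ := hi
    have i2 : G v 0 (2⁻¹ : F) := by
      have : E v 0 (2⁻¹ : F) := by
        rw [E_iff_one] at *
        rw [map_inv₀, e2, inv_one]
      exact this.g le_rfl
    set b : F := (a + 3) * 2⁻¹ with hb
    have gb : G v 0 b := ((ga.add (g 3)).mul i2).mono (by norm_num)
    have hb1 : G v 1 (b ^ 2 - 3) := by
      refine (hD1.mul (i2.mul i2)).congr (by norm_num) ?_
      rw [hb]
      field_simp
      ring
    apply hres ((-1 + i * b) * 2⁻¹)
    have h1 : G v 1 ((i ^ 2 + 1) * b ^ 2 - (b ^ 2 - 3)) :=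
      ((hi1.mul (gb.pow 2)).mono (by norm_num)).sub hb1
    refine (h1.mul (i2.mul i2)).congr (by norm_num) ?_
    field_simp
    ring
  · -- residue characteristic 2
    have hj1 := h2 g2
    obtain ⟨jj, hjj⟩ := exists_E (v := v) hj0
    rw [le_one_of_E hjj] at hj1
    have hc0 : c ≠ 0 := by
      rintro rfl
      apply hj0
      rw [hj]; ring
    obtain ⟨γ, hγ⟩ := exists_E (v := v) hc0
    have e27 : E v 0 (27 : F) := ((h3.mul h3).mul h3).congr (by norm_num) (by norm_num)
    have hγ0 : γ ≤ 0 := by
      have := hjj.unique ((e27.mul (hγ.pow 3)).congr rfl hj.symm)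
      push_cast at this
      omega
    have t2 : (2 : F) ≠ 0 := by
      intro h0
      have h30 : E v 0 (1 : F) := E.one
      -- `3 = 1` and `a ^ 2 + 6 a - 3 = a ^ 2 - 1 = (a - 1) ^ 2`
      have h4 : c * ((3 + a) * (1 - a)) = 0 := by
        rw [hc, show (16 : F) = 2 * 8 by norm_num, h0]; ring
      have h5 : (3 + a) * (1 - a) = 0 := (mul_eq_zero.mp h4).resolve_left hc0
      apply hn.ne_zero
      linear_combination -h5 + (2 * a) * h0
    obtain ⟨e, he⟩ := exists_E (v := v) t2
    have he1 : 1 ≤ e := he.le g2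
    have e16 : E v (4 * e) (16 : F) :=
      (he.pow 4).congr (by norm_num) (by norm_num)
    have e12 : E v (2 * e) (12 : F) :=
      ((he.mul he).mul h3).congr (by ring) (by norm_num)
    by_cases hν0 : a + 3 = 0
    · have : E v (2 * e) (a ^ 2 + 6 * a - 3) := by
        refine e12.neg.congr rfl ?_
        have h5 : a = -3 := by linear_combination hν0
        rw [h5]; ring
      rw [hn.unique this]; exact even_two_mul e
    obtain ⟨ν, hν⟩ := exists_E (v := v) hν0
    rcases lt_trichotomy ν e with hlt | heq | hgt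
    · have : E v (2 * ν) (a ^ 2 + 6 * a - 3) := by
        refine ((hν.pow 2).add (e12.neg.g le_rfl) (by push_cast; omega)).congr (by push_cast; ring) ?_
        ring
      rw [hn.unique this]; exact even_two_mul ν
    swap
    · have : E v (2 * e) (a ^ 2 + 6 * a - 3) := by
        refine (E.add' ((hν.pow 2).g le_rfl) e12.neg (by push_cast; omega)).congr rfl ?_
        ring
      rw [hn.unique this]; exact even_two_mul e
    · exfalso
      subst heq
      -- `1 - a = 4 - (a + 3)` has order `ν`
      have h4 : E v (2 * ν) (4 : F) := (he.mul he).congr (by ring) (by norm_num)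
      have h1a : E v ν (1 - a) := by
        refine (E.add' (h4.g le_rfl) hν.neg (by omega)).congr rfl ?_
        ring
      have h5 : E v (γ + (ν + ν)) (16 * a) := by
        refine (hγ.mul (hν.mul h1a)).congr rfl ?_
        rw [← hc]; ring
      have h6' : E v (4 * ν + 0) (16 * a) := e16.mul hs
      have := h5.unique h6'
      omega

end Pool.Agent.L9
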