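import Pool.Agent.L9.Val
import Pool.Agent.H42M.Three

/-! # Norms modulo 3 (helper9) -/

set_option autoImplicit false

namespace Pool.Agent.L9

open NumberField IsDedekindDomain WithZero

variable {F : Type*} [Field F] [NumberField F]

/-- the norm of an algebraic integer which is 1 modulo all the primes above 3 -/
theorem norm_mod_three {D : 𝓞 F}
    (h : ∀ P : HeightOneSpectrum (𝓞 F), (3 : 𝓞 F) ∈ P.asIdeal → D - 1 ∈ P.asIdeal) :
    ((Algebra.norm ℤ D : ℤ) : ZMod 3) = 1 := by
  classical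
  have hrad : D - 1 ∈ (Ideal.span {(3 : 𝓞 F)}).radical := by
    rw [Ideal.radical_eq_sInf, Submodule.mem_sInf]
    rintro J ⟨hJ, hJp⟩
    have h3 : (3 : 𝓞 F) ∈ J := hJ (Ideal.mem_span_singleton_self _)
    have hb : J ≠ ⊥ := by
      rintro rfl
      have : (3 : 𝓞 F) = 0 := by simpa using h3
      norm_num at this
    exact h ⟨J, hJp, hb⟩ h3
  obtain ⟨m, hm⟩ := hrad
  obtain ⟨z, hz⟩ := Ideal.mem_span_singleton.mp hm
  set b := RingOfIntegers.basis F with hb
  set M := Algebra.leftMulMatrix b (D - 1) with hM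
  set φ : ℤ →+* ZMod 3 := Int.castRingHom (ZMod 3) with hφ
  have hnil : IsNilpotent (-(φ.mapMatrix M)) := by
    rw [isNilpotent_neg_iff]
    refine ⟨m, ?_⟩
    rw [← map_pow, hM, ← map_pow, hz, map_mul]
    have h3 : Algebra.leftMulMatrix b (3 : 𝓞 F) = (3 : ℤ) • 1 := by
      rw [show (3 : 𝓞 F) = (3 : ℤ) • (1 : 𝓞 F) by rw [zsmul_eq_mul, mul_one]; norm_num, map_zsmul,
        map_one]
    rw [h3, smul_mul_assoc, one_mul, map_zsmul]
    ext i j
    rw [Matrix.smul_apply, zsmul_eq_mul, Matrix.zero_apply]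
    have : ((3 : ℤ) : ZMod 3) = 0 := by decide
    rw [this, zero_mul]
  have hchar := Matrix.isNilpotent_charpoly_sub_pow_of_isNilpotent hnil
  have hp : Fact (Nat.Prime 3) := ⟨by norm_num⟩
  have hchar' := sub_eq_zero.mp hchar.eq_zero
  have hev := congrArg (Polynomial.eval 1) hchar'
  rw [Matrix.eval_charpoly, Polynomial.eval_pow, Polynomial.eval_X, one_pow, map_one,
    sub_neg_eq_add] at hev
  have h1 : Algebra.leftMulMatrix b D = 1 + M := by
    rw [hM, map_sub, map_one]; abel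
  rw [Algebra.norm_eq_matrix_det b, h1]
  change φ _ = 1
  rw [RingHom.map_det, map_add, map_one]
  exact hev

/-- a prime that does not contain 3 has norm prime to 3 -/
lemma absNorm_ne_zero3 {P : HeightOneSpectrum (𝓞 F)} (h : (3 : 𝓞 F) ∉ P.asIdeal) :
    ((Ideal.absNorm P.asIdeal : ℕ) : ZMod 3) ≠ 0 := by
  classical
  intro h0
  have h3 : 3 ∣ Ideal.absNorm P.asIdeal := (ZMod.natCast_eq_zero_iff _ _).mp h0
  have : P.asIdeal.IsMaximal := P.isMaximal
  letI : Field (𝓞 F ⧸ P.asIdeal) := Ideal.Quotient.field P.asIdeal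
  haveI : Finite (𝓞 F ⧸ P.asIdeal) := Ideal.finiteQuotientOfFreeOfNeBot P.asIdeal P.ne_bot
  letI : Fintype (𝓞 F ⧸ P.asIdeal) := Fintype.ofFinite _
  have hcard : Fintype.card (𝓞 F ⧸ P.asIdeal) = Ideal.absNorm P.asIdeal := by
    rw [← Nat.card_eq_fintype_card]; rfl
  have hp : Fact (Nat.Prime 3) := ⟨by norm_num⟩
  obtain ⟨x, hx⟩ := exists_prime_addOrderOf_dvd_card (G := 𝓞 F ⧸ P.asIdeal) 3 (by rw [hcard]; exact h3)
  have hx0 : x ≠ 0 := by
    rintro rfl
    rw [addOrderOf_zero] at hx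
    norm_num at hx
  have h3x : (3 : 𝓞 F ⧸ P.asIdeal) * x = 0 := by
    have := addOrderOf_nsmul_eq_zero x
    rw [hx, nsmul_eq_mul] at this
    exact_mod_cast this
  have h30 : (3 : 𝓞 F ⧸ P.asIdeal) = 0 := (mul_eq_zero.mp h3x).resolve_right hx0
  apply h
  rw [← Ideal.Quotient.eq_zero_iff_mem, map_ofNat]
  exact h30

/-- a prime that does not contain 3 whose norm is 2 mod 3: the residue field does not contain a
primitive third root of unity -/
lemma res_of_norm {P : HeightOneSpectrum (𝓞 F)} (h : (3 : 𝓞 F) ∉ P.asIdeal)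
    (hN : ((Ideal.absNorm P.asIdeal : ℕ) : ZMod 3) ≠ 1) (z : F) :
    ¬ P.valuation F (z ^ 2 + z + 1) < 1 := by
  classical
  intro hz
  have hz1 : P.valuation F z ≤ 1 := by
    by_contra hgt
    push Not at hgt
    have h1 : P.valuation F (z ^ 2 + (z + 1)) = P.valuation F z ^ 2 := by
      rw [← map_pow]
      apply Valuation.map_add_eq_of_lt_left
      rw [map_pow]
      calc P.valuation F (z + 1) ≤ max (P.valuation F z) (P.valuation F 1) := Valuation.map_add _ _ _
        _ = P.valuation F z := by rw [map_one, max_eq_left hgt.le]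
        _ < P.valuation F z ^ 2 := by
          rw [pow_two]
          exact lt_mul_of_one_lt_left (zero_lt_one.trans hgt) hgt
    rw [← add_assoc] at h1
    rw [h1] at hz
    exact absurd hz (not_lt.mpr (one_lt_pow₀ hgt two_ne_zero).le)
  obtain ⟨a, ha⟩ := P.exists_valuation_sub_lt_of_integer (K := F) hz1 (1 : ℤᵐ⁰ˣ)
  rw [Units.val_one] at ha
  have hmem : a ^ 2 + a + 1 ∈ P.asIdeal := by
    rw [← HeightOneSpectrum.intValuation_lt_one_iff_mem, ← P.valuation_of_algebraMap (K := F)]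
    change P.valuation F (algebraMap (𝓞 F) F (a ^ 2 + a + 1)) < 1
    have h1 : algebraMap (𝓞 F) F (a ^ 2 + a + 1) = (z ^ 2 + z + 1) +
        (algebraMap (𝓞 F) F a - z) * (algebraMap (𝓞 F) F a + z + 1) := by
      rw [map_add, map_add, map_pow, map_one]; ring
    rw [h1]
    refine (Valuation.map_add _ _ _).trans_lt (max_lt hz ?_)
    rw [map_mul]
    have h2 : P.valuation F (algebraMap (𝓞 F) F a + z + 1) ≤ 1 := by
      refine (Valuation.map_add _ _ _).trans (max_le ((Valuation.map_add _ _ _).trans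
        (max_le (P.valuation_le_one a) hz1)) (by rw [map_one]))
    calc _ ≤ P.valuation F (algebraMap (𝓞 F) F a - z) * 1 := by gcongr
      _ < 1 := by rwa [mul_one]
  have : P.asIdeal.IsMaximal := P.isMaximal
  letI : Field (𝓞 F ⧸ P.asIdeal) := Ideal.Quotient.field P.asIdeal
  haveI : Finite (𝓞 F ⧸ P.asIdeal) := Ideal.finiteQuotientOfFreeOfNeBot P.asIdeal P.ne_bot
  letI : Fintype (𝓞 F ⧸ P.asIdeal) := Fintype.ofFinite _
  have hcard : Fintype.card (𝓞 F ⧸ P.asIdeal) = Ideal.absNorm P.asIdeal := by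
    rw [← Nat.card_eq_fintype_card]; rfl
  set x : 𝓞 F ⧸ P.asIdeal := Ideal.Quotient.mk P.asIdeal a with hx
  have hx2 : x ^ 2 + x + 1 = 0 := by
    have := Ideal.Quotient.eq_zero_iff_mem.mpr hmem
    rw [map_add, map_add, map_pow, map_one] at this
    exact this
  have hx3 : x ^ 3 = 1 := by linear_combination (x - 1) * hx2
  have hx1 : x ≠ 1 := by
    intro h1
    rw [h1] at hx2
    apply h
    rw [← Ideal.Quotient.eq_zero_iff_mem, map_ofNat]
    linear_combination hx2
  have hx0 : x ≠ 0 := by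
    intro h1
    rw [h1] at hx3
    norm_num at hx3
  have hdvd : 3 ∣ Fintype.card (𝓞 F ⧸ P.asIdeal)ˣ := by
    have hord : orderOf (Units.mk0 x hx0) = 3 := by
      have hp : Fact (Nat.Prime 3) := ⟨by norm_num⟩
      apply orderOf_eq_prime
      · ext; simpa using hx3
      · intro h1
        apply hx1
        simpa using congrArg Units.val h1
    rw [← hord]
    exact orderOf_dvd_card
  rw [Fintype.card_units, hcard] at hdvd
  apply hN
  have hpos : 1 ≤ Ideal.absNorm P.asIdeal := by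
    rw [← hcard]; exact Fintype.card_pos
  have h1 : ((Ideal.absNorm P.asIdeal - 1 : ℕ) : ZMod 3) = 0 := (ZMod.natCast_eq_zero_iff _ _).mpr hdvd
  rw [Nat.cast_sub hpos, Nat.cast_one] at h1
  exact sub_eq_zero.mp h1

/-- the ideal norm modulo 3 -/
theorem absNorm_mod_three {D : 𝓞 F} (hD : D ≠ 0)
    (h3 : ∀ P : HeightOneSpectrum (𝓞 F), (3 : 𝓞 F) ∈ P.asIdeal → D ∉ P.asIdeal)
    (h : ∀ P : HeightOneSpectrum (𝓞 F), (3 : 𝓞 F) ∉ P.asIdeal →
      (∃ n : ℤ, P.valuation F (D : F) = exp (2 * n)) ∨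
        ((Ideal.absNorm P.asIdeal : ℕ) : ZMod 3) = 1) :
    ((Ideal.absNorm (Ideal.span {D}) : ℕ) : ZMod 3) = 1 := by
  classical
  have hspan : Ideal.span {D} ≠ 0 := by
    rw [Ideal.zero_eq_bot, Ne, Ideal.span_singleton_eq_bot]; exact hD
  set f : Ideal (𝓞 F) →* ZMod 3 :=
    (Nat.castRingHom (ZMod 3)).toMonoidHom.comp (Ideal.absNorm (S := 𝓞 F)).toMonoidHom with hf
  have key : f (Ideal.span {D}) = 1 := by
    rw [← Ideal.finprod_heightOneSpectrum_factorization hspan,
      MonoidHom.map_finprod f (Ideal.hasFiniteMulSupport hspan)]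
    apply finprod_eq_one_of_forall_eq_one
    intro P
    rw [HeightOneSpectrum.maxPowDividing, map_pow]
    have hfP : f P.asIdeal = ((Ideal.absNorm P.asIdeal : ℕ) : ZMod 3) := rfl
    rw [hfP]
    set n := (Associates.mk P.asIdeal).count (Associates.mk (Ideal.span {D} : Ideal (𝓞 F))).factors
      with hn
    have hval : P.valuation F (D : F) = exp (-(n : ℤ)) := by
      rw [show (D : F) = algebraMap (𝓞 F) F D from rfl, P.valuation_of_algebraMap,
        P.intValuation_if_neg hD]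
    by_cases hP : (3 : 𝓞 F) ∈ P.asIdeal
    · have h1 := h3 P hP
      rw [← HeightOneSpectrum.intValuation_lt_one_iff_mem, ← P.valuation_of_algebraMap (K := F)] at h1
      have h2 : n = 0 := by
        by_contra hne
        apply h1
        change P.valuation F (D : F) < 1
        rw [hval, ← exp_zero, exp_lt_exp]
        omega
      rw [h2, pow_zero]
    · rcases h P hP with ⟨m, hm⟩ | h1
      · rw [hval] at hm
        have h2 : -(n : ℤ) = 2 * m := exp_injective hm
        obtain ⟨l, hl⟩ : ∃ l : ℕ, n = 2 * l := ⟨(-m).toNat, by omega⟩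
        rw [hl, pow_mul]
        have h4 := absNorm_ne_zero3 hP
        have h5 : ∀ y : ZMod 3, y ≠ 0 → y ^ 2 = 1 := by decide
        rw [h5 _ h4, one_pow]
      · rw [h1, one_pow]
  exact key

end Pool.Agent.L9
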