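import Mathlib

/-! # A calculus of valuations (helper9)

`G v n x`: `x` has order at least `n`; `E v n x`: `x` has order `n`. -/

set_option autoImplicit false

namespace Pool.Agent.L9

open WithZero

variable {F : Type*} [Field F] {v : Valuation F ℤᵐ⁰}

/-- order at least `n` -/
def G (v : Valuation F ℤᵐ⁰) (n : ℤ) (x : F) : Prop := v x ≤ exp (-n)

/-- order equal to `n` -/
def E (v : Valuation F ℤᵐ⁰) (n : ℤ) (x : F) : Prop := v x = exp (-n)

lemma E.g {n m : ℤ} {x : F} (h : E v n x) (hm : m ≤ n) : G v m x := by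
  unfold E at h
  unfold G
  rw [h]
  exact exp_le_exp.mpr (by omega)

lemma G.mono {n m : ℤ} {x : F} (h : G v n x) (hm : m ≤ n) : G v m x :=
  le_trans h (exp_le_exp.mpr (by omega))

lemma E.mul {n m : ℤ} {x y : F} (h : E v n x) (h' : E v m y) : E v (n + m) (x * y) := by
  unfold E at *
  rw [map_mul, h, h', ← exp_add]; congr 1; ring

lemma E.pow {n : ℤ} {x : F} (h : E v n x) (k : ℕ) : E v (k * n) (x ^ k) := by
  induction k with
  | zero => unfold E; simp
  | succ k ih =>
    rw [pow_succ]
    have := ih.mul h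
    unfold E at *
    rw [this]; congr 1; push_cast; ring

lemma E.neg {n : ℤ} {x : F} (h : E v n x) : E v n (-x) := by
  unfold E at *
  rw [Valuation.map_neg, h]

lemma E.ne_zero {n : ℤ} {x : F} (h : E v n x) : x ≠ 0 := by
  rintro rfl
  unfold E at h
  rw [map_zero] at h
  exact exp_ne_zero h.symm

lemma G.mul {n m : ℤ} {x y : F} (h : G v n x) (h' : G v m y) : G v (n + m) (x * y) := by
  unfold G at *
  rw [map_mul, neg_add, exp_add]
  exact mul_le_mul' h h'

lemma G.pow {n : ℤ} {x : F} (h : G v n x) (k : ℕ) : G v (k * n) (x ^ k) := by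
  induction k with
  | zero => unfold G; simp
  | succ k ih =>
    rw [pow_succ]
    refine (ih.mul h).mono ?_
    push_cast
    linarith

lemma G.neg {n : ℤ} {x : F} (h : G v n x) : G v n (-x) := by
  unfold G at *
  rwa [Valuation.map_neg]

lemma G.add {n : ℤ} {x y : F} (h : G v n x) (h' : G v n y) : G v n (x + y) := by
  unfold G at *
  exact (v.map_add _ _).trans (max_le h h')

lemma G.sub {n : ℤ} {x y : F} (h : G v n x) (h' : G v n y) : G v n (x - y) := by
  rw [sub_eq_add_neg]; exact h.add h'.neg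

lemma G.zero {n : ℤ} : G v n (0 : F) := by
  unfold G; rw [map_zero]; exact zero_le

lemma E.add {n m : ℤ} {x y : F} (h : E v n x) (h' : G v m y) (hnm : n < m) :
    E v n (x + y) := by
  unfold E G at *
  rw [← h]
  apply v.map_add_eq_of_lt_left
  rw [h]
  exact lt_of_le_of_lt h' (exp_lt_exp.mpr (by omega))

lemma E.add' {n m : ℤ} {x y : F} (h : G v m x) (h' : E v n y) (hnm : n < m) :
    E v n (x + y) := by
  rw [add_comm]; exact h'.add h hnm

lemma E.congr {n m : ℤ} {x y : F} (h : E v n x) (hn : n = m) (hx : x = y) : E v m y := by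
  subst hn hx; exact h

lemma G.congr {n m : ℤ} {x y : F} (h : G v n x) (hn : m ≤ n) (hx : x = y) : G v m y := by
  subst hx; exact h.mono hn

lemma E.unique {n m : ℤ} {x : F} (h : E v n x) (h' : E v m x) : n = m := by
  unfold E at *
  rw [h] at h'
  have := exp_injective h'
  omega

lemma E.le {n m : ℤ} {x : F} (h : E v n x) (h' : G v m x) : m ≤ n := by
  unfold E G at *
  rw [h] at h'
  have := exp_le_exp.mp h'
  omega

lemma exists_E {x : F} (hx : x ≠ 0) : ∃ n, E v n x := by
  refine ⟨-log (v x), ?_⟩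
  unfold E
  rw [neg_neg, exp_log ((Valuation.ne_zero_iff _).mpr hx)]

lemma E.one : E v 0 (1 : F) := by unfold E; simp

lemma G.nat (n : ℕ) : G v 0 (n : F) := by
  induction n with
  | zero => rw [Nat.cast_zero]; exact G.zero
  | succ n ih => rw [Nat.cast_succ]; exact ih.add (E.one.g le_rfl)

lemma G.ofNat (n : ℕ) [n.AtLeastTwo] : G v 0 (OfNat.ofNat n : F) := by
  have := G.nat (v := v) (OfNat.ofNat n : ℕ)
  rwa [Nat.cast_ofNat] at this

lemma E_iff_one {x : F} : E v 0 x ↔ v x = 1 := by unfold E; simp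

lemma G_iff_one {x : F} : G v 0 x ↔ v x ≤ 1 := by unfold G; simp

lemma lt_one_of_E {n : ℤ} {x : F} (h : E v n x) : v x < 1 ↔ 1 ≤ n := by
  unfold E at h
  rw [h, ← exp_zero, exp_lt_exp]
  omega

lemma le_one_of_E {n : ℤ} {x : F} (h : E v n x) : 1 ≤ v x ↔ n ≤ 0 := by
  unfold E at h
  rw [h, ← exp_zero, exp_le_exp]
  omega

/-- either `x` has order zero or order at least one -/
lemma G.cases {x : F} (h : G v 0 x) : E v 0 x ∨ G v 1 x := by
  by_cases hx : x = 0
  · right; rw [hx]; exact G.zero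
  obtain ⟨n, hn⟩ := exists_E (v := v) hx
  have := hn.le h
  rcases this.eq_or_lt with h0 | h0
  · left; rwa [h0]
  · right; exact hn.g (by omega)

lemma G.int (n : ℤ) : G v 0 (n : F) := by
  rcases Int.eq_nat_or_neg n with ⟨m, h | h⟩
  · rw [h, Int.cast_natCast]; exact G.nat m
  · rw [h, Int.cast_neg, Int.cast_natCast]; exact (G.nat m).neg

/-- an integer prime to `p` is a unit at the places above `p` -/
lemma E.int {p : ℤ} (hp : G v 1 (p : F)) {n : ℤ} (h : IsCoprime n p) : E v 0 (n : F) := by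
  obtain ⟨a, b, hab⟩ := h
  have h1 : E v 0 ((a : F) * n) := by
    have h2 : E v 0 (1 + -((b : F) * p)) :=
      E.one.add (((G.int b).mul hp).neg) (by norm_num)
    refine h2.congr rfl ?_
    have h3 := congrArg (Int.cast : ℤ → F) hab
    push_cast at h3
    linear_combination -h3
  have h2 : v (n : F) ≤ 1 := G_iff_one.mp (G.int n)
  have h3 : v (a : F) ≤ 1 := G_iff_one.mp (G.int a)
  rw [E_iff_one] at *
  rw [map_mul] at h1
  refine le_antisymm h2 ?_
  rw [← h1]
  calc v (a : F) * v (n : F) ≤ 1 * v (n : F) := by gcongr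
    _ = v (n : F) := one_mul _

end Pool.Agent.L9
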