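import Mathlib
import Pool.Agent.L9.Val

/-! # The global norm step (helper81) -/

set_option autoImplicit false

namespace Pool.Agent.L9

open NumberField IsDedekindDomain WithZero

section sign

variable {F : Type*} [Field F] [NumberField F]

/-- in a totally real field of odd degree a totally negative integer has negative norm -/
lemma norm_lt_zero [IsTotallyReal F] (hodd : Odd (Module.finrank ℚ F)) {r : 𝓞 F}
    (hneg : ∀ φ : F →+* ℝ, φ (r : F) < 0) : Algebra.norm ℤ r < 0 := by
  have h1 : ((Algebra.norm ℤ r : ℤ) : ℚ) = Algebra.norm ℚ (r : F) := Algebra.coe_norm_int r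
  have h2 := Algebra.norm_eq_prod_embeddings ℚ ℂ (r : F)
  have h3 : ∀ σ : F →ₐ[ℚ] ℂ, ∃ a : ℝ, a < 0 ∧ (a : ℂ) = σ (r : F) := by
    intro σ
    have hr := IsTotallyReal.complexEmbedding_isReal (K := F) (σ : F →+* ℂ)
    refine ⟨hr.embedding (r : F), hneg _, ?_⟩
    exact ComplexEmbedding.IsReal.coe_embedding_apply hr (r : F)
  choose a ha hσ using h3
  have h4 : ((Algebra.norm ℤ r : ℤ) : ℝ) = ∏ σ : F →ₐ[ℚ] ℂ, a σ := by
    have h5 : (((Algebra.norm ℤ r : ℤ) : ℝ) : ℂ) = ((∏ σ : F →ₐ[ℚ] ℂ, a σ : ℝ) : ℂ) := by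
      rw [Complex.ofReal_prod]
      have h6 : (((Algebra.norm ℤ r : ℤ) : ℝ) : ℂ) = algebraMap ℚ ℂ (Algebra.norm ℚ (r : F)) := by
        rw [← h1]; simp
      rw [h6, h2]
      exact Finset.prod_congr rfl fun σ _ => (hσ σ).symm
    exact_mod_cast h5
  have h7 : (∏ σ : F →ₐ[ℚ] ℂ, a σ) = - ∏ σ : F →ₐ[ℚ] ℂ, (- a σ) := by
    have h8 : Odd (Finset.univ : Finset (F →ₐ[ℚ] ℂ)).card := by
      rw [Finset.card_univ, AlgHom.card]; exact hodd
    rw [Finset.prod_neg, h8.neg_one_pow]
    ring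
  have h9 : 0 < ∏ σ : F →ₐ[ℚ] ℂ, (- a σ) := Finset.prod_pos fun σ _ => by linarith [ha σ]
  have h10 : ((Algebra.norm ℤ r : ℤ) : ℝ) < 0 := by rw [h4, h7]; linarith
  exact_mod_cast h10

end sign

section congr

variable {F : Type*} [Field F] [NumberField F]

/-- an integer that is one modulo all primes above 3 has norm one modulo 3 -/
lemma norm_congr_one {r : 𝓞 F}
    (h : ∀ P : HeightOneSpectrum (𝓞 F), (3 : 𝓞 F) ∈ P.asIdeal → r - 1 ∈ P.asIdeal) :
    (3 : ℤ) ∣ Algebra.norm ℤ r - 1 := by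
  classical
  -- a maximal ideal above 3 in the algebraic integers
  let A := integralClosure ℤ ℂ
  have h3 : Ideal.span {(3 : A)} ≠ ⊤ := by
    intro htop
    rw [Ideal.span_singleton_eq_top] at htop
    obtain ⟨u, hu⟩ := htop
    have h4 : ((3 : A) : ℂ) * ((↑(u⁻¹) : A) : ℂ) = 1 := by
      have := u.mul_inv
      rw [hu] at this
      exact_mod_cast congrArg (Subtype.val) this
    have h5 : ((↑(u⁻¹) : A) : ℂ) = algebraMap ℚ ℂ (1 / 3) := by
      have h6 : ((3 : A) : ℂ) = 3 := rfl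
      rw [h6] at h4
      simp only [map_div₀, map_one, map_ofNat]
      field_simp
      linear_combination h4
    have h6 : IsIntegral ℤ (algebraMap ℚ ℂ (1 / 3)) := by
      rw [← h5]; exact (↑(u⁻¹) : A).2
    have h7 : IsIntegral ℤ ((1 / 3 : ℚ)) :=
      (isIntegral_algebraMap_iff (algebraMap ℚ ℂ).injective).mp h6
    obtain ⟨n, hn⟩ := IsIntegrallyClosed.isIntegral_iff.mp h7
    have h8 : (n : ℚ) * 3 = 1 := by
      have : (n : ℚ) = 1 / 3 := by simpa using hn
      rw [this]; norm_num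
    have h9 : n * 3 = 1 := by exact_mod_cast h8
    omega
  obtain ⟨𝔓, hmax, hle⟩ := Ideal.exists_le_maximal _ h3
  have h3P : (3 : A) ∈ 𝔓 := hle (Ideal.mem_span_singleton_self _)
  -- the embeddings into A
  have key : ∀ σ : F →ₐ[ℚ] ℂ, ∃ a : A, (a : ℂ) = σ (r : F) ∧ a - 1 ∈ 𝔓 := by
    intro σ
    let τ : 𝓞 F →+* A :=
      { toFun := fun x => ⟨σ (x : F), (x.isIntegral_coe).map (σ.restrictScalars ℤ)⟩
        map_one' := by ext; simp
        map_mul' := fun x y => by ext; simp
        map_zero' := by ext; simp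
        map_add' := fun x y => by ext; simp }
    refine ⟨τ r, rfl, ?_⟩
    have hprime : (𝔓.comap τ).IsPrime := Ideal.IsPrime.comap τ (hK := hmax.isPrime)
    have hmem : (3 : 𝓞 F) ∈ 𝔓.comap τ := by
      rw [Ideal.mem_comap]
      have : τ 3 = 3 := map_ofNat τ 3
      rw [this]; exact h3P
    have hne : 𝔓.comap τ ≠ ⊥ := by
      intro hbot
      rw [hbot, Ideal.mem_bot] at hmem
      exact (by norm_num : (3 : 𝓞 F) ≠ 0) hmem
    have := h ⟨𝔓.comap τ, hprime, hne⟩ hmem
    have h5 : r - 1 ∈ 𝔓.comap τ := this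
    rw [Ideal.mem_comap, map_sub, map_one] at h5
    exact h5
  choose a ha hP using key
  have h4 : (((Algebra.norm ℤ r : ℤ) : A)) = ∏ σ : F →ₐ[ℚ] ℂ, a σ := by
    apply Subtype.val_injective
    have h1 : ((Algebra.norm ℤ r : ℤ) : ℚ) = Algebra.norm ℚ (r : F) := Algebra.coe_norm_int r
    have h2 := Algebra.norm_eq_prod_embeddings ℚ ℂ (r : F)
    have h5 : (((Algebra.norm ℤ r : ℤ) : A) : ℂ) = algebraMap ℚ ℂ (Algebra.norm ℚ (r : F)) := by
      rw [← h1]; simp
    have h6 : ((∏ σ : F →ₐ[ℚ] ℂ, a σ : A) : ℂ) = ∏ σ : F →ₐ[ℚ] ℂ, (a σ : ℂ) := by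
      exact map_prod (algebraMap A ℂ) _ _
    change (((Algebra.norm ℤ r : ℤ) : A) : ℂ) = ((∏ σ : F →ₐ[ℚ] ℂ, a σ : A) : ℂ)
    rw [h5, h2, h6]
    exact Finset.prod_congr rfl fun σ _ => (ha σ).symm
  have h5 : ((Algebra.norm ℤ r - 1 : ℤ) : A) ∈ 𝔓 := by
    rw [← Ideal.Quotient.eq_zero_iff_mem]
    push_cast
    rw [h4, map_sub, map_prod, map_one]
    have : ∀ σ : F →ₐ[ℚ] ℂ, Ideal.Quotient.mk 𝔓 (a σ) = 1 := by
      intro σ
      have := Ideal.Quotient.eq_zero_iff_mem.mpr (hP σ)
      rw [map_sub, map_one] at this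
      exact sub_eq_zero.mp this
    simp [this]
  by_contra hnot
  have hco : IsCoprime (Algebra.norm ℤ r - 1) 3 := by
    rw [Int.isCoprime_iff_gcd_eq_one]
    have hp : Nat.Coprime 3 (Algebra.norm ℤ r - 1).natAbs := by
      rw [Nat.Prime.coprime_iff_not_dvd Nat.prime_three]
      intro hd
      exact hnot (Int.natCast_dvd.mpr hd)
    rw [Int.gcd_comm]
    exact hp
  obtain ⟨x, y, hxy⟩ := hco
  apply hmax.ne_top
  rw [Ideal.eq_top_iff_one]
  have h6 : (1 : A) = (x : A) * ((Algebra.norm ℤ r - 1 : ℤ) : A) + (y : A) * 3 := by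
    have := congrArg (Int.cast : ℤ → A) hxy
    push_cast at this ⊢
    rw [this]
  rw [h6]
  exact 𝔓.add_mem (𝔓.mul_mem_left _ h5) (𝔓.mul_mem_left _ h3P)

end congr

section absnorm

variable {F : Type*} [Field F] [NumberField F]

lemma absNorm_finprod {I : Ideal (𝓞 F)} (hI : I ≠ 0)
    (h : ∀ w : HeightOneSpectrum (𝓞 F), ((Ideal.absNorm (w.maxPowDividing I) : ℕ) : ZMod 3) = 1) :
    ((Ideal.absNorm I : ℕ) : ZMod 3) = 1 := by
  let f : Ideal (𝓞 F) →* ZMod 3 :=
    { toFun := fun J => ((Ideal.absNorm J : ℕ) : ZMod 3)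
      map_one' := by simp
      map_mul' := fun J K => by simp }
  have h1 := MonoidHom.map_finprod f (Ideal.hasFiniteMulSupport hI)
  have h2 : f I = 1 := by
    conv_lhs => rw [← Ideal.finprod_heightOneSpectrum_factorization hI]
    rw [h1]
    exact finprod_eq_one_of_forall_eq_one h
  exact h2

/-- the norm of a prime not above 3 is not divisible by 3 -/
lemma absNorm_ne_zero {w : HeightOneSpectrum (𝓞 F)} (h : (3 : 𝓞 F) ∉ w.asIdeal) :
    ((Ideal.absNorm w.asIdeal : ℕ) : ZMod 3) ≠ 0 := by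
  intro h0
  rw [ZMod.natCast_eq_zero_iff] at h0
  have : Finite (𝓞 F ⧸ w.asIdeal) := Ideal.finiteQuotientOfFreeOfNeBot w.asIdeal w.ne_bot
  have hc : Ideal.absNorm w.asIdeal = Nat.card (𝓞 F ⧸ w.asIdeal) := rfl
  rw [hc] at h0
  have : Fact (Nat.Prime 3) := ⟨Nat.prime_three⟩
  obtain ⟨x, hx⟩ := exists_prime_addOrderOf_dvd_card' (G := 𝓞 F ⧸ w.asIdeal) 3 h0
  have h3 : (3 : ℕ) • x = 0 := by rw [← hx]; exact addOrderOf_nsmul_eq_zero x
  have hx0 : x ≠ 0 := by
    rintro rfl
    rw [addOrderOf_zero] at hx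
    omega
  have : w.asIdeal.IsPrime := w.isPrime
  rw [nsmul_eq_mul] at h3
  rcases mul_eq_zero.mp h3 with h4 | h4
  · apply h
    rw [← Ideal.Quotient.eq_zero_iff_mem, map_ofNat]
    simpa using h4
  · exact hx0 h4

lemma absNorm_span_mod {r : 𝓞 F} (hr : r ≠ 0)
    (h3 : ∀ P : HeightOneSpectrum (𝓞 F), (3 : 𝓞 F) ∈ P.asIdeal → r ∉ P.asIdeal)
    (hw : ∀ w : HeightOneSpectrum (𝓞 F), (3 : 𝓞 F) ∉ w.asIdeal → ∀ n : ℤ, Odd n →
      E (w.valuation F) n (r : F) → Ideal.absNorm w.asIdeal % 3 = 1) :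
    ((Ideal.absNorm (Ideal.span {r}) : ℕ) : ZMod 3) = 1 := by
  have hI : (Ideal.span {r} : Ideal (𝓞 F)) ≠ 0 := by
    rw [Ne, Ideal.zero_eq_bot, Ideal.span_singleton_eq_bot]; exact hr
  apply absNorm_finprod hI
  intro w
  rw [HeightOneSpectrum.maxPowDividing, map_pow, Nat.cast_pow]
  set n := (Associates.mk w.asIdeal).count (Associates.mk (Ideal.span {r} : Ideal (𝓞 F))).factors
    with hn
  have hE : E (w.valuation F) (n : ℤ) (r : F) := by
    unfold E
    have h1 : w.valuation F (r : F) = w.intValuation r := w.valuation_of_algebraMap (K := F) r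
    rw [h1, w.intValuation_if_neg hr]
  by_cases hw3 : (3 : 𝓞 F) ∈ w.asIdeal
  · have h1 := h3 w hw3
    have h2 : n = 0 := by
      by_contra hn0
      have h4 : w.asIdeal ∣ Ideal.span {r} :=
        (Associates.count_ne_zero_iff_dvd hI w.irreducible).mp hn0
      exact h1 (Ideal.dvd_span_singleton.mp h4)
    rw [h2, pow_zero]
  · rcases Nat.even_or_odd n with he | ho
    · obtain ⟨k, hk⟩ := he
      rw [hk, ← two_mul, pow_mul]
      have h0 := absNorm_ne_zero hw3
      have : ∀ x : ZMod 3, x ≠ 0 → x ^ 2 = 1 := by decide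
      rw [this _ h0, one_pow]
    · have h1 := hw w hw3 n (by exact_mod_cast ho) hE
      have h2 : ((Ideal.absNorm w.asIdeal : ℕ) : ZMod 3) = 1 := by
        have : ((Ideal.absNorm w.asIdeal : ℕ) : ZMod 3) = ((1 : ℕ) : ZMod 3) := by
          rw [ZMod.natCast_eq_natCast_iff]
          exact h1
        simpa using this
      rw [h2, one_pow]

end absnorm

section approx

variable {F : Type*} [Field F]

lemma G.of_mul {v : Valuation F ℤᵐ⁰} {n m : ℤ} {x y : F} (hy : E v n y) (h : G v m (x * y)) :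
    G v (m - n) x := by
  by_cases hx : x = 0
  · rw [hx]; exact G.zero
  obtain ⟨k, hk⟩ := exists_E (v := v) hx
  have := (hk.mul hy).le h
  exact hk.g (by omega)

variable [NumberField F]

lemma G_of_mem {w : HeightOneSpectrum (𝓞 F)} {y : 𝓞 F} {n : ℕ} (h : y ∈ w.asIdeal ^ n) :
    G (w.valuation F) n (y : F) := by
  unfold G
  have h1 : w.valuation F (y : F) = w.intValuation y := w.valuation_of_algebraMap (K := F) y
  rw [h1]
  exact (w.intValuation_le_pow_iff_mem y n).mpr h

lemma G_int (w : HeightOneSpectrum (𝓞 F)) (y : 𝓞 F) : G (w.valuation F) 0 (y : F) := by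
  have := G_of_mem (w := w) (y := y) (n := 0) (by simp)
  exact_mod_cast this

/-- weak approximation: a square times `D` is integral and congruent to one modulo all
primes above 3 -/
lemma exists_square_mul {D : F}
    (h3 : ∀ P : HeightOneSpectrum (𝓞 F), (3 : 𝓞 F) ∈ P.asIdeal →
      ∃ t : F, P.valuation F (t ^ 2 - D) < P.valuation F D) :
    ∃ (z : F) (r : 𝓞 F), (r : F) = D * z ^ 2 ∧
      ∀ P : HeightOneSpectrum (𝓞 F), (3 : 𝓞 F) ∈ P.asIdeal → r - 1 ∈ P.asIdeal := by
  classical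
  -- local square roots
  have h4 : ∀ P : HeightOneSpectrum (𝓞 F), ∃ z : F, (3 : 𝓞 F) ∈ P.asIdeal →
      G (P.valuation F) 1 (D * z ^ 2 - 1) := by
    intro P
    by_cases hP : (3 : 𝓞 F) ∈ P.asIdeal
    · obtain ⟨t, ht⟩ := h3 P hP
      have hD : D ≠ 0 := by
        rintro rfl
        rw [map_zero] at ht
        exact absurd ht (by simp)
      obtain ⟨n, hn⟩ := exists_E (v := P.valuation F) hD
      have h5 : G (P.valuation F) (n + 1) (t ^ 2 - D) := by
        by_cases h0 : t ^ 2 - D = 0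
        · rw [h0]; exact G.zero
        obtain ⟨k, hk⟩ := exists_E (v := P.valuation F) h0
        have h6 : n < k := by
          unfold E at hn hk
          rw [hn, hk] at ht
          have := exp_lt_exp.mp ht
          omega
        exact hk.g (by omega)
      have h6 : E (P.valuation F) n (t ^ 2) := by
        have := hn.add h5 (by omega)
        exact this.congr rfl (by ring)
      have ht0 : t ≠ 0 := by
        rintro rfl
        exact h6.ne_zero (by norm_num)
      refine ⟨t⁻¹, fun _ => ?_⟩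
      have h7 : G (P.valuation F) (n + 1 - n) (D * t⁻¹ ^ 2 - 1) := by
        apply G.of_mul h6
        refine h5.neg.congr le_rfl ?_
        field_simp
        ring
      exact h7.mono (by omega)
    · exact ⟨0, fun h => absurd h hP⟩
  choose z hz using h4
  -- the primes above 3
  have hfin3 : {P : HeightOneSpectrum (𝓞 F) | P.asIdeal ∣ Ideal.span {(3 : 𝓞 F)}}.Finite :=
    Ideal.finite_factors (by
      rw [Ne, Ideal.zero_eq_bot, Ideal.span_singleton_eq_bot]; norm_num)
  obtain ⟨b, hb⟩ := IsLocalization.exist_integer_multiples (nonZeroDivisors (𝓞 F))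
    hfin3.toFinset z
  have hb0 : ((b : 𝓞 F) : F) ≠ 0 := by
    have := nonZeroDivisors.ne_zero b.2
    exact_mod_cast this
  obtain ⟨α, β, hβ, hαβ⟩ := IsFractionRing.div_surjective (A := 𝓞 F) (D / ((b : 𝓞 F) : F) ^ 2)
  have hβ0 : β ≠ 0 := nonZeroDivisors.ne_zero hβ
  have hβF : (β : F) ≠ 0 := by exact_mod_cast hβ0
  have hx : ∀ P : HeightOneSpectrum (𝓞 F), ∃ x : 𝓞 F, (3 : 𝓞 F) ∈ P.asIdeal →
      (x : F) = ((b : 𝓞 F) : F) * z P := by
    intro P
    by_cases hP : (3 : 𝓞 F) ∈ P.asIdeal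
    · obtain ⟨x, hx⟩ := hb P (by
        rw [Set.Finite.mem_toFinset]; exact Ideal.dvd_span_singleton.mpr hP)
      refine ⟨x, fun _ => ?_⟩
      rw [← Algebra.smul_def] at *
      exact hx
    · exact ⟨0, fun h => absurd h hP⟩
  choose x hx using hx
  have h3β : (Ideal.span {(3 * β : 𝓞 F)} : Ideal (𝓞 F)) ≠ 0 := by
    rw [Ne, Ideal.zero_eq_bot, Ideal.span_singleton_eq_bot]
    exact mul_ne_zero (by norm_num) hβ0
  let S := (Ideal.finite_factors h3β).toFinset
  have hS : ∀ w : HeightOneSpectrum (𝓞 F), w ∈ S ↔ 3 * β ∈ w.asIdeal := by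
    intro w
    rw [Set.Finite.mem_toFinset]
    exact Ideal.dvd_span_singleton
  have hE : ∀ w : HeightOneSpectrum (𝓞 F), ∃ n : ℕ, E (w.valuation F) n (β : F) := by
    intro w
    refine ⟨(Associates.mk w.asIdeal).count
      (Associates.mk (Ideal.span {β} : Ideal (𝓞 F))).factors, ?_⟩
    unfold E
    have h1 : w.valuation F (β : F) = w.intValuation β := w.valuation_of_algebraMap (K := F) β
    rw [h1, w.intValuation_if_neg hβ0]
  choose n hn using hE
  let N := 1 + ∑ w ∈ S, n w
  have hN : ∀ w ∈ S, n w + 1 ≤ N := by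
    intro w hw
    have := Finset.single_le_sum (f := n) (fun i _ => Nat.zero_le _) hw
    omega
  obtain ⟨y, hy⟩ := IsDedekindDomain.exists_forall_sub_mem_ideal (s := S)
    (fun w : HeightOneSpectrum (𝓞 F) => w.asIdeal) (fun _ => N) (fun w _ => w.prime)
    (fun w _ w' _ hne h => hne (HeightOneSpectrum.ext h))
    (fun w => if (3 : 𝓞 F) ∈ w.1.asIdeal then x w.1 else 0)
  -- the number
  have hD' : D * ((y : F) / ((b : 𝓞 F) : F)) ^ 2 * (β : F) = (y : F) ^ 2 * (α : F) := by
    have h5 : D = (α : F) / (β : F) * ((b : 𝓞 F) : F) ^ 2 := by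
      rw [show ((α : F) / (β : F)) = D / ((b : 𝓞 F) : F) ^ 2 from hαβ]
      field_simp
    rw [h5]
    field_simp
  have hP3 : ∀ P : HeightOneSpectrum (𝓞 F), (3 : 𝓞 F) ∈ P.asIdeal →
      G (P.valuation F) 1 (D * ((y : F) / ((b : 𝓞 F) : F)) ^ 2 - 1) := by
    intro P hP
    have hPS : P ∈ S := (hS P).mpr (P.asIdeal.mul_mem_right _ hP)
    have h5 : G (P.valuation F) N ((y : F) - (x P : F)) := by
      have h6 := hy P hPS
      simp only [hP, if_true] at h6
      have h7 := G_of_mem h6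
      exact h7.congr le_rfl (by push_cast; ring)
    have h6 : G (P.valuation F) 0 (((y : F) + (x P : F)) * (α : F)) := by
      exact (((G_int P y).add (G_int P (x P))).mul (G_int P α)).mono (by norm_num)
    have h7 : G (P.valuation F) (N + 0 - n P)
        (D * ((y : F) / ((b : 𝓞 F) : F)) ^ 2 - D * z P ^ 2) := by
      apply G.of_mul (hn P)
      refine (h5.mul h6).congr le_rfl ?_
      have h8 : D * z P ^ 2 * (β : F) = (x P : F) ^ 2 * (α : F) := by
        rw [hx P hP]
        have h9 : D = (α : F) / (β : F) * ((b : 𝓞 F) : F) ^ 2 := by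
          rw [show ((α : F) / (β : F)) = D / ((b : 𝓞 F) : F) ^ 2 from hαβ]
          field_simp
        rw [h9]
        field_simp
      have h9 : (D * ((y : F) / ((b : 𝓞 F) : F)) ^ 2 - D * z P ^ 2) * (β : F) =
          (y : F) ^ 2 * (α : F) - (x P : F) ^ 2 * (α : F) := by
        rw [sub_mul, hD', h8]
      rw [h9]
      ring
    have h8 : G (P.valuation F) 1 (D * ((y : F) / ((b : 𝓞 F) : F)) ^ 2 - D * z P ^ 2) := by
      have := hN P hPS
      exact h7.mono (by omega)
    exact (h8.add (hz P hP)).congr le_rfl (by ring)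
  have hint : ∀ w : HeightOneSpectrum (𝓞 F),
      w.valuation F (D * ((y : F) / ((b : 𝓞 F) : F)) ^ 2) ≤ 1 := by
    intro w
    rw [← G_iff_one]
    by_cases hw : (3 : 𝓞 F) ∈ w.asIdeal
    · have h5 := (hP3 w hw).mono (show (0 : ℤ) ≤ 1 by norm_num)
      exact (h5.add (E.one.g le_rfl)).congr le_rfl (by ring)
    · by_cases hwS : w ∈ S
      · have h5 : G (w.valuation F) N (y : F) := by
          have h6 := hy w hwS
          simp only [hw, if_false, sub_zero] at h6
          exact G_of_mem h6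
        have h6 : G (w.valuation F) ((N + N : ℤ) + 0 - n w)
            (D * ((y : F) / ((b : 𝓞 F) : F)) ^ 2) := by
          apply G.of_mul (hn w)
          refine ((h5.mul h5).mul (G_int w α)).congr le_rfl ?_
          rw [hD']; ring
        have := hN w hwS
        exact h6.mono (by omega)
      · have hβw : β ∉ w.asIdeal := fun h => hwS ((hS w).mpr (w.asIdeal.mul_mem_left _ h))
        have h5 : n w = 0 := by
          have h6 : ¬ (1 : ℤ) ≤ (n w : ℤ) := by
            intro h7
            have h8 := (lt_one_of_E (hn w)).mpr h7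
            have h1 : w.valuation F (β : F) = w.intValuation β :=
              w.valuation_of_algebraMap (K := F) β
            rw [h1] at h8
            exact hβw ((w.intValuation_lt_one_iff_mem _).mp h8)
          omega
        have h6 : G (w.valuation F) (0 + 0 + 0 - n w)
            (D * ((y : F) / ((b : 𝓞 F) : F)) ^ 2) := by
          apply G.of_mul (hn w)
          refine (((G_int w y).mul (G_int w y)).mul (G_int w α)).congr le_rfl ?_
          rw [hD']; ring
        exact h6.mono (by omega)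
  obtain ⟨r, hr⟩ := HeightOneSpectrum.mem_integers_of_valuation_le_one F _ hint
  refine ⟨(y : F) / ((b : 𝓞 F) : F), r, hr, fun P hP => ?_⟩
  have h5 : G (P.valuation F) 1 (((r - 1 : 𝓞 F)) : F) := by
    refine (hP3 P hP).congr le_rfl ?_
    rw [← hr]
    exact (map_sub (algebraMap (𝓞 F) F) r 1).trans (by rw [map_one]) |>.symm
  unfold G at h5
  have h1 : P.valuation F (((r - 1 : 𝓞 F)) : F) = P.intValuation (r - 1) :=
    P.valuation_of_algebraMap (K := F) (r - 1)
  rw [h1] at h5
  have h6 := (P.intValuation_le_pow_iff_mem (r - 1) 1).mp (by exact_mod_cast h5)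
  rwa [pow_one] at h6

end approx

section final

variable {F : Type*} [Field F] [NumberField F]

/-- **The norm step.**  A totally real field of odd degree has no totally negative element that
is a square at all primes above 3 (in the weak sense used here) and has even order at all primes
of norm not 1 modulo 3. -/
theorem norm_step [IsTotallyReal F] (hodd : Odd (Module.finrank ℚ F)) {D : F}
    (hneg : ∀ φ : F →+* ℝ, φ D < 0)
    (h3 : ∀ P : HeightOneSpectrum (𝓞 F), (3 : 𝓞 F) ∈ P.asIdeal →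
      ∃ t : F, P.valuation F (t ^ 2 - D) < P.valuation F D)
    (hw : ∀ w : HeightOneSpectrum (𝓞 F), (3 : 𝓞 F) ∉ w.asIdeal → ∀ n : ℤ, Odd n →
      E (w.valuation F) n D → Ideal.absNorm w.asIdeal % 3 = 1) : False := by
  obtain ⟨z, r, hr, hr3⟩ := exists_square_mul h3
  have hc := norm_congr_one hr3
  have hr0 : r ≠ 0 := by
    rintro rfl
    rw [Algebra.norm_zero] at hc
    omega
  have hz0 : z ≠ 0 := by
    rintro rfl
    apply hr0
    have : (r : F) = 0 := by rw [hr]; ring
    exact_mod_cast this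
  have hD0 : D ≠ 0 := by
    rintro rfl
    apply hr0
    have : (r : F) = 0 := by rw [hr]; ring
    exact_mod_cast this
  have hrneg : ∀ φ : F →+* ℝ, φ (r : F) < 0 := by
    intro φ
    rw [hr, map_mul, map_pow]
    have h1 : φ z ≠ 0 := (map_ne_zero φ).mpr hz0
    have h2 : 0 < φ z ^ 2 := by positivity
    exact mul_neg_of_neg_of_pos (hneg φ) h2
  have hlt := norm_lt_zero hodd hrneg
  have habs : ((Ideal.absNorm (Ideal.span {r}) : ℕ) : ZMod 3) = 1 := by
    apply absNorm_span_mod hr0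
    · intro P hP hrP
      have h1 := P.asIdeal.sub_mem hrP (hr3 P hP)
      rw [sub_sub_cancel] at h1
      exact P.isPrime.ne_top ((Ideal.eq_top_iff_one _).mpr h1)
    · intro w hw3 n hn hE
      obtain ⟨m, hm⟩ := exists_E (v := w.valuation F) hD0
      obtain ⟨k, hk⟩ := exists_E (v := w.valuation F) hz0
      have h1 : E (w.valuation F) (m + (k + k)) (r : F) :=
        (hm.mul (hk.mul hk)).congr rfl (by rw [hr]; ring)
      have h2 : n = m + (k + k) := hE.unique h1
      refine hw w hw3 m ?_ hm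
      rw [h2] at hn
      have h3 : Even (k + k) := ⟨k, rfl⟩
      exact (Int.odd_add.mp hn).mpr h3
  rw [Ideal.absNorm_span_singleton] at habs
  have h1 : ((Algebra.norm ℤ r).natAbs : ℤ) = - Algebra.norm ℤ r := Int.ofNat_natAbs_of_nonpos hlt.le
  have h2 : ((Algebra.norm ℤ r : ℤ) : ZMod 3) = -1 := by
    have h3 : (((Algebra.norm ℤ r).natAbs : ℤ) : ZMod 3) = ((- Algebra.norm ℤ r : ℤ) : ZMod 3) := by
      rw [h1]
    rw [Int.cast_natCast, habs, Int.cast_neg] at h3
    rw [h3, neg_neg]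
  have h3 : ((Algebra.norm ℤ r : ℤ) : ZMod 3) = 1 := by
    have h4 : ((Algebra.norm ℤ r - 1 : ℤ) : ZMod 3) = 0 := by
      rw [ZMod.intCast_zmod_eq_zero_iff_dvd]; exact_mod_cast hc
    push_cast at h4
    exact sub_eq_zero.mp h4
  rw [h3] at h2
  exact absurd h2 (by decide)

end final

end Pool.Agent.L9
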