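import Pool.Agent.H42M.ModPts
import Pool.Agent.H42M.ModTor
import Pool.Agent.H42M.ModCore

/-! # A subgroup of order 3 defined over a quadratic extension (helper9) -/

set_option autoImplicit false

namespace Pool.Agent.L9

open WeierstrassCurve WeierstrassCurve.Affine Pool.Agent.H42M

variable {F K : Type*} [Field F] [Field K] [DecidableEq K] [Algebra F K] {W : WeierstrassCurve F}

lemma three_neg {D : AddSubgroup (WeierstrassCurve.Affine.baseChange W K).Point}
    (hD : Nat.card D = 3) {P : (WeierstrassCurve.Affine.baseChange W K).Point} (hP : P ∈ D)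
    (hP0 : P ≠ 0) : P + P = -P := by
  rw [eq_neg_iff_add_eq_zero]
  obtain ⟨r, -, -, -, h5⟩ := exists_zsmul (by norm_num) hD hP hP0 hP
  rw [← h5]
  push_cast
  abel

/-- the image of a subgroup of order 3 is the subgroup itself if the abscissa is fixed -/
lemma map_eq_of_x [CharZero K] {C : AddSubgroup (WeierstrassCurve.Affine.baseChange W K).Point}
    (hC : Nat.card C = 3) {x y : K} {h : (WeierstrassCurve.Affine.baseChange W K).Nonsingular x y}
    (hP : Point.some x y h ∈ C) {σ : K ≃ₐ[F] K} (hσ : σ x = x) : C.map (act W σ) = C := by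
  have hle : C.map (act W σ) ≤ C := by
    rw [AddSubgroup.map_le_iff_le_comap]
    intro Q hQ
    have hPσ : act W σ (Point.some x y h) ∈ C := by
      have : act W σ (Point.some x y h) = Point.some x y h ∨
          act W σ (Point.some x y h) = -Point.some x y h := by
        rw [act, Point.map_some]
        exact Point.X_eq_iff.mp hσ
      rcases this with h1 | h1
      · rw [h1]; exact hP
      · rw [h1]; exact neg_mem hP
    rw [AddSubgroup.mem_comap]
    rcases mem_cases3 hC hP (Point.some_ne_zero h) hQ with h1 | h1 | h1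
    · rw [h1, map_zero]; exact zero_mem _
    · rw [h1]; exact hPσ
    · rw [h1, map_neg]; exact neg_mem hPσ
  have hfin : Finite C := Nat.finite_of_card_ne_zero (by rw [hC]; norm_num)
  apply AddSubgroup.eq_of_le_of_card_ge hle
  have hinj : Function.Injective (act W σ) := Point.map_injective _
  rw [hC, ← hC]
  exact (Nat.card_congr (AddSubgroup.equivMapOfInjective C _ hinj).toEquiv).le

/-- a subgroup of order 3 which is stable over a quadratic extension only -/
lemma quad_pair [CharZero K] [IsGalois F K]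
    {C : AddSubgroup (WeierstrassCurve.Affine.baseChange W K).Point} (hC : Nat.card C = 3)
    {δ : F} {t : K} (ht : t ^ 2 = algebraMap F K δ)
    (hst : ∀ σ : K ≃ₐ[F] K, σ t = t → C.map (act W σ) = C)
    (hno : ¬ ∀ σ : K ≃ₐ[F] K, C.map (act W σ) = C) :
    ∃ (x₁ x₂ : K) (u v w : F), algebraMap F K u = x₁ + x₂ ∧ algebraMap F K v = x₁ * x₂ ∧
      x₁ ≠ x₂ ∧
      3 * x₁ ^ 4 + 6 * (-27 * algebraMap F K W.c₄) * x₁ ^ 2 +
        12 * (-54 * algebraMap F K W.c₆) * x₁ - (-27 * algebraMap F K W.c₄) ^ 2 = 0 ∧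
      3 * x₂ ^ 4 + 6 * (-27 * algebraMap F K W.c₄) * x₂ ^ 2 +
        12 * (-54 * algebraMap F K W.c₆) * x₂ - (-27 * algebraMap F K W.c₄) ^ 2 = 0 ∧
      (u ^ 2 - 4 * v) * δ = w ^ 2 := by
  obtain ⟨P, hPC, hP0⟩ := exists_ne_zero (by norm_num) hC
  obtain ⟨x, y, h, rfl⟩ := exists_some hP0
  have hfix : ∀ z : K, (∀ σ : K ≃ₐ[F] K, σ z = z) → ∃ a : F, algebraMap F K a = z := fun z hz =>
    (InfiniteGalois.mem_range_algebraMap_iff_fixed z).mpr hz
  have hb : (WeierstrassCurve.Affine.baseChange W K).b₂ = algebraMap F K W.b₂ := W.map_b₂ _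
  have hc4 : (WeierstrassCurve.Affine.baseChange W K).c₄ = algebraMap F K W.c₄ := W.map_c₄ _
  have hc6 : (WeierstrassCurve.Affine.baseChange W K).c₆ = algebraMap F K W.c₆ := W.map_c₆ _
  -- the division polynomial
  have hpsi : 3 * (36 * x + 3 * algebraMap F K W.b₂) ^ 4 + 6 * (-27 * algebraMap F K W.c₄) *
        (36 * x + 3 * algebraMap F K W.b₂) ^ 2 + 12 * (-54 * algebraMap F K W.c₆) *
        (36 * x + 3 * algebraMap F K W.b₂) - (-27 * algebraMap F K W.c₄) ^ 2 = 0 := by
    have h4 := three_neg hC hPC (Point.some_ne_zero h)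
    have h3 : Point.some x y h + Point.some x y h =
        Point.some _ _ ((nonsingular_neg _ _).mpr h) := by
      rw [h4, Point.neg_some]
    have h1 := dup' h3
    rw [hb, hc4, hc6] at h1
    linear_combination h1
  -- the abscissa
  have hx1 : ∀ σ : K ≃ₐ[F] K, σ t = t → σ x = x := by
    intro σ hσ
    have hQ : act W σ (Point.some x y h) ∈ C := by
      rw [← hst σ hσ]
      exact AddSubgroup.mem_map_of_mem _ hPC
    rcases mem_cases3 hC hPC (Point.some_ne_zero h) hQ with h0 | h0 | h0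
    · rw [act, Point.map_some] at h0
      exact absurd h0 (Point.some_ne_zero _)
    · exact act_x (Or.inl h0)
    · exact act_x (Or.inr h0)
  have hcases : ∀ σ : K ≃ₐ[F] K, σ t = t ∨ σ t = -t := by
    intro σ
    apply sq_eq_sq_iff_eq_or_eq_neg.mp
    rw [← map_pow, ht, AlgEquiv.commutes]
  obtain ⟨σ₀, hσ₀⟩ : ∃ σ₀ : K ≃ₐ[F] K, σ₀ x ≠ x := by
    by_contra hcon
    push Not at hcon
    exact hno fun σ => map_eq_of_x hC hPC (hcon σ)
  have hσ₀t : σ₀ t = -t := by
    rcases hcases σ₀ with h1 | h1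
    · exact absurd (hx1 σ₀ h1) hσ₀
    · exact h1
  have hx2 : ∀ σ : K ≃ₐ[F] K, σ t = -t → σ x = σ₀ x := by
    intro σ hσ
    have h1 : (σ.trans σ₀.symm) t = t := by
      rw [AlgEquiv.trans_apply, hσ, AlgEquiv.symm_apply_eq, hσ₀t]
    have h2 := hx1 _ h1
    rw [AlgEquiv.trans_apply, AlgEquiv.symm_apply_eq] at h2
    exact h2
  have hgal : ∀ σ : K ≃ₐ[F] K, (σ t = t ∧ σ x = x ∧ σ (σ₀ x) = σ₀ x) ∨
      (σ t = -t ∧ σ x = σ₀ x ∧ σ (σ₀ x) = x) := by
    intro σ
    rcases hcases σ with h1 | h1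
    · left
      refine ⟨h1, hx1 σ h1, ?_⟩
      have h2 : (σ₀.trans σ) t = -t := by
        rw [AlgEquiv.trans_apply, hσ₀t, map_neg, h1]
      have h3 := hx2 _ h2
      rwa [AlgEquiv.trans_apply] at h3
    · right
      refine ⟨h1, hx2 σ h1, ?_⟩
      have h2 : (σ₀.trans σ) t = t := by
        rw [AlgEquiv.trans_apply, hσ₀t, map_neg, h1, neg_neg]
      have h3 := hx1 _ h2
      rwa [AlgEquiv.trans_apply] at h3
  obtain ⟨u, hu⟩ := hfix ((36 * x + 3 * algebraMap F K W.b₂) +
    (36 * σ₀ x + 3 * algebraMap F K W.b₂)) (by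
      intro σ
      rcases hgal σ with ⟨-, h1, h2⟩ | ⟨-, h1, h2⟩
      all_goals
        simp only [map_add, map_mul, map_ofNat, AlgEquiv.commutes, h1, h2]
        try ring)
  obtain ⟨v, hv⟩ := hfix ((36 * x + 3 * algebraMap F K W.b₂) *
    (36 * σ₀ x + 3 * algebraMap F K W.b₂)) (by
      intro σ
      rcases hgal σ with ⟨-, h1, h2⟩ | ⟨-, h1, h2⟩
      all_goals
        simp only [map_add, map_mul, map_ofNat, AlgEquiv.commutes, h1, h2]
        try ring)
  obtain ⟨w, hw⟩ := hfix ((36 * x - 36 * σ₀ x) * t) (by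
      intro σ
      rcases hgal σ with ⟨h0, h1, h2⟩ | ⟨h0, h1, h2⟩
      all_goals
        simp only [map_sub, map_mul, map_ofNat, h0, h1, h2]
        try ring)
  refine ⟨36 * x + 3 * algebraMap F K W.b₂, 36 * σ₀ x + 3 * algebraMap F K W.b₂, u, v, w, hu, hv,
    ?_, hpsi, ?_, ?_⟩
  · intro h0
    apply hσ₀
    linear_combination -h0 / 36
  · have h1 := congrArg σ₀ hpsi
    simpa only [map_add, map_mul, map_sub, map_pow, map_neg, map_ofNat, map_zero,
      AlgEquiv.commutes] using h1
  · apply (algebraMap F K).injective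
    rw [map_mul, map_sub, map_pow, map_mul, map_ofNat, map_pow, hu, hv, hw, ← ht]
    ring

end Pool.Agent.L9
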