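import Mathlib

/-! # Norms of totally negative elements in odd degree (helper9) -/

set_option autoImplicit false

namespace Pool.Agent.L9

open NumberField

variable {F : Type*} [Field F] [NumberField F]

/-- in odd degree the norm of a totally negative element is negative -/
theorem norm_neg [IsTotallyReal F] (hodd : Odd (Module.finrank ℚ F)) {x : F}
    (hx : ∀ φ : F →+* ℝ, φ x < 0) : Algebra.norm ℚ x < 0 := by
  classical
  have h1 := Algebra.norm_eq_prod_embeddings ℚ ℂ x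
  set f : (F →ₐ[ℚ] ℂ) → ℝ := fun σ =>
    (IsTotallyReal.complexEmbedding_isReal (σ : F →+* ℂ)).embedding x with hf
  have h2 : ∀ σ : F →ₐ[ℚ] ℂ, σ x = ((f σ : ℝ) : ℂ) := by
    intro σ
    rw [hf, ComplexEmbedding.IsReal.coe_embedding_apply]
    rfl
  have h3 : ∏ σ : F →ₐ[ℚ] ℂ, f σ < 0 := by
    have h4 : ∏ σ : F →ₐ[ℚ] ℂ, f σ = (-1) ^ Fintype.card (F →ₐ[ℚ] ℂ) * ∏ σ : F →ₐ[ℚ] ℂ, -f σ := by
      rw [← Finset.card_univ, ← Finset.prod_const, ← Finset.prod_mul_distrib]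
      apply Finset.prod_congr rfl
      intro σ _
      ring
    rw [h4, AlgHom.card, hodd.neg_one_pow, neg_one_mul]
    apply neg_lt_zero.mpr
    apply Finset.prod_pos
    intro σ _
    exact neg_pos.mpr (hx _)
  have h5 : ((Algebra.norm ℚ x : ℚ) : ℝ) = ∏ σ : F →ₐ[ℚ] ℂ, f σ := by
    have h6 : (((Algebra.norm ℚ x : ℚ) : ℝ) : ℂ) = ((∏ σ : F →ₐ[ℚ] ℂ, f σ : ℝ) : ℂ) := by
      rw [Complex.ofReal_prod, ← Finset.prod_congr rfl fun σ _ => h2 σ, ← h1]
      simp
    exact_mod_cast h6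
  rw [← h5] at h3
  exact_mod_cast h3

/-- in odd degree 5 is not a square -/
theorem not_sq_five (hodd : Odd (Module.finrank ℚ F)) (s : F) : s ^ 2 ≠ 5 := by
  intro h
  have h1 : (Algebra.norm ℚ s) ^ 2 = 5 ^ Module.finrank ℚ F := by
    rw [← map_pow, h]
    have := Algebra.norm_algebraMap (S := F) (5 : ℚ)
    rwa [map_ofNat] at this
  obtain ⟨m, hm⟩ := hodd
  rw [hm] at h1
  have h2 : (Algebra.norm ℚ s / 5 ^ m) ^ 2 = 5 := by
    rw [div_pow, h1, ← pow_mul, pow_succ, mul_comm 2 m]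
    field_simp
  have h3 : IsSquare ((5 : ℕ) : ℚ) := ⟨_, by rw [← pow_two, h2]; norm_num⟩
  rw [Rat.isSquare_natCast_iff] at h3
  obtain ⟨r, hr⟩ := h3
  have : r ≤ 2 := by nlinarith
  interval_cases r <;> omega

end Pool.Agent.L9
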