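import Pool.Agent.L9.Val
import Pool.Agent.H23T.Cusp2

/-! # The functions on `15a3` at the places above two (helper94, for helper9) -/

set_option autoImplicit false
set_option linter.unusedVariables false

namespace Pool.Agent.L9

open Pool.Agent.H23T WithZero

variable {F : Type*} [Field F] {v : Valuation F ℤᵐ⁰}

lemma G0mul {x y : F} (h : G v 0 x) (h' : G v 0 y) : G v 0 (x * y) := (h.mul h').mono (by norm_num)

lemma G0pow {x : F} (h : G v 0 x) (k : ℕ) : G v 0 (x ^ k) := (h.pow k).mono (by norm_num)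

lemma G1mul {x y : F} (h : G v 0 x) (h' : G v 1 y) : G v 1 (x * y) := (h.mul h').mono (by norm_num)

lemma not_G1 {x : F} (h : E v 0 x) : ¬ G v 1 x := fun h' => by have := h.le h'; omega

lemma five_unit (h2 : G v 1 (2 : F)) : E v 0 (5 : F) := by
  have h := E.int (v := v) (p := 2) (by exact_mod_cast h2) (n := 5) (by norm_num)
  exact_mod_cast h

lemma ten_int : G v 0 (10 : F) := G.ofNat 10

/-- `m` has a pole when `r` is not a unit -/
lemma m_pole (h2 : G v 1 (2 : F)) {r m : F} (hr : r ≠ 0) (hM : m * r = r ^ 6 + 10 * r ^ 3 + 5)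
    (h0 : ¬ E v 0 r) : 1 < v m := by
  obtain ⟨n, hn⟩ := exists_E (v := v) hr
  have hn0 : n ≠ 0 := by rintro rfl; exact h0 hn
  have h5 := five_unit h2
  obtain ⟨k, hk, hkE⟩ : ∃ k : ℤ, k < n ∧ E v k (r ^ 6 + 10 * r ^ 3 + 5) := by
    rcases lt_or_gt_of_ne hn0 with h | h
    · refine ⟨6 * n, by omega, ?_⟩
      have h6 : E v (6 * n) (r ^ 6) := (hn.pow 6).congr (by norm_num) rfl
      have h3 : G v (3 * n) (10 * r ^ 3) :=
        (ten_int.mul ((hn.pow 3).g le_rfl)).congr (by norm_num) rfl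
      have h7 := h6.add (h3.add (h5.g (m := 3 * n) (by omega))) (by omega)
      exact h7.congr rfl (by ring)
    · refine ⟨0, h, ?_⟩
      have h6 : G v 1 (r ^ 6) := ((hn.pow 6).g (m := 1) (by push_cast; omega))
      have h3 : G v 1 (10 * r ^ 3) :=
        (ten_int.mul ((hn.pow 3).g (m := 1) (by push_cast; omega))).mono (by norm_num)
      exact E.add' (h6.add h3) h5 (by norm_num)
  have hm0 : m ≠ 0 := by
    rintro rfl
    rw [zero_mul] at hM
    rw [← hM] at hkE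
    exact hkE.ne_zero rfl
  obtain ⟨l, hl⟩ := exists_E (v := v) hm0
  have h8 := hl.mul hn
  rw [hM] at h8
  have h9 := h8.unique hkE
  have h10 : l < 0 := by omega
  rw [← not_le]
  intro hle
  have : G v 0 m := G_iff_one.mpr hle
  have := hl.le this
  omega

/-- the fourth function -/
lemma exists_s [CharZero F] {x y r m : F} (f : Fun2 x y r m) :
    ∃ s : F, s ^ 2 + (r ^ 2 + r - 1) * s - 3 * (r + 2) = 0 := by
  refine ⟨((r ^ 2 * (x + 3) - 90 * r - 450) / 90 - r ^ 2 - r + 1) / 2, ?_⟩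
  have hA := f.A
  have hB := f.B
  have h : r ^ 2 * ((x - 87) * (x + 93)) = 180 * r * (x + 93) + 900 * (x - 15) := by
    linear_combination r * hB + 30 * hA
  linear_combination (r ^ 2 / 32400) * h

lemma s_int {r s : F} (hr : G v 0 r) (h : s ^ 2 + (r ^ 2 + r - 1) * s - 3 * (r + 2) = 0) :
    G v 0 s := by
  by_contra hs
  have hs0 : s ≠ 0 := by rintro rfl; exact hs G.zero
  obtain ⟨k, hk⟩ := exists_E (v := v) hs0
  have hk0 : k < 0 := by
    by_contra hk0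
    exact hs (hk.g (by omega))
  have h1 : G v 0 (r ^ 2 + r - 1) := ((G0pow hr 2).add hr).sub (E.one.g le_rfl)
  have h2 : G v 0 (3 * (r + 2)) := G0mul (G.ofNat 3) (hr.add (G.ofNat 2))
  have h3 : G v k ((r ^ 2 + r - 1) * s) := (h1.mul (hk.g le_rfl)).mono (by omega)
  have h4 : E v (2 * k) (s ^ 2) := (hk.pow 2).congr (by norm_num) rfl
  have h5 := h4.add (h3.sub (h2.mono (m := k) (by omega))) (by omega)
  refine h5.ne_zero ?_
  linear_combination h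

theorem fun2_two [CharZero F] (h2 : G v 1 (2 : F)) (hres : ∀ z : F, G v 0 z → G v 1 (z ^ 8 - z))
    {x y r m : F} (hxy : y ^ 2 = (x - 51) * (x - 42) * (x + 93)) (f : Fun2 x y r m) :
    1 < v m := by
  refine m_pole h2 f.r0 f.M ?_
  intro hr
  obtain ⟨s, hs⟩ := exists_s f
  have hrG : G v 0 r := hr.g le_rfl
  have hsG := s_int hrG hs
  have hone : G v 0 (1 : F) := E.one.g le_rfl
  have hr8 := hres r hrG
  have hs8 := hres s hsG
  refine not_G1 hr ?_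
  have key : r = (r ^ 12 * s + (7) * r ^ 11 * s + (-3) * r ^ 11 + (15) * r ^ 10 * s + (-24) * r ^ 10 + (19) * r ^ 9 * s + (-66) * r ^ 9 + (98) * r ^ 8 * s + (-96) * r ^ 8 + (282) * r ^ 7 * s + (-297) * r ^ 7 + (263) * r ^ 6 * s + (-963) * r ^ 6 + (384) * r ^ 5 * s + (-1347) * r ^ 5 + (1476) * r ^ 4 * s + (-1347) * r ^ 4 + (1689) * r ^ 3 * s + (-3645) * r ^ 3 + (767) * r ^ 2 * s + (-6054) * r ^ 2 + (2781) * r * s + (-4194) * r + (3631) * s + (-5688)) * (r ^ 8 - r) + (r ^ 6 + r ^ 4 + r ^ 3 + r + (1)) * (s ^ 8 - s) + ((492) * r ^ 7 * s + (-4632) * r ^ 7 + (1891) * r ^ 6 * s + (-2319) * r ^ 6 + (2543) * r ^ 5 * s + (-3120) * r ^ 5 + (50) * r ^ 4 * s + (-6732) * r ^ 4 + (877) * r ^ 3 * s + (-3753) * r ^ 3 + (2818) * r ^ 2 * s + (-1509) * r ^ 2 + (1414) * r * s + (-4918) * r + (-630) * s + (-1389)) * 2 := by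
    linear_combination ((-1) * r ^ 18 + (-6) * r ^ 17 + r ^ 16 * s + (-10) * r ^ 16 + (5) * r ^ 15 * s + (-12) * r ^ 15 + (-1) * r ^ 14 * s ^ 2 + (6) * r ^ 14 * s + (-75) * r ^ 14 + (-4) * r ^ 13 * s ^ 2 + (8) * r ^ 13 * s + (-171) * r ^ 13 + r ^ 12 * s ^ 3 + (-3) * r ^ 12 * s ^ 2 + (55) * r ^ 12 * s + (-107) * r ^ 12 + (3) * r ^ 11 * s ^ 3 + (-6) * r ^ 11 * s ^ 2 + (91) * r ^ 11 * s + (-234) * r ^ 11 + (-1) * r ^ 10 * s ^ 4 + r ^ 10 * s ^ 3 + (-37) * r ^ 10 * s ^ 2 + (35) * r ^ 10 * s + (-739) * r ^ 10 + (-2) * r ^ 9 * s ^ 4 + (5) * r ^ 9 * s ^ 3 + (-39) * r ^ 9 * s ^ 2 + (143) * r ^ 9 * s + (-518) * r ^ 9 + r ^ 8 * s ^ 5 + (21) * r ^ 8 * s ^ 3 + (-12) * r ^ 8 * s ^ 2 + (292) * r ^ 8 * s + (-330) * r ^ 8 + r ^ 7 * s ^ 5 + (-4) * r ^ 7 * s ^ 4 + (11) * r ^ 7 * s ^ 3 + (-77) * r ^ 7 * s ^ 2 + (99) * r ^ 7 * s + (-1137) * r ^ 7 + (-1) * r ^ 6 * s ^ 6 + (-8) * r ^ 6 * s ^ 4 + (10) * r ^ 6 *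 s ^ 3 + (-68) * r ^ 6 * s ^ 2 + (220) * r ^ 6 * s + (-493) * r ^ 6 + (2) * r ^ 5 * s ^ 5 + (-1) * r ^ 5 * s ^ 4 + (30) * r ^ 5 * s ^ 3 + (-12) * r ^ 5 * s ^ 2 + (350) * r ^ 5 * s + (-111) * r ^ 5 + (-1) * r ^ 4 * s ^ 6 + (-11) * r ^ 4 * s ^ 4 + (-3) * r ^ 4 * s ^ 3 + (-126) * r ^ 4 * s ^ 2 + (-81) * r ^ 4 * s + (-1409) * r ^ 4 + (-1) * r ^ 3 * s ^ 6 + (-8) * r ^ 3 * s ^ 4 + (6) * r ^ 3 * s ^ 3 + (-65) * r ^ 3 * s ^ 2 + (92) * r ^ 3 * s + (-455) * r ^ 3 + (2) * r ^ 2 * s ^ 5 + (27) * r ^ 2 * s ^ 3 + (20) * r ^ 2 * s ^ 2 + (285) * r ^ 2 * s + (426) * r ^ 2 + (-1) * r * s ^ 6 + (-8) * r * s ^ 4 + (-4) * r * s ^ 3 + (-60) * r * s ^ 2 + (-68) * r * s + (-460) * r + (-1) * s ^ 6 + (-1) * s ^ 5 + (-7) * s ^ 4 + (-13) * s ^ 3 + (-55) * s ^ 2 + (-133) * s + (-463)) * hs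
  rw [key]
  refine ((G1mul ?_ hr8).add (G1mul ?_ hs8)).add (G1mul ?_ h2)
  all_goals
    repeat' first
      | assumption
      | exact G.ofNat _
      | apply G.add
      | apply G.neg
      | apply G0mul
      | apply G0pow

theorem fun2_odd [CharZero F] (h2 : G v 1 (2 : F)) (hres : ∀ z : F, ¬ G v 1 (z ^ 2 + z + 1))
    {x y r m : F} (hxy : y ^ 2 = (x - 51) * (x - 42) * (x + 93)) (f : Fun2 x y r m) :
    1 ≤ v m := by
  by_cases hr : E v 0 r
  swap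
  · exact (m_pole h2 f.r0 f.M hr).le
  by_contra hm
  have hm1 : G v 1 m := by
    by_cases h0 : m = 0
    · rw [h0]; exact G.zero
    obtain ⟨k, hk⟩ := exists_E (v := v) h0
    exact hk.g ((lt_one_of_E hk).mp (not_le.mp hm))
  obtain ⟨s, hs⟩ := exists_s f
  have hrG : G v 0 r := hr.g le_rfl
  have hsG := s_int hrG hs
  have hone : G v 0 (1 : F) := E.one.g le_rfl
  have hM := f.M
  have h1 : G v 1 ((r ^ 3 + 1) ^ 2) := by
    have : (r ^ 3 + 1) ^ 2 = r * m + -((4 * r ^ 3 + 2) * 2) := by linear_combination -hM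
    rw [this]
    refine (G1mul hrG hm1).add (G1mul ?_ h2).neg
    exact (G0mul (G.ofNat 4) (G0pow hrG 3)).add (G.ofNat 2)
  have h3 : G v 1 (r ^ 3 + 1) := by
    rcases G.cases (v := v) (x := r ^ 3 + 1) ((G0pow hrG 3).add hone) with h | h
    · exact absurd h1 (not_G1 ((h.pow 2).congr (by norm_num) rfl))
    · exact h
  have h4 : G v 1 (r + 1) := by
    rcases G.cases (v := v) (x := r + 1) (hrG.add hone) with h | h
    · exfalso
      have h5 : G v 0 (r ^ 2 - r + 1) := ((G0pow hrG 2).sub hrG).add hone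
      rcases G.cases h5 with h6 | h6
      · exact not_G1 ((h.mul h6).congr (by norm_num) rfl) (h3.congr le_rfl (by ring))
      · refine hres r ?_
        have : r ^ 2 + r + 1 = (r ^ 2 - r + 1) + r * 2 := by ring
        rw [this]
        exact h6.add (G1mul hrG h2)
    · exact h
  refine hres s ?_
  have h7 : s ^ 2 + s + 1 = (3 - r * s) * (r + 1) + (s + 2) * 2 := by
    linear_combination hs
  rw [h7]
  exact (G1mul ((G.ofNat 3).sub (G0mul hrG hsG)) h4).add (G1mul (hsG.add (G.ofNat 2)) h2)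

end Pool.Agent.L9
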