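import Mathlib

/-! # Weak approximation at the primes above 3 (helper42)

An element of a number field which is close to a square at every prime above 3 is, up to a square, an
algebraic integer congruent to 1 modulo every prime above 3. -/

namespace Pool.Agent.L9

open NumberField IsDedekindDomain WithZero

variable {F : Type*} [Field F] [NumberField F]

/-- weak approximation at finitely many primes -/
theorem weak_approx (T : Finset (HeightOneSpectrum (𝓞 F))) (a : HeightOneSpectrum (𝓞 F) → F)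
    (h0 : ∀ P ∈ T, a P ≠ 0) : ∃ x : F, ∀ P ∈ T, P.valuation F (x - a P) < P.valuation F (a P) := by
  classical
  obtain ⟨N, hN⟩ := IsLocalization.exist_integer_multiples (nonZeroDivisors (𝓞 F)) T a
  have hN0 : algebraMap (𝓞 F) F N ≠ 0 := by
    simp
  have hex : ∀ P : T, ∃ r : 𝓞 F, algebraMap (𝓞 F) F r = algebraMap (𝓞 F) F N * a P := fun P => by
    obtain ⟨r, hr⟩ := hN P P.2
    exact ⟨r, by rw [hr, Algebra.smul_def]⟩
  choose r hr using hex
  have hpos : ∀ P : HeightOneSpectrum (𝓞 F), ∃ n : ℕ, P ∈ T →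
      exp (-(n : ℤ)) < P.valuation F (algebraMap (𝓞 F) F N * a P) := fun P => by
    by_cases hP : P ∈ T
    · have h1 : P.valuation F (algebraMap (𝓞 F) F N * a P) ≠ 0 :=
        (Valuation.ne_zero_iff _).2 (mul_ne_zero hN0 (h0 P hP))
      refine ⟨(1 - log (P.valuation F (algebraMap (𝓞 F) F N * a P))).toNat, fun _ => ?_⟩
      rw [← exp_log h1, exp_lt_exp, exp_log h1]
      have := Int.self_le_toNat (1 - log (P.valuation F (algebraMap (𝓞 F) F N * a P)))
      omega
    · exact ⟨0, fun h => absurd h hP⟩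
  choose e he using hpos
  obtain ⟨y, hy⟩ := IsDedekindDomain.exists_forall_sub_mem_ideal (s := T)
    (fun P : HeightOneSpectrum (𝓞 F) => P.asIdeal) e (fun P _ => P.prime)
    (fun P _ Q _ hPQ h => hPQ (HeightOneSpectrum.ext h)) r
  refine ⟨algebraMap (𝓞 F) F y / algebraMap (𝓞 F) F N, fun P hP => ?_⟩
  have h1 := hy P hP
  rw [← P.intValuation_le_pow_iff_mem, ← P.valuation_of_algebraMap (K := F)] at h1
  have h2 : algebraMap (𝓞 F) F (y - r ⟨P, hP⟩) =
      (algebraMap (𝓞 F) F y / algebraMap (𝓞 F) F N - a P) * algebraMap (𝓞 F) F N := by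
    rw [map_sub, hr]
    field_simp
  have h3 : P.valuation F (algebraMap (𝓞 F) F y / algebraMap (𝓞 F) F N - a P) *
      P.valuation F (algebraMap (𝓞 F) F N) <
      P.valuation F (a P) * P.valuation F (algebraMap (𝓞 F) F N) := by
    rw [← map_mul, ← h2, ← map_mul, mul_comm (a P)]
    exact lt_of_le_of_lt h1 (he P hP)
  exact lt_of_mul_lt_mul_right' h3

/-- there are finitely many primes above 3 -/
theorem finite_three : {P : HeightOneSpectrum (𝓞 F) | (3 : 𝓞 F) ∈ P.asIdeal}.Finite := by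
  have h := Ideal.finite_factors (R := 𝓞 F) (I := Ideal.span {(3 : 𝓞 F)}) (by
    intro h0
    have h1 : (3 : 𝓞 F) = 0 := Ideal.span_singleton_eq_bot.1 h0
    norm_num at h1)
  refine h.subset fun P hP => ?_
  exact Ideal.dvd_span_singleton.2 hP

/-- an integer is a square times 1 mod 3 after multiplication by a square -/
theorem weak_sqrt {δ : F} (hδ : δ ≠ 0) (h : ∀ P : HeightOneSpectrum (𝓞 F),
    (3 : 𝓞 F) ∈ P.asIdeal → ∃ a : F, P.valuation F (δ - a ^ 2) < P.valuation F δ) :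
    ∃ D : 𝓞 F, ∃ b : F, b ≠ 0 ∧ (D : F) = δ * b ^ 2 ∧
      ∀ P : HeightOneSpectrum (𝓞 F), (3 : 𝓞 F) ∈ P.asIdeal → D - 1 ∈ P.asIdeal := by
  classical
  have hex : ∀ P : HeightOneSpectrum (𝓞 F), ∃ a : F, (3 : 𝓞 F) ∈ P.asIdeal →
      P.valuation F (δ - a ^ 2) < P.valuation F δ := fun P => by
    by_cases hP : (3 : 𝓞 F) ∈ P.asIdeal
    · obtain ⟨a, ha⟩ := h P hP
      exact ⟨a, fun _ => ha⟩
    · exact ⟨0, fun h => absurd h hP⟩
  choose a ha using hex
  -- the values of `a`
  have hva : ∀ P : HeightOneSpectrum (𝓞 F), (3 : 𝓞 F) ∈ P.asIdeal →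
      P.valuation F (a P ^ 2) = P.valuation F δ := fun P hP => by
    have h1 := ha P hP
    have h2 : a P ^ 2 = δ - (δ - a P ^ 2) := by ring
    rw [h2, Valuation.map_sub_eq_of_lt_left _ h1]
  have ha0 : ∀ P : HeightOneSpectrum (𝓞 F), (3 : 𝓞 F) ∈ P.asIdeal → a P ≠ 0 := fun P hP h0 => by
    have h1 := hva P hP
    rw [h0, zero_pow two_ne_zero, map_zero] at h1
    exact hδ ((Valuation.zero_iff _).1 h1.symm)
  obtain ⟨x, hx⟩ := weak_approx (finite_three (F := F)).toFinset a
    (fun P hP => ha0 P (by simpa using hP))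
  have hx' : ∀ P : HeightOneSpectrum (𝓞 F), (3 : 𝓞 F) ∈ P.asIdeal →
      P.valuation F (x - a P) < P.valuation F (a P) := fun P hP =>
    hx P (by simpa using hP)
  -- a nonzero approximation
  obtain ⟨z, hz0, hz⟩ : ∃ z : F, z ≠ 0 ∧ ∀ P : HeightOneSpectrum (𝓞 F), (3 : 𝓞 F) ∈ P.asIdeal →
      P.valuation F (δ - z ^ 2) < P.valuation F δ := by
    have key : ∀ P : HeightOneSpectrum (𝓞 F), (3 : 𝓞 F) ∈ P.asIdeal →
        P.valuation F (δ - x ^ 2) < P.valuation F δ := fun P hP => by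
      have h1 := hx' P hP
      have h2 : P.valuation F (x + a P) ≤ P.valuation F (a P) := by
        have h3 : x + a P = (x - a P) + 2 * a P := by ring
        rw [h3]
        refine (Valuation.map_add _ _ _).trans (max_le h1.le ?_)
        rw [map_mul]
        refine mul_le_of_le_one_left' ?_
        have h5 : P.valuation F (algebraMap (𝓞 F) F 2) ≤ 1 := P.valuation_le_one (K := F) (2 : 𝓞 F)
        rwa [map_ofNat] at h5
      have h4 : δ - x ^ 2 = (δ - a P ^ 2) - (x - a P) * (x + a P) := by ring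
      rw [h4]
      refine lt_of_le_of_lt (Valuation.map_sub _ _ _) (max_lt (ha P hP) ?_)
      rw [← hva P hP, map_mul, map_pow, pow_two]
      have hne : P.valuation F (a P) ≠ 0 := (Valuation.ne_zero_iff _).2 (ha0 P hP)
      calc P.valuation F (x - a P) * P.valuation F (x + a P)
          ≤ P.valuation F (x - a P) * P.valuation F (a P) := mul_le_mul_right h2 _
        _ < P.valuation F (a P) * P.valuation F (a P) := by
          exact mul_lt_mul_of_pos_right h1 (zero_lt_iff.2 hne)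
    by_cases hx0 : x = 0
    · refine ⟨1, one_ne_zero, fun P hP => ?_⟩
      have h1 := hx' P hP
      rw [hx0, zero_sub, Valuation.map_neg] at h1
      exact absurd h1 (lt_irrefl _)
    · exact ⟨x, hx0, key⟩
  -- the unit at 3
  set γ : F := δ / z ^ 2 with hγ
  have hγ1 : ∀ P : HeightOneSpectrum (𝓞 F), (3 : 𝓞 F) ∈ P.asIdeal →
      P.valuation F (γ - 1) < 1 := fun P hP => by
    have h1 := hz P hP
    have h2 : P.valuation F (z ^ 2) = P.valuation F δ := by
      have h3 : z ^ 2 = δ - (δ - z ^ 2) := by ring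
      rw [h3, Valuation.map_sub_eq_of_lt_left _ h1]
    have h4 : γ - 1 = (δ - z ^ 2) / z ^ 2 := by
      rw [hγ]
      field_simp
    rw [h4, map_div₀, h2]
    exact (div_lt_one₀ (zero_lt_iff.2 ((Valuation.ne_zero_iff _).2 hδ))).2 h1
  have hγv : ∀ P : HeightOneSpectrum (𝓞 F), (3 : 𝓞 F) ∈ P.asIdeal →
      P.valuation F γ ≤ 1 := fun P hP => by
    have h1 : γ = (γ - 1) + 1 := by ring
    rw [h1]
    exact (Valuation.map_add _ _ _).trans (max_le (hγ1 P hP).le (by rw [map_one]))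
  -- a natural denominator
  obtain ⟨M, hM0, hM⟩ : ∃ M : ℕ, M ≠ 0 ∧ ∃ r : 𝓞 F, (r : F) = (M : F) * γ := by
    have halg : IsAlgebraic ℤ γ := by
      have h1 : IsAlgebraic ℚ γ := Algebra.IsAlgebraic.isAlgebraic γ
      exact (IsFractionRing.isAlgebraic_iff ℤ ℚ F).2 h1
    obtain ⟨y, hy0, hy⟩ := halg.exists_integral_multiple
    refine ⟨y.natAbs, Int.natAbs_ne_zero.2 hy0, ?_⟩
    have h2 : IsIntegral ℤ ((y.natAbs : F) * γ) := by
      rcases Int.natAbs_eq y with h | h
      · have h3 : (y.natAbs : F) * γ = y • γ := by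
          rw [zsmul_eq_mul]
          congr 1
          rw [← Int.cast_natCast, ← h]
        rw [h3]
        exact hy
      · have h3 : (y.natAbs : F) * γ = -(y • γ) := by
          rw [zsmul_eq_mul, ← neg_mul]
          congr 1
          rw [← Int.cast_natCast, ← Int.cast_neg]
          congr 1
          omega
        rw [h3]
        exact hy.neg
    exact ⟨⟨_, h2⟩, rfl⟩
  obtain ⟨s, n, hn3, hMn⟩ := Nat.exists_eq_pow_mul_and_not_dvd hM0 3 (by norm_num)
  have hnle : ∀ (P : HeightOneSpectrum (𝓞 F)) (m : ℕ), P.valuation F (m : F) ≤ 1 := fun P m => by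
    have h5 : P.valuation F (algebraMap (𝓞 F) F m) ≤ 1 := P.valuation_le_one (K := F) (m : 𝓞 F)
    rwa [map_natCast] at h5
  have hnγ : ∀ P : HeightOneSpectrum (𝓞 F), P.valuation F ((n : F) * γ) ≤ 1 := fun P => by
    by_cases hP : (3 : 𝓞 F) ∈ P.asIdeal
    · rw [map_mul]
      exact mul_le_one' (hnle P n) (hγv P hP)
    · obtain ⟨r, hr⟩ := hM
      have h3 : P.valuation F (3 : F) = 1 := by
        have h5 := (HeightOneSpectrum.valuation_eq_one_iff_notMem (K := F) (v := P)).2 hP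
        rwa [map_ofNat] at h5
      have h1 : P.valuation F ((M : F) * γ) ≤ 1 := by
        rw [← hr]
        exact P.valuation_le_one (K := F) r
      rw [hMn] at h1
      push_cast at h1
      rwa [mul_assoc, map_mul, map_pow, h3, one_pow, one_mul] at h1
  obtain ⟨t, ht⟩ := HeightOneSpectrum.mem_integers_of_valuation_le_one F ((n : F) * γ) hnγ
  have hn0 : n ≠ 0 := by
    rintro rfl
    exact hn3 (dvd_zero 3)
  refine ⟨(n : 𝓞 F) * t, n / z, div_ne_zero (by exact_mod_cast hn0) hz0, ?_, fun P hP => ?_⟩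
  · have h1 : (((n : 𝓞 F) * t : 𝓞 F) : F) = (n : F) * algebraMap (𝓞 F) F t := by
      simp
    rw [h1, ht, hγ]
    field_simp
  · refine (P.valuation_lt_one_iff_mem (K := F) _).1 ?_
    change P.valuation F (algebraMap (𝓞 F) F ((n : 𝓞 F) * t - 1)) < 1
    have h1 : algebraMap (𝓞 F) F ((n : 𝓞 F) * t - 1) = (n : F) ^ 2 * (γ - 1) + ((n : F) ^ 2 - 1) := by
      rw [map_sub, map_mul, ht, map_natCast, map_one]
      ring
    rw [h1]
    refine lt_of_le_of_lt (Valuation.map_add _ _ _) (max_lt ?_ ?_)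
    · rw [map_mul, map_pow]
      exact lt_of_le_of_lt (mul_le_of_le_one_left' (pow_le_one' (hnle P n) 2)) (hγ1 P hP)
    · obtain ⟨q, hq⟩ : (3 : ℤ) ∣ (n : ℤ) ^ 2 - 1 := by
        have h2 : (n : ℤ) % 3 = 1 ∨ (n : ℤ) % 3 = 2 := by omega
        rcases h2 with h2 | h2
        · obtain ⟨k, hk⟩ : ∃ k : ℤ, (n : ℤ) = 3 * k + 1 := ⟨n / 3, by omega⟩
          exact ⟨3 * k ^ 2 + 2 * k, by rw [hk]; ring⟩
        · obtain ⟨k, hk⟩ : ∃ k : ℤ, (n : ℤ) = 3 * k + 2 := ⟨n / 3, by omega⟩
          exact ⟨3 * k ^ 2 + 4 * k + 1, by rw [hk]; ring⟩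
      have h2 : (n : F) ^ 2 - 1 = algebraMap (𝓞 F) F (3 * (q : 𝓞 F)) := by
        have h3 : ((n : ℤ) ^ 2 - 1 : ℤ) = 3 * q := hq
        have h4 := congrArg (Int.cast : ℤ → F) h3
        push_cast at h4
        rw [h4, map_mul, map_ofNat, map_intCast]
      rw [h2]
      exact (P.valuation_lt_one_iff_mem (K := F) _).2 (Ideal.mul_mem_right _ _ hP)

end Pool.Agent.L9
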