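import Pool.Agent.L9.Final
import Pool.Agent.L9.Quad3
import Pool.Agent.L9.LocQ
import Pool.Agent.L9.Norm3
import Pool.Agent.L9.Sign
import Pool.Agent.L9.TwoB
import Pool.Agent.L9.Weak

/-! # Odd degree: the mod 3 representation is not badly dihedral (helper9) -/

set_option autoImplicit false

namespace Pool.Agent.L9

open NumberField WeierstrassCurve WeierstrassCurve.Affine IsDedekindDomain WithZero
  Pool.Agent.H42M Pool.Agent.M7 Pool.Agent.H23T

/-- the discriminant identity for a pair of subgroups of order 3 -/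
lemma pair_disc {F : Type*} [Field F] {A B u v : F}
    (r1 : 4 * B = 2 * u * v - u ^ 3 - 2 * A * u)
    (r2 : A ^ 2 + 6 * A * v + 3 * u ^ 2 * v - 3 * v ^ 2 = 0) :
    16 * v ^ 3 * (4 * A ^ 3 + 27 * B ^ 2) = (3 * v + A) ^ 3 * (v - A) ^ 3 := by
  linear_combination (27 * v ^ 3 * (4 * B + (2 * u * v - u ^ 3 - 2 * A * u))) * r1 +
    (((3 * v ^ 2 + A ^ 2) - (A ^ 2 + 6 * A * v + 3 * u ^ 2 * v - 3 * v ^ 2)) ^ 2 +
      (3 * v ^ 2 - 6 * A * v - A ^ 2) * ((A ^ 2 + 6 * A * v + 3 * u ^ 2 * v - 3 * v ^ 2) -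
        2 * (3 * v ^ 2 + A ^ 2))) * r2

lemma ca_eq {F : Type*} [Field F] {A v : F} (hv0 : v ≠ 0) (h1 : 3 * v + A ≠ 0) (h2 : v - A ≠ 0) :
    16 * A * v / ((3 * v + A) * (v - A)) * ((3 + A / v) * (1 - A / v)) = 16 * (A / v) := by
  have i1 : 3 + A / v = (3 * v + A) / v := by field_simp
  have i2 : 1 - A / v = (v - A) / v := by field_simp
  rw [i1, i2, div_mul_div_comm, div_mul_div_comm, mul_div_assoc', div_eq_div_iff
    (mul_ne_zero (mul_ne_zero h1 h2) (mul_ne_zero hv0 hv0)) hv0]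
  ring

open scoped Classical in
/-- let an elliptic curve with a 5-isogeny and without 3-isogeny over a totally real field acquire a
3-isogeny over a quadratic extension `F(√δ)` in which all primes above 3 split; then the norm of
`δ` is positive -/
theorem norm_pos {F : Type*} [Field F] [NumberField F] [IsTotallyReal F]
    (hs : ∀ s : F, s ^ 2 ≠ 5) (W : WeierstrassCurve F) [W.IsElliptic]
    (h5 : ∃ C : AddSubgroup (W⁄(AlgebraicClosure F)).Point, Nat.card C = 5 ∧
      ∀ σ : AlgebraicClosure F ≃ₐ[F] AlgebraicClosure F,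
        C.map (Point.map (W' := W) (σ : AlgebraicClosure F →ₐ[F] AlgebraicClosure F)) = C)
    (h3 : ¬ ∃ C : AddSubgroup (W⁄(AlgebraicClosure F)).Point, Nat.card C = 3 ∧
      ∀ σ : AlgebraicClosure F ≃ₐ[F] AlgebraicClosure F,
        C.map (Point.map (W' := W) (σ : AlgebraicClosure F →ₐ[F] AlgebraicClosure F)) = C)
    {δ : F} (hδ : δ ≠ 0)
    (hsplit : ∀ P : HeightOneSpectrum (𝓞 F), (3 : 𝓞 F) ∈ P.asIdeal →
      ∃ a : F, P.valuation F (δ - a ^ 2) < P.valuation F δ)
    (hC3 : ∃ C : AddSubgroup (W⁄(AlgebraicClosure F)).Point, Nat.card C = 3 ∧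
      ∀ σ : AlgebraicClosure F ≃ₐ[F] AlgebraicClosure F,
        (∀ z : AlgebraicClosure F, z ^ 2 = algebraMap F (AlgebraicClosure F) δ → σ z = z) →
        C.map (Point.map (W' := W) (σ : AlgebraicClosure F →ₐ[F] AlgebraicClosure F)) = C) :
    0 < Algebra.norm ℚ δ := by
  obtain ⟨C, hC, hstC⟩ := hC3
  obtain ⟨C₅, hC₅, hst₅⟩ := h5
  obtain ⟨k, hk0, hk⟩ := five_point (K := AlgebraicClosure F) W C₅ hC₅ hst₅
  obtain ⟨φ⟩ := exists_real F
  have hj0 : W.j ≠ 0 := by
    intro h0
    rw [h0, zero_mul] at hk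
    have h1 : k ^ 2 + 10 * k + 5 = 0 := (pow_eq_zero_iff (by norm_num)).mp hk.symm
    apply hs ((k + 5) / 2)
    linear_combination h1 / 4
  have hj1 : W.j ≠ 1728 := by
    intro h0
    rw [h0] at hk
    have h1 : (k ^ 2 + 22 * k + 125) * (k ^ 2 + 4 * k - 1) ^ 2 = 0 := by linear_combination -hk
    rcases mul_eq_zero.mp h1 with h2 | h2
    · have h3 := congrArg φ h2
      rw [map_add, map_add, map_mul, map_pow, map_ofNat, map_ofNat, map_zero] at h3
      nlinarith [sq_nonneg (φ k + 11)]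
    · have h3 : k ^ 2 + 4 * k - 1 = 0 := (pow_eq_zero_iff (by norm_num)).mp h2
      apply hs (k + 2)
      linear_combination h3
  have hA0 : -27 * W.c₄ ≠ 0 := by
    intro h0
    have hc : W.c₄ = 0 := (mul_eq_zero.mp h0).resolve_left (by norm_num)
    have h1 := Pool.Agent.H23T.j_mul_disc W
    rw [hc, zero_pow three_ne_zero] at h1
    rcases mul_eq_zero.mp h1 with h1 | h1
    · exact hj0 h1
    · exact W.isUnit_Δ.ne_zero h1
  have hdisc := disc_ne_zero W
  have hjr := Pool.Agent.H23T.j_eq W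
  -- the pair of subgroups
  obtain ⟨t, ht⟩ := IsAlgClosed.exists_pow_nat_eq (algebraMap F (AlgebraicClosure F) δ)
    (n := 2) two_pos
  have hst' : ∀ σ : AlgebraicClosure F ≃ₐ[F] AlgebraicClosure F, σ t = t →
      C.map (act W σ) = C := by
    intro σ hσ
    apply hstC σ
    intro z hz
    have hz' : z = t ∨ z = -t := by
      apply sq_eq_sq_iff_eq_or_eq_neg.mp
      rw [hz, ht]
    rcases hz' with rfl | rfl
    · exact hσ
    · rw [map_neg, hσ]
  obtain ⟨x₁, x₂, u, v, w, hu, hv, hne, hp1, hp2, hw⟩ := quad_pair (K := AlgebraicClosure F)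
    (W := W) hC ht hst' (fun h => h3 ⟨C, hC, h⟩)
  obtain ⟨hk3, hk4⟩ := sym3 hne hp1 hp2
  have hD : u ^ 2 - 4 * v ≠ 0 := by
    intro h0
    have h1 : algebraMap F (AlgebraicClosure F) (u ^ 2 - 4 * v) = 0 := by rw [h0, map_zero]
    simp only [map_mul, map_sub, map_pow, map_ofNat, hu, hv] at h1
    have h2 : (x₁ - x₂) ^ 2 = 0 := by linear_combination h1
    exact hne (sub_eq_zero.mp (pow_eq_zero_iff (two_ne_zero) |>.mp h2))
  rw [← hu, ← hv] at hk3 hk4
  have r1 : 4 * (-54 * W.c₆) = 2 * u * v - u ^ 3 - 2 * (-27 * W.c₄) * u := by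
    have h0 : 3 * (4 * (-54 * W.c₆)) = 3 * (2 * u * v - u ^ 3 - 2 * (-27 * W.c₄) * u) := by
      apply (algebraMap F (AlgebraicClosure F)).injective
      simpa only [map_add, map_mul, map_sub, map_pow, map_neg, map_ofNat, map_zero] using hk3
    exact mul_left_cancel₀ three_ne_zero h0
  have r2 : (-27 * W.c₄) ^ 2 + 6 * (-27 * W.c₄) * v + 3 * u ^ 2 * v - 3 * v ^ 2 = 0 := by
    apply (algebraMap F (AlgebraicClosure F)).injective
    simpa only [map_add, map_mul, map_sub, map_pow, map_neg, map_ofNat, map_zero] using hk4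
  -- the point of the second curve
  obtain ⟨y₁, y₂, s, p, hs', hp', hne', hd1, hd2⟩ := five hC₅ hst₅
  obtain ⟨hk1, hk2⟩ := sym5 hne' hd1 hd2
  rw [← hs', ← hp'] at hk1 hk2
  have e1 : 4 * (-54 * W.c₆) = s ^ 3 - 6 * p * s - 2 * (-27 * W.c₄) * s := by
    apply (algebraMap F (AlgebraicClosure F)).injective
    simpa only [map_add, map_mul, map_sub, map_pow, map_neg, map_ofNat, map_zero] using hk1
  have e2 : (-27 * W.c₄) ^ 2 + 2 * (-27 * W.c₄) * s ^ 2 - 2 * (-27 * W.c₄) * p - s ^ 4 +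
      5 * s ^ 2 * p + 5 * p ^ 2 = 0 := by
    have h0 : 2 * ((-27 * W.c₄) ^ 2 + 2 * (-27 * W.c₄) * s ^ 2 - 2 * (-27 * W.c₄) * p - s ^ 4 +
      5 * s ^ 2 * p + 5 * p ^ 2) = 0 := by
      apply (algebraMap F (AlgebraicClosure F)).injective
      simpa only [map_add, map_mul, map_sub, map_pow, map_neg, map_ofNat, map_zero] using hk2
    exact (mul_eq_zero.mp h0).resolve_left two_ne_zero
  have hDs : s ^ 2 - 4 * p ≠ 0 := by
    intro h0
    have h1 : algebraMap F (AlgebraicClosure F) (s ^ 2 - 4 * p) = 0 := by rw [h0, map_zero]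
    simp only [map_mul, map_sub, map_pow, map_ofNat, hs', hp'] at h1
    have h2 : (y₁ - y₂) ^ 2 = 0 := by linear_combination h1
    exact hne' (sub_eq_zero.mp (pow_eq_zero_iff (two_ne_zero) |>.mp h2))
  have hreal : ∀ m : F, m ^ 2 + 12 * m + 144 ≠ 0 := by
    intro m h0
    have h1 := congrArg φ h0
    rw [map_add, map_add, map_mul, map_pow, map_ofNat, map_ofNat, map_zero] at h1
    nlinarith [sq_nonneg (φ m + 6)]
  obtain ⟨x, y, r, m, hxy, hfun, hjm⟩ := gsplit hA0 hreal hdisc r1 r2 e1 e2 hDs hjr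
  -- the parameter
  set A := -27 * W.c₄ with hA
  set B := -54 * W.c₆ with hB
  have hv0 : v ≠ 0 := by
    intro h0
    rw [h0] at r2
    apply hA0
    have : A ^ 2 = 0 := by linear_combination r2
    exact pow_eq_zero_iff (two_ne_zero) |>.mp this
  have hpd := pair_disc r1 r2
  have hne3 : (3 * v + A) * (v - A) ≠ 0 := by
    intro h0
    have h1 : 16 * v ^ 3 * (4 * A ^ 3 + 27 * B ^ 2) = 0 := by
      rw [hpd, ← mul_pow, h0]; ring
    exact mul_ne_zero (mul_ne_zero (by norm_num) (pow_ne_zero 3 hv0)) hdisc h1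
  have hne31 : 3 * v + A ≠ 0 := left_ne_zero_of_mul hne3
  have hne32 : v - A ≠ 0 := right_ne_zero_of_mul hne3
  have hu0 : u ≠ 0 := by
    rintro rfl
    apply hj1
    have hB0 : B = 0 := by
      have : 4 * B = 0 := by linear_combination r1
      exact (mul_eq_zero.mp this).resolve_left (by norm_num)
    rw [hB0] at hjr
    have h1 : (W.j - 1728) * (4 * A ^ 3) = 0 := by linear_combination -hjr
    exact sub_eq_zero.mp ((mul_eq_zero.mp h1).resolve_right
      (mul_ne_zero (by norm_num) (pow_ne_zero 3 hA0)))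
  set a : F := A / v with ha
  set c : F := 16 * A * v / ((3 * v + A) * (v - A)) with hc
  have hca : c * ((3 + a) * (1 - a)) = 16 * a := by
    rw [hc, ha]
    exact ca_eq hv0 hne31 hne32
  have hjc : W.j = 27 * c ^ 3 := by
    have h1 : W.j * ((3 * v + A) ^ 3 * (v - A) ^ 3) = 27 * (16 * A * v) ^ 3 := by
      rw [← hpd]
      linear_combination (-16 * v ^ 3) * hjr
    rw [hc, div_pow, mul_pow ((3 * v + A)), ← mul_div_assoc, eq_div_iff (mul_ne_zero
      (pow_ne_zero 3 hne31) (pow_ne_zero 3 hne32)), h1]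
  have hDD : (u ^ 2 - 4 * v) * (a ^ 2 + 6 * a - 3) = (u * (A + 3 * v) / v) ^ 2 := by
    rw [ha]
    field_simp
    linear_combination (-4 * v) * r2
  have hq0 : u * (A + 3 * v) / v ≠ 0 := by
    refine div_ne_zero (mul_ne_zero hu0 ?_) hv0
    intro h0
    apply hne31
    linear_combination h0
  have hD' : a ^ 2 + 6 * a - 3 ≠ 0 := by
    intro h0
    rw [h0, mul_zero] at hDD
    exact pow_ne_zero 2 hq0 hDD.symm
  -- the integral representative
  obtain ⟨D, b, hb0, hDb, hD3⟩ := weak_sqrt hδ hsplit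
  have hD0 : D ≠ 0 := by
    rintro rfl
    apply mul_ne_zero hδ (pow_ne_zero 2 hb0)
    rw [← hDb]
    simp
  have hn1 := norm_mod_three hD3
  have hab : ((Ideal.absNorm (Ideal.span {D}) : ℕ) : ZMod 3) = 1 := by
    refine absNorm_mod_three hD0 ?_ ?_
    · intro P hP hmem
      apply P.isPrime.ne_top
      rw [Ideal.eq_top_iff_one]
      have := P.asIdeal.sub_mem hmem (hD3 P hP)
      rwa [sub_sub_cancel] at this
    intro P hP
    by_cases hN : ((Ideal.absNorm P.asIdeal : ℕ) : ZMod 3) = 1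
    · exact Or.inr hN
    left
    have e3 : E (P.valuation F) 0 (3 : F) := by
      rw [E_iff_one]
      have hval : P.valuation F (3 : F) = P.intValuation (3 : 𝓞 F) := by
        have h1 : (3 : F) = algebraMap (𝓞 F) F (3 : 𝓞 F) := (map_ofNat (algebraMap (𝓞 F) F) 3).symm
        rw [h1]; exact P.valuation_of_algebraMap (K := F) _
      rw [hval]
      refine le_antisymm (P.intValuation_le_one _) (not_lt.mp ?_)
      rw [HeightOneSpectrum.intValuation_lt_one_iff_mem]
      exact hP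
    have hres : ∀ z : F, ¬ G (P.valuation F) 1 (z ^ 2 + z + 1) := by
      intro z hz
      exact res_of_norm hP hN z (G_one_iff.mp hz)
    obtain ⟨n', hn'⟩ := exists_E (v := P.valuation F) hD'
    have hev : Even n' := by
      refine even_disc e3 hres hjc hca hk0 hk hj0 ?_ hn'
      intro h2
      rw [hjm, map_pow]
      exact one_le_pow₀ (fun2_odd h2 hres hxy hfun)
    obtain ⟨nδ, hnδ⟩ := exists_E (v := P.valuation F) hδ
    obtain ⟨nb, hnb⟩ := exists_E (v := P.valuation F) hb0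
    obtain ⟨o, ho⟩ := exists_E (v := P.valuation F) hD
    have hw0 : w ≠ 0 := by
      rintro rfl
      apply mul_ne_zero hD hδ
      rw [hw]; ring
    obtain ⟨ow, how⟩ := exists_E (v := P.valuation F) hw0
    obtain ⟨oq, hoq⟩ := exists_E (v := P.valuation F) hq0
    have h1 := (ho.mul hnδ).unique ((how.pow 2).congr rfl hw.symm)
    have h2 := (ho.mul hn').unique ((hoq.pow 2).congr rfl hDD.symm)
    push_cast at h1 h2
    obtain ⟨l, hl⟩ := hev
    have h3' : E (P.valuation F) (nδ + (2 : ℕ) * nb) (D : F) :=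
      (hnδ.mul (hnb.pow 2)).congr rfl hDb.symm
    refine ⟨-(ow - oq + l + nb) , ?_⟩
    unfold E at h3'
    rw [h3']
    congr 1
    push_cast
    omega
  -- the sign
  have hnD : Algebra.norm ℚ (D : F) = Algebra.norm ℚ δ * Algebra.norm ℚ b ^ 2 := by
    rw [hDb, map_mul, map_pow]
  have hnb : Algebra.norm ℚ b ≠ 0 := Algebra.norm_ne_zero_iff.mpr hb0
  have hnδ : Algebra.norm ℚ δ ≠ 0 := Algebra.norm_ne_zero_iff.mpr hδ
  by_contra hcon
  have hlt : Algebra.norm ℚ δ < 0 := lt_of_le_of_ne (not_lt.mp hcon) hnδ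
  have hneg' : Algebra.norm ℚ (D : F) < 0 := by
    rw [hnD]
    have h3 : 0 < Algebra.norm ℚ b ^ 2 := by positivity
    nlinarith
  have hneg'' : Algebra.norm ℤ D < 0 := by
    have h1 : ((Algebra.norm ℤ D : ℤ) : ℚ) = Algebra.norm ℚ (D : F) := Algebra.coe_norm_int D
    rw [← h1] at hneg'
    exact_mod_cast hneg'
  rw [Ideal.absNorm_span_singleton] at hab
  have h1 : (((Algebra.norm ℤ D).natAbs : ℕ) : ℤ) = -(Algebra.norm ℤ D) := by
    rw [Int.natCast_natAbs, abs_of_neg hneg'']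
  have h2 : (((Algebra.norm ℤ D).natAbs : ℕ) : ZMod 3) = -((Algebra.norm ℤ D : ℤ) : ZMod 3) := by
    have := congrArg (Int.cast : ℤ → ZMod 3) h1
    push_cast at this
    simpa using this
  rw [hab, hn1] at h2
  revert h2
  decide

open scoped Classical in
/-- the mod 3 representation of an elliptic curve with a 5-isogeny and without 3-isogeny, over a
totally real field of odd degree, is not induced from a CM field in which all primes above 3
split -/
theorem not_bad {F : Type*} [Field F] [NumberField F] [IsTotallyReal F]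
    (hodd : Odd (Module.finrank ℚ F)) (W : WeierstrassCurve F) [W.IsElliptic]
    (h5 : ∃ C : AddSubgroup (W⁄(AlgebraicClosure F)).Point, Nat.card C = 5 ∧
      ∀ σ : AlgebraicClosure F ≃ₐ[F] AlgebraicClosure F,
        C.map (Point.map (W' := W) (σ : AlgebraicClosure F →ₐ[F] AlgebraicClosure F)) = C)
    (h3 : ¬ ∃ C : AddSubgroup (W⁄(AlgebraicClosure F)).Point, Nat.card C = 3 ∧
      ∀ σ : AlgebraicClosure F ≃ₐ[F] AlgebraicClosure F,
        C.map (Point.map (W' := W) (σ : AlgebraicClosure F →ₐ[F] AlgebraicClosure F)) = C)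
    {δ : F} (hneg : ∀ φ : F →+* ℝ, φ δ < 0)
    (hsplit : ∀ P : HeightOneSpectrum (𝓞 F), (3 : 𝓞 F) ∈ P.asIdeal →
      ∃ a : F, P.valuation F (δ - a ^ 2) < P.valuation F δ) :
    ¬ ∃ C : AddSubgroup (W⁄(AlgebraicClosure F)).Point, Nat.card C = 3 ∧
      ∀ σ : AlgebraicClosure F ≃ₐ[F] AlgebraicClosure F,
        (∀ z : AlgebraicClosure F, z ^ 2 = algebraMap F (AlgebraicClosure F) δ → σ z = z) →
        C.map (Point.map (W' := W) (σ : AlgebraicClosure F →ₐ[F] AlgebraicClosure F)) = C := by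
  intro hC3
  obtain ⟨φ⟩ := exists_real F
  have hδ : δ ≠ 0 := by
    rintro rfl
    have := hneg φ
    rw [map_zero] at this
    exact lt_irrefl _ this
  exact absurd (norm_pos (not_sq_five hodd) W h5 h3 hδ hsplit hC3)
    (not_lt.mpr (norm_neg hodd hneg).le)

end Pool.Agent.L9
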