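import Pool.Agent.L9.AlgD
import Pool.Agent.M7.FrameDef

/-! # From the second outcome to the curve `X(d7)` (helper9, after helper33) -/

namespace Pool.Agent.L9

open Pool.Agent.M7

/-- elements fixed by all automorphisms come from the base field -/
private lemma od_fix {F K : Type*} [Field F] [Field K] [Algebra F K] [IsGalois F K] {z : K}
    (hz : ∀ σ : K ≃ₐ[F] K, σ z = z) : ∃ y : F, algebraMap F K y = z := by
  have : z ∈ Set.range (algebraMap F K) :=
    (InfiniteGalois.mem_range_algebraMap_iff_fixed z).mpr hz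
  exact this

theorem outD' {F K : Type*} [Field F] [CharZero F] [Field K] [Algebra F K] [IsGalois F K]
    (φ : F →+* ℝ) {J : F} (hJ : J ≠ 0) {i : K} (hi : i ^ 2 = -7) {x x' : K}
    (hne : x ≠ x') (hx : G8 (algebraMap F K J) x = 0) (hx' : G8 (algebraMap F K J) x' = 0)
    (h : ∀ σ : K ≃ₐ[F] K, (σ i = i ∧ σ x = x ∧ σ x' = x') ∨ (σ i = -i ∧ σ x = x' ∧ σ x' = x)) :
    ∃ m y c : F, 16 * y ^ 2 = -7 * ((2 * m - 5) ^ 4 - 42 * (2 * m - 5) ^ 2 - 7) ∧
      c = m ^ 3 - 4 * m ^ 2 + 3 * m + 1 ∧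
      (J + 1728) * c ^ 7 = m * (m + 1) ^ 3 * (m ^ 2 - 5 * m + 1) ^ 3 * (m ^ 2 - 5 * m + 8) ^ 3 *
      (m ^ 4 - 5 * m ^ 3 + 8 * m ^ 2 - 7 * m + 7) ^ 3 := by
  have h7F : (7 : F) ≠ 0 := by norm_num
  have h7 : (7 : K) ≠ 0 := by
    have := (map_ne_zero (algebraMap F K)).2 h7F
    rwa [map_ofNat] at this
  have hi0 : i ≠ 0 := by
    rintro rfl
    apply h7
    linear_combination hi
  have hd0 : x - x' ≠ 0 := sub_ne_zero.2 hne
  obtain ⟨α, hα⟩ := od_fix (F := F) (z := -(x + x')) (fun σ => by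
    rcases h σ with ⟨-, h2, h3⟩ | ⟨-, h2, h3⟩
    · rw [map_neg, map_add, h2, h3]
    · rw [map_neg, map_add, h2, h3, add_comm])
  obtain ⟨β, hβ⟩ := od_fix (F := F) (z := x * x') (fun σ => by
    rcases h σ with ⟨-, h2, h3⟩ | ⟨-, h2, h3⟩
    · rw [map_mul, h2, h3]
    · rw [map_mul, h2, h3, mul_comm])
  obtain ⟨δ, hδ⟩ := od_fix (F := F) (z := (x - x') / i) (fun σ => by
    rcases h σ with ⟨h1, h2, h3⟩ | ⟨h1, h2, h3⟩
    · rw [map_div₀, map_sub, h1, h2, h3]
    · rw [map_div₀, map_sub, h1, h2, h3, div_neg, ← neg_div, neg_sub])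
  have hinj := (algebraMap F K).injective
  have hδ0 : δ ≠ 0 := by
    rintro rfl
    rw [map_zero] at hδ
    exact (div_ne_zero hd0 hi0) hδ.symm
  generalize hJ' : algebraMap F K J = j at hx hx'
  unfold G8 at hx hx'
  have hP : -(algebraMap F K α) ^ 7 + 6 * (algebraMap F K α) ^ 5 * (algebraMap F K β) -
      14 * (algebraMap F K α) ^ 5 * j -
      10 * (algebraMap F K α) ^ 3 * (algebraMap F K β) ^ 2 +
      56 * (algebraMap F K α) ^ 3 * (algebraMap F K β) * j -
      63 * (algebraMap F K α) ^ 3 * j ^ 2 + 4 * (algebraMap F K α) * (algebraMap F K β) ^ 3 -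
      42 * (algebraMap F K α) * (algebraMap F K β) ^ 2 * j +
      126 * (algebraMap F K α) * (algebraMap F K β) * j ^ 2 -
      70 * (algebraMap F K α) * j ^ 3 - j ^ 4 = 0 := by
    rw [hα, hβ]
    apply (mul_eq_zero.mp _).resolve_left hd0
    linear_combination hx - hx'
  have hQ : -(algebraMap F K α) ^ 6 * (algebraMap F K β) +
      5 * (algebraMap F K α) ^ 4 * (algebraMap F K β) ^ 2 -
      14 * (algebraMap F K α) ^ 4 * (algebraMap F K β) * j -
      6 * (algebraMap F K α) ^ 2 * (algebraMap F K β) ^ 3 +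
      42 * (algebraMap F K α) ^ 2 * (algebraMap F K β) ^ 2 * j -
      63 * (algebraMap F K α) ^ 2 * (algebraMap F K β) * j ^ 2 + (algebraMap F K β) ^ 4 -
      14 * (algebraMap F K β) ^ 3 * j +
      63 * (algebraMap F K β) ^ 2 * j ^ 2 - 70 * (algebraMap F K β) * j ^ 3 - 7 * j ^ 4 = 0 := by
    rw [hα, hβ]
    apply (mul_eq_zero.mp _).resolve_left hd0
    linear_combination x * hx' - x' * hx
  rw [← hJ'] at hP hQ
  refine coreD' φ hJ hδ0 (α := α) (β := β) ?_ ?_ ?_
  · apply hinj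
    simp only [map_sub, map_mul, map_pow, map_neg, map_ofNat]
    rw [hα, hβ, hδ, div_pow, hi]
    field_simp
    ring
  · apply hinj
    simp only [map_sub, map_add, map_mul, map_pow, map_neg, map_ofNat, map_zero]
    exact hP
  · apply hinj
    simp only [map_sub, map_add, map_mul, map_pow, map_neg, map_ofNat, map_zero]
    exact hQ

end Pool.Agent.L9
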