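import Pool.Agent.L9.OutE4

/-! # `seven_cases` without hypotheses on square roots (helper94, after helper33, helper9 and
helper83): the exceptional case is `j = 8000` -/

set_option autoImplicit false

namespace Pool.Agent.L9

open Pool.Agent.M7

section core

variable {F : Type*} [Field F] [CharZero F]

private lemma e7_id5 (τ c : F) (hc : c = τ ^ 3 - 7 * τ ^ 2 + 7 * τ + 7) (q : F)
    (hq : q = τ ^ 4 - 28 * τ ^ 2 + 42 * τ + 21) (g : F)
    (hg : g = 2 * τ ^ 4 - 14 * τ ^ 3 + 21 * τ ^ 2 + 28 * τ + 7) :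
    784 * (τ - 3) * g * (63 * c ^ 2 + 56 * (τ - 3) * q - (28 * (τ - 3) + 14 * c) ^ 2 / 4 +
      28 * g - q * (28 * (τ - 3) + 14 * c) + 2 * q ^ 2) ^ 2 + 1728 * c ^ 7 =
    64 * (τ * (τ ^ 2 + 7) * (τ ^ 2 - 7 * τ + 14) * (5 * τ ^ 2 - 14 * τ - 7)) ^ 3 := by
  subst hc hq hg
  ring

private lemma coreE_end5 {J α ω v : F} (hJ : J ≠ 0) (hJ' : J ≠ -1728) (hA : α ^ 2 = -12 * J)
    (hω : ω = 3 * J)
    (h1 : v ^ 2 * (α ^ 2 + 4 * ω - 14 * J) = 2 * (α ^ 2 * ω ^ 2 + 70 * J ^ 3 -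
      (α ^ 2 + 14 * J) / 2 * (63 * J ^ 2 + 2 * α ^ 2 * ω - ((α ^ 2 + 14 * J) / 2) ^ 2)))
    (h3 : 2 * α * v * ((63 * J ^ 2 + 2 * α ^ 2 * ω - ((α ^ 2 + 14 * J) / 2) ^ 2 + v ^ 2) / 2 -
      ω * ((α ^ 2 + 14 * J) / 2 - ω)) = -J ^ 4) : False := by
  rw [hA, hω] at h1 h3
  have hV : v ^ 2 = 4 * J ^ 2 := by
    have h4 : (-14 * J) * v ^ 2 = (-14 * J) * (4 * J ^ 2) := by linear_combination h1
    exact mul_left_cancel₀ (mul_ne_zero (by norm_num) hJ) h4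
  rw [hV] at h3
  have h5 : J ^ 2 * (6 * (α * v)) = J ^ 2 * (-J ^ 2) := by linear_combination h3
  have h6 : 6 * (α * v) = -J ^ 2 := mul_left_cancel₀ (pow_ne_zero 2 hJ) h5
  have h7 : 36 * (α ^ 2 * v ^ 2) = J ^ 4 := by linear_combination (6 * (α * v) - J ^ 2) * h6
  rw [hA, hV] at h7
  have h8 : J ^ 3 * J = J ^ 3 * (-1728) := by linear_combination -h7
  exact hJ' (mul_left_cancel₀ (pow_ne_zero 3 hJ) h8)

/-- a point of `X(e7)` -/
theorem coreE5 (φ : F →+* ℝ)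
    {J α β γ δ β' γ' δ' : F} (hJ : J ≠ 0) (hJ' : J ≠ -1728)
    (e6 : β + β' - α ^ 2 = 14 * J) (e5 : γ + γ' + α * β' - α * β = 0)
    (e4 : δ + δ' + α * γ' - α * γ + β * β' = 63 * J ^ 2)
    (e3 : α * δ' - α * δ + β * γ' + γ * β' = 0)
    (e2 : β * δ' + β' * δ + γ * γ' = 70 * J ^ 3)
    (e1 : γ * δ' + γ' * δ = -J ^ 4) (e0 : δ * δ' = -7 * J ^ 4) :
    J + 1728 = 8000 ∨ ∃ τ y c : F, y ^ 2 = 7 * (2 * τ ^ 4 - 14 * τ ^ 3 + 21 * τ ^ 2 + 28 * τ + 7) ∧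
      c = τ ^ 3 - 7 * τ ^ 2 + 7 * τ + 7 ∧
      (J + 1728) * c ^ 7 = 64 * (τ * (τ ^ 2 + 7) * (τ ^ 2 - 7 * τ + 14) *
      (5 * τ ^ 2 - 14 * τ - 7)) ^ 3 := by
  obtain ⟨v, hv⟩ : ∃ v : F, v = (β - β') / 2 := ⟨_, rfl⟩
  obtain ⟨w, hw⟩ : ∃ w : F, w = (γ - γ') / 2 := ⟨_, rfl⟩
  obtain ⟨D, hD⟩ : ∃ D : F, D = (δ + δ') / 2 := ⟨_, rfl⟩
  obtain ⟨z, hz⟩ : ∃ z : F, z = (δ - δ') / 2 := ⟨_, rfl⟩
  obtain ⟨B, hB⟩ : ∃ B : F, B = (α ^ 2 + 14 * J) / 2 := ⟨_, rfl⟩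
  have b1 : β = B + v := by
    rw [hB, hv]
    linear_combination (1 / 2) * e6
  have b2 : β' = B - v := by
    rw [hB, hv]
    linear_combination (1 / 2) * e6
  have g1 : γ = α * v + w := by
    rw [hv, hw]
    linear_combination (1 / 2) * e5
  have g2 : γ' = α * v - w := by
    rw [hv, hw]
    linear_combination (1 / 2) * e5
  have d1 : δ = D + z := by
    rw [hD, hz]
    ring
  have d2 : δ' = D - z := by
    rw [hD, hz]
    ring
  clear hv hw hD hz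
  subst b1 b2 g1 g2 d1 d2
  have f4 : 2 * D = 63 * J ^ 2 + 2 * α * w - B ^ 2 + v ^ 2 := by linear_combination e4
  have f3 : -2 * α * z + 2 * α * v * B - 2 * v * w = 0 := by linear_combination e3
  have f2 : 2 * B * D - 2 * v * z + α ^ 2 * v ^ 2 - w ^ 2 = 70 * J ^ 3 := by linear_combination e2
  have f1 : 2 * α * v * D - 2 * w * z = -J ^ 4 := by linear_combination e1
  have f0 : D ^ 2 - z ^ 2 = -7 * J ^ 4 := by linear_combination e0
  clear e0 e1 e2 e3 e4 e5 e6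
  have hJ4 : J ^ 4 ≠ 0 := pow_ne_zero 4 hJ
  by_cases hα : α = 0
  · left
    subst hα
    have i1 : 2 * w * z = J ^ 4 := by linear_combination -f1
    have hw0 : w ≠ 0 := by
      rintro rfl
      apply hJ4
      rw [← i1]
      ring
    have i2 : w * v = w * 0 := by linear_combination (-1 / 2) * f3
    have i3 : v = 0 := mul_left_cancel₀ hw0 i2
    subst i3
    have i4 : B = 7 * J := by
      rw [hB]
      ring
    subst i4
    have i5 : D = 7 * J ^ 2 := by linear_combination (1 / 2) * f4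
    subst i5
    have i6 : z ^ 2 = 56 * J ^ 4 := by linear_combination -f0
    have i7 : w ^ 2 = 28 * J ^ 3 := by linear_combination -f2
    have i8 : J ^ 7 * J = J ^ 7 * 6272 := by
      linear_combination -(2 * w * z + J ^ 4) * i1 + 4 * z ^ 2 * i7 + 112 * J ^ 3 * i6
    have i9 : J = 6272 := mul_left_cancel₀ (pow_ne_zero 7 hJ) i8
    rw [i9]
    norm_num
  · right
    obtain ⟨ω, rfl⟩ : ∃ ω : F, w = α * ω := ⟨w / α, by field_simp⟩
    have i1 : z = v * (B - ω) := by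
      have : (2 * α) * z = (2 * α) * (v * (B - ω)) := by linear_combination -f3
      exact mul_left_cancel₀ (mul_ne_zero two_ne_zero hα) this
    subst i1
    have i2 : D = (63 * J ^ 2 + 2 * α ^ 2 * ω - B ^ 2 + v ^ 2) / 2 := by
      linear_combination (1 / 2) * f4
    subst i2
    subst hB
    have h1 : v ^ 2 * (α ^ 2 + 4 * ω - 14 * J) = 2 * (α ^ 2 * ω ^ 2 + 70 * J ^ 3 -
        (α ^ 2 + 14 * J) / 2 * (63 * J ^ 2 + 2 * α ^ 2 * ω - ((α ^ 2 + 14 * J) / 2) ^ 2)) := by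
      linear_combination 2 * f2
    have h2 : ((63 * J ^ 2 + 2 * α ^ 2 * ω - ((α ^ 2 + 14 * J) / 2) ^ 2 + v ^ 2) / 2) ^ 2 -
        v ^ 2 * ((α ^ 2 + 14 * J) / 2 - ω) ^ 2 + 7 * J ^ 4 = 0 := by
      linear_combination f0
    have h3 : 2 * α * v * ((63 * J ^ 2 + 2 * α ^ 2 * ω - ((α ^ 2 + 14 * J) / 2) ^ 2 + v ^ 2) / 2 -
        ω * ((α ^ 2 + 14 * J) / 2 - ω)) = -J ^ 4 := by
      linear_combination f1
    have hA : α ^ 2 ≠ 0 := pow_ne_zero 2 hα
    rcases algE_elim hA h1 h2 with h4 | h4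
    · -- `F1 = 0`
      exfalso
      have k1 : (16 * ω - 3 * α ^ 2 - 84 * J) ^ 2 + 7 * (α ^ 2 + 12 * J) ^ 2 = 0 := by
        linear_combination 16 * h4
      have k2 : φ (16 * ω - 3 * α ^ 2 - 84 * J) ^ 2 + 7 * φ (α ^ 2 + 12 * J) ^ 2 = 0 := by
        have := congrArg φ k1
        rw [map_add, map_pow, map_mul, map_pow, map_zero, map_ofNat] at this
        exact this
      have k3 : φ (α ^ 2 + 12 * J) ^ 2 = 0 := by
        nlinarith [sq_nonneg (φ (16 * ω - 3 * α ^ 2 - 84 * J)), sq_nonneg (φ (α ^ 2 + 12 * J))]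
      have k4 : φ (16 * ω - 3 * α ^ 2 - 84 * J) ^ 2 = 0 := by
        rw [k3] at k2
        linarith
      have k5 : α ^ 2 + 12 * J = 0 := (map_eq_zero φ).mp (pow_eq_zero_iff two_ne_zero |>.mp k3)
      have k6 : 16 * ω - 3 * α ^ 2 - 84 * J = 0 :=
        (map_eq_zero φ).mp (pow_eq_zero_iff two_ne_zero |>.mp k4)
      have k7 : α ^ 2 = -12 * J := by linear_combination k5
      have k8 : ω = 3 * J := by linear_combination (1 / 16) * k6 + (3 / 16) * k5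
      exact coreE_end5 hJ hJ' k7 k8 h1 h3
    · -- `Q4 = 0`
      obtain ⟨τ, c, hc, hc0, hAc, hωc, hVc⟩ := algE_tau4 φ hA hJ h1 h2 h4
      obtain ⟨q, hq⟩ : ∃ q, q = τ ^ 4 - 28 * τ ^ 2 + 42 * τ + 21 := ⟨_, rfl⟩
      obtain ⟨g, hg⟩ : ∃ g, g = 2 * τ ^ 4 - 14 * τ ^ 3 + 21 * τ ^ 2 + 28 * τ + 7 := ⟨_, rfl⟩
      rw [← hq] at hωc
      rw [← hg] at hVc
      refine ⟨τ, v * c / (2 * J), c, ?_, hc, ?_⟩
      · rw [div_pow, mul_pow, hVc, ← hg]
        field_simp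
        ring
      obtain ⟨S, hS⟩ : ∃ S, S = 63 * c ^ 2 + 56 * (τ - 3) * q - (28 * (τ - 3) + 14 * c) ^ 2 / 4 +
        28 * g - q * (28 * (τ - 3) + 14 * c) + 2 * q ^ 2 := ⟨_, rfl⟩
      obtain ⟨X, hX⟩ : ∃ X, X = (63 * J ^ 2 + 2 * α ^ 2 * ω - ((α ^ 2 + 14 * J) / 2) ^ 2 +
        v ^ 2) / 2 - ω * ((α ^ 2 + 14 * J) / 2 - ω) := ⟨_, rfl⟩
      rw [← hX] at h3
      have K1 : 2 * X * c ^ 2 = J ^ 2 * S := by
        have e : 2 * X * c ^ 2 = 63 * (J * c) ^ 2 + 2 * (α ^ 2 * c) * (ω * c) -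
            (((α ^ 2 * c) + 14 * (J * c)) / 2) ^ 2 + v ^ 2 * c ^ 2 -
            2 * (ω * c) * (((α ^ 2 * c) + 14 * (J * c)) / 2 - ω * c) := by
          rw [hX]; ring
        rw [e, hAc, hωc, hVc, hS]
        ring
      have K2 : (α ^ 2 * c) * (v ^ 2 * c ^ 2) * (2 * X * c ^ 2) ^ 2 = J ^ 8 * c ^ 7 := by
        have e : (α ^ 2 * c) * (v ^ 2 * c ^ 2) * (2 * X * c ^ 2) ^ 2 =
            (2 * α * v * X) ^ 2 * c ^ 7 := by ring
        rw [e, h3]
        ring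
      rw [hAc, hVc, K1] at K2
      have K3 : 784 * (τ - 3) * g * S ^ 2 = J * c ^ 7 := by
        apply mul_left_cancel₀ (pow_ne_zero 7 hJ)
        linear_combination K2
      rw [← e7_id5 τ c hc q hq g hg, ← hS, K3]
      ring

end core

open Polynomial in
private lemma quartic_of {F K : Type*} [Field F] [Field K] [DecidableEq K] [Algebra F K]
    [IsGalois F K] {S : Finset K} (hS : S.card = 4) (h : ∀ σ : K ≃ₐ[F] K, S.image σ = S) :
    ∃ a3 a2 a1 a0 : F, ∀ x ∈ S, x ^ 4 + algebraMap F K a3 * x ^ 3 + algebraMap F K a2 * x ^ 2 +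
      algebraMap F K a1 * x + algebraMap F K a0 = 0 := by
  set P : K[X] := ∏ s ∈ S, (X - C s) with hP
  have hmon : P.Monic := monic_prod_of_monic _ _ (fun s _ => monic_X_sub_C s)
  have hdeg : P.natDegree = 4 := by
    rw [hP, natDegree_prod_of_monic _ _ (fun s _ => monic_X_sub_C s)]
    simp [hS]
  have hfix : ∀ (σ : K ≃ₐ[F] K) (i : ℕ), σ (P.coeff i) = P.coeff i := by
    intro σ i
    have h1 : P.map (σ : K →+* K) = P := by
      rw [hP, Polynomial.map_prod]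
      conv_rhs => rw [← h σ, Finset.prod_image (fun x _ y _ hxy => σ.injective hxy)]
      apply Finset.prod_congr rfl
      intro s _
      simp
    conv_rhs => rw [← h1, coeff_map]
    rfl
  have hex : ∀ i : ℕ, ∃ a : F, algebraMap F K a = P.coeff i := fun i =>
    (InfiniteGalois.mem_range_algebraMap_iff_fixed _).mpr (fun σ => hfix σ i)
  obtain ⟨a3, h3⟩ := hex 3
  obtain ⟨a2, h2⟩ := hex 2
  obtain ⟨a1, h1⟩ := hex 1
  obtain ⟨a0, h0⟩ := hex 0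
  refine ⟨a3, a2, a1, a0, ?_⟩
  intro x hx
  have he : P.eval x = 0 := by
    rw [hP, eval_prod]
    exact Finset.prod_eq_zero hx (by simp)
  rw [eval_eq_sum_range' (n := 5) (by omega)] at he
  simp only [Finset.sum_range_succ, Finset.sum_range_zero] at he
  have h4 : P.coeff 4 = 1 := by
    rw [← hdeg]
    exact hmon.coeff_natDegree
  rw [h4] at he
  rw [h3, h2, h1, h0]
  linear_combination he

open Polynomial in
private lemma oct_coeffs {K : Type*} [Field K] {S : Finset K} (hS : S.card = 8)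
    {c7 c6 c5 c4 c3 c2 c1 c0 : K} (h : ∀ x ∈ S, c7 * x ^ 7 + c6 * x ^ 6 + c5 * x ^ 5 + c4 * x ^ 4 +
      c3 * x ^ 3 + c2 * x ^ 2 + c1 * x + c0 = 0) :
    c7 = 0 ∧ c6 = 0 ∧ c5 = 0 ∧ c4 = 0 ∧ c3 = 0 ∧ c2 = 0 ∧ c1 = 0 ∧ c0 = 0 := by
  set f : K[X] := C c7 * X ^ 7 + C c6 * X ^ 6 + C c5 * X ^ 5 + C c4 * X ^ 4 +
      C c3 * X ^ 3 + C c2 * X ^ 2 + C c1 * X + C c0 with hf
  have hdeg : f.degree ≤ 7 := by
    rw [hf]
    compute_degree
  have hlt : f.degree < S.card := by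
    rw [hS]
    exact lt_of_le_of_lt hdeg (by norm_num)
  have hz : f = 0 := by
    apply eq_zero_of_degree_lt_of_eval_finset_eq_zero S hlt
    intro x hx
    rw [hf]
    simp only [eval_add, eval_mul, eval_C, eval_pow, eval_X]
    exact h x hx
  have hc : ∀ i : ℕ, f.coeff i = 0 := fun i => by rw [hz, coeff_zero]
  have k : ∀ i : ℕ, f.coeff i = (if i = 7 then c7 else 0) + (if i = 6 then c6 else 0) +
      (if i = 5 then c5 else 0) + (if i = 4 then c4 else 0) + (if i = 3 then c3 else 0) +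
      (if i = 2 then c2 else 0) + (if i = 1 then c1 else 0) + (if i = 0 then c0 else 0) := by
    intro i
    rw [hf, show (C c1 * X : K[X]) = C c1 * X ^ 1 by rw [pow_one], coeff_add, coeff_add, coeff_add,
      coeff_add, coeff_add, coeff_add, coeff_add, coeff_C_mul_X_pow, coeff_C_mul_X_pow,
      coeff_C_mul_X_pow, coeff_C_mul_X_pow, coeff_C_mul_X_pow, coeff_C_mul_X_pow,
      coeff_C_mul_X_pow, coeff_C]
  refine ⟨?_, ?_, ?_, ?_, ?_, ?_, ?_, ?_⟩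
  · simpa [k] using hc 7
  · simpa [k] using hc 6
  · simpa [k] using hc 5
  · simpa [k] using hc 4
  · simpa [k] using hc 3
  · simpa [k] using hc 2
  · simpa [k] using hc 1
  · simpa [k] using hc 0

theorem outE5 {F K : Type*} [Field F] [CharZero F] [Field K] [DecidableEq K] [Algebra F K]
    [IsGalois F K] (φ : F →+* ℝ) {J : F} (hJ : J ≠ 0) (hJ' : J ≠ -1728) {S T : Finset K}
    (hS : S.card = 4) (hT : T.card = 4) (hST : Disjoint S T)
    (hxS : ∀ x ∈ S, G8 (algebraMap F K J) x = 0) (hxT : ∀ x ∈ T, G8 (algebraMap F K J) x = 0)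
    (h : ∀ σ : K ≃ₐ[F] K, S.image σ = S ∧ T.image σ = T) :
    J + 1728 = 8000 ∨ ∃ τ y c : F, y ^ 2 = 7 * (2 * τ ^ 4 - 14 * τ ^ 3 + 21 * τ ^ 2 + 28 * τ + 7) ∧
      c = τ ^ 3 - 7 * τ ^ 2 + 7 * τ + 7 ∧
      (J + 1728) * c ^ 7 = 64 * (τ * (τ ^ 2 + 7) * (τ ^ 2 - 7 * τ + 14) *
      (5 * τ ^ 2 - 14 * τ - 7)) ^ 3 := by
  obtain ⟨a3, a2, a1, a0, ha⟩ := quartic_of hS (fun σ => (h σ).1)
  obtain ⟨b3, b2, b1, b0, hb⟩ := quartic_of hT (fun σ => (h σ).2)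
  have hcard : (S ∪ T).card = 8 := by
    rw [Finset.card_union_of_disjoint hST, hS, hT]
  set r := algebraMap F K with hr
  have hrinj : ∀ x : F, r x = 0 → x = 0 := fun x hx => (map_eq_zero r).mp hx
  have key := oct_coeffs hcard (c7 := r (-(a3 + b3))) (c6 := r (14 * J - (a2 + b2 + a3 * b3)))
    (c5 := r (-(a1 + b1 + a3 * b2 + a2 * b3)))
    (c4 := r (63 * J ^ 2 - (a0 + b0 + a3 * b1 + a1 * b3 + a2 * b2)))
    (c3 := r (-(a3 * b0 + a0 * b3 + a2 * b1 + a1 * b2)))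
    (c2 := r (70 * J ^ 3 - (a2 * b0 + a0 * b2 + a1 * b1)))
    (c1 := r (-J ^ 4 - (a1 * b0 + a0 * b1))) (c0 := r (-7 * J ^ 4 - a0 * b0)) (by
      intro x hx
      have hG : G8 (r J) x = 0 := by
        rcases Finset.mem_union.mp hx with h1 | h1
        · exact hxS x h1
        · exact hxT x h1
      have hP : (x ^ 4 + r a3 * x ^ 3 + r a2 * x ^ 2 + r a1 * x + r a0) *
          (x ^ 4 + r b3 * x ^ 3 + r b2 * x ^ 2 + r b1 * x + r b0) = 0 := by
        rcases Finset.mem_union.mp hx with h1 | h1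
        · rw [ha x h1, zero_mul]
        · rw [hb x h1, mul_zero]
      unfold G8 at hG
      simp only [map_neg, map_add, map_sub, map_mul, map_pow, map_ofNat]
      linear_combination hG - hP)
  obtain ⟨k7, k6, k5, k4, k3, k2, k1, k0⟩ := key
  have e7 := hrinj _ k7
  have hb3 : b3 = -a3 := by linear_combination -e7
  subst hb3
  refine coreE5 φ hJ hJ' (α := a3) (β := a2) (γ := a1) (δ := a0) (β' := b2) (γ' := b1)
    (δ' := b0) ?_ ?_ ?_ ?_ ?_ ?_ ?_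
  · linear_combination -hrinj _ k6
  · linear_combination -hrinj _ k5
  · linear_combination -hrinj _ k4
  · linear_combination -hrinj _ k3
  · linear_combination -hrinj _ k2
  · linear_combination -hrinj _ k1
  · linear_combination -hrinj _ k0

section general

open WeierstrassCurve WeierstrassCurve.Affine Pool.Agent.H42M Pool.Agent.M7 Pool.Agent.H23T

variable {F K : Type*} [Field F] [CharZero F] [Field K] [CharZero K] [IsAlgClosed K]
  [DecidableEq K] [Algebra F K] [IsGalois F K]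

/-- the Galois group of `F(ζ₇)` does not act absolutely irreducibly on `E[7]`: a stable subgroup of
order 7, or a point of `X(d7)` or `X(e7)` -/
theorem seven_cases5 (φ : F →+* ℝ) (c : K ≃ₐ[F] K) (hcc : ∀ z, c (c z) = z)
    (hc7 : ∀ z : K, z ^ 2 = -7 → c z = -z) (W : WeierstrassCurve F) [W.IsElliptic]
    (h0 : W.j ≠ 0) (h1 : W.j ≠ 1728)
    (hirr : (∃ C : AddSubgroup (WeierstrassCurve.Affine.baseChange W K).Point, Nat.card C = 7 ∧
        ∀ σ : K ≃ₐ[F] K, Z7 σ → C.map (act W σ) = C) ∨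
      ∀ σ τ : K ≃ₐ[F] K, Z7 σ → Z7 τ →
        ∀ R : (WeierstrassCurve.Affine.baseChange W K).Point, (7 : ℤ) • R = 0 →
          act W σ (act W τ R) = act W τ (act W σ R)) :
    (∃ C : AddSubgroup (WeierstrassCurve.Affine.baseChange W K).Point, Nat.card C = 7 ∧
      ∀ σ : K ≃ₐ[F] K, C.map (act W σ) = C) ∨
    (∃ m y c : F, 16 * y ^ 2 = -7 * ((2 * m - 5) ^ 4 - 42 * (2 * m - 5) ^ 2 - 7) ∧
      c = m ^ 3 - 4 * m ^ 2 + 3 * m + 1 ∧
      W.j * c ^ 7 = m * (m + 1) ^ 3 * (m ^ 2 - 5 * m + 1) ^ 3 * (m ^ 2 - 5 * m + 8) ^ 3 *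
      (m ^ 4 - 5 * m ^ 3 + 8 * m ^ 2 - 7 * m + 7) ^ 3) ∨
    (∃ τ y c : F, y ^ 2 = 7 * (2 * τ ^ 4 - 14 * τ ^ 3 + 21 * τ ^ 2 + 28 * τ + 7) ∧
      c = τ ^ 3 - 7 * τ ^ 2 + 7 * τ + 7 ∧
      W.j * c ^ 7 = 64 * (τ * (τ ^ 2 + 7) * (τ ^ 2 - 7 * τ + 14) *
      (5 * τ ^ 2 - 14 * τ - 7)) ^ 3) ∨ W.j = 8000 := by
  have hEll : (WeierstrassCurve.Affine.baseChange W K).IsElliptic := by
    rw [WeierstrassCurve.isElliptic_iff]
    have h1 : (WeierstrassCurve.Affine.baseChange W K).Δ = algebraMap F K W.Δ := W.map_Δ _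
    rw [h1]
    exact W.isUnit_Δ.map _
  have hc4 : (WeierstrassCurve.Affine.baseChange W K).c₄ = algebraMap F K W.c₄ := W.map_c₄ _
  have hc6 : (WeierstrassCurve.Affine.baseChange W K).c₆ = algebraMap F K W.c₆ := W.map_c₆ _
  have hj : JRel (-27 * (WeierstrassCurve.Affine.baseChange W K).c₄)
      (-54 * (WeierstrassCurve.Affine.baseChange W K).c₆) (algebraMap F K W.j) := by
    have h2 := jrel_map (K := K) (jrel' W)
    rw [map_mul, map_mul, map_neg, map_neg, map_ofNat, map_ofNat] at h2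
    rw [hc4, hc6]
    exact h2
  have hJ : W.j - 1728 ≠ 0 := sub_ne_zero.mpr h1
  have hJ' : W.j - 1728 ≠ -1728 := by
    intro h2
    apply h0
    linear_combination h2
  have hJJ : W.j - 1728 + 1728 = W.j := by ring
  obtain ⟨i, hi, hii, hsub, hcube, hcyc⟩ := exists_zeta F (K := K)
  obtain ⟨m, val, H, hmc, hcomm⟩ := frame7 (W := W) hj h0 h1 c hcc hc7
  have hc2 : c * c = 1 := by
    ext z
    exact hcc z
  have hstab : ∀ {x : K}, G8 (algebraMap F K (W.j - 1728)) x = 0 →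
      (∀ σ : K ≃ₐ[F] K, σ x = x) →
      ∃ C : AddSubgroup (WeierstrassCurve.Affine.baseChange W K).Point, Nat.card C = 7 ∧
        ∀ σ : K ≃ₐ[F] K, C.map (act W σ) = C := fun hx hσ => stable_of_fixed hj h0 h1 hx hσ
  -- the elements of `Z7` commute or there is a stable subgroup
  have hZ : (∃ C : AddSubgroup (WeierstrassCurve.Affine.baseChange W K).Point, Nat.card C = 7 ∧
      ∀ σ : K ≃ₐ[F] K, C.map (act W σ) = C) ∨
      ∀ σ τ : K ≃ₐ[F] K, Z7 σ → Z7 τ → m σ * m τ = m τ * m σ := by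
    rcases hirr with ⟨C, hC, hst⟩ | hab
    · obtain ⟨x, hx, hσ⟩ := fixed_of_stable hj Z7 C hC hst
      obtain ⟨x₀, y₀, hne, rfl⟩ := exists_val H hx
      rcases red_line H hne hσ with h2 | h2
      · exact Or.inl (hstab (H.root x₀ y₀ hne) h2)
      · exact Or.inr h2
    · exact Or.inr fun σ τ hσ hτ => hcomm σ τ (hab σ τ hσ hτ)
  rcases hZ with hZ | hZ
  · exact Or.inl hZ
  rcases red_commute H hsub hcube hcyc hZ with ⟨x, hx, hσ⟩ | hN
  · exact Or.inl (hstab hx hσ)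
  rcases outcome_of_commute hJ hJ' H hi hii c hc2 hmc (hc7 i hi) hN with
    ⟨x, hx, hσ⟩ | ⟨x, x', hne, hx, hx', hσ⟩ | ⟨S, T, hS, hT, hST, hxS, hxT, hσ⟩
  · exact Or.inl (hstab hx hσ)
  · right; left
    obtain ⟨m, y, c, e1, e2, e3⟩ := outD' φ hJ hi hne hx hx' hσ
    rw [hJJ] at e3
    exact ⟨m, y, c, e1, e2, e3⟩
  · rcases outE5 φ hJ hJ' hS hT hST hxS hxT hσ with e | ⟨m, y, c, e1, e2, e3⟩
    · rw [hJJ] at e
      exact Or.inr (Or.inr (Or.inr e))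
    · rw [hJJ] at e3
      exact Or.inr (Or.inr (Or.inl ⟨m, y, c, e1, e2, e3⟩))

end general

end Pool.Agent.L9
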