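import Pool.Agent.L9.Val

/-! # The curve `X(d7)` at a prime above 7 of odd ramification index prime to 3 (helper57) -/

set_option autoImplicit false

namespace Pool.Agent.L9

open WithZero

variable {F : Type*} [Field F] {v : Valuation F ℤᵐ⁰}

/-- products of congruent elements -/
lemma G.mul_sub {a b a' b' : F} (ha : G v 0 a) (hb' : G v 0 b') (h : G v 1 (a - b))
    (h' : G v 1 (a' - b')) : G v 1 (a * a' - b * b') := by
  have h1 : G v 1 (a * (a' - b')) := (ha.mul h').mono (by norm_num)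
  have h2 : G v 1 ((a - b) * b') := (h.mul hb').mono (by norm_num)
  exact (h1.add h2).congr le_rfl (by ring)

/-- powers of congruent elements -/
lemma G.pow_sub {a b : F} (ha : G v 0 a) (hb : G v 0 b) (h : G v 1 (a - b)) (n : ℕ) :
    G v 1 (a ^ n - b ^ n) := by
  induction n with
  | zero => exact G.zero.congr le_rfl (by ring)
  | succ n ih =>
    exact (G.mul_sub ((ha.pow n).mono (by simp)) hb ih h).congr le_rfl (by ring)

/-- division by a unit -/
lemma E.div_unit {a x : F} {n : ℤ} (ha : E v 0 a) (hx : E v n (a * x)) : E v n x := by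
  have hx0 : x ≠ 0 := by
    rintro rfl
    exact hx.ne_zero (mul_zero a)
  obtain ⟨l, hl⟩ := exists_E (v := v) hx0
  have := hx.unique (ha.mul hl)
  exact hl.congr (by omega) rfl

/-- division by a unit -/
lemma G.div_unit {a x : F} {n : ℤ} (ha : E v 0 a) (hx : G v n (a * x)) : G v n x := by
  by_cases hx0 : x = 0
  · rw [hx0]; exact G.zero
  obtain ⟨l, hl⟩ := exists_E (v := v) hx0
  have := (ha.mul hl).le hx
  exact hl.g (by omega)

/-- the curve `16 y² = -7 (w⁴ - 42 w² - 7)`: the order of `w` is larger than `e / 4` -/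
lemma d7_small' {e : ℤ} (h7 : E v e (7 : F)) (he : Odd e) (he0 : 1 ≤ e) {w y : F}
    (hy : 16 * y ^ 2 = -7 * (w ^ 4 - 42 * w ^ 2 - 7)) {s : ℤ} (hs : E v s w) : e < 4 * s := by
  have p7 : G v 1 (((7 : ℤ) : F)) := by
    have := h7.g he0
    simpa using this
  have unit7 : ∀ n : ℤ, IsCoprime n 7 → E v 0 (n : F) := fun n h => E.int (p := 7) p7 h
  by_contra hcon
  have hs4 : 4 * s < e := by
    obtain ⟨r, hr⟩ := he
    omega
  have u16 : E v 0 (16 : F) := (unit7 16 (by norm_num)).congr rfl (by norm_num)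
  have u6 : E v 0 (6 : F) := (unit7 6 (by norm_num)).congr rfl (by norm_num)
  have h1 : E v (4 * s) (w ^ 4) := (hs.pow 4).congr (by norm_num) rfl
  have h2 : G v (2 * s + e) (-(42 * w ^ 2)) := by
    have : E v (0 + e + (2 : ℕ) * s) (6 * 7 * w ^ 2) := (u6.mul h7).mul (hs.pow 2)
    refine (this.neg.g le_rfl).congr (by push_cast; omega) (by ring)
  have h3 : G v e (-(7 : F)) := (h7.g le_rfl).neg
  have h4 : E v (4 * s) (w ^ 4 - 42 * w ^ 2 - 7) :=
    ((h1.add h2 (by omega)).add h3 (by omega)).congr rfl (by ring)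
  have h5 : E v (e + 4 * s) (16 * y ^ 2) := by
    rw [hy]; exact (h7.neg.mul h4)
  have hy0 : y ≠ 0 := by
    rintro rfl
    apply h5.ne_zero
    ring
  obtain ⟨l, hl⟩ := exists_E (v := v) hy0
  have h6 : E v (0 + (2 : ℕ) * l) (16 * y ^ 2) := u16.mul (hl.pow 2)
  have := h5.unique h6
  push_cast at this
  obtain ⟨r, hr⟩ := he
  omega

lemma d7_alg {j w U X1 X2 X3 X4 : F}
    (h : 128 * j * (w ^ 3 * U) ^ 7 =
      (w + 5) * (w * X1) ^ 3 * (w ^ 2 * X2) ^ 3 * (w ^ 2 * X3) ^ 3 * (w ^ 2 * X4) ^ 3) :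
    w ^ 21 * (j * (128 * U ^ 7)) =
      w ^ 21 * ((w + 5) * (X1 ^ 3 * (X2 ^ 3 * (X3 ^ 3 * X4 ^ 3)))) := by
  linear_combination h

lemma d7_alg' {j c m m1 A B Q : F} (h : j * c ^ 7 = m * m1 ^ 3 * A ^ 3 * B ^ 3 * Q ^ 3) :
    128 * j * (8 * c) ^ 7 =
      (2 * m) * (2 * m1) ^ 3 * (4 * A) ^ 3 * (4 * B) ^ 3 * (16 * Q) ^ 3 := by
  linear_combination 2 ^ 28 * h

/-- the value of `j` at a point of `X(d7)` at a prime above 7 of odd ramification index prime to 3 -/
theorem d7_odd {e : ℤ} (h7 : E v e (7 : F)) (he : Odd e) (h3e : ¬ (3 : ℤ) ∣ e) (he0 : 1 ≤ e)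
    {m y c j : F} (hj : j ≠ 0)
    (hy : 16 * y ^ 2 = -7 * ((2 * m - 5) ^ 4 - 42 * (2 * m - 5) ^ 2 - 7))
    (hc : c = m ^ 3 - 4 * m ^ 2 + 3 * m + 1)
    (hjc : j * c ^ 7 = m * (m + 1) ^ 3 * (m ^ 2 - 5 * m + 1) ^ 3 * (m ^ 2 - 5 * m + 8) ^ 3 *
      (m ^ 4 - 5 * m ^ 3 + 8 * m ^ 2 - 7 * m + 7) ^ 3) : G v 1 j ∨ G v 1 (j - 1728) := by
  have p7 : G v 1 (((7 : ℤ) : F)) := by
    have := h7.g he0
    simpa using this
  have unit7 : ∀ n : ℤ, IsCoprime n 7 → E v 0 (n : F) := fun n h => E.int (p := 7) p7 h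
  have g7 : G v e (7 : F) := h7.g le_rfl
  obtain ⟨w, hwm⟩ : ∃ w, w = 2 * m - 5 := ⟨_, rfl⟩
  rw [← hwm] at hy
  have u2 : E v 0 (2 : F) := (unit7 2 (by norm_num)).congr rfl (by norm_num)
  have u3 : E v 0 (3 : F) := (unit7 3 (by norm_num)).congr rfl (by norm_num)
  have u4 : E v 0 (4 : F) := (unit7 4 (by norm_num)).congr rfl (by norm_num)
  have u5 : E v 0 (5 : F) := (unit7 5 (by norm_num)).congr rfl (by norm_num)
  have u8 : E v 0 (8 : F) := (unit7 8 (by norm_num)).congr rfl (by norm_num)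
  have u16 : E v 0 (16 : F) := (unit7 16 (by norm_num)).congr rfl (by norm_num)
  have u32 : E v 0 (32 : F) := (unit7 32 (by norm_num)).congr rfl (by norm_num)
  have u128 : E v 0 (128 : F) := (unit7 128 (by norm_num)).congr rfl (by norm_num)
  have i10 : G v 0 (10 : F) := G.ofNat 10
  have i2 : G v 0 (2 : F) := G.ofNat 2
  have i3 : G v 0 (3 : F) := G.ofNat 3
  -- names for the factors
  obtain ⟨A, hA⟩ : ∃ A, A = m ^ 2 - 5 * m + 1 := ⟨_, rfl⟩
  obtain ⟨B, hB⟩ : ∃ B, B = m ^ 2 - 5 * m + 8 := ⟨_, rfl⟩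
  obtain ⟨Q, hQ⟩ : ∃ Q, Q = m ^ 4 - 5 * m ^ 3 + 8 * m ^ 2 - 7 * m + 7 := ⟨_, rfl⟩
  rw [← hA, ← hB, ← hQ] at hjc
  have fm : 2 * m = w + 5 := by rw [hwm]; ring
  have fm1 : 2 * (m + 1) = w + 7 := by rw [hwm]; ring
  have fA : 4 * A = w ^ 2 - 3 * 7 := by rw [hwm, hA]; ring
  have fB : 4 * B = w ^ 2 + 7 := by rw [hwm, hB]; ring
  have fQ : 16 * Q = w ^ 2 * (w ^ 2 + 10 * w + 32) + 2 * 7 * w + 7 := by rw [hwm, hQ]; ring
  have fc : 8 * c = w ^ 3 + 7 * (w ^ 2 + w - 1) := by rw [hwm, hc]; ring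
  -- the order of `w` is at least one
  have gw : G v 1 w := by
    by_cases hw : w = 0
    · rw [hw]; exact G.zero
    obtain ⟨s, hs⟩ := exists_E (v := v) hw
    have := d7_small' h7 he he0 hy hs
    exact hs.g (by omega)
  have gw0 : G v 0 w := gw.mono (by norm_num)
  have um : E v 0 m := E.div_unit u2 (by rw [fm]; exact E.add' gw u5 (by norm_num))
  have r0 : G v 1 (w ^ 2 + 10 * w) :=
    ((gw.pow 2).mono (by norm_num)).add ((i10.mul gw).mono (by norm_num))
  have r1 : E v 0 (w ^ 2 + 10 * w + 32) := E.add' r0 u32 (by norm_num)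
  have hm1 : c ≠ 0 → m + 1 ≠ 0 := by
    intro hc0 h0
    rw [h0] at hjc
    have : j * c ^ 7 = 0 := by rw [hjc]; ring
    rcases mul_eq_zero.mp this with h | h
    · exact hj h
    · exact pow_ne_zero 7 hc0 h
  -- the large case
  have big : ∀ {t : ℤ}, 2 * t = e + 1 → G v t w → G v 1 j := by
    intro t ht gt
    have gt2 : G v (e + 1) (w ^ 2) := (gt.pow 2).mono (by push_cast; omega)
    have eA : E v e A := E.div_unit u4 (by
      rw [fA]
      exact ((u3.mul h7).neg.congr (by omega) rfl |>.add gt2 (by omega)).congr rfl (by ring))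
    have eB : E v e B := E.div_unit u4 (by
      rw [fB]
      exact E.add' gt2 h7 (by omega))
    have eQ : E v e Q := E.div_unit u16 (by
      rw [fQ]
      refine E.add' ?_ h7 (show e < e + 1 by omega)
      exact ((gt2.mul (r1.g le_rfl)).mono (by omega)).add (((i2.mul g7).mul gw).mono (by omega)))
    have ec : E v e c := E.div_unit u8 (by
      rw [fc]
      have h1 : G v (e + 1) (w ^ 3) := (gt2.mul gw0).congr (by omega) (by ring)
      have h2 : G v 1 (w ^ 2 + w) := ((gw.pow 2).mono (by norm_num)).add gw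
      have h3 : G v (e + 1) (7 * (w ^ 2 + w)) := (g7.mul h2).mono (by omega)
      exact (h7.neg.add (h1.add h3) (by omega)).congr rfl (by ring))
    have gm1 : G v 1 (m + 1) := G.div_unit u2 (by
      rw [fm1]
      exact gw.add (g7.mono (by omega)))
    obtain ⟨n, hn⟩ := exists_E (v := v) (hm1 ec.ne_zero)
    obtain ⟨l, hl⟩ := exists_E (v := v) hj
    have hn1 := hn.le gm1
    have h1 := hl.mul (ec.pow 7)
    rw [hjc] at h1
    have h2 := (((um.mul (hn.pow 3)).mul (eA.pow 3)).mul (eB.pow 3)).mul (eQ.pow 3)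
    have h3 := h1.unique h2
    push_cast at h3
    exact hl.g (by omega)
  by_cases hw : w = 0
  · left
    obtain ⟨r, hr⟩ := he
    exact big (t := r + 1) (by omega) (by rw [hw]; exact G.zero)
  obtain ⟨s, hs⟩ := exists_E (v := v) hw
  have hs4 := d7_small' h7 he he0 hy hs
  rcases lt_or_ge e (2 * s) with h2s | h2s
  · left
    obtain ⟨r, hr⟩ := he
    exact big (t := r + 1) (by omega) (hs.g (by omega))
  have h2s' : 2 * s < e := by
    obtain ⟨r, hr⟩ := he
    omega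
  -- orders of the factors
  have hs2 : E v (2 * s) (w ^ 2) := (hs.pow 2).congr (by norm_num) rfl
  have hs3 : E v (3 * s) (w ^ 3) := (hs.pow 3).congr (by norm_num) rfl
  have gs : G v s w := hs.g le_rfl
  have em1 : E v s (m + 1) := E.div_unit u2 (by rw [fm1]; exact hs.add g7 (by omega))
  have eA : E v (2 * s) A := E.div_unit u4 (by
    rw [fA]
    exact (hs2.add ((i3.mul g7).neg.mono (by omega)) h2s').congr rfl (by ring))
  have eB : E v (2 * s) B := E.div_unit u4 (by rw [fB]; exact hs2.add g7 h2s')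
  have eQ : E v (2 * s) Q := E.div_unit u16 (by
    rw [fQ]
    have h1 : E v (2 * s) (w ^ 2 * (w ^ 2 + 10 * w + 32)) := (hs2.mul r1).congr (by omega) rfl
    exact (h1.add (((i2.mul g7).mul gs).mono (by omega)) h2s').add g7 h2s')
  have g1 : G v e (7 * (w ^ 2 + w - 1)) := by
    have h1 : G v 0 (w ^ 2 + w - 1) :=
      (((gw0.pow 2).mono (by norm_num)).add gw0).sub (E.one.g le_rfl)
    exact (g7.mul h1).mono (by omega)
  obtain ⟨l, hl⟩ := exists_E (v := v) hj
  have h3s : 3 * s ≠ e := fun h => h3e ⟨s, h.symm⟩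
  rcases lt_or_gt_of_ne h3s with h3 | h3
  · -- the value 1728
    right
    have ec : E v (3 * s) c := E.div_unit u8 (by rw [fc]; exact hs3.add g1 h3)
    have l0 : l = 0 := by
      have h1 := hl.mul (ec.pow 7)
      rw [hjc] at h1
      have h2 := (((um.mul (em1.pow 3)).mul (eA.pow 3)).mul (eB.pow 3)).mul (eQ.pow 3)
      have h3 := h1.unique h2
      push_cast at h3
      omega
    subst l0
    have inv : ∀ {n : ℤ} {x : F}, E v n x → ∀ {z : F}, z * x = 7 → n < e → G v 1 z := by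
      intro n x hx z hz hn
      have hz0 : z ≠ 0 := by
        rintro rfl
        rw [zero_mul] at hz
        exact h7.ne_zero hz.symm
      obtain ⟨k, hk⟩ := exists_E (v := v) hz0
      have := (hk.mul hx).unique (h7.congr rfl hz.symm)
      exact hk.g (by omega)
    obtain ⟨a, ha⟩ : ∃ a, a * w = 7 := ⟨7 / w, div_mul_cancel₀ _ hw⟩
    obtain ⟨b, hb⟩ : ∃ b, b * w ^ 2 = 7 := ⟨7 / w ^ 2, div_mul_cancel₀ _ (pow_ne_zero _ hw)⟩
    obtain ⟨d, hd⟩ : ∃ d, d * w ^ 3 = 7 := ⟨7 / w ^ 3, div_mul_cancel₀ _ (pow_ne_zero _ hw)⟩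
    have ga := inv hs ha (by omega)
    have gb := inv hs2 hb (by omega)
    have gd := inv hs3 hd h3
    have k1 : 2 * (m + 1) = w * (1 + a) := by rw [fm1]; linear_combination -ha
    have k2 : 4 * A = w ^ 2 * (1 - 3 * b) := by rw [fA]; linear_combination 3 * hb
    have k3 : 4 * B = w ^ 2 * (1 + b) := by rw [fB]; linear_combination -hb
    have k4 : 16 * Q = w ^ 2 * (w ^ 2 + 10 * w + 32 + 2 * a + b) := by
      rw [fQ]; linear_combination -2 * w * ha - hb
    have k5 : 8 * c = w ^ 3 * (1 + a + b - d) := by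
      rw [fc]; linear_combination -w ^ 2 * ha - w * hb + hd
    have k6 : 128 * j * (8 * c) ^ 7 =
        (2 * m) * (2 * (m + 1)) ^ 3 * (4 * A) ^ 3 * (4 * B) ^ 3 * (16 * Q) ^ 3 := d7_alg' hjc
    rw [fm, k1, k2, k3, k4, k5] at k6
    have key : j * (128 * (1 + a + b - d) ^ 7) = (w + 5) * ((1 + a) ^ 3 * ((1 - 3 * b) ^ 3 *
        ((1 + b) ^ 3 * (w ^ 2 + 10 * w + 32 + 2 * a + b) ^ 3))) :=
      mul_left_cancel₀ (pow_ne_zero 21 hw) (d7_alg k6)
    -- congruences
    have i1 : G v 0 (1 : F) := E.one.g le_rfl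
    have ga0 := ga.mono (show (0 : ℤ) ≤ 1 by norm_num)
    have gb0 := gb.mono (show (0 : ℤ) ≤ 1 by norm_num)
    have gd0 := gd.mono (show (0 : ℤ) ≤ 1 by norm_num)
    have c1 : G v 1 ((1 + a) ^ 3 - 1 ^ 3) :=
      G.pow_sub (i1.add ga0) i1 (ga.congr le_rfl (by ring)) 3
    have c2 : G v 1 ((1 - 3 * b) ^ 3 - 1 ^ 3) :=
      G.pow_sub (i1.sub ((i3.mul gb0).mono (by norm_num))) i1
        (((i3.mul gb).neg.mono (by norm_num)).congr le_rfl (by ring)) 3
    have c3 : G v 1 ((1 + b) ^ 3 - 1 ^ 3) :=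
      G.pow_sub (i1.add gb0) i1 (gb.congr le_rfl (by ring)) 3
    have c4 : G v 1 ((w ^ 2 + 10 * w + 32 + 2 * a + b) ^ 3 - 32 ^ 3) := by
      refine G.pow_sub ((r1.g le_rfl |>.add ((i2.mul ga0).mono (by norm_num))).add gb0)
        (u32.g le_rfl) ?_ 3
      exact ((r0.add ((i2.mul ga).mono (by norm_num))).add gb).congr le_rfl (by ring)
    have c5 : G v 1 ((1 + a + b - d) ^ 7 - 1 ^ 7) := by
      refine G.pow_sub (((i1.add ga0).add gb0).sub gd0) i1 ?_ 7
      exact ((ga.add gb).sub gd).congr le_rfl (by ring)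
    have i32 : G v 0 ((32 : F) ^ 3) := ((u32.pow 3).g (by norm_num))
    have p1 : G v 0 ((1 + a) ^ 3) := ((i1.add ga0).pow 3).mono (by norm_num)
    have p2 : G v 0 ((1 - 3 * b) ^ 3) :=
      ((i1.sub ((i3.mul gb0).mono (by norm_num))).pow 3).mono (by norm_num)
    have p3 : G v 0 ((1 + b) ^ 3) := ((i1.add gb0).pow 3).mono (by norm_num)
    have i1p : G v 0 ((1 : F) ^ 3) := by rw [one_pow]; exact i1
    have q1 : G v 0 ((1 : F) ^ 3 * 32 ^ 3) := (i1p.mul i32).mono (by norm_num)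
    have q2 : G v 0 ((1 : F) ^ 3 * (1 ^ 3 * 32 ^ 3)) := (i1p.mul q1).mono (by norm_num)
    have q3 : G v 0 ((1 : F) ^ 3 * (1 ^ 3 * (1 ^ 3 * 32 ^ 3))) := (i1p.mul q2).mono (by norm_num)
    have d1 := G.mul_sub p3 i32 c3 c4
    have d2 := G.mul_sub p2 q1 c2 d1
    have d3 := G.mul_sub p1 q2 c1 d2
    have d4 := G.mul_sub (a := w + 5) (b := 5) (gw0.add (u5.g le_rfl)) q3
      (gw.congr le_rfl (by ring)) d3
    rw [← key] at d4
    have d5 : G v 1 (j * (128 * ((1 + a + b - d) ^ 7 - 1 ^ 7))) := by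
      have h8 : G v 0 (128 : F) := u128.g le_rfl
      have h9 : G v 0 j := hl.g le_rfl
      exact (h9.mul (h8.mul c5)).mono (by norm_num)
    have d6 : G v 1 (-(8192 * 7 : F)) :=
      (((G.ofNat 8192).mul g7).mono (by omega)).neg
    refine G.div_unit u128 ?_
    exact ((d4.sub d5).add d6).congr le_rfl (by ring)
  · -- positive order
    left
    have ec : E v e c := E.div_unit u8 (by
      rw [fc]
      have h2 : G v 1 (w ^ 2 + w) := ((gw.pow 2).mono (by norm_num)).add gw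
      have h3' : G v (e + 1) (7 * (w ^ 2 + w)) := (g7.mul h2).mono (by omega)
      exact (h7.neg.add ((hs3.g (by omega) : G v (e + 1) (w ^ 3)).add h3') (by omega)).congr rfl
        (by ring))
    have h1 := hl.mul (ec.pow 7)
    rw [hjc] at h1
    have h2 := (((um.mul (em1.pow 3)).mul (eA.pow 3)).mul (eB.pow 3)).mul (eQ.pow 3)
    have h4 := h1.unique h2
    push_cast at h4
    exact hl.g (by omega)

end Pool.Agent.L9
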