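import Pool.Agent.L9.Val

/-! # The curve `X(e7)` at a prime above 7 of odd ramification prime to 3 (helper61) -/

set_option autoImplicit false

namespace Pool.Agent.L9

open WithZero

variable {F : Type*} [Field F] {v : Valuation F ℤᵐ⁰}

namespace SE

lemma unitg (g7 : G v 1 (7 : F)) (n : ℤ) (h : IsCoprime n 7) : E v 0 (n : F) :=
  E.int (p := 7) (by simpa using g7) h

lemma min_add {a b : ℤ} {x y : F} (hx : E v a x) (hy : E v b y) (hab : a ≠ b) :
    E v (min a b) (x + y) := by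
  rcases lt_or_gt_of_ne hab with h | h
  · rw [min_eq_left h.le]; exact hx.add (hy.g le_rfl) h
  · rw [min_eq_right h.le]; exact E.add' (hx.g le_rfl) hy h

lemma cmul {x x' y y' : F} (hx : G v 0 x) (hy' : G v 0 y') (h : G v 1 (x - x'))
    (h' : G v 1 (y - y')) : G v 1 (x * y - x' * y') := by
  have h1 : G v 1 (x * (y - y')) := (hx.mul h').mono (by norm_num)
  have h2 : G v 1 (y' * (x - x')) := (hy'.mul h).mono (by norm_num)
  exact (h1.add h2).congr le_rfl (by ring)

lemma cpow {x x' : F} (hx : G v 0 x) (hx' : G v 0 x') (h : G v 1 (x - x')) (k : ℕ) :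
    G v 1 (x ^ k - x' ^ k) := by
  induction k with
  | zero => rw [pow_zero, pow_zero, sub_self]; exact G.zero
  | succ k ih =>
    rw [pow_succ, pow_succ]
    exact cmul ((hx.pow k).mono (by simp)) hx' ih h

end SE

open SE in
/-- the order of `j` at a point of `X(e7)`, the ramification `e` over 7 odd and prime to 3 -/
theorem e7_odd {e : ℤ} (h7 : E v e (7 : F)) (he : Odd e) (h3e : ¬ (3 : ℤ) ∣ e) (he0 : 1 ≤ e)
    {τ y c j : F} (hj : j ≠ 0)
    (hy : y ^ 2 = 7 * (2 * τ ^ 4 - 14 * τ ^ 3 + 21 * τ ^ 2 + 28 * τ + 7))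
    (hc : c = τ ^ 3 - 7 * τ ^ 2 + 7 * τ + 7)
    (hjc : j * c ^ 7 = 64 * (τ * (τ ^ 2 + 7) * (τ ^ 2 - 7 * τ + 14) *
      (5 * τ ^ 2 - 14 * τ - 7)) ^ 3) : G v 1 j ∨ G v 1 (j - 1728) := by
  have g7 : G v 1 (7 : F) := h7.g he0
  have u2 : E v 0 (2 : F) := (unitg g7 2 (by norm_num)).congr rfl (by norm_num)
  have u3 : E v 0 (3 : F) := (unitg g7 3 (by norm_num)).congr rfl (by norm_num)
  have u4 : E v 0 (4 : F) := (unitg g7 4 (by norm_num)).congr rfl (by norm_num)
  have u5 : E v 0 (5 : F) := (unitg g7 5 (by norm_num)).congr rfl (by norm_num)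
  have u64 : E v 0 (64 : F) := (unitg g7 64 (by norm_num)).congr rfl (by norm_num)
  have hτ : τ ≠ 0 := by
    rintro rfl
    have h0 : j * c ^ 7 = 0 := by rw [hjc]; ring
    have hc7 : c = 7 := by rw [hc]; ring
    rcases mul_eq_zero.mp h0 with h | h
    · exact hj h
    · rw [hc7] at h; exact pow_ne_zero 7 h7.ne_zero h
  obtain ⟨s, hs⟩ := exists_E (v := v) hτ
  obtain ⟨k, hk⟩ := he
  have h4s : e < 4 * s := by
    by_contra hcon
    have hlt : 4 * s < e := by omega
    have a1 : E v (4 * s) (2 * τ ^ 4) := (u2.mul (hs.pow 4)).congr (by norm_num) rfl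
    have a2 : G v (e + 3 * s) (-(14 * τ ^ 3)) := by
      have : E v (0 + e + (3 : ℕ) * s) (2 * 7 * τ ^ 3) := (u2.mul h7).mul (hs.pow 3)
      exact (this.neg.g le_rfl).congr (by push_cast; omega) (by ring)
    have a3 : G v (e + 2 * s) (21 * τ ^ 2) := by
      have : E v (0 + e + (2 : ℕ) * s) (3 * 7 * τ ^ 2) := (u3.mul h7).mul (hs.pow 2)
      exact (this.g le_rfl).congr (by push_cast; omega) (by ring)
    have a4 : G v (e + s) (28 * τ) := by
      have : E v (0 + e + s) (4 * 7 * τ) := (u4.mul h7).mul hs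
      exact (this.g le_rfl).congr (by omega) (by ring)
    have a5 : E v (4 * s) (2 * τ ^ 4 - 14 * τ ^ 3 + 21 * τ ^ 2 + 28 * τ + 7) :=
      ((((a1.add a2 (by omega)).add a3 (by omega)).add a4 (by omega)).add (h7.g le_rfl)
        hlt).congr rfl (by ring)
    have a6 : E v (e + 4 * s) (y ^ 2) := by
      rw [hy]; exact h7.mul a5
    have hy0 : y ≠ 0 := by
      rintro rfl
      apply a6.ne_zero
      ring
    obtain ⟨l, hl⟩ := exists_E (v := v) hy0
    have := a6.unique (hl.pow 2)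
    push_cast at this
    omega
  have hs1 : 1 ≤ s := by omega
  have g1 : G v 1 τ := hs.g hs1
  have w2 : E v (2 * s) (τ ^ 2) := (hs.pow 2).congr (by norm_num) rfl
  have w3 : E v (3 * s) (τ ^ 3) := (hs.pow 3).congr (by norm_num) rfl
  have hne2 : 2 * s ≠ e := by omega
  have hne3 : 3 * s ≠ e := fun h => h3e ⟨s, h.symm⟩
  have g7t : G v (e + s) (7 * τ) := (h7.mul hs).g le_rfl
  have f1 : E v (min (2 * s) e) (τ ^ 2 + 7) := min_add w2 h7 hne2
  have f2 : E v (min (2 * s) e) (τ ^ 2 - 7 * τ + 14) := by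
    have h1 := min_add w2 ((u2.mul h7).congr (zero_add e) rfl) hne2
    exact (h1.add g7t.neg (by omega)).congr rfl (by ring)
  have f3 : E v (min (2 * s) e) (5 * τ ^ 2 - 14 * τ - 7) := by
    have h1 := min_add ((u5.mul w2).congr (zero_add _) rfl) h7.neg hne2
    have h2 : G v (e + s) (2 * (7 * τ)) := ((G.ofNat 2).mul g7t).mono (by omega)
    exact (h1.add h2.neg (by omega)).congr rfl (by ring)
  have fc : E v (min (3 * s) e) c := by
    have h1 := min_add w3 h7 hne3
    have h2 : G v (e + s) (7 * τ ^ 2) := ((h7.mul w2).g (by omega))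
    exact (h1.add (g7t.sub h2) (by omega)).congr rfl (by rw [hc]; ring)
  obtain ⟨l, hl⟩ := exists_E (v := v) hj
  have h1 := hl.mul (fc.pow 7)
  rw [hjc] at h1
  have h2 := u64.mul ((((hs.mul f1).mul f2).mul f3).pow 3)
  have h3 := h1.unique h2
  push_cast at h3
  rcases lt_or_gt_of_ne hne3 with h | h
  · right
    rw [min_eq_left h.le, min_eq_left (by omega)] at h3
    have hl0 : l = 0 := by omega
    subst hl0
    obtain ⟨a, ha⟩ : ∃ a, a * τ ^ 3 = 7 := ⟨7 / τ ^ 3, div_mul_cancel₀ _ (pow_ne_zero 3 hτ)⟩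
    have ha0 : a ≠ 0 := by
      rintro rfl
      apply h7.ne_zero
      rw [← ha]; ring
    obtain ⟨b, hb⟩ := exists_E (v := v) ha0
    have hb1 : b + 3 * s = e := by
      have := (hb.mul w3).unique (h7.congr rfl ha.symm)
      exact this
    have ga : G v 1 a := hb.g (by omega)
    have g0 : G v 0 τ := g1.mono (by norm_num)
    have gat : G v 1 (a * τ) := (ga.mul g0).mono (by norm_num)
    have gatt : G v 1 (a * τ ^ 2) := (gat.mul g0).congr (by norm_num) (by ring)
    have i2 : G v 0 (2 : F) := G.ofNat 2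
    have i5 : G v 0 (5 : F) := G.ofNat 5
    have i1 : G v 0 (1 : F) := E.one.g le_rfl
    have d1 : G v 1 ((1 + a * τ) - 1) := gat.congr le_rfl (by ring)
    have d2 : G v 1 ((1 - a * τ ^ 2 + 2 * (a * τ)) - 1) :=
      (((i2.mul gat).mono (by norm_num) : G v 1 (2 * (a * τ))).sub gatt).congr le_rfl (by ring)
    have d3 : G v 1 ((5 - 2 * (a * τ ^ 2) - a * τ) - 5) :=
      (((i2.mul gatt).mono (by norm_num) : G v 1 (2 * (a * τ ^ 2))).add gat).neg.congr
        le_rfl (by ring)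
    have dc : G v 1 ((1 - a * τ ^ 2 + a * τ + a) - 1) :=
      ((gat.add ga).sub gatt).congr le_rfl (by ring)
    have toInt : ∀ {x y : F}, G v 1 (x - y) → G v 0 y → G v 0 x := fun {x y} h h' =>
      ((h.mono (by norm_num) : G v 0 (x - y)).add h').congr le_rfl (by ring)
    have c1 : G v 0 (1 + a * τ) := toInt d1 i1
    have c2 : G v 0 (1 - a * τ ^ 2 + 2 * (a * τ)) := toInt d2 i1
    have cc : G v 0 (1 - a * τ ^ 2 + a * τ + a) := toInt dc i1
    have c3 : G v 0 (5 - 2 * (a * τ ^ 2) - a * τ) := toInt d3 i5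
    have m1 := cmul c1 i1 d1 d2
    have c12 : G v 0 ((1 + a * τ) * (1 - a * τ ^ 2 + 2 * (a * τ))) :=
      (c1.mul c2).mono (by norm_num)
    have m2 := cmul c12 i5 m1 d3
    have c123 := (c12.mul c3).mono (show (0 : ℤ) ≤ 0 + 0 by norm_num)
    have m3 := cpow c123 (((i1.mul i1).mul i5).mono (by norm_num)) m2 3
    have m4 := cpow cc i1 dc 7
    have key : j * (1 - a * τ ^ 2 + a * τ + a) ^ 7 =
        64 * ((1 + a * τ) * (1 - a * τ ^ 2 + 2 * (a * τ)) *
          (5 - 2 * (a * τ ^ 2) - a * τ)) ^ 3 := by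
      have e1 : c = τ ^ 3 * (1 - a * τ ^ 2 + a * τ + a) := by
        rw [hc]; linear_combination (τ ^ 2 - τ - 1) * ha
      have e2 : τ ^ 2 + 7 = τ ^ 2 * (1 + a * τ) := by linear_combination -ha
      have e3 : τ ^ 2 - 7 * τ + 14 = τ ^ 2 * (1 - a * τ ^ 2 + 2 * (a * τ)) := by
        linear_combination (τ - 2) * ha
      have e4 : 5 * τ ^ 2 - 14 * τ - 7 = τ ^ 2 * (5 - 2 * (a * τ ^ 2) - a * τ) := by
        linear_combination (2 * τ + 1) * ha
      rw [e1, e2, e3, e4] at hjc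
      have e5 : τ ^ 21 ≠ 0 := pow_ne_zero _ hτ
      apply mul_left_cancel₀ e5
      linear_combination hjc
    have i64 : G v 0 (64 : F) := G.ofNat 64
    have i896 : G v 0 (896 : F) := G.ofNat 896
    have n1 : G v 1 (j * ((1 - a * τ ^ 2 + a * τ + a) ^ 7 - 1 ^ 7)) :=
      ((hl.g le_rfl).mul m4).mono (by norm_num)
    have n2 := (i64.mul m3).mono (show (1 : ℤ) ≤ 0 + 1 by norm_num)
    have n3 : G v 1 (896 * (7 : F)) := (i896.mul g7).mono (by norm_num)
    refine ((n2.sub n1).add n3).congr le_rfl ?_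
    linear_combination -key
  · left
    exact hl.g (by omega)

end Pool.Agent.L9
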