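import Pool.Agent.L9.Final
import Pool.Agent.L9.SevenD
import Pool.Agent.L9.SevenE

/-! # The 7-isogeny (helper9) -/

set_option autoImplicit false

namespace Pool.Agent.L9

open NumberField WeierstrassCurve WeierstrassCurve.Affine IsDedekindDomain WithZero
  Pool.Agent.H42M Pool.Agent.M7

section local_

variable {F : Type*} [Field F] [CharZero F] {v : Valuation F ℤᵐ⁰}

/-- `X₀(5)` at a place above 7 whose residue field contains no square root of -1 -/
theorem five_odd7j (h7 : G v 1 (7 : F)) (hres : ∀ z : F, ¬ G v 1 (z ^ 2 + 1)) {j k : F}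
    (hk : k ≠ 0) (hj : j * k = (k ^ 2 + 10 * k + 5) ^ 3) : 1 ≤ v j := by
  have u5 : E v 0 (5 : F) :=
    (E.int (p := 7) (n := 5) (by simpa using h7) (by norm_num)).congr rfl (by norm_num)
  by_cases hj0 : j = 0
  · exfalso
    have hq : k ^ 2 + 10 * k + 5 = 0 := by
      rw [hj0, zero_mul] at hj
      exact (pow_eq_zero_iff (by norm_num)).mp hj.symm
    apply hres (k + 5)
    have : G v 1 (3 * 7 : F) := ((G.ofNat 3).mul h7).mono (by norm_num)
    exact this.congr le_rfl (by linear_combination -hq)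
  obtain ⟨n, hn⟩ := exists_E (v := v) hj0
  rw [le_one_of_E hn]
  by_contra hcon
  obtain ⟨hk1, a, hna, ha⟩ := five_order u5 hk hj hn (by omega)
  apply hres (k + 5)
  have h1 : G v 1 (3 * 7 : F) := ((G.ofNat 3).mul h7).mono (by norm_num)
  have h2 : G v 1 (k ^ 2 + 10 * k + 5) := ha.g (by omega)
  exact (h2.add h1).congr le_rfl (by ring)

lemma sq_ne_seven_odd {e : ℤ} (h7 : E v e (7 : F)) (he : Odd e) (z : F) : z ^ 2 ≠ 7 := by
  intro h
  have hz : z ≠ 0 := by
    rintro rfl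
    apply h7.ne_zero
    rw [← h]; ring
  obtain ⟨n, hn⟩ := exists_E (v := v) hz
  have := h7.unique ((hn.pow 2).congr rfl h)
  push_cast at this
  obtain ⟨l, hl⟩ := he
  omega

lemma sq_ne_fourteen_odd {e : ℤ} (h7 : E v e (7 : F)) (he : Odd e) (he0 : 1 ≤ e) (z : F) :
    z ^ 2 ≠ 14 := by
  intro h
  have u2 : E v 0 (2 : F) :=
    (E.int (p := 7) (n := 2) (by simpa using h7.g he0) (by norm_num)).congr rfl (by norm_num)
  have h14 : E v e (14 : F) := (u2.mul h7).congr (by ring) (by norm_num)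
  have hz : z ≠ 0 := by
    rintro rfl
    apply h14.ne_zero
    rw [← h]; ring
  obtain ⟨n, hn⟩ := exists_E (v := v) hz
  have := h14.unique ((hn.pow 2).congr rfl h)
  push_cast at this
  obtain ⟨l, hl⟩ := he
  omega

end local_

section global_

variable {F : Type*} [Field F] [NumberField F]

lemma E_of_mem_pow {n : ℕ} (hn : n ≠ 0) {P : HeightOneSpectrum (𝓞 F)} {e : ℕ}
    (h : (n : 𝓞 F) ∈ P.asIdeal ^ e) (h2 : (n : 𝓞 F) ∉ P.asIdeal ^ (e + 1)) :
    E (P.valuation F) e (n : F) := by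
  have hval : P.valuation F (n : F) = P.intValuation (n : 𝓞 F) := by
    have h1 : (n : F) = algebraMap (𝓞 F) F (n : 𝓞 F) := by simp
    rw [h1]; exact P.valuation_of_algebraMap (K := F) _
  have hn0 : (n : F) ≠ 0 := by exact_mod_cast hn
  obtain ⟨k, hk⟩ := exists_E (v := P.valuation F) hn0
  have h3 : (e : ℤ) ≤ k := by
    apply hk.le
    unfold G
    rw [hval]
    exact (P.intValuation_le_pow_iff_mem _ _).mpr h
  have h4 : ¬ (e : ℤ) + 1 ≤ k := by
    intro h4
    apply h2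
    rw [← P.intValuation_le_pow_iff_mem, ← hval]
    have := hk.g h4
    unfold G at this
    exact_mod_cast this
  exact hk.congr (by omega) rfl

end global_

open scoped Classical in
/-- an elliptic curve with isogenies of degree 5 and 7 whose mod 3 representation is small is
potentially ordinary or multiplicative at the unramified primes above 3 -/
theorem borel_three {F : Type*} [Field F] [NumberField F] (W : WeierstrassCurve F)
    [W.IsElliptic] (hj0 : W.j ≠ 0) (hj1 : W.j ≠ 1728) {k : F} (hk0 : k ≠ 0)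
    (hk : W.j * k = (k ^ 2 + 10 * k + 5) ^ 3) (φ : F →+* ℝ)
    (c : AlgebraicClosure F ≃ₐ[F] AlgebraicClosure F) (hcc : ∀ z, c (c z) = z)
    (hc3 : ∀ z : AlgebraicClosure F, z ^ 2 = -3 → c z = -z)
    (hA' : ∃ C : AddSubgroup (W⁄(AlgebraicClosure F)).Point, Nat.card C = 7 ∧
      ∀ σ : AlgebraicClosure F ≃ₐ[F] AlgebraicClosure F, C.map (act W σ) = C)
    (hab : ∀ σ τ : AlgebraicClosure F ≃ₐ[F] AlgebraicClosure F,
      (∀ z : AlgebraicClosure F, z ^ 2 = -3 → σ z = z ∧ τ z = z) →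
      ∀ R : (W⁄(AlgebraicClosure F)).Point, 3 • R = 0 →
        Point.map (W' := W) (σ : AlgebraicClosure F →ₐ[F] AlgebraicClosure F)
          (Point.map (W' := W) (τ : AlgebraicClosure F →ₐ[F] AlgebraicClosure F) R) =
        Point.map (W' := W) (τ : AlgebraicClosure F →ₐ[F] AlgebraicClosure F)
          (Point.map (W' := W) (σ : AlgebraicClosure F →ₐ[F] AlgebraicClosure F) R))
    {P : HeightOneSpectrum (𝓞 F)} (hP3 : (3 : 𝓞 F) ∈ P.asIdeal)
    (hP3' : (3 : 𝓞 F) ∉ P.asIdeal ^ 2) : 1 ≤ P.valuation F W.j := by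
  obtain ⟨C₇, hC₇, hst₇⟩ := hA'
  have e3 : E (P.valuation F) 1 (3 : F) := by
    have := E_of_mem (n := 3) (by norm_num) (P := P) (by exact_mod_cast hP3)
      (by exact_mod_cast hP3')
    exact_mod_cast this
  have g3 : G (P.valuation F) 1 (3 : F) := e3.g le_rfl
  by_contra hcon
  obtain ⟨n, hn⟩ := exists_E (v := P.valuation F) hj0
  rw [le_one_of_E hn] at hcon
  -- the point of `X₀(7)`
  have hu : ∀ t : F, uu t ≠ 0 := by
    intro t ht
    have h2 := congrArg φ ht
    unfold uu at h2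
    rw [map_add, map_add, map_mul, map_pow, map_ofNat, map_ofNat, map_zero] at h2
    nlinarith [sq_nonneg (φ t + 13 / 2)]
  obtain ⟨t, M, hM, hjt, h4, h6⟩ := borel7 hC₇ hst₇ (jrel' W) hu
  have ht0 : t ≠ 0 := by
    rintro rfl
    have h1 : uu (0 : F) * aa (0 : F) ^ 3 = 49 := by unfold uu aa; ring
    rw [h1, mul_zero] at hjt
    norm_num at hjt
  have hjt' : W.j * t = (t ^ 2 + 13 * t + 49) * (t ^ 2 + 5 * t + 1) ^ 3 := by
    rw [hjt]; unfold uu aa; ring
  obtain ⟨ht, hn3⟩ := seven_three e3 ht0 hjt' hn (by omega)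
  have h53 : E (P.valuation F) 0 (5 : F) :=
    (unit3 g3 5 (by norm_num)).congr rfl (by norm_num)
  obtain ⟨hk1, a, hna, ha⟩ := five_order h53 hk0 hk hn (by omega)
  have hn3' : n = 3 := by omega
  have ha1 : a = 1 := by omega
  subst hn3' ha1
  -- the order of `j - 1728` is even
  have hJ : W.j - 1728 ≠ 0 := sub_ne_zero.mpr hj1
  have hbb : (W.j - 1728) * t = bb t ^ 2 := by
    rw [← uu_aa_bb]; linear_combination hjt
  have hbb0 : bb t ≠ 0 := by
    intro h0
    rw [h0] at hbb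
    have : (W.j - 1728) * t = 0 := by rw [hbb]; ring
    rcases mul_eq_zero.mp this with h | h
    · exact hJ h
    · exact ht0 h
  obtain ⟨r, hr⟩ := exists_E (v := P.valuation F) hJ
  obtain ⟨b, hb⟩ := exists_E (v := P.valuation F) hbb0
  have hrb := (hr.mul ht).unique ((hb.pow 2).congr rfl hbb.symm)
  push_cast at hrb
  have hrb' : r = 2 * b := by omega
  subst hrb'
  have hb3 := five_three e3 hj1 hk1 hk ha hr
  have hJ6 : G (P.valuation F) 6 (W.j - 1728) := hr.g (by omega)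
  -- the level structure at 3
  have hA0 : -27 * W.c₄ ≠ 0 := by
    intro h0
    have hc : W.c₄ = 0 := (mul_eq_zero.mp h0).resolve_left (by norm_num)
    have h1 := Pool.Agent.H23T.j_mul_disc W
    rw [hc, zero_pow three_ne_zero] at h1
    rcases mul_eq_zero.mp h1 with h1 | h1
    · exact hj0 h1
    · exact W.isUnit_Δ.ne_zero h1
  rcases three_cases c hcc hc3 W (fun σ τ h R hR => hab σ τ h R (by
        rw [show (3 : ℕ) • R = R + R + R by abel, hR, neg_add_cancel])) with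
    ⟨x, hx⟩ | ⟨u, w, r1, r2⟩
  · obtain ⟨h, hh0, hh⟩ := three_point hA0 (disc_ne_zero W) hx (Pool.Agent.H23T.j_eq W)
    exact three_three e3 hh0 hh hn (by norm_num) hJ6
  · obtain ⟨m, g, hm, hg⟩ := split_point (disc_ne_zero W) r1 r2 (Pool.Agent.H23T.j_eq W)
    exact split_three e3 hm hg hn hJ6

open scoped Classical in
/-- the second main theorem -/
theorem main7 {F : Type*} [Field F] [NumberField F] [IsTotallyReal F]
    (W : WeierstrassCurve F) [W.IsElliptic]
    (h5 : ∃ C : AddSubgroup (W⁄(AlgebraicClosure F)).Point, Nat.card C = 5 ∧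
      ∀ σ : AlgebraicClosure F ≃ₐ[F] AlgebraicClosure F,
        C.map (Point.map (W' := W) (σ : AlgebraicClosure F →ₐ[F] AlgebraicClosure F)) = C) :
    (∀ P : HeightOneSpectrum (𝓞 F), (∃ k : ℕ, Odd k ∧ Ideal.absNorm P.asIdeal = 7 ^ k) →
      1 ≤ P.valuation F W.j ∧ 1 ≤ P.valuation F (W.j - 1728)) ∧
    ((∀ s : F, s ^ 2 ≠ 5) →
      (∃ (Q : HeightOneSpectrum (𝓞 F)) (e : ℕ), (7 : 𝓞 F) ∈ Q.asIdeal ^ e ∧
        (7 : 𝓞 F) ∉ Q.asIdeal ^ (e + 1) ∧ (e = 1 ∨
          Odd e ∧ ¬ 3 ∣ e ∧ ∃ k : ℕ, Odd k ∧ Ideal.absNorm Q.asIdeal = 7 ^ k)) →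
      ((∃ C : AddSubgroup (W⁄(AlgebraicClosure F)).Point, Nat.card C = 7 ∧
        ∀ σ : AlgebraicClosure F ≃ₐ[F] AlgebraicClosure F,
          (∀ z : AlgebraicClosure F, z ^ 7 = 1 → σ z = z) →
          C.map (Point.map (W' := W) (σ : AlgebraicClosure F →ₐ[F] AlgebraicClosure F)) = C) ∨
      ∀ σ τ : AlgebraicClosure F ≃ₐ[F] AlgebraicClosure F,
        (∀ z : AlgebraicClosure F, z ^ 7 = 1 → σ z = z ∧ τ z = z) →
        ∀ R : (W⁄(AlgebraicClosure F)).Point, 7 • R = 0 →
          Point.map (W' := W) (σ : AlgebraicClosure F →ₐ[F] AlgebraicClosure F)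
            (Point.map (W' := W) (τ : AlgebraicClosure F →ₐ[F] AlgebraicClosure F) R) =
          Point.map (W' := W) (τ : AlgebraicClosure F →ₐ[F] AlgebraicClosure F)
            (Point.map (W' := W) (σ : AlgebraicClosure F →ₐ[F] AlgebraicClosure F) R)) →
      (∃ C : AddSubgroup (W⁄(AlgebraicClosure F)).Point, Nat.card C = 7 ∧
        ∀ σ : AlgebraicClosure F ≃ₐ[F] AlgebraicClosure F,
          C.map (Point.map (W' := W) (σ : AlgebraicClosure F →ₐ[F] AlgebraicClosure F)) = C) ∧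
      ((∀ σ τ : AlgebraicClosure F ≃ₐ[F] AlgebraicClosure F,
        (∀ z : AlgebraicClosure F, z ^ 2 = -3 → σ z = z ∧ τ z = z) →
        ∀ R : (W⁄(AlgebraicClosure F)).Point, 3 • R = 0 →
          Point.map (W' := W) (σ : AlgebraicClosure F →ₐ[F] AlgebraicClosure F)
            (Point.map (W' := W) (τ : AlgebraicClosure F →ₐ[F] AlgebraicClosure F) R) =
          Point.map (W' := W) (τ : AlgebraicClosure F →ₐ[F] AlgebraicClosure F)
            (Point.map (W' := W) (σ : AlgebraicClosure F →ₐ[F] AlgebraicClosure F) R)) →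
        ∀ P : HeightOneSpectrum (𝓞 F), (3 : 𝓞 F) ∈ P.asIdeal → (3 : 𝓞 F) ∉ P.asIdeal ^ 2 →
          1 ≤ P.valuation F W.j)) := by
  obtain ⟨C₅, hC₅, hst₅⟩ := h5
  obtain ⟨k, hk0, hk⟩ := five_point (K := AlgebraicClosure F) W C₅ hC₅ hst₅
  refine ⟨fun P hP => ?_, ?_⟩
  · obtain ⟨h7, hres⟩ := odd_seven hP
    exact ⟨five_odd7j h7 hres hk0 hk, five_odd7 h7 hres hk0 hk⟩
  intro hs hQ hirr
  obtain ⟨q, e, hQ7, hQ7', hcase⟩ := hQ
  have he : Odd e := by
    rcases hcase with h | h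
    · rw [h]; exact odd_one
    · exact h.1
  have hez : Odd (e : ℤ) := by exact_mod_cast he
  have he0 : (1 : ℤ) ≤ e := by
    obtain ⟨l, hl⟩ := he
    omega
  have e7 : E (q.valuation F) e (7 : F) := by
    have := E_of_mem_pow (n := 7) (by norm_num) (P := q) (e := e) (by exact_mod_cast hQ7)
      (by exact_mod_cast hQ7')
    exact_mod_cast this
  obtain ⟨φ⟩ := exists_real F
  obtain ⟨c, hcc, hc3, hc7⟩ := exists_conj7 (K := AlgebraicClosure F) φ
  have hj0 : W.j ≠ 0 := by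
    intro h0
    rw [h0, zero_mul] at hk
    have h1 : k ^ 2 + 10 * k + 5 = 0 := (pow_eq_zero_iff (by norm_num)).mp hk.symm
    apply hs ((k + 5) / 2)
    linear_combination h1 / 4
  have hj1 : W.j ≠ 1728 := by
    intro h0
    rw [h0] at hk
    have h1 : (k ^ 2 + 22 * k + 125) * (k ^ 2 + 4 * k - 1) ^ 2 = 0 := by linear_combination -hk
    rcases mul_eq_zero.mp h1 with h2 | h2
    · have h3 := congrArg φ h2
      rw [map_add, map_add, map_mul, map_pow, map_ofNat, map_ofNat, map_zero] at h3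
      nlinarith [sq_nonneg (φ k + 11)]
    · have h3 : k ^ 2 + 4 * k - 1 = 0 := (pow_eq_zero_iff (by norm_num)).mp h2
      apply hs (k + 2)
      linear_combination h3
  have hA := seven_cases (K := AlgebraicClosure F) φ (sq_ne_seven_odd e7 hez)
    (sq_ne_fourteen_odd e7 hez he0) c hcc hc7 W hj0 hj1 (by
      rcases hirr with ⟨C, hC, hst⟩ | hab
      · exact Or.inl ⟨C, hC, fun σ hσ => hst σ hσ⟩
      · refine Or.inr fun σ τ hσ hτ R hR => hab σ τ (fun z hz => ⟨hσ z hz, hτ z hz⟩) R ?_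
        rw [← natCast_zsmul]
        exact_mod_cast hR)
  have hA' : ∃ C : AddSubgroup (W⁄(AlgebraicClosure F)).Point, Nat.card C = 7 ∧
      ∀ σ : AlgebraicClosure F ≃ₐ[F] AlgebraicClosure F, C.map (act W σ) = C := by
    rcases hcase with h1 | ⟨-, h3e, hnorm⟩
    · subst h1
      have e7' : E (q.valuation F) 1 (7 : F) := e7
      have h57 : E (q.valuation F) 0 (5 : F) :=
        (unit7 e7' 5 (by norm_num)).congr rfl (by norm_num)
      have hno : ∀ n : ℤ, 1 ≤ n → ¬ E (q.valuation F) (3 * n + 2) W.j := by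
        intro n hn hE
        obtain ⟨-, a, ha, -⟩ := five_order h57 hk0 hk hE (by omega)
        omega
      rcases hA with h | ⟨m, y, c, i1, i2, i3⟩ | ⟨m, y, c, i1, i2, i3⟩
      · exact h
      · obtain ⟨n, hn, hE⟩ := d7_order e7' hj0 i1 i2 i3
        exact (hno n hn hE).elim
      · obtain ⟨n, hn, hE⟩ := e7_order e7' hj0 i1 i2 i3
        exact (hno n hn hE).elim
    · obtain ⟨h7, hres⟩ := odd_seven hnorm
      have k1 := five_odd7j h7 hres hk0 hk
      have k2 := five_odd7 h7 hres hk0 hk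
      have h3e' : ¬ (3 : ℤ) ∣ (e : ℤ) := by exact_mod_cast h3e
      have hbad : ¬ (G (q.valuation F) 1 W.j ∨ G (q.valuation F) 1 (W.j - 1728)) := by
        rw [G_one_iff, G_one_iff, not_or, not_lt, not_lt]
        exact ⟨k1, k2⟩
      rcases hA with h | ⟨m, y, c, i1, i2, i3⟩ | ⟨m, y, c, i1, i2, i3⟩
      · exact h
      · exact (hbad (d7_odd e7 hez h3e' he0 hj0 i1 i2 i3)).elim
      · exact (hbad (e7_odd e7 hez h3e' he0 hj0 i1 i2 i3)).elim
  refine ⟨hA', fun hab P hP3 hP3' => ?_⟩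
  exact borel_three W hj0 hj1 hk0 hk φ c hcc hc3 hA' hab hP3 hP3'

end Pool.Agent.L9
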