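import Pool.Agent.L9.ThreeA
import Pool.Agent.L9.ResNorm
import Pool.Agent.L9.OutE4
import Pool.Agent.L9.Final

/-! # Bad reduction at the primes of norm 3 (helper83) -/

set_option autoImplicit false

namespace Pool.Agent.L9

open NumberField WeierstrassCurve WeierstrassCurve.Affine IsDedekindDomain WithZero
  Pool.Agent.H42M Pool.Agent.M7

/-- a place with `v 3 > 0` and residue field of three elements does not see `√2`, `√5`, `√14` -/
lemma sq_ne_of_three {F : Type*} [Field F] {v : Valuation F ℤᵐ⁰} (h3 : G v 1 (3 : F))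
    (hres : ∀ z : F, G v 0 z → G v 1 (z ^ 3 - z)) (n : ℤ) (z : F) : z ^ 2 ≠ ((3 * n - 1 : ℤ) : F) := by
  intro h
  have iz : G v 0 z := by
    by_contra hcon
    have hz0 : z ≠ 0 := by
      rintro rfl
      exact hcon G.zero
    obtain ⟨k, hk⟩ := exists_E (v := v) hz0
    have hk0 : k < 0 := by
      by_contra h
      exact hcon (hk.g (by omega))
    have h5 : E v (2 * k) (z ^ 2) := (hk.pow 2).congr (by norm_num) rfl
    rw [h] at h5
    have := h5.le (G.int _)
    omega
  apply nosq3 h3 hres iz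
  rw [h]
  exact (g1_int3 h3 n).congr le_rfl (by push_cast; ring)

open scoped Classical in
/-- a curve with a 5-isogeny whose mod 7 representation is not absolutely irreducible over
`F(ζ₇)` has a pole of `j` at each prime of norm 3 -/
theorem norm3 {F : Type*} [Field F] [NumberField F] [IsTotallyReal F]
    (W : WeierstrassCurve F) [W.IsElliptic]
    (h5 : ∃ C : AddSubgroup (W⁄(AlgebraicClosure F)).Point, Nat.card C = 5 ∧
      ∀ σ : AlgebraicClosure F ≃ₐ[F] AlgebraicClosure F,
        C.map (Point.map (W' := W) (σ : AlgebraicClosure F →ₐ[F] AlgebraicClosure F)) = C)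
    (hirr : (∃ C : AddSubgroup (W⁄(AlgebraicClosure F)).Point, Nat.card C = 7 ∧
        ∀ σ : AlgebraicClosure F ≃ₐ[F] AlgebraicClosure F,
          (∀ z : AlgebraicClosure F, z ^ 7 = 1 → σ z = z) →
          C.map (Point.map (W' := W) (σ : AlgebraicClosure F →ₐ[F] AlgebraicClosure F)) = C) ∨
      ∀ σ τ : AlgebraicClosure F ≃ₐ[F] AlgebraicClosure F,
        (∀ z : AlgebraicClosure F, z ^ 7 = 1 → σ z = z ∧ τ z = z) →
        ∀ R : (W⁄(AlgebraicClosure F)).Point, 7 • R = 0 →
          Point.map (W' := W) (σ : AlgebraicClosure F →ₐ[F] AlgebraicClosure F)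
            (Point.map (W' := W) (τ : AlgebraicClosure F →ₐ[F] AlgebraicClosure F) R) =
          Point.map (W' := W) (τ : AlgebraicClosure F →ₐ[F] AlgebraicClosure F)
            (Point.map (W' := W) (σ : AlgebraicClosure F →ₐ[F] AlgebraicClosure F) R))
    (P : HeightOneSpectrum (𝓞 F)) (hP : Ideal.absNorm P.asIdeal = 3) :
    1 < P.valuation F W.j := by
  obtain ⟨C₅, hC₅, hst₅⟩ := h5
  obtain ⟨k, hk0, hk⟩ := five_point (K := AlgebraicClosure F) W C₅ hC₅ hst₅
  obtain ⟨h3, -⟩ := odd_three (P := P) ⟨1, odd_one, by rw [hP, pow_one]⟩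
  have hres : ∀ z : F, G (P.valuation F) 0 z → G (P.valuation F) 1 (z ^ 3 - z) := by
    intro z hz
    have := pow_norm_res P hz
    rwa [hP] at this
  have hs : ∀ s : F, s ^ 2 ≠ 5 := by
    intro s
    have := sq_ne_of_three h3 hres 2 s
    norm_num at this
    exact this
  have h14 : ∀ s : F, s ^ 2 ≠ 14 := by
    intro s
    have := sq_ne_of_three h3 hres 5 s
    norm_num at this
    exact this
  obtain ⟨φ⟩ := exists_real F
  obtain ⟨c, hcc, hc3, hc7⟩ := exists_conj7 (K := AlgebraicClosure F) φ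
  have hj0 : W.j ≠ 0 := by
    intro h0
    rw [h0, zero_mul] at hk
    have h1 : k ^ 2 + 10 * k + 5 = 0 := (pow_eq_zero_iff (by norm_num)).mp hk.symm
    apply hs ((k + 5) / 2)
    linear_combination h1 / 4
  have hj1 : W.j ≠ 1728 := by
    intro h0
    rw [h0] at hk
    have h1 : (k ^ 2 + 22 * k + 125) * (k ^ 2 + 4 * k - 1) ^ 2 = 0 := by linear_combination -hk
    rcases mul_eq_zero.mp h1 with h2 | h2
    · have h3 := congrArg φ h2
      rw [map_add, map_add, map_mul, map_pow, map_ofNat, map_ofNat, map_zero] at h3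
      nlinarith [sq_nonneg (φ k + 11)]
    · have h3 : k ^ 2 + 4 * k - 1 = 0 := (pow_eq_zero_iff (by norm_num)).mp h2
      apply hs (k + 2)
      linear_combination h3
  have hA := seven_cases4 (K := AlgebraicClosure F) φ h14
    c hcc hc7 W hj0 hj1 (by
      rcases hirr with ⟨C, hC, hst⟩ | hab
      · exact Or.inl ⟨C, hC, fun σ hσ => hst σ hσ⟩
      · refine Or.inr fun σ τ hσ hτ R hR => hab σ τ (fun z hz => ⟨hσ z hz, hτ z hz⟩) R ?_
        rw [← natCast_zsmul]
        exact_mod_cast hR)
  have hseven : 1 < P.valuation F W.j ∨ G (P.valuation F) 1 W.j := by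
    rcases hA with ⟨C₇, hC₇, hst₇⟩ | ⟨m, y, c, i1, i2, i3⟩ | ⟨m, y, c, i1, i2, i3⟩
    · have hu : ∀ t : F, uu t ≠ 0 := by
        intro t ht
        have h2 := congrArg φ ht
        unfold uu at h2
        rw [map_add, map_add, map_mul, map_pow, map_ofNat, map_ofNat, map_zero] at h2
        nlinarith [sq_nonneg (φ t + 13 / 2)]
      obtain ⟨t, M, hM, hjt, h4, h6⟩ := borel7 hC₇ hst₇ (jrel' W) hu
      have ht0 : t ≠ 0 := by
        rintro rfl
        have h1 : uu (0 : F) * aa (0 : F) ^ 3 = 49 := by unfold uu aa; ring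
        rw [h1, mul_zero] at hjt
        norm_num at hjt
      have hjt' : W.j * t = (t ^ 2 + 13 * t + 49) * (t ^ 2 + 5 * t + 1) ^ 3 := by
        rw [hjt]; unfold uu aa; ring
      exact b7_three h3 hres ht0 hjt'
    · exact d7_three h3 hres i1 i2 i3
    · exact e7_three h3 hres i1 i2 i3
  rcases hseven with h | h
  · exact h
  rcases b5_three h3 hres hk0 hk with h' | h'
  · exact h'
  · exfalso
    apply not_G1' (v := P.valuation F) E.one
    exact (h.sub h').congr le_rfl (by ring)

end Pool.Agent.L9
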