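import Pool.Agent.L9.TwoC
import Pool.Agent.L9.ThreeB
import Pool.Agent.L9.Fin5
import Pool.Agent.L9.Seven

/-! # Potentially good reduction at a prime of small norm (helper42, for helper9) -/

set_option autoImplicit false

namespace Pool.Agent.L9

open NumberField WeierstrassCurve WeierstrassCurve.Affine IsDedekindDomain
  Pool.Agent.H42M Pool.Agent.M7

open scoped Classical in
/-- the theorems at the primes of norm 2, 3, 5, 8, 13, 47 and of norm an odd power of 2 or 7 -/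
theorem pot_good {F : Type*} [Field F] [NumberField F] [IsTotallyReal F]
    (W : WeierstrassCurve F) [W.IsElliptic]
    (h5 : ∃ C : AddSubgroup (W⁄(AlgebraicClosure F)).Point, Nat.card C = 5 ∧
      ∀ σ : AlgebraicClosure F ≃ₐ[F] AlgebraicClosure F,
        C.map (Point.map (W' := W) (σ : AlgebraicClosure F →ₐ[F] AlgebraicClosure F)) = C)
    (P : HeightOneSpectrum (𝓞 F)) :
    ((∃ k : ℕ, Odd k ∧ Ideal.absNorm P.asIdeal = 7 ^ k) →
      1 ≤ P.valuation F W.j ∧ 1 ≤ P.valuation F (W.j - 1728)) ∧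
    ((∀ σ τ : AlgebraicClosure F ≃ₐ[F] AlgebraicClosure F,
        (∀ z : AlgebraicClosure F, z ^ 2 = -3 → σ z = z ∧ τ z = z) →
        ∀ R : (W⁄(AlgebraicClosure F)).Point, 3 • R = 0 →
          Point.map (W' := W) (σ : AlgebraicClosure F →ₐ[F] AlgebraicClosure F)
            (Point.map (W' := W) (τ : AlgebraicClosure F →ₐ[F] AlgebraicClosure F) R) =
          Point.map (W' := W) (τ : AlgebraicClosure F →ₐ[F] AlgebraicClosure F)
            (Point.map (W' := W) (σ : AlgebraicClosure F →ₐ[F] AlgebraicClosure F) R)) →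
      ((∃ k : ℕ, Odd k ∧ Ideal.absNorm P.asIdeal = 2 ^ k) → 1 ≤ P.valuation F W.j) ∧
      (Ideal.absNorm P.asIdeal = 2 ∨ Ideal.absNorm P.asIdeal = 8 → 1 < P.valuation F W.j)) ∧
    (((∃ C : AddSubgroup (W⁄(AlgebraicClosure F)).Point, Nat.card C = 7 ∧
        ∀ σ : AlgebraicClosure F ≃ₐ[F] AlgebraicClosure F,
          (∀ z : AlgebraicClosure F, z ^ 7 = 1 → σ z = z) →
          C.map (Point.map (W' := W) (σ : AlgebraicClosure F →ₐ[F] AlgebraicClosure F)) = C) ∨
      ∀ σ τ : AlgebraicClosure F ≃ₐ[F] AlgebraicClosure F,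
        (∀ z : AlgebraicClosure F, z ^ 7 = 1 → σ z = z ∧ τ z = z) →
        ∀ R : (W⁄(AlgebraicClosure F)).Point, 7 • R = 0 →
          Point.map (W' := W) (σ : AlgebraicClosure F →ₐ[F] AlgebraicClosure F)
            (Point.map (W' := W) (τ : AlgebraicClosure F →ₐ[F] AlgebraicClosure F) R) =
          Point.map (W' := W) (τ : AlgebraicClosure F →ₐ[F] AlgebraicClosure F)
            (Point.map (W' := W) (σ : AlgebraicClosure F →ₐ[F] AlgebraicClosure F) R)) →
      (Ideal.absNorm P.asIdeal = 3 ∨ Ideal.absNorm P.asIdeal = 13 → 1 < P.valuation F W.j)) ∧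
    ((∀ σ τ : AlgebraicClosure F ≃ₐ[F] AlgebraicClosure F,
        (∀ z : AlgebraicClosure F, z ^ 2 = -3 → σ z = z ∧ τ z = z) →
        ∀ R : (W⁄(AlgebraicClosure F)).Point, 3 • R = 0 →
          Point.map (W' := W) (σ : AlgebraicClosure F →ₐ[F] AlgebraicClosure F)
            (Point.map (W' := W) (τ : AlgebraicClosure F →ₐ[F] AlgebraicClosure F) R) =
          Point.map (W' := W) (τ : AlgebraicClosure F →ₐ[F] AlgebraicClosure F)
            (Point.map (W' := W) (σ : AlgebraicClosure F →ₐ[F] AlgebraicClosure F) R)) →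
      ((∃ C : AddSubgroup (W⁄(AlgebraicClosure F)).Point, Nat.card C = 7 ∧
        ∀ σ : AlgebraicClosure F ≃ₐ[F] AlgebraicClosure F,
          (∀ z : AlgebraicClosure F, z ^ 7 = 1 → σ z = z) →
          C.map (Point.map (W' := W) (σ : AlgebraicClosure F →ₐ[F] AlgebraicClosure F)) = C) ∨
      ∀ σ τ : AlgebraicClosure F ≃ₐ[F] AlgebraicClosure F,
        (∀ z : AlgebraicClosure F, z ^ 7 = 1 → σ z = z ∧ τ z = z) →
        ∀ R : (W⁄(AlgebraicClosure F)).Point, 7 • R = 0 →
          Point.map (W' := W) (σ : AlgebraicClosure F →ₐ[F] AlgebraicClosure F)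
            (Point.map (W' := W) (τ : AlgebraicClosure F →ₐ[F] AlgebraicClosure F) R) =
          Point.map (W' := W) (τ : AlgebraicClosure F →ₐ[F] AlgebraicClosure F)
            (Point.map (W' := W) (σ : AlgebraicClosure F →ₐ[F] AlgebraicClosure F) R)) →
      (Ideal.absNorm P.asIdeal = 47 → 1 < P.valuation F W.j) ∧
      (Ideal.absNorm P.asIdeal = 5 → (5 : 𝓞 F) ∉ P.asIdeal ^ 2 → P.valuation F W.j ≠ 1 ∧
        ((∃ C : AddSubgroup (W⁄(AlgebraicClosure F)).Point, Nat.card C = 7 ∧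
        ∀ σ : AlgebraicClosure F ≃ₐ[F] AlgebraicClosure F,
          C.map (Point.map (W' := W) (σ : AlgebraicClosure F →ₐ[F] AlgebraicClosure F)) = C) → 1 < P.valuation F W.j))) := by
  refine ⟨fun hP => ?_, fun hab => ⟨(main_two W h5 hab).1 P, (main_two W h5 hab).2 P⟩, fun hirr hP => ?_,
    fun hab hirr => ⟨norm47 W h5 hab hirr P, fun hP hP2 =>
      ⟨(norm5 W h5 hab P hP hP2).1 hirr, (norm5 W h5 hab P hP hP2).2⟩⟩⟩
  · obtain ⟨C₅, hC₅, hst₅⟩ := h5
    obtain ⟨k, hk0, hk⟩ := five_point (K := AlgebraicClosure F) W C₅ hC₅ hst₅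
    obtain ⟨h7, hres⟩ := odd_seven hP
    exact ⟨five_odd7j h7 hres hk0 hk, five_odd7 h7 hres hk0 hk⟩
  rcases hP with hP | hP
  · exact norm3 W h5 hirr P hP
  · exact norm13 W h5 hirr P hP

end Pool.Agent.L9
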