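import Pool.Agent.L9.Val

/-! # Reduction to `ZMod q` (helper94, for helper9) -/

set_option autoImplicit false

namespace Pool.Agent.L9

open WithZero Polynomial

variable {F : Type*} [Field F] {v : Valuation F ℤᵐ⁰}

/-- the residue map when all integral elements satisfy `z ^ q = z` modulo `v` -/
theorem exists_red {q : ℕ} [hqp : Fact q.Prime] (hq : G v 1 (q : F))
    (hres : ∀ z : F, G v 0 z → G v 1 (z ^ q - z)) :
    ∃ φ : v.valuationSubring →+* ZMod q, ∀ x : v.valuationSubring, φ x = 0 ↔ G v 1 (x : F) := by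
  classical
  set A := v.valuationSubring with hA
  have hmem : ∀ x : F, x ∈ A ↔ G v 0 x := fun x => by
    rw [hA, Valuation.mem_valuationSubring_iff, G_iff_one]
  set κ := IsLocalRing.ResidueField A
  set π : A →+* κ := IsLocalRing.residue A with hπ
  have hG1 : ∀ x : F, G v 1 x ↔ v x < 1 := by
    intro x
    by_cases hx : x = 0
    · rw [hx, map_zero]
      exact ⟨fun _ => zero_lt_one, fun _ => G.zero⟩
    obtain ⟨n, hn⟩ := exists_E (v := v) hx
    rw [lt_one_of_E hn]
    exact ⟨fun h => hn.le h, fun h => hn.g h⟩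
  have hker : ∀ x : A, π x = 0 ↔ G v 1 (x : F) := by
    intro x
    rw [hπ, IsLocalRing.residue_eq_zero_iff, IsLocalRing.mem_maximalIdeal, mem_nonunits_iff, hG1]
    have hx1 : v (x : F) ≤ 1 := G_iff_one.mp ((hmem _).mp x.2)
    constructor
    · intro h
      refine lt_of_le_of_ne hx1 fun h1 => h ?_
      have hx0 : (x : F) ≠ 0 := by
        intro h0
        rw [h0, map_zero] at h1
        exact zero_ne_one h1
      have hinv : (x : F)⁻¹ ∈ A := by
        rw [hmem, G_iff_one, map_inv₀, h1, inv_one]
      exact IsUnit.of_mul_eq_one (⟨(x : F)⁻¹, hinv⟩ : A) (Subtype.ext (mul_inv_cancel₀ hx0))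
    · rintro h ⟨y, hy⟩
      have h1 : v ((y : A) : F) * v (((y⁻¹ : Aˣ) : A) : F) = 1 := by
        rw [← map_mul]
        have : (((y : A) * ((y⁻¹ : Aˣ) : A) : A) : F) = 1 := by
          rw [Units.mul_inv]; rfl
        have h2 : ((y : A) : F) * (((y⁻¹ : Aˣ) : A) : F) = 1 := this
        rw [h2, map_one]
      have h2 : v (((y⁻¹ : Aˣ) : A) : F) ≤ 1 := G_iff_one.mp ((hmem _).mp ((y⁻¹ : Aˣ) : A).2)
      rw [hy] at h1
      have h3 : v (x : F) * v (((y⁻¹ : Aˣ) : A) : F) ≤ v (x : F) * 1 := mul_le_mul_right h2 _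
      rw [h1, mul_one] at h3
      exact absurd h (not_lt.mpr h3)
  have hsurj : Function.Surjective π := IsLocalRing.residue_surjective
  have hq0 : (q : κ) = 0 := by
    have h1 : π (q : A) = 0 := by
      rw [hker]
      have : ((q : A) : F) = (q : F) := by simp
      rw [this]; exact hq
    rwa [map_natCast] at h1
  have hchar : CharP κ q := by
    obtain ⟨p, hp⟩ := CharP.exists κ
    have h1 : p ∣ q := (CharP.cast_eq_zero_iff κ p q).mp hq0
    rcases (Nat.dvd_prime hqp.out).mp h1 with h2 | h2
    · subst h2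
      exact absurd rfl (CharP.char_ne_one κ 1)
    · rwa [h2] at hp
  have hfix : ∀ z : κ, z ^ q - z = 0 := by
    intro z
    obtain ⟨x, rfl⟩ := hsurj z
    rw [← map_pow, ← map_sub, hker]
    exact hres x ((hmem _).mp x.2)
  let f : ZMod q →+* κ := ZMod.castHom dvd_rfl κ
  have hfi : Function.Injective f := f.injective
  have hfs : Function.Surjective f := by
    intro z
    by_contra hz
    have hz' : z ∉ Finset.univ.image f := by
      intro h
      obtain ⟨a, _, ha⟩ := Finset.mem_image.mp h
      exact hz ⟨a, ha⟩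
    have h1 : (insert z (Finset.univ.image f)).card = q + 1 := by
      rw [Finset.card_insert_of_notMem hz', Finset.card_image_of_injective _ hfi,
        Finset.card_univ, ZMod.card]
    have hp0 : (X ^ q - X : κ[X]) ≠ 0 := FiniteField.X_pow_card_sub_X_ne_zero κ hqp.out.one_lt
    have h2 : insert z (Finset.univ.image f) ⊆ (X ^ q - X : κ[X]).roots.toFinset := by
      intro y _
      rw [Multiset.mem_toFinset, mem_roots hp0, IsRoot.def, eval_sub, eval_pow, eval_X]
      exact hfix y
    have h3 := (Finset.card_le_card h2).trans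
      ((Multiset.toFinset_card_le _).trans (card_roots' _))
    rw [FiniteField.X_pow_card_sub_X_natDegree_eq κ hqp.out.one_lt, h1] at h3
    omega
  let e : ZMod q ≃+* κ := RingEquiv.ofBijective f ⟨hfi, hfs⟩
  refine ⟨(e.symm : κ →+* ZMod q).comp π, fun x => ?_⟩
  rw [← hker]
  constructor
  · intro h
    have h1 : e.symm (π x) = 0 := h
    have h2 := congrArg e h1
    rwa [RingEquiv.apply_symm_apply, map_zero] at h2
  · intro h
    change e.symm (π x) = 0
    rw [h, map_zero]

end Pool.Agent.L9
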