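import Pool.Agent.L9.Loc7

/-! # The curves `X₀(5)`, `X₀(7)`, `X(d7)`, `X(e7)` at a prime of norm 3 (helper83) -/

set_option autoImplicit false

namespace Pool.Agent.L9

open WithZero

variable {F : Type*} [Field F] {v : Valuation F ℤᵐ⁰}

section tools

lemma i0mul {x y : F} (h : G v 0 x) (h' : G v 0 y) : G v 0 (x * y) :=
  (h.mul h').mono (by norm_num)

lemma i0pow {x : F} (h : G v 0 x) (k : ℕ) : G v 0 (x ^ k) := (h.pow k).mono (by norm_num)

lemma i1mul {x y : F} (h : G v 1 x) (h' : G v 0 y) : G v 1 (x * y) :=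
  (h.mul h').mono (by norm_num)

lemma i1mul' {x y : F} (h : G v 0 x) (h' : G v 1 y) : G v 1 (x * y) :=
  (h.mul h').mono (by norm_num)

lemma not_G1' {x : F} (h : E v 0 x) : ¬ G v 1 x := fun h' => by have := h.le h'; omega

/-- a product of a unit and `x` lies in the maximal ideal only if `x` does -/
lemma of_unit_mul {u x : F} (hu : E v 0 u) (h : G v 1 (u * x)) : G v 1 x := by
  rw [E_iff_one] at hu
  unfold G at *
  rwa [map_mul, hu, one_mul] at h

lemma one_lt_of_E {x : F} {n : ℤ} (h : E v n x) (hn : n < 0) : 1 < v x := by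
  unfold E at h
  rw [h, ← exp_zero, exp_lt_exp]
  omega

lemma inv_E {x : F} {n : ℤ} (h : E v n x) : E v (-n) x⁻¹ := by
  unfold E at *
  rw [map_inv₀, h, ← exp_neg]

/-- congruence of integral elements modulo the maximal ideal -/
def Cg (v : Valuation F ℤᵐ⁰) (x y : F) : Prop := G v 0 x ∧ G v 0 y ∧ G v 1 (x - y)

lemma Cg.refl {x : F} (h : G v 0 x) : Cg v x x := ⟨h, h, by rw [sub_self]; exact G.zero⟩

lemma Cg.ofNat (n : ℕ) [n.AtLeastTwo] : Cg v (OfNat.ofNat n : F) (OfNat.ofNat n : F) :=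
  Cg.refl (G.ofNat n)

lemma Cg.one : Cg v (1 : F) 1 := Cg.refl (E.one.g le_rfl)

lemma Cg.add {x y x' y' : F} (h : Cg v x y) (h' : Cg v x' y') : Cg v (x + x') (y + y') :=
  ⟨h.1.add h'.1, h.2.1.add h'.2.1, (h.2.2.add h'.2.2).congr le_rfl (by ring)⟩

lemma Cg.sub {x y x' y' : F} (h : Cg v x y) (h' : Cg v x' y') : Cg v (x - x') (y - y') :=
  ⟨h.1.sub h'.1, h.2.1.sub h'.2.1, (h.2.2.sub h'.2.2).congr le_rfl (by ring)⟩

lemma Cg.mul {x y x' y' : F} (h : Cg v x y) (h' : Cg v x' y') : Cg v (x * x') (y * y') :=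
  ⟨i0mul h.1 h'.1, i0mul h.2.1 h'.2.1,
    ((i1mul' h.1 h'.2.2).add (i1mul h.2.2 h'.2.1)).congr le_rfl (by ring)⟩

lemma Cg.pow {x y : F} (h : Cg v x y) (k : ℕ) : Cg v (x ^ k) (y ^ k) := by
  induction k with
  | zero => rw [pow_zero, pow_zero]; exact Cg.one
  | succ k ih => rw [pow_succ, pow_succ]; exact ih.mul h

lemma Cg.neg {x y : F} (h : Cg v x y) : Cg v (-x) (-y) :=
  ⟨h.1.neg, h.2.1.neg, h.2.2.neg.congr le_rfl (by ring)⟩

lemma Cg.g1 {x y : F} (h : Cg v x y) (h' : G v 1 y) : G v 1 x :=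
  (h.2.2.add h').congr le_rfl (by ring)

lemma Cg.e0 {x y : F} (h : Cg v x y) (h' : E v 0 y) : E v 0 x :=
  (h'.add h.2.2 (by norm_num)).congr rfl (by ring)

/-- the residue field has three elements -/
lemma res3 (hres : ∀ z : F, G v 0 z → G v 1 (z ^ 3 - z)) {z : F} (hz : G v 0 z) :
    Cg v z 0 ∨ Cg v z 1 ∨ Cg v z (-1) := by
  have i1 : G v 0 (1 : F) := E.one.g le_rfl
  rcases hz.cases with h0 | h0
  · rcases (hz.sub i1).cases with h1 | h1
    · rcases (hz.add i1).cases with h2 | h2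
      · exfalso
        have h3 := (h0.mul h1).mul h2
        have h4 := hres z hz
        have h5 := (h3.congr rfl (by ring : z * (z - 1) * (z + 1) = z ^ 3 - z)).le h4
        omega
      · exact Or.inr (Or.inr ⟨hz, i1.neg, h2.congr le_rfl (by ring)⟩)
    · exact Or.inr (Or.inl ⟨hz, i1, h1⟩)
  · exact Or.inl ⟨hz, G.zero, h0.congr le_rfl (by ring)⟩

lemma g1_int3 (h3 : G v 1 (3 : F)) (n : ℤ) : G v 1 ((3 * n : ℤ) : F) := by
  push_cast
  exact i1mul h3 (G.int n)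

lemma e0_int3 (h3 : G v 1 (3 : F)) {n : ℤ} (h : IsCoprime n 3) : E v 0 (n : F) :=
  E.int (p := 3) (by simpa using h3) h

/-- -1 is not a square -/
lemma nosq3 (h3 : G v 1 (3 : F)) (hres : ∀ z : F, G v 0 z → G v 1 (z ^ 3 - z)) {z : F}
    (hz : G v 0 z) : ¬ G v 1 (z ^ 2 + 1) := by
  have u2 : E v 0 (2 : F) := (e0_int3 h3 (n := 2) (by norm_num)).congr rfl (by norm_num)
  rcases res3 hres hz with h0 | h0 | h0
  · have h1 := (h0.pow 2).add Cg.one
    exact not_G1' (h1.e0 (E.one.congr rfl (by ring)))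
  · have h1 := (h0.pow 2).add Cg.one
    exact not_G1' (h1.e0 (u2.congr rfl (by ring)))
  · have h1 := (h0.pow 2).add Cg.one
    exact not_G1' (h1.e0 (u2.congr rfl (by ring)))

end tools

variable (h3 : G v 1 (3 : F)) (hres : ∀ z : F, G v 0 z → G v 1 (z ^ 3 - z))

include h3 hres

/-- `X₀(5)` at a prime of norm 3 -/
theorem b5_three {j k : F} (hk : k ≠ 0) (hj : j * k = (k ^ 2 + 10 * k + 5) ^ 3) :
    1 < v j ∨ G v 1 (j - 1) := by
  have u5 : E v 0 (5 : F) := (e0_int3 h3 (n := 5) (by norm_num)).congr rfl (by norm_num)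
  have i10 : G v 0 (10 : F) := G.ofNat 10
  obtain ⟨s, hs⟩ := exists_E (v := v) hk
  rcases lt_trichotomy s 0 with h | h | h
  · left
    have h1 : E v (2 * s) (k ^ 2 + 10 * k + 5) :=
      (((hs.pow 2).congr (by norm_num) rfl).add ((i10.mul (hs.g le_rfl)).mono le_rfl)
        (by omega)).add (u5.g le_rfl) (by omega)
    have hj0 : j ≠ 0 := by
      rintro rfl
      apply (h1.pow 3).ne_zero
      rw [← hj, zero_mul]
    obtain ⟨n, hn⟩ := exists_E (v := v) hj0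
    have h2 := (hn.mul hs).unique ((h1.pow 3).congr rfl hj.symm)
    push_cast at h2
    exact one_lt_of_E hn (by omega)
  · right
    subst h
    have ik : G v 0 k := hs.g le_rfl
    apply of_unit_mul hs
    have e : k * (j - 1) = (k ^ 2 + 10 * k + 5) ^ 3 - k := by linear_combination hj
    rw [e]
    have key : ∀ x : F, Cg v k x → Cg v ((k ^ 2 + 10 * k + 5) ^ 3 - k)
        ((x ^ 2 + 10 * x + 5) ^ 3 - x) := fun x hx =>
      ((((hx.pow 2).add ((Cg.ofNat 10).mul hx)).add (Cg.ofNat 5)).pow 3).sub hx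
    rcases res3 hres ik with h0 | h0 | h0
    · exact absurd (h0.g1 G.zero) (not_G1' hs)
    · exact (key _ h0).g1 ((g1_int3 h3 1365).congr le_rfl (by push_cast; ring))
    · exact (key _ h0).g1 ((g1_int3 h3 (-21)).congr le_rfl (by push_cast; ring))
  · left
    have h1 : E v 0 (k ^ 2 + 10 * k + 5) := by
      have h4 : G v 1 (k ^ 2 + 10 * k) :=
        ((hs.pow 2).g (by push_cast; omega)).add ((i10.mul (hs.g le_rfl)).mono (by omega))
      exact E.add' h4 u5 (by norm_num)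
    have hj0 : j ≠ 0 := by
      rintro rfl
      apply (h1.pow 3).ne_zero
      rw [← hj, zero_mul]
    obtain ⟨n, hn⟩ := exists_E (v := v) hj0
    have h2 := (hn.mul hs).unique ((h1.pow 3).congr rfl hj.symm)
    push_cast at h2
    exact one_lt_of_E hn (by omega)

/-- `X₀(7)` at a prime of norm 3 -/
theorem b7_three {j t : F} (ht : t ≠ 0)
    (hj : j * t = (t ^ 2 + 13 * t + 49) * (t ^ 2 + 5 * t + 1) ^ 3) :
    1 < v j ∨ G v 1 j := by
  have u49 : E v 0 (49 : F) := (e0_int3 h3 (n := 49) (by norm_num)).congr rfl (by norm_num)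
  have i13 : G v 0 (13 : F) := G.ofNat 13
  have i5 : G v 0 (5 : F) := G.ofNat 5
  have fin : ∀ {a b s : ℤ}, E v a (t ^ 2 + 13 * t + 49) → E v b (t ^ 2 + 5 * t + 1) →
      E v s t → a + 3 * b < s → 1 < v j := by
    intro a b s ha hb hs hab
    have h1 := ha.mul (hb.pow 3)
    rw [← hj] at h1
    have hj0 : j ≠ 0 := by
      rintro rfl
      exact h1.ne_zero (zero_mul t)
    obtain ⟨n, hn⟩ := exists_E (v := v) hj0
    have h2 := (hn.mul hs).unique h1
    push_cast at h2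
    exact one_lt_of_E hn (by omega)
  obtain ⟨s, hs⟩ := exists_E (v := v) ht
  rcases lt_trichotomy s 0 with h | h | h
  · left
    have h1 : E v (2 * s) (t ^ 2 + 13 * t + 49) :=
      (((hs.pow 2).congr (by norm_num) rfl).add ((i13.mul (hs.g le_rfl)).mono le_rfl)
        (by omega)).add (u49.g le_rfl) (by omega)
    have h2 : E v (2 * s) (t ^ 2 + 5 * t + 1) :=
      (((hs.pow 2).congr (by norm_num) rfl).add ((i5.mul (hs.g le_rfl)).mono le_rfl)
        (by omega)).add (E.one.g le_rfl) (by omega)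
    exact fin h1 h2 hs (by omega)
  · right
    subst h
    have it : G v 0 t := hs.g le_rfl
    apply of_unit_mul hs
    rw [mul_comm, hj]
    have key : ∀ x : F, Cg v t x → Cg v ((t ^ 2 + 13 * t + 49) * (t ^ 2 + 5 * t + 1) ^ 3)
        ((x ^ 2 + 13 * x + 49) * (x ^ 2 + 5 * x + 1) ^ 3) := fun x hx =>
      (((hx.pow 2).add ((Cg.ofNat 13).mul hx)).add (Cg.ofNat 49)).mul
        ((((hx.pow 2).add ((Cg.ofNat 5).mul hx)).add Cg.one).pow 3)
    rcases res3 hres it with h0 | h0 | h0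
    · exact absurd (h0.g1 G.zero) (not_G1' hs)
    · exact (key _ h0).g1 ((g1_int3 h3 (21 * 343)).congr le_rfl (by push_cast; ring))
    · exact (key _ h0).g1 ((g1_int3 h3 (-37 * 9)).congr le_rfl (by push_cast; ring))
  · left
    have h1 : E v 0 (t ^ 2 + 13 * t + 49) := by
      have h4 : G v 1 (t ^ 2 + 13 * t) :=
        ((hs.pow 2).g (by push_cast; omega)).add ((i13.mul (hs.g le_rfl)).mono (by omega))
      exact E.add' h4 u49 (by norm_num)
    have h2 : E v 0 (t ^ 2 + 5 * t + 1) := by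
      have h4 : G v 1 (t ^ 2 + 5 * t) :=
        ((hs.pow 2).g (by push_cast; omega)).add ((i5.mul (hs.g le_rfl)).mono (by omega))
      exact E.add' h4 E.one (by norm_num)
    exact fin h1 h2 hs (by omega)

/-- `X(d7)` at a prime of norm 3 -/
theorem d7_three {m y c j : F}
    (hy : 16 * y ^ 2 = -7 * ((2 * m - 5) ^ 4 - 42 * (2 * m - 5) ^ 2 - 7))
    (hc : c = m ^ 3 - 4 * m ^ 2 + 3 * m + 1)
    (hjc : j * c ^ 7 = m * (m + 1) ^ 3 * (m ^ 2 - 5 * m + 1) ^ 3 * (m ^ 2 - 5 * m + 8) ^ 3 *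
      (m ^ 4 - 5 * m ^ 3 + 8 * m ^ 2 - 7 * m + 7) ^ 3) : 1 < v j ∨ G v 1 j := by
  by_cases him : G v 0 m
  · right
    have kc : ∀ x : F, Cg v m x → Cg v c (x ^ 3 - 4 * x ^ 2 + 3 * x + 1) := by
      intro x hx
      rw [hc]
      exact (((hx.pow 3).sub ((Cg.ofNat 4).mul (hx.pow 2))).add ((Cg.ofNat 3).mul hx)).add Cg.one
    have kn : ∀ x : F, Cg v m x → Cg v (m * (m + 1) ^ 3 * (m ^ 2 - 5 * m + 1) ^ 3 *
        (m ^ 2 - 5 * m + 8) ^ 3 * (m ^ 4 - 5 * m ^ 3 + 8 * m ^ 2 - 7 * m + 7) ^ 3)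
        (x * (x + 1) ^ 3 * (x ^ 2 - 5 * x + 1) ^ 3 *
        (x ^ 2 - 5 * x + 8) ^ 3 * (x ^ 4 - 5 * x ^ 3 + 8 * x ^ 2 - 7 * x + 7) ^ 3) := by
      intro x hx
      have a1 := (hx.add Cg.one).pow 3
      have a2 := (((hx.pow 2).sub ((Cg.ofNat 5).mul hx)).add Cg.one).pow 3
      have a3 := (((hx.pow 2).sub ((Cg.ofNat 5).mul hx)).add (Cg.ofNat 8)).pow 3
      have a4 := (((((hx.pow 4).sub ((Cg.ofNat 5).mul (hx.pow 3))).add
        ((Cg.ofNat 8).mul (hx.pow 2))).sub ((Cg.ofNat 7).mul hx)).add (Cg.ofNat 7)).pow 3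
      exact (((hx.mul a1).mul a2).mul a3).mul a4
    have fin : ∀ x : F, Cg v m x → E v 0 (x ^ 3 - 4 * x ^ 2 + 3 * x + 1) →
        G v 1 (x * (x + 1) ^ 3 * (x ^ 2 - 5 * x + 1) ^ 3 *
        (x ^ 2 - 5 * x + 8) ^ 3 * (x ^ 4 - 5 * x ^ 3 + 8 * x ^ 2 - 7 * x + 7) ^ 3) →
        G v 1 j := by
      intro x hx h1 h2
      have uc : E v 0 (c ^ 7) := (((kc x hx).e0 h1).pow 7).congr (by norm_num) rfl
      apply of_unit_mul uc
      rw [mul_comm, hjc]
      exact (kn x hx).g1 h2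
    rcases res3 hres him with h0 | h0 | h0
    · exact fin _ h0 (E.one.congr rfl (by ring)) (G.zero.congr le_rfl (by ring))
    · exact fin _ h0 (E.one.congr rfl (by ring))
        ((g1_int3 h3 (-72 * 64 * 64)).congr le_rfl (by push_cast; ring))
    · exact fin _ h0 ((e0_int3 h3 (n := -7) (by norm_num)).congr rfl (by push_cast; ring))
        (G.zero.congr le_rfl (by ring))
  · exfalso
    have hm0 : m ≠ 0 := by
      rintro rfl
      exact him G.zero
    obtain ⟨s, hs⟩ := exists_E (v := v) hm0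
    have hs0 : s < 0 := by
      by_contra h
      exact him (hs.g (by omega))
    have hi := inv_E hs
    have g1 : G v 1 m⁻¹ := hi.g (by omega)
    have im : G v 0 m⁻¹ := g1.mono (by norm_num)
    -- `(y / m ^ 2) ^ 2 = -7 (1 - 10 / m + ...)`
    have e1 : (y * (m⁻¹) ^ 2) ^ 2 + 1 = m⁻¹ * (7 * (10 - 27 * m⁻¹ + 10 * (m⁻¹) ^ 2 +
        27 * (m⁻¹) ^ 3)) + 3 * (-2) := by
      have e2 : y ^ 2 = -7 * (m ^ 4 - 10 * m ^ 3 + 27 * m ^ 2 - 10 * m - 27) := by
        have h16 : (16 : F) ≠ 0 := by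
          have : E v 0 (16 : F) := (e0_int3 h3 (n := 16) (by norm_num)).congr rfl (by norm_num)
          exact this.ne_zero
        apply mul_left_cancel₀ h16
        linear_combination hy
      rw [mul_pow, e2]
      field_simp
      ring
    have i1 : G v 0 (7 * (10 - 27 * m⁻¹ + 10 * (m⁻¹) ^ 2 + 27 * (m⁻¹) ^ 3)) :=
      i0mul (G.ofNat 7) ((((G.ofNat 10).sub (i0mul (G.ofNat 27) im)).add
        (i0mul (G.ofNat 10) (i0pow im 2))).add (i0mul (G.ofNat 27) (i0pow im 3)))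
    have g2 : G v 1 ((y * (m⁻¹) ^ 2) ^ 2 + 1) := by
      rw [e1]
      exact (i1mul g1 i1).add (i1mul h3 (G.ofNat 2).neg)
    have iz : G v 0 (y * (m⁻¹) ^ 2) := by
      by_contra hcon
      have hz : y * (m⁻¹) ^ 2 ≠ 0 := by
        intro h
        rw [h] at hcon
        exact hcon G.zero
      obtain ⟨n, hn⟩ := exists_E (v := v) hz
      have hn0 : n < 0 := by
        by_contra h
        exact hcon (hn.g (by omega))
      have h5 : E v (2 * n) ((y * (m⁻¹) ^ 2) ^ 2 + 1) :=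
        ((hn.pow 2).congr (by norm_num) rfl).add (E.one.g le_rfl) (by omega)
      have := h5.le g2
      omega
    exact nosq3 h3 hres iz g2

/-- `X(e7)` at a prime of norm 3 -/
theorem e7_three {τ y c j : F}
    (hy : y ^ 2 = 7 * (2 * τ ^ 4 - 14 * τ ^ 3 + 21 * τ ^ 2 + 28 * τ + 7))
    (hc : c = τ ^ 3 - 7 * τ ^ 2 + 7 * τ + 7)
    (hjc : j * c ^ 7 = 64 * (τ * (τ ^ 2 + 7) * (τ ^ 2 - 7 * τ + 14) *
      (5 * τ ^ 2 - 14 * τ - 7)) ^ 3) : 1 < v j ∨ G v 1 j := by
  -- squares cannot be congruent to -1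
  have hsq : ∀ z : F, ¬ G v 1 (z ^ 2 + 1) := by
    intro z hz
    have iz : G v 0 z := by
      by_contra hcon
      have hz0 : z ≠ 0 := by
        rintro rfl
        exact hcon G.zero
      obtain ⟨n, hn⟩ := exists_E (v := v) hz0
      have hn0 : n < 0 := by
        by_contra h
        exact hcon (hn.g (by omega))
      have h5 : E v (2 * n) (z ^ 2 + 1) :=
        ((hn.pow 2).congr (by norm_num) rfl).add (E.one.g le_rfl) (by omega)
      have := h5.le hz
      omega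
    exact nosq3 h3 hres iz hz
  by_cases him : G v 0 τ
  · have kc : ∀ x : F, Cg v τ x → Cg v c (x ^ 3 - 7 * x ^ 2 + 7 * x + 7) := by
      intro x hx
      rw [hc]
      exact (((hx.pow 3).sub ((Cg.ofNat 7).mul (hx.pow 2))).add
        ((Cg.ofNat 7).mul hx)).add (Cg.ofNat 7)
    have kn : ∀ x : F, Cg v τ x → Cg v (64 * (τ * (τ ^ 2 + 7) * (τ ^ 2 - 7 * τ + 14) *
        (5 * τ ^ 2 - 14 * τ - 7)) ^ 3) (64 * (x * (x ^ 2 + 7) * (x ^ 2 - 7 * x + 14) *
        (5 * x ^ 2 - 14 * x - 7)) ^ 3) := by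
      intro x hx
      have a1 := (hx.pow 2).add (Cg.ofNat 7)
      have a2 := ((hx.pow 2).sub ((Cg.ofNat 7).mul hx)).add (Cg.ofNat 14)
      have a3 := (((Cg.ofNat 5).mul (hx.pow 2)).sub ((Cg.ofNat 14).mul hx)).sub (Cg.ofNat 7)
      exact (Cg.ofNat 64).mul ((((hx.mul a1).mul a2).mul a3).pow 3)
    have fin : ∀ x : F, Cg v τ x → E v 0 (x ^ 3 - 7 * x ^ 2 + 7 * x + 7) →
        G v 1 (64 * (x * (x ^ 2 + 7) * (x ^ 2 - 7 * x + 14) *
        (5 * x ^ 2 - 14 * x - 7)) ^ 3) → G v 1 j := by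
      intro x hx h1 h2
      have uc : E v 0 (c ^ 7) := (((kc x hx).e0 h1).pow 7).congr (by norm_num) rfl
      apply of_unit_mul uc
      rw [mul_comm, hjc]
      exact (kn x hx).g1 h2
    rcases res3 hres him with h0 | h0 | h0
    · right
      exact fin _ h0 ((e0_int3 h3 (n := 7) (by norm_num)).congr rfl (by push_cast; ring))
        (G.zero.congr le_rfl (by ring))
    · exfalso
      apply hsq y
      have h5 : Cg v (y ^ 2 + 1) (7 * (2 * 1 ^ 4 - 14 * 1 ^ 3 + 21 * 1 ^ 2 + 28 * 1 + 7) + 1) := by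
        rw [hy]
        exact ((Cg.ofNat 7).mul ((((((Cg.ofNat 2).mul (h0.pow 4)).sub
          ((Cg.ofNat 14).mul (h0.pow 3))).add ((Cg.ofNat 21).mul (h0.pow 2))).add
          ((Cg.ofNat 28).mul h0)).add (Cg.ofNat 7))).add Cg.one
      exact h5.g1 ((g1_int3 h3 103).congr le_rfl (by push_cast; ring))
    · right
      refine fin _ h0 ((e0_int3 h3 (n := -8) (by norm_num)).congr rfl (by push_cast; ring)) ?_
      exact (g1_int3 h3 (-64 * 8 ^ 3 * 22 ^ 3 * 12 ^ 2 * 4)).congr le_rfl (by push_cast; ring)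
  · exfalso
    have hm0 : τ ≠ 0 := by
      rintro rfl
      exact him G.zero
    obtain ⟨s, hs⟩ := exists_E (v := v) hm0
    have hs0 : s < 0 := by
      by_contra h
      exact him (hs.g (by omega))
    have hi := inv_E hs
    have g1 : G v 1 τ⁻¹ := hi.g (by omega)
    have im : G v 0 τ⁻¹ := g1.mono (by norm_num)
    have e1 : (y * (τ⁻¹) ^ 2) ^ 2 + 1 = τ⁻¹ * (7 * (-14 + 21 * τ⁻¹ + 28 * (τ⁻¹) ^ 2 +
        7 * (τ⁻¹) ^ 3)) + 3 * 5 := by
      rw [mul_pow, hy]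
      field_simp
      ring
    have i1 : G v 0 (7 * (-14 + 21 * τ⁻¹ + 28 * (τ⁻¹) ^ 2 + 7 * (τ⁻¹) ^ 3)) :=
      i0mul (G.ofNat 7) ((((G.ofNat 14).neg.add (i0mul (G.ofNat 21) im)).add
        (i0mul (G.ofNat 28) (i0pow im 2))).add (i0mul (G.ofNat 7) (i0pow im 3)))
    apply hsq (y * (τ⁻¹) ^ 2)
    rw [e1]
    exact (i1mul g1 i1).add (i1mul h3 (G.ofNat 5))

end Pool.Agent.L9
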