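import Pool.Agent.L9.TwoB
import Pool.Agent.H23T.Main1

/-! # The function on `15a1` at the places above two (helper55, for helper9) -/

set_option autoImplicit false
set_option linter.unusedVariables false

namespace Pool.Agent.L9

open Pool.Agent.H23T WithZero

variable {F : Type*} [Field F] {v : Valuation F ℤᵐ⁰}

/-- `j` has a pole when `h` is not a unit -/
lemma t1_j_pole (h2 : G v 1 (2 : F)) {h j : F} (hh : h ≠ 0) (hJ : j * h = (h ^ 2 + 10 * h + 5) ^ 3)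
    (h0 : ¬ E v 0 h) : 1 < v j := by
  obtain ⟨n, hn⟩ := exists_E (v := v) hh
  have hn0 : n ≠ 0 := by rintro rfl; exact h0 hn
  have h5 := five_unit h2
  obtain ⟨k, hk, hkE⟩ : ∃ k : ℤ, 3 * k < n ∧ E v k (h ^ 2 + 10 * h + 5) := by
    rcases lt_or_gt_of_ne hn0 with h' | h'
    · refine ⟨2 * n, by omega, ?_⟩
      have h6 : E v (2 * n) (h ^ 2) := (hn.pow 2).congr (by norm_num) rfl
      have h3 : G v n (10 * h) := (ten_int.mul (hn.g le_rfl)).congr (by norm_num) rfl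
      exact (h6.add (h3.add (h5.g (m := n) (by omega))) (by omega)).congr rfl (by ring)
    · refine ⟨0, by omega, ?_⟩
      have h6 : G v 1 (h ^ 2) := ((hn.pow 2).g (m := 1) (by push_cast; omega))
      have h3 : G v 1 (10 * h) := (ten_int.mul (hn.g (m := 1) (by omega))).mono (by norm_num)
      exact E.add' (h6.add h3) h5 (by norm_num)
  have hkE3 : E v (3 * k) ((h ^ 2 + 10 * h + 5) ^ 3) := (hkE.pow 3).congr (by norm_num) rfl
  have hj0 : j ≠ 0 := by
    rintro rfl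
    rw [zero_mul] at hJ
    rw [← hJ] at hkE3
    exact hkE3.ne_zero rfl
  obtain ⟨l, hl⟩ := exists_E (v := v) hj0
  have h8 := hl.mul hn
  rw [hJ] at h8
  have h9 := h8.unique hkE3
  have h10 : l < 0 := by omega
  rw [← not_le]
  intro hle
  have h11 : G v 0 j := G_iff_one.mpr hle
  have := hl.le h11
  omega

/-- the curve `15a1` in minimal form -/
structure Min1 (X Y h : F) : Prop where
  curve : Y ^ 2 + X * Y + Y - (X ^ 3 + X ^ 2 - 10 * X - 10) = 0
  U : X + 1 ≠ 0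
  D : h * (2 * ((X + 1) * (X + 4)) + X * Y) = -(125 * (X + 1))

lemma t1_exists_min [CharZero F] {x y h j : F} (hxy : y ^ 2 = (x + 102) * (x + 21) * (x - 123))
    (f : Fun1 x y h j) : ∃ X Y : F, Min1 X Y h := by
  have hX : (36 : F) ≠ 0 := by norm_num
  refine ⟨(x - 15) / 36, (y / 108 - (x - 15) / 36 - 1) / 2, ?_, ?_, ?_⟩
  · linear_combination (1 / 46656) * hxy
  · have e : (x - 15) / 36 + 1 = (x + 21) / 36 := by ring
    rw [e]
    exact div_ne_zero f.x21 hX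
  · linear_combination (1 / 7776) * f.D

/-- a pole of `X` is a zero of `h` -/
lemma t1_h_of_pole (h2 : G v 1 (2 : F)) {X Y h : F} (f : Min1 X Y h) (hX : ¬ G v 0 X) :
    ¬ E v 0 h := by
  intro hh
  have hX0 : X ≠ 0 := by rintro rfl; exact hX G.zero
  obtain ⟨a, ha⟩ := exists_E (v := v) hX0
  have ha0 : a < 0 := by
    by_contra h'
    exact hX (ha.g (by omega))
  have hone : E v 0 (1 : F) := E.one
  have hU : E v a (X + 1) := ha.add (hone.g le_rfl) (by omega)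
  have hU4 : E v a (X + 4) := ha.add (G.ofNat 4) (by omega)
  have h125 : E v 0 (125 : F) :=
    ((five_unit h2).pow 3).congr (by norm_num) (by norm_num)
  -- the right hand side of the equation
  have hR : E v (3 * a) (X ^ 3 + X ^ 2 - 10 * X - 10) := by
    have h3 : E v (3 * a) (X ^ 3) := (ha.pow 3).congr (by norm_num) rfl
    have h4 : G v (2 * a) (X ^ 2) := ((ha.pow 2).g le_rfl).congr (by norm_num) rfl
    have h5 : G v (2 * a) (10 * X) := (ten_int.mul (ha.g le_rfl)).mono (by omega)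
    have h6 : G v (2 * a) (10 : F) := ten_int.mono (by omega)
    exact (h3.add ((h4.sub h5).sub h6) (by omega)).congr rfl (by ring)
  have hc : Y * (Y + (X + 1)) = X ^ 3 + X ^ 2 - 10 * X - 10 := by linear_combination f.curve
  have hY0 : Y ≠ 0 := by
    rintro rfl
    rw [zero_mul] at hc
    rw [← hc] at hR
    exact hR.ne_zero rfl
  obtain ⟨b, hb⟩ := exists_E (v := v) hY0
  have hba : b < a := by
    by_contra hcon
    have h3 : G v a (Y + (X + 1)) := (hb.g (by omega)).add (hU.g le_rfl)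
    have h4 : G v (a + a) (Y * (Y + (X + 1))) := (hb.g (by omega)).mul h3
    rw [hc] at h4
    have := hR.le h4
    omega
  have h3 : E v (b + b) (Y * (Y + (X + 1))) := hb.mul (hb.add (hU.g le_rfl) hba)
  rw [hc] at h3
  have h4 : b + b = 3 * a := h3.unique hR
  have h5 : G v (2 * a + 1) (2 * ((X + 1) * (X + 4))) :=
    (h2.mul ((hU.mul hU4).g le_rfl)).mono (by omega)
  have h6 : E v (a + b) (2 * ((X + 1) * (X + 4)) + X * Y) :=
    ((ha.mul hb).add h5 (by omega)).congr rfl (by ring)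
  have h7 := hh.mul h6
  rw [f.D] at h7
  have h8 : E v (0 + a) (-(125 * (X + 1))) := (h125.mul hU).neg
  have := h7.unique h8
  omega

lemma t1_Y_int {X Y h : F} (f : Min1 X Y h) (hX : G v 0 X) : G v 0 Y := by
  by_contra hs
  have hs0 : Y ≠ 0 := by rintro rfl; exact hs G.zero
  obtain ⟨k, hk⟩ := exists_E (v := v) hs0
  have hk0 : k < 0 := by
    by_contra hk0
    exact hs (hk.g (by omega))
  have hone : G v 0 (1 : F) := E.one.g le_rfl
  have h1 : G v 0 (X + 1) := hX.add hone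
  have h2 : G v 0 (X ^ 3 + X ^ 2 - 10 * X - 10) :=
    (((G0pow hX 3).add (G0pow hX 2)).sub (G0mul ten_int hX)).sub ten_int
  have h3 : G v k ((X + 1) * Y) := (h1.mul (hk.g le_rfl)).mono (by omega)
  have h4 : E v (2 * k) (Y ^ 2) := (hk.pow 2).congr (by norm_num) rfl
  have h5 := h4.add (h3.sub (h2.mono (m := k) (by omega))) (by omega)
  refine h5.ne_zero ?_
  linear_combination f.curve

/-- at `X = 1` (mod `v`) `h` has a zero -/
lemma t1_h_of_one (h2 : G v 1 (2 : F)) {X Y h : F} (f : Min1 X Y h) (hX : G v 0 X)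
    (hU : G v 1 (X + 1)) : ¬ E v 0 h := by
  intro hh
  have hY := t1_Y_int f hX
  obtain ⟨U, hUd⟩ : ∃ U, U = X + 1 := ⟨_, rfl⟩
  have hX' : X = U - 1 := by rw [hUd]; ring
  have hc : U * (-9 + (U ^ 2 - 2 * U - Y)) = Y ^ 2 := by
    have := f.curve
    rw [hX'] at this
    linear_combination -this
  rw [← hUd] at hU
  have hUne : U ≠ 0 := by rw [hUd]; exact f.U
  have hU0 : G v 0 U := hU.mono (by norm_num)
  have hone : G v 0 (1 : F) := E.one.g le_rfl
  have hY1 : G v 1 Y := by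
    rcases G.cases hY with h' | h'
    · exfalso
      have h3 : G v 1 (Y ^ 2) := by
        rw [← hc, mul_comm]
        refine G1mul ?_ hU
        exact (G.ofNat 9).neg.add (((G0pow hU0 2).sub (G0mul (G.ofNat 2) hU0)).sub hY)
      exact not_G1 ((h'.pow 2).congr (by norm_num) rfl) h3
    · exact h'
  have h9 : E v 0 (-9 + (U ^ 2 - 2 * U - Y)) := by
    have h3 : E v 0 (9 : F) := by
      have h := E.int (v := v) (p := 2) (by exact_mod_cast h2) (n := 9) (by norm_num)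
      exact_mod_cast h
    refine h3.neg.add (m := 1) ?_ (by norm_num)
    refine (G.sub ?_ (G1mul (G.ofNat 2) hU)).sub hY1
    exact (G1mul hU0 hU).congr le_rfl (by ring)
  obtain ⟨n, hn⟩ := exists_E (v := v) hUne
  have h3 := hn.mul h9
  rw [hc] at h3
  have hYne : Y ≠ 0 := by
    rintro rfl
    rw [zero_pow two_ne_zero] at h3
    exact h3.ne_zero rfl
  obtain ⟨k, hk⟩ := exists_E (v := v) hYne
  have hk1 : 1 ≤ k := hk.le hY1
  have h4 : n + 0 = 2 * k := h3.unique ((hk.pow 2).congr (by norm_num) rfl)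
  have hXu : E v 0 X := by
    rw [hX']
    exact ((E.one.neg).add hU (by norm_num)).congr rfl (by ring)
  have h5 : E v (0 + k) (2 * ((X + 1) * (X + 4)) + X * Y) := by
    have h6 : G v (1 + (n + 0)) (2 * ((X + 1) * (X + 4))) := by
      refine h2.mul (G.mul ?_ (hX.add (G.ofNat 4)))
      rw [← hUd]
      exact hn.g le_rfl
    exact ((hXu.mul hk).add h6 (by omega)).congr rfl (by ring)
  have h7 := hh.mul h5
  rw [f.D] at h7
  have h125 : E v 0 (125 : F) :=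
    ((five_unit h2).pow 3).congr (by norm_num) (by norm_num)
  have h8 : E v (0 + n) (-(125 * (X + 1))) := by
    rw [← hUd]
    exact (h125.mul hn).neg
  have := h7.unique h8
  omega

/-- at `X = 0` (mod `v`) `h` has a pole -/
lemma t1_h_of_zero (h2 : G v 1 (2 : F)) {X Y h : F} (f : Min1 X Y h) (hX : G v 1 X) :
    ¬ E v 0 h := by
  intro hh
  have hX0 : G v 0 X := hX.mono (by norm_num)
  have hY := t1_Y_int f hX0
  have hone : G v 0 (1 : F) := E.one.g le_rfl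
  have hU : E v 0 (X + 1) := E.add' hX E.one (by norm_num)
  have h125 : E v 0 (125 : F) :=
    ((five_unit h2).pow 3).congr (by norm_num) (by norm_num)
  have h3 : G v 1 (2 * ((X + 1) * (X + 4)) + X * Y) := by
    refine G.add ?_ ?_
    · rw [mul_comm]
      exact G1mul (G0mul (hX0.add hone) (hX0.add (G.ofNat 4))) h2
    · rw [mul_comm]
      exact G1mul hY hX
  have h4 : G v 1 (h * (2 * ((X + 1) * (X + 4)) + X * Y)) := G1mul (hh.g le_rfl) h3
  rw [f.D] at h4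
  exact not_G1 ((h125.mul hU).neg.congr (m := 0) (by norm_num) rfl) h4

theorem fun1_two [CharZero F] (h2 : G v 1 (2 : F)) (hres : ∀ z : F, G v 0 z → G v 1 (z ^ 8 - z))
    {x y h j : F} (hxy : y ^ 2 = (x + 102) * (x + 21) * (x - 123)) (f : Fun1 x y h j) :
    1 < v j := by
  refine t1_j_pole h2 f.h0 f.J ?_
  obtain ⟨X, Y, g⟩ := t1_exists_min hxy f
  by_cases hX : G v 0 X
  swap
  · exact t1_h_of_pole h2 g hX
  have hY := t1_Y_int g hX
  have hX8 := hres X hX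
  have hY8 := hres Y hY
  have hone : G v 0 (1 : F) := E.one.g le_rfl
  have hc := g.curve
  have hprod : G v 1 (X * (X + 1)) := by
    have key : X * (X + 1) = (X ^ 10 + X ^ 9 + X ^ 7 + X ^ 5 * Y + X ^ 4 + X ^ 3 * Y + X ^ 3 + X ^ 2 + X * Y + Y + 1) * (X ^ 8 - X) + (X ^ 6 + X ^ 5 + X ^ 4 + X ^ 3 + X ^ 2 + 1) * (Y ^ 8 - Y) + ((-1) * X ^ 18 + (-6) * X ^ 17 + 2 * X ^ 16 * Y + (-6) * X ^ 16 + 15 * X ^ 15 * Y + 116 * X ^ 15 + (-5) * X ^ 14 * Y + 365 * X ^ 14 + (-269) * X ^ 13 * Y + (-525) * X ^ 13 + (-458) * X ^ 12 * Y + (-3424) * X ^ 12 + 1115 * X ^ 11 * Y + (-2605) * X ^ 11 + 3762 * X ^ 10 * Y + 7229 * X ^ 10 + 2128 * X ^ 9 * Y + 16075 * X ^ 9 + (-4578) * X ^ 8 * Y + 14596 * X ^ 8 + (-10308) * X ^ 7 * Y + 9895 * X ^ 7 + (-13338) * X ^ 6 * Y + 4815 * X ^ 6 + (-14231) * X ^ 5 * Y + (-1411) * X ^ 5 + (-11484) * X ^ 4 * Y + (-1253) * X ^ 4 + (-8870) * X ^ 3 * Y + 262 * X ^ 3 + (-8465) * X ^ 2 * Y + (-4740) * X ^ 2 +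 (-5676) * X * Y + (-6464) * X + (-1529) * Y + (-2245)) * 2 := by
      linear_combination ((-1) * X ^ 15 + (-10) * X ^ 14 + 3 * X ^ 13 * Y + (-12) * X ^ 13 + (-1) * X ^ 12 * Y ^ 2 + 16 * X ^ 12 * Y + 135 * X ^ 12 + (-6) * X ^ 11 * Y ^ 2 + (-18) * X ^ 11 * Y + 375 * X ^ 11 + 2 * X ^ 10 * Y ^ 3 + 3 * X ^ 10 * Y ^ 2 + (-206) * X ^ 10 * Y + (-195) * X ^ 10 + (-1) * X ^ 9 * Y ^ 4 + 7 * X ^ 9 * Y ^ 3 + 60 * X ^ 9 * Y ^ 2 + (-220) * X ^ 9 * Y + (-1552) * X ^ 9 + (-3) * X ^ 8 * Y ^ 4 + (-8) * X ^ 8 * Y ^ 3 + 61 * X ^ 8 * Y ^ 2 + 391 * X ^ 8 * Y + (-1858) * X ^ 8 + X ^ 7 * Y ^ 5 + 5 * X ^ 7 * Y ^ 4 + (-45) * X ^ 7 * Y ^ 3 + (-52) * X ^ 7 * Y ^ 2 + 1126 * X ^ 7 * Y + (-1154) * X ^ 7 + (-1) * X ^ 6 * Y ^ 6 + 2 * X ^ 6 * Y ^ 5 + 14 * X ^ 6 * Y ^ 4 + (-64) * X ^ 6 * Y ^ 3 + (-119) * X ^ 6 * Y ^ 2 + 1431 * X ^ 6 * Y + (-796) * X ^ 6 + (-1) * X ^ 5 * Y ^ 6 + 2 * X ^ 5 * Y ^ 5 + 14 * X ^ 5 * Y ^ 4 + (-66) * X ^ 5 * Y ^ 3 + (-132)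 * X ^ 5 * Y ^ 2 + 1572 * X ^ 5 * Y + (-132) * X ^ 5 + (-1) * X ^ 4 * Y ^ 6 + 2 * X ^ 4 * Y ^ 5 + 15 * X ^ 4 * Y ^ 4 + (-69) * X ^ 4 * Y ^ 3 + (-175) * X ^ 4 * Y ^ 2 + 1432 * X ^ 4 * Y + 422 * X ^ 4 + (-1) * X ^ 3 * Y ^ 6 + 2 * X ^ 3 * Y ^ 5 + 16 * X ^ 3 * Y ^ 4 + (-51) * X ^ 3 * Y ^ 3 + (-128) * X ^ 3 * Y ^ 2 + 992 * X ^ 3 * Y + (-72) * X ^ 3 + (-1) * X ^ 2 * Y ^ 6 + X ^ 2 * Y ^ 5 + 7 * X ^ 2 * Y ^ 4 + (-34) * X ^ 2 * Y ^ 3 + (-70) * X ^ 2 * Y ^ 2 + 875 * X ^ 2 * Y + 149 * X ^ 2 + X * Y ^ 5 + 8 * X * Y ^ 4 + (-37) * X * Y ^ 3 + (-114) * X * Y ^ 2 + 745 * X * Y + 844 * X + (-1) * Y ^ 6 + Y ^ 5 + 9 * Y ^ 4 + (-19) * Y ^ 3 + (-71) * Y ^ 2 + 261 * Y + 449) * hc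
    rw [key]
    refine ((G1mul ?_ hX8).add (G1mul ?_ hY8)).add (G1mul ?_ h2)
    all_goals
      repeat' first
        | assumption
        | exact G.ofNat _
        | apply G.add
        | apply G.neg
        | apply G0mul
        | apply G0pow
  rcases G.cases hX with h' | h'
  · rcases G.cases (v := v) (x := X + 1) (hX.add hone) with h'' | h''
    · exact absurd hprod (not_G1 ((h'.mul h'').congr (by norm_num) rfl))
    · exact t1_h_of_one h2 g hX h''
  · exact t1_h_of_zero h2 g h'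

theorem fun1_odd [CharZero F] (h2 : G v 1 (2 : F)) (hres : ∀ z : F, ¬ G v 1 (z ^ 2 + z + 1))
    {x y h j : F} (hxy : y ^ 2 = (x + 102) * (x + 21) * (x - 123)) (f : Fun1 x y h j) :
    1 ≤ v j := by
  by_cases hh : E v 0 h
  swap
  · exact (t1_j_pole h2 f.h0 f.J hh).le
  by_contra hj
  have hj1 : G v 1 j := by
    by_cases h0 : j = 0
    · rw [h0]; exact G.zero
    obtain ⟨k, hk⟩ := exists_E (v := v) h0
    exact hk.g ((lt_one_of_E hk).mp (not_le.mp hj))
  have hhG : G v 0 h := hh.g le_rfl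
  have hone : G v 0 (1 : F) := E.one.g le_rfl
  obtain ⟨X, Y, g⟩ := t1_exists_min hxy f
  by_cases hX : G v 0 X
  swap
  · exact t1_h_of_pole h2 g hX hh
  have hY := t1_Y_int g hX
  -- `h = 1` mod `v`
  have h5 : G v 1 (h ^ 2 + 10 * h + 5) := by
    rcases G.cases (v := v) (x := h ^ 2 + 10 * h + 5)
      (((G0pow hhG 2).add (G0mul ten_int hhG)).add (G.ofNat 5)) with h' | h'
    · exfalso
      have h3 : G v 1 ((h ^ 2 + 10 * h + 5) ^ 3) := by
        rw [← f.J, mul_comm]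
        exact G1mul hhG hj1
      exact not_G1 ((h'.pow 3).congr (by norm_num) rfl) h3
    · exact h'
  have h6 : G v 1 (h + 1) := by
    rcases G.cases (v := v) (x := h + 1) (hhG.add hone) with h' | h'
    · exfalso
      refine not_G1 ((h'.pow 2).congr (m := 0) (by norm_num) rfl) ?_
      have e : (h + 1) ^ 2 = (h ^ 2 + 10 * h + 5) + (-(4 * h + 2)) * 2 := by ring
      rw [e]
      exact h5.add (G1mul (((G0mul (G.ofNat 4) hhG).add (G.ofNat 2)).neg) h2)
    · exact h'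
  -- `X Y = X + 1` mod `v`
  have h7 : G v 1 (X * Y + (X + 1)) := by
    have e : X * Y + (X + 1) =
        (2 * ((X + 1) * (X + 4)) + X * Y) * (h + 1)
          + (-((X + 1) * (X + 4)) + 63 * (X + 1)) * 2 := by
      linear_combination (-1 : F) * g.D
    rw [e]
    refine (G1mul ?_ h6).add (G1mul ?_ h2)
    all_goals
      repeat' first
        | assumption
        | exact G.ofNat _
        | apply G.add
        | apply G.neg
        | apply G0mul
        | apply G0pow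
  have h8 : G v 1 ((X + 1) * (X ^ 2 + X + 1) ^ 2) := by
    have e : (X + 1) * (X ^ 2 + X + 1) ^ 2 = (X * Y + X ^ 2 + (-1)) * (X * Y + (X + 1)) + (X ^ 4 + 7 * X ^ 3 + 7 * X ^ 2 + 2 * X + 1) * 2 := by
      linear_combination (-(X ^ 2)) * g.curve
    rw [e]
    refine (G1mul ?_ h7).add (G1mul ?_ h2)
    all_goals
      repeat' first
        | assumption
        | exact G.ofNat _
        | apply G.add
        | apply G.neg
        | apply G0mul
        | apply G0pow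
  rcases G.cases (v := v) (x := X + 1) (hX.add hone) with h' | h'
  · rcases G.cases (v := v) (x := X ^ 2 + X + 1) (((G0pow hX 2).add hX).add hone) with h'' | h''
    · refine not_G1 (((h'.mul (h''.pow 2))).congr (m := 0) (by norm_num) rfl) h8
    · exact hres X h''
  · exact t1_h_of_one h2 g hX h' hh

end Pool.Agent.L9
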