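import Pool.Agent.L9.Final
import Pool.Agent.L9.Norm3
import Pool.Agent.L9.TwoA
import Pool.Agent.L9.TwoB

/-! # The theorem at the places above two (helper42, for helper9) -/

set_option autoImplicit false

namespace Pool.Agent.L9

open NumberField WeierstrassCurve WeierstrassCurve.Affine IsDedekindDomain WithZero
  Pool.Agent.H42M Pool.Agent.M7 Pool.Agent.H23T

section global_

variable {F : Type*} [Field F] [NumberField F]

/-- a prime whose norm is a power of 2 contains 2 -/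
lemma two_mem {P : HeightOneSpectrum (𝓞 F)} {k : ℕ} (hN : Ideal.absNorm P.asIdeal = 2 ^ k) :
    (2 : 𝓞 F) ∈ P.asIdeal := by
  have h2 := Ideal.absNorm_mem P.asIdeal
  rw [hN] at h2
  push_cast at h2
  exact P.isPrime.mem_of_pow_mem k h2

lemma G_two {P : HeightOneSpectrum (𝓞 F)} (h : (2 : 𝓞 F) ∈ P.asIdeal) :
    G (P.valuation F) 1 (2 : F) := by
  have hval : P.valuation F (2 : F) = P.intValuation (2 : 𝓞 F) := by
    have h1 : (2 : F) = algebraMap (𝓞 F) F (2 : 𝓞 F) := (map_ofNat (algebraMap (𝓞 F) F) 2).symm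
    rw [h1]; exact P.valuation_of_algebraMap (K := F) _
  rw [G_one_iff, hval]
  exact (P.intValuation_lt_one_iff_mem _).mpr h

/-- a prime whose norm is an odd power of 2: it contains 2, and there is no primitive third root
of unity modulo it -/
lemma odd_two {P : HeightOneSpectrum (𝓞 F)}
    (h : ∃ k : ℕ, Odd k ∧ Ideal.absNorm P.asIdeal = 2 ^ k) :
    G (P.valuation F) 1 (2 : F) ∧ ∀ z : F, ¬ G (P.valuation F) 1 (z ^ 2 + z + 1) := by
  obtain ⟨k, hk, hN⟩ := h
  have h2 := two_mem hN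
  refine ⟨G_two h2, fun z hz => ?_⟩
  refine res_of_norm (P := P) ?_ ?_ z (G_one_iff.mp hz)
  · intro h3
    apply P.isPrime.ne_top
    rw [Ideal.eq_top_iff_one]
    have := P.asIdeal.sub_mem h3 h2
    have h1 : (3 : 𝓞 F) - 2 = 1 := by norm_num
    rwa [h1] at this
  · rw [hN]
    obtain ⟨m, rfl⟩ := hk
    rw [pow_succ, pow_mul]
    push_cast
    have h4 : (4 : ZMod 3) = 1 := by decide
    simp only [h4, one_pow, one_mul]
    decide

/-- a prime of norm 2 or 8: the residue field satisfies `z ^ 8 = z` -/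
lemma eight_two {P : HeightOneSpectrum (𝓞 F)}
    (h : Ideal.absNorm P.asIdeal = 2 ∨ Ideal.absNorm P.asIdeal = 8) (z : F)
    (hz : G (P.valuation F) 0 z) : G (P.valuation F) 1 (z ^ 8 - z) := by
  classical
  have hz1 : P.valuation F z ≤ 1 := G_iff_one.mp hz
  obtain ⟨a, ha⟩ := P.exists_valuation_sub_lt_of_integer (K := F) hz1 (1 : ℤᵐ⁰ˣ)
  rw [Units.val_one] at ha
  have hmem : a ^ 8 - a ∈ P.asIdeal := by
    have : P.asIdeal.IsMaximal := P.isMaximal
    let _ : Field (𝓞 F ⧸ P.asIdeal) := Ideal.Quotient.field P.asIdeal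
    have : Finite (𝓞 F ⧸ P.asIdeal) := Ideal.finiteQuotientOfFreeOfNeBot P.asIdeal P.ne_bot
    let _ : Fintype (𝓞 F ⧸ P.asIdeal) := Fintype.ofFinite _
    have hcard : Fintype.card (𝓞 F ⧸ P.asIdeal) = Ideal.absNorm P.asIdeal := by
      rw [← Nat.card_eq_fintype_card]
      rfl
    rw [← Ideal.Quotient.eq_zero_iff_mem, map_sub, map_pow, sub_eq_zero]
    have hf := FiniteField.pow_card (Ideal.Quotient.mk P.asIdeal a)
    rw [hcard] at hf
    rcases h with h | h
    · rw [h] at hf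
      rw [show (8 : ℕ) = 2 * 2 * 2 by norm_num, pow_mul, pow_mul, hf, hf, hf]
    · rwa [h] at hf
  have hGa : G (P.valuation F) 1 ((a : F) ^ 8 - a) := by
    rw [G_one_iff]
    rw [← HeightOneSpectrum.intValuation_lt_one_iff_mem, ← P.valuation_of_algebraMap (K := F)]
      at hmem
    have h1 : algebraMap (𝓞 F) F (a ^ 8 - a) = (a : F) ^ 8 - a := by
      rw [map_sub, map_pow]
    rwa [← h1]
  have hG1 : G (P.valuation F) 1 ((a : F) - z) := G_one_iff.mpr ha
  have hG0 : G (P.valuation F) 0 (a : F) := by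
    rw [G_iff_one]; exact P.valuation_le_one a
  have h1 : z ^ 8 - z = ((a : F) ^ 8 - a) + ((a : F) - z) * (1 - (a ^ 7 + a ^ 6 * z + a ^ 5 * z ^ 2 +
      a ^ 4 * z ^ 3 + a ^ 3 * z ^ 4 + a ^ 2 * z ^ 5 + a * z ^ 6 + z ^ 7)) := by ring
  rw [h1]
  refine hGa.add ((hG1.mul (m := 0) ?_).mono (by norm_num))
  refine (E.one.g le_rfl).sub ?_
  repeat' first
    | assumption
    | apply G.add
    | apply G0mul
    | apply G0pow

end global_

open scoped Classical in
/-- the theorem at the places above two -/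
theorem main_two {F : Type*} [Field F] [NumberField F] [IsTotallyReal F]
    (W : WeierstrassCurve F) [W.IsElliptic]
    (h5 : ∃ C : AddSubgroup (W⁄(AlgebraicClosure F)).Point, Nat.card C = 5 ∧
      ∀ σ : AlgebraicClosure F ≃ₐ[F] AlgebraicClosure F,
        C.map (Point.map (W' := W) (σ : AlgebraicClosure F →ₐ[F] AlgebraicClosure F)) = C)
    (hab : ∀ σ τ : AlgebraicClosure F ≃ₐ[F] AlgebraicClosure F,
        (∀ z : AlgebraicClosure F, z ^ 2 = -3 → σ z = z ∧ τ z = z) →
        ∀ R : (W⁄(AlgebraicClosure F)).Point, 3 • R = 0 →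
          Point.map (W' := W) (σ : AlgebraicClosure F →ₐ[F] AlgebraicClosure F)
            (Point.map (W' := W) (τ : AlgebraicClosure F →ₐ[F] AlgebraicClosure F) R) =
          Point.map (W' := W) (τ : AlgebraicClosure F →ₐ[F] AlgebraicClosure F)
            (Point.map (W' := W) (σ : AlgebraicClosure F →ₐ[F] AlgebraicClosure F) R)) :
    (∀ P : HeightOneSpectrum (𝓞 F), (∃ k : ℕ, Odd k ∧ Ideal.absNorm P.asIdeal = 2 ^ k) →
      1 ≤ P.valuation F W.j) ∧
    (∀ P : HeightOneSpectrum (𝓞 F), Ideal.absNorm P.asIdeal = 2 ∨ Ideal.absNorm P.asIdeal = 8 →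
      1 < P.valuation F W.j) := by
  obtain ⟨C₅, hC₅, hst₅⟩ := h5
  obtain ⟨k, hk0, hk⟩ := five_point (K := AlgebraicClosure F) W C₅ hC₅ hst₅
  obtain ⟨φ⟩ := exists_real F
  obtain ⟨c, hcc, hc3, -⟩ := exists_conj7 (K := AlgebraicClosure F) φ
  have hreal : ∀ m : F, m ^ 2 + 12 * m + 144 ≠ 0 := by
    intro m h0
    have h1 := congrArg φ h0
    rw [map_add, map_add, map_mul, map_pow, map_ofNat, map_ofNat, map_zero] at h1
    nlinarith [sq_nonneg (φ m + 6)]
  -- the two cases
  have key : ∀ v : Valuation F ℤᵐ⁰, G v 1 (2 : F) → (∀ z : F, ¬ G v 1 (z ^ 2 + z + 1)) →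
      W.j = -121945 / 32 ∨
      (∃ x y h : F, y ^ 2 = (x + 102) * (x + 21) * (x - 123) ∧ Fun1 x y h W.j) ∨
      ∃ x y r m : F, y ^ 2 = (x - 51) * (x - 42) * (x + 93) ∧ Fun2 x y r m ∧ W.j = m ^ 3 := by
    intro v h2 hres
    have hj0 : W.j ≠ 0 := by
      intro h0
      rw [h0, zero_mul] at hk
      have h1 : k ^ 2 + 10 * k + 5 = 0 := (pow_eq_zero_iff (by norm_num)).mp hk.symm
      apply hres ((k + 3) / 4)
      have h3 : ((k + 3) / 4) ^ 2 + (k + 3) / 4 + 1 = (2 : F) := by linear_combination h1 / 16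
      rwa [h3]
    refine moduli_gen (K := AlgebraicClosure F) hreal c hcc hc3 W hj0 C₅ hC₅ hst₅ ?_
    intro σ τ h R hR
    refine hab σ τ h R ?_
    rw [show (3 : ℕ) • R = R + R + R by abel, hR, neg_add_cancel]
  have hspec : ∀ v : Valuation F ℤᵐ⁰, G v 1 (2 : F) → W.j = -121945 / 32 → 1 < v W.j := by
    intro v h2 hj
    have h1 : W.j * 2 ^ 5 = -121945 := by rw [hj]; norm_num
    have h3 : E v 0 (121945 : F) := by
      have h := E.int (v := v) (p := 2) (by exact_mod_cast h2) (n := 121945) (by norm_num)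
      exact_mod_cast h
    have hj0 : W.j ≠ 0 := by
      intro h0
      rw [h0, zero_mul] at h1
      norm_num at h1
    obtain ⟨n, hn⟩ := exists_E (v := v) hj0
    obtain ⟨l, hl⟩ := exists_E (v := v) (two_ne_zero (α := F))
    have hl1 := hl.le h2
    have h4 := (hn.mul (hl.pow 5)).congr rfl h1
    have h5 := h4.unique h3.neg
    push_cast at h5
    unfold E at hn
    rw [hn, ← exp_zero, exp_lt_exp]
    omega
  refine ⟨fun P hP => ?_, fun P hP => ?_⟩
  · obtain ⟨h2, hres⟩ := odd_two hP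
    rcases key (P.valuation F) h2 hres with h | ⟨x, y, h, hxy, f⟩ | ⟨x, y, r, m, hxy, f, hm⟩
    · exact (hspec _ h2 h).le
    · exact fun1_odd h2 hres hxy f
    · rw [hm, map_pow]
      exact one_le_pow₀ (fun2_odd h2 hres hxy f)
  · have hP' : ∃ k : ℕ, Odd k ∧ Ideal.absNorm P.asIdeal = 2 ^ k := by
      rcases hP with h | h
      · exact ⟨1, odd_one, by rw [h]; norm_num⟩
      · exact ⟨3, by decide, by rw [h]; norm_num⟩
    obtain ⟨h2, hres⟩ := odd_two hP'
    have h8 := eight_two hP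
    rcases key (P.valuation F) h2 hres with h | ⟨x, y, h, hxy, f⟩ | ⟨x, y, r, m, hxy, f, hm⟩
    · exact hspec _ h2 h
    · exact fun1_two h2 h8 hxy f
    · rw [hm, map_pow]
      exact one_lt_pow₀ (fun2_two h2 h8 hxy f) three_ne_zero

end Pool.Agent.L9
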