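import Mathlib
import Pool.Agent.L9.Val

/-! # A model with good reduction away from 3, and the pairs of subgroups of order 3 (helper81) -/

set_option autoImplicit false

namespace Pool.Agent.L9

open WithZero Polynomial

variable {F : Type*} [Field F] {v : Valuation F ℤᵐ⁰}

/-- Gauss: a monic quadratic factor of a monic integral quartic is integral -/
lemma quad_int {U V P Q : F} (h1 : v (P - U) ≤ 1) (h2 : v (Q - U * P + V) ≤ 1)
    (h3 : v (V * P - U * Q) ≤ 1) (h4 : v (V * Q) ≤ 1) : v U ≤ 1 ∧ v V ≤ 1 := by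
  let R := v.valuationSubring
  let g : R[X] := X ^ 4 + C ⟨P - U, h1⟩ * X ^ 3 + C ⟨Q - U * P + V, h2⟩ * X ^ 2 +
    C ⟨V * P - U * Q, h3⟩ * X + C ⟨V * Q, h4⟩
  have hg : g.Monic := by
    unfold g
    monicity!
  let f : F[X] := X ^ 2 - C U * X + C V
  have hf : f.Monic := by
    unfold f
    monicity!
  have hmap : g.map (algebraMap R F) = f * (X ^ 2 + C P * X + C Q) := by
    unfold g f
    simp only [Polynomial.map_add, Polynomial.map_mul, Polynomial.map_pow, map_X, map_C]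
    have e (x : F) (hx : v x ≤ 1) : algebraMap R F ⟨x, hx⟩ = x := rfl
    rw [e, e, e, e]
    simp only [map_sub, map_add, map_mul]
    ring
  have hd : f ∣ g.map (algebraMap R F) := Dvd.intro _ hmap.symm
  obtain ⟨g', hg'⟩ := IsIntegrallyClosed.eq_map_mul_C_of_dvd F hg hd
  rw [hf.leadingCoeff, C_1, mul_one] at hg'
  have hU : f.coeff 1 = -U := by
    unfold f
    simp [coeff_C]
  have hV : f.coeff 0 = V := by
    unfold f
    simp
  constructor
  · have h5 : ((g'.coeff 1 : R) : F) = -U := by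
      rw [← hU, ← hg', coeff_map]; rfl
    have h6 := (g'.coeff 1).2
    rw [Valuation.mem_valuationSubring_iff, h5, Valuation.map_neg] at h6
    exact h6
  · have h5 : ((g'.coeff 0 : R) : F) = V := by
      rw [← hV, ← hg', coeff_map]; rfl
    have h6 := (g'.coeff 0).2
    rw [Valuation.mem_valuationSubring_iff, h5] at h6
    exact h6

lemma unit_of_mul {x y : F} (hx : G v 0 x) (hy : G v 0 y) (h : E v 0 (x * y)) : E v 0 x := by
  rcases hx.cases with h1 | h1
  · exact h1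
  · have := h.le (h1.mul hy)
    omega

/-- the model `y ^ 2 + z x y + (1 + 6 s) / 3 y = x ^ 3 + (s + 8 s ^ 2) / 27` of discriminant
`s ^ 3`: a pair of subgroups of order 3 is defined over an extension which is unramified at the
places where `s` is a unit and which do not divide 3 -/
theorem good_pair [CharZero F] (h3 : E v 0 (3 : F)) {z s : F}
    (hzs : z ^ 3 * s = 1 + 13 * s + 49 * s ^ 2) (hs : E v 0 s) {A B u w : F}
    (hA : A = -27 * (z ^ 4 - 8 * z - 48 * z * s))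
    (hB : B = -54 * (-z ^ 6 + 12 * z ^ 3 * (1 + 6 * s) - 24 * (1 + 6 * s) ^ 2 -
      32 * (s + 8 * s ^ 2)))
    (r1 : 4 * B = 2 * u * w - u ^ 3 - 2 * A * u)
    (r2 : A ^ 2 + 6 * A * w + 3 * u ^ 2 * w - 3 * w ^ 2 = 0)
    (hI : (3 * w + A) * (w - A) = -1296 * s * w) (hw : w ≠ 0) :
    ∃ x y : F, G v 0 x ∧ G v 0 y ∧ E v 0 (x ^ 2 - 4 * y) ∧
      1296 * (x ^ 2 - 4 * y) = u ^ 2 - 4 * w := by
  have g (m : ℕ) [m.AtLeastTwo] : G v 0 (OfNat.ofNat m : F) := G.ofNat m
  have i3 : G v 0 (3⁻¹ : F) := by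
    have : E v 0 (3⁻¹ : F) := by
      rw [E_iff_one] at *
      rw [map_inv₀, h3, inv_one]
    exact this.g le_rfl
  have gs : G v 0 s := hs.g le_rfl
  have g1 : G v 0 (1 : F) := E.one.g le_rfl
  -- `z` is integral
  have gz : G v 0 z := by
    by_contra hcon
    have hz0 : z ≠ 0 := by
      rintro rfl
      exact hcon G.zero
    obtain ⟨n, hn⟩ := exists_E (v := v) hz0
    have hn0 : n < 0 := by
      by_contra h0
      exact hcon (hn.g (by omega))
    have h4 : E v ((3 : ℕ) * n + 0) (1 + 13 * s + 49 * s ^ 2) :=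
      ((hn.pow 3).mul hs).congr rfl hzs
    have h5 : G v 0 (1 + 13 * s + 49 * s ^ 2) :=
      ((g1.add (((g 13).mul gs).mono (by norm_num))).add
        (((g 49).mul (gs.pow 2)).mono (by norm_num)))
    have := h4.le h5
    push_cast at this
    omega
  set U : F := (u - 6 * z ^ 2) / 36 with hU
  set V : F := (w - 3 * z ^ 2 * u + 9 * z ^ 4) / 1296 with hV
  set P : F := z ^ 2 / 3 + U with hP
  set Q : F := z * (1 + 6 * s) / 3 + U * P - V with hQ
  have e1 : P - U = z ^ 2 * 3⁻¹ := by rw [hP]; ring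
  have e2 : Q - U * P + V = z * (1 + 6 * s) * 3⁻¹ := by rw [hQ]; ring
  have e3 : V * P - U * Q = (1 + 6 * s) ^ 2 * (3⁻¹ * 3⁻¹) +
      4 * (s + 8 * s ^ 2) * (3⁻¹ * 3⁻¹ * 3⁻¹) := by
    rw [hQ, hP, hU, hV]
    subst hA hB
    linear_combination (-1 / 46656) * r1
  have e4 : V * Q = z ^ 2 * (s + 8 * s ^ 2) * (3⁻¹ * 3⁻¹ * 3⁻¹ * 3⁻¹) := by
    rw [hQ, hP, hU, hV]
    subst hA hB
    linear_combination (-(9 * z ^ 2) / (3 * 36 ^ 4)) * r1 + (1 / (3 * 36 ^ 4)) * r2
  have gz2 : G v 0 (z ^ 2) := (gz.pow 2).mono (by norm_num)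
  have g6s : G v 0 (1 + 6 * s) := g1.add (((g 6).mul gs).mono (by norm_num))
  have g8s : G v 0 (s + 8 * s ^ 2) := gs.add (((g 8).mul (gs.pow 2)).mono (by norm_num))
  have i9 : G v 0 (3⁻¹ * 3⁻¹ : F) := (i3.mul i3).mono (by norm_num)
  have i27 : G v 0 (3⁻¹ * 3⁻¹ * 3⁻¹ : F) := (i9.mul i3).mono (by norm_num)
  have i81 : G v 0 (3⁻¹ * 3⁻¹ * 3⁻¹ * 3⁻¹ : F) := (i27.mul i3).mono (by norm_num)
  have f1 : G v 0 (P - U) := by
    rw [e1]; exact (gz2.mul i3).mono (by norm_num)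
  have f2 : G v 0 (Q - U * P + V) := by
    rw [e2]; exact ((gz.mul g6s).mul i3).mono (by norm_num)
  have f3 : G v 0 (V * P - U * Q) := by
    rw [e3]
    exact (((g6s.pow 2).mul i9).mono (by norm_num)).add
      ((((g 4).mul g8s).mul i27).mono (by norm_num))
  have f4 : G v 0 (V * Q) := by
    rw [e4]; exact ((gz2.mul g8s).mul i81).mono (by norm_num)
  rw [G_iff_one] at f1 f2 f3 f4
  obtain ⟨gU, gV⟩ := quad_int f1 f2 f3 f4
  rw [← G_iff_one] at gU gV f1 f2
  have gP : G v 0 P := (f1.add gU).congr le_rfl (by ring)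
  have gQ : G v 0 Q := ((f2.add ((gU.mul gP).mono (by norm_num))).sub gV).congr le_rfl (by ring)
  -- the discriminants
  have k1 : (u ^ 2 - 4 * w) * (3 * w) = -(3 * w + A) ^ 2 := by linear_combination r2
  have k2 : (4 * w - 3 * u ^ 2 - 8 * A) * w = (w - A) ^ 2 := by linear_combination -r2
  have d1 : 1296 * (U ^ 2 - 4 * V) = u ^ 2 - 4 * w := by
    rw [hU, hV]
    field_simp
    ring
  have d2 : 1296 * (P ^ 2 - 4 * Q) = 4 * w - 3 * u ^ 2 - 8 * A := by
    rw [hQ, hP, hU, hV, hA]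
    field_simp
    ring
  have d3 : (U ^ 2 - 4 * V) * (P ^ 2 - 4 * Q) = -(s ^ 2 * 3⁻¹) := by
    have h0 : (3 * w ^ 2 * 1296 ^ 2 : F) ≠ 0 := by
      refine mul_ne_zero (mul_ne_zero (by norm_num) (pow_ne_zero 2 hw)) (by norm_num)
    apply mul_left_cancel₀ h0
    have : (3 * w ^ 2 * 1296 ^ 2 : F) * ((U ^ 2 - 4 * V) * (P ^ 2 - 4 * Q)) =
        ((u ^ 2 - 4 * w) * (3 * w)) * ((4 * w - 3 * u ^ 2 - 8 * A) * w) := by
      rw [← d1, ← d2]; ring
    rw [this, k1, k2]
    have h5 : -(3 * w + A) ^ 2 * (w - A) ^ 2 = -((3 * w + A) * (w - A)) ^ 2 := by ring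
    rw [h5, hI]
    field_simp
  have hdU : G v 0 (U ^ 2 - 4 * V) :=
    ((gU.pow 2).mono (by norm_num)).sub (((g 4).mul gV).mono (by norm_num))
  have hdP : G v 0 (P ^ 2 - 4 * Q) :=
    ((gP.pow 2).mono (by norm_num)).sub (((g 4).mul gQ).mono (by norm_num))
  have hd : E v 0 ((U ^ 2 - 4 * V) * (P ^ 2 - 4 * Q)) := by
    rw [d3]
    have : E v 0 (3⁻¹ : F) := by
      rw [E_iff_one] at *
      rw [map_inv₀, h3, inv_one]
    exact ((hs.pow 2).mul this).neg.congr (by norm_num) rfl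
  exact ⟨U, V, gU, gV, unit_of_mul hdU hdP hd, d1⟩

end Pool.Agent.L9
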