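import Mathlib
import Pool.Agent.L9.Val
import Pool.Agent.L9.Unr1

/-! # The field of a pair of subgroups of order 3, locally (helper81) -/

set_option autoImplicit false

namespace Pool.Agent.L9

open WithZero

variable {F : Type*} [Field F] {v : Valuation F ℤᵐ⁰}

/-- `t` is a unit: the level structure at 7 gives a model with good reduction -/
theorem good_local [CharZero F] (h3 : E v 0 (3 : F)) {t M A B u w c : F} (ht : E v 0 t)
    (hM : M ≠ 0) (haa : t ^ 2 + 5 * t + 1 ≠ 0)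
    (hct : 27 * c ^ 3 * t = (t ^ 2 + 13 * t + 49) * (t ^ 2 + 5 * t + 1) ^ 3)
    (hA : A = -27 * ((t ^ 2 + 13 * t + 49) * (t ^ 2 + 5 * t + 1) * M ^ 2))
    (hB : B = -54 * ((t ^ 2 + 13 * t + 49) *
      (t ^ 4 + 14 * t ^ 3 + 63 * t ^ 2 + 70 * t - 7) * M ^ 3))
    (r1 : 4 * B = 2 * u * w - u ^ 3 - 2 * A * u)
    (r2 : A ^ 2 + 6 * A * w + 3 * u ^ 2 * w - 3 * w ^ 2 = 0)
    (hc : c * ((3 * w + A) * (w - A)) = 16 * A * w) (hw : w ≠ 0) (hc0 : c ≠ 0) :
    ∃ x y r : F, G v 0 x ∧ G v 0 y ∧ E v 0 (x ^ 2 - 4 * y) ∧ r ≠ 0 ∧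
      (x ^ 2 - 4 * y) * (u ^ 2 - 4 * w) = r ^ 2 := by
  have ht0 : t ≠ 0 := ht.ne_zero
  obtain ⟨s, hs⟩ : ∃ s, s = t⁻¹ := ⟨_, rfl⟩
  have hst : s * t = 1 := by rw [hs, inv_mul_cancel₀ ht0]
  have hs0 : E v 0 s := by
    rw [E_iff_one] at *
    rw [hs, map_inv₀, ht, inv_one]
  obtain ⟨z, hz⟩ : ∃ z, z = 3 * c / (t ^ 2 + 5 * t + 1) := ⟨_, rfl⟩
  have hza : z * (t ^ 2 + 5 * t + 1) = 3 * c := by
    rw [hz]; exact div_mul_cancel₀ _ haa
  have hz0 : z ≠ 0 := by
    rw [hz]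
    exact div_ne_zero (mul_ne_zero three_ne_zero hc0) haa
  have hzt : z ^ 3 * t = t ^ 2 + 13 * t + 49 := by
    apply mul_right_cancel₀ (pow_ne_zero 3 haa)
    linear_combination hct + t * ((z * (t ^ 2 + 5 * t + 1)) ^ 2 +
      (z * (t ^ 2 + 5 * t + 1)) * (3 * c) + (3 * c) ^ 2) * hza
  have hzs : z ^ 3 * s = 1 + 13 * s + 49 * s ^ 2 := by
    have h1 : z ^ 3 * s = (z ^ 3 * t) * s ^ 2 := by linear_combination (-(z ^ 3 * s)) * hst
    rw [h1, hzt]
    linear_combination (s * t + 1 + 13 * s) * hst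
  obtain ⟨κ, hκ⟩ : ∃ κ, κ = -(z * t * M) := ⟨_, rfl⟩
  have hκ0 : κ ≠ 0 := by
    rw [hκ]
    exact neg_ne_zero.mpr (mul_ne_zero (mul_ne_zero hz0 ht0) hM)
  obtain ⟨A', hA'⟩ : ∃ A', A' = -27 * (z ^ 4 - 8 * z - 48 * z * s) := ⟨_, rfl⟩
  obtain ⟨B', hB'⟩ : ∃ B', B' = -54 * (-z ^ 6 + 12 * z ^ 3 * (1 + 6 * s) -
    24 * (1 + 6 * s) ^ 2 - 32 * (s + 8 * s ^ 2)) := ⟨_, rfl⟩
  have hAk : A = κ ^ 2 * A' := by
    have h1 : κ ^ 2 * A' = -27 * M ^ 2 * (z ^ 3 * t) * (z ^ 3 * t - 8 * t - 48 * (s * t)) := by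
      rw [hκ, hA']; ring
    rw [h1, hzt, hst, hA]; ring
  have hBk : B = κ ^ 3 * B' := by
    have h1 : κ ^ 3 * B' = 54 * M ^ 3 * (z ^ 3 * t) * (-(z ^ 3 * t) ^ 2 +
        12 * (z ^ 3 * t) * (t + 6 * (s * t)) - 24 * (t + 6 * (s * t)) ^ 2 -
        32 * ((s * t) * t + 8 * (s * t) ^ 2)) := by
      rw [hκ, hB']; ring
    rw [h1, hzt, hst, hB]; ring
  obtain ⟨u', hu'⟩ : ∃ u', u' = u / κ := ⟨_, rfl⟩
  obtain ⟨w', hw'⟩ : ∃ w', w' = w / κ ^ 2 := ⟨_, rfl⟩
  have hu : u = κ * u' := by rw [hu']; field_simp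
  have hww : w = κ ^ 2 * w' := by rw [hw']; field_simp
  have r1' : 4 * B' = 2 * u' * w' - u' ^ 3 - 2 * A' * u' := by
    apply mul_left_cancel₀ (pow_ne_zero 3 hκ0)
    rw [hBk, hAk, hu, hww] at r1
    linear_combination r1
  have r2' : A' ^ 2 + 6 * A' * w' + 3 * u' ^ 2 * w' - 3 * w' ^ 2 = 0 := by
    apply mul_left_cancel₀ (pow_ne_zero 4 hκ0)
    rw [hAk, hu, hww] at r2
    linear_combination r2
  have hAc : A' = -81 * s * c := by
    have h1 : A' = -27 * s * (z * ((z ^ 3 * t) - 8 * t - 48)) := by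
      rw [hA']
      linear_combination (27 * z ^ 4 - 216 * z) * hst
    rw [h1, hzt]
    linear_combination (-27 * s) * hza
  have hI : (3 * w' + A') * (w' - A') = -1296 * s * w' := by
    have h1 : c * ((3 * w' + A') * (w' - A')) = 16 * A' * w' := by
      apply mul_left_cancel₀ (pow_ne_zero 4 hκ0)
      rw [hAk, hww] at hc
      linear_combination hc
    apply mul_left_cancel₀ hc0
    rw [h1]
    rw [show 16 * A' * w' = 16 * w' * A' by ring]
    conv_lhs => rw [hAc]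
    ring
  have hw0' : w' ≠ 0 := by
    rw [hw']
    exact div_ne_zero hw (pow_ne_zero 2 hκ0)
  obtain ⟨x, y, gx, gy, hxy, he⟩ := good_pair h3 hzs hs0 hA' hB' r1' r2' hI hw0'
  refine ⟨x, y, 36 * κ * (x ^ 2 - 4 * y), gx, gy, hxy, ?_, ?_⟩
  · exact mul_ne_zero (mul_ne_zero (by norm_num) hκ0) hxy.ne_zero
  · have h1 : u ^ 2 - 4 * w = κ ^ 2 * (1296 * (x ^ 2 - 4 * y)) := by
      rw [he, hu, hww]; ring
    rw [h1]; ring

/-- `j` has a pole -/
theorem pole_local [CharZero F] (h3 : E v 0 (3 : F)) {a c D0 q : F} {γ : ℤ}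
    (hc : E v γ c) (hγ : γ < 0) (ha0 : a ≠ 0) (hca : c * ((3 + a) * (1 - a)) = 16 * a)
    (hq0 : q ≠ 0) (hDD : D0 * (a ^ 2 + 6 * a - 3) = q ^ 2) :
    ∃ x y r : F, G v 0 x ∧ G v 0 y ∧ E v 0 (x ^ 2 - 4 * y) ∧ r ≠ 0 ∧
      (x ^ 2 - 4 * y) * D0 = r ^ 2 := by
  obtain ⟨e, he⟩ := exists_E (v := v) (two_ne_zero (α := F))
  have he0 : 0 ≤ e := he.le (G.ofNat 2)
  have h4 : E v (2 * e) (4 : F) := (he.pow 2).congr (by norm_num) (by norm_num)
  have h8 : E v (3 * e) (8 : F) := (he.pow 3).congr (by norm_num) (by norm_num)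
  have h16 : E v (4 * e) (16 : F) := (he.pow 4).congr (by norm_num) (by norm_num)
  have h12 : E v (2 * e) (12 : F) := (h3.mul h4).congr (by ring) (by norm_num)
  obtain ⟨α, hα⟩ := exists_E (v := v) ha0
  have hpr0 : (3 + a) * (1 - a) ≠ 0 := by
    intro h0
    rw [h0, mul_zero] at hca
    exact mul_ne_zero (by norm_num) ha0 hca.symm
  have hp0 : 3 + a ≠ 0 := left_ne_zero_of_mul hpr0
  have hq0' : 1 - a ≠ 0 := right_ne_zero_of_mul hpr0
  obtain ⟨p, hp⟩ := exists_E (v := v) hp0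
  obtain ⟨r, hr⟩ := exists_E (v := v) hq0'
  have hord : γ + (p + r) = 4 * e + α :=
    (hc.mul (hp.mul hr)).unique ((h16.mul hα).congr rfl hca.symm)
  have hα0 : α = 0 := by
    rcases lt_trichotomy α 0 with h | h | h
    · have h1 : E v α (3 + a) := E.add' (h3.g le_rfl) hα h
      have h2 : E v α (1 - a) :=
        (E.add' (E.one.g le_rfl) hα.neg h).congr rfl (by ring)
      have := hp.unique h1
      have := hr.unique h2
      omega
    · exact h
    · have h1 : E v 0 (3 + a) := h3.add (hα.g le_rfl) h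
      have h2 : E v 0 (1 - a) := (E.one.add (hα.neg.g le_rfl) h).congr rfl (by ring)
      have := hp.unique h1
      have := hr.unique h2
      omega
  subst hα0
  have key : E v 0 ((a ^ 2 + 6 * a - 3) / 4) ∧ G v 0 ((4 - (a ^ 2 + 6 * a - 3)) / 16) := by
    have i4 : E v (-(2 * e)) ((4 : F)⁻¹) := by
      unfold E at *
      rw [map_inv₀, h4, ← exp_neg]
    have i16 : E v (-(4 * e)) ((16 : F)⁻¹) := by
      unfold E at *
      rw [map_inv₀, h16, ← exp_neg]
    by_cases hcase : 2 * e + 1 ≤ r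
    · have hb : G v (2 * e + 1) (1 - a) := hr.g hcase
      have h1 : G v (2 * e + 1) (-(8 * (1 - a)) + (1 - a) ^ 2) := by
        refine G.add ?_ ?_
        · exact ((h8.g le_rfl).mul hb).neg.mono (by omega)
        · exact (hb.pow 2).mono (by push_cast; omega)
      have hD : E v (2 * e) (a ^ 2 + 6 * a - 3) :=
        (h4.add h1 (by omega)).congr rfl (by ring)
      have h2 : G v (4 * e) (4 - (a ^ 2 + 6 * a - 3)) := by
        have h5 : G v (2 * e) (8 - (1 - a)) :=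
          (h8.g (by omega)).sub (hb.mono (by omega))
        exact (h5.mul hb).congr (by omega) (by ring)
      refine ⟨(hD.mul i4).congr (by ring) (by rw [div_eq_mul_inv]), ?_⟩
      exact (h2.mul (i16.g le_rfl)).congr (by omega) (by rw [div_eq_mul_inv])
    · have hcase' : 2 * e + 1 ≤ p := by omega
      have hb : G v (2 * e + 1) (3 + a) := hp.g hcase'
      have h1 : G v (2 * e + 1) ((3 + a) ^ 2) := (hb.pow 2).mono (by push_cast; omega)
      have hD : E v (2 * e) (a ^ 2 + 6 * a - 3) :=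
        (h12.neg.add h1 (by omega)).congr rfl (by ring)
      have h2 : G v (4 * e) (4 - (a ^ 2 + 6 * a - 3)) := by
        have h5 : G v (2 * e) (4 + (3 + a)) :=
          (h4.g le_rfl).add (hb.mono (by omega))
        have h6 : G v (2 * e) (4 - (3 + a)) :=
          (h4.g le_rfl).sub (hb.mono (by omega))
        exact (h5.mul h6).congr (by omega) (by ring)
      refine ⟨(hD.mul i4).congr (by ring) (by rw [div_eq_mul_inv]), ?_⟩
      exact (h2.mul (i16.g le_rfl)).congr (by omega) (by rw [div_eq_mul_inv])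
  have e1 : (1 : F) ^ 2 - 4 * ((4 - (a ^ 2 + 6 * a - 3)) / 16) = (a ^ 2 + 6 * a - 3) / 4 := by
    field_simp
    ring
  refine ⟨1, (4 - (a ^ 2 + 6 * a - 3)) / 16, q / 2, E.one.g le_rfl, key.2, ?_,
    div_ne_zero hq0 two_ne_zero, ?_⟩
  · rw [e1]; exact key.1
  · rw [e1]
    field_simp
    linear_combination 4 * hDD

/-- `j` and `j - 1728` are units, and so are 2 and 3 -/
theorem unit_local [CharZero F] (h2 : E v 0 (2 : F)) (h3 : E v 0 (3 : F)) {a c D0 q : F}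
    (hc : E v 0 c) (hj : E v 0 (27 * c ^ 3 - 1728)) (ha0 : a ≠ 0)
    (hca : c * ((3 + a) * (1 - a)) = 16 * a)
    (hq0 : q ≠ 0) (hDD : D0 * (a ^ 2 + 6 * a - 3) = q ^ 2) :
    ∃ x y r : F, G v 0 x ∧ G v 0 y ∧ E v 0 (x ^ 2 - 4 * y) ∧ r ≠ 0 ∧
      (x ^ 2 - 4 * y) * D0 = r ^ 2 := by
  have h4 : E v 0 (4 : F) := (h2.pow 2).congr (by norm_num) (by norm_num)
  have h16 : E v 0 (16 : F) := (h2.pow 4).congr (by norm_num) (by norm_num)
  have h27 : E v 0 (27 : F) := (h3.pow 3).congr (by norm_num) (by norm_num)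
  obtain ⟨α, hα⟩ := exists_E (v := v) ha0
  have hpr0 : (3 + a) * (1 - a) ≠ 0 := by
    intro h0
    rw [h0, mul_zero] at hca
    exact mul_ne_zero (by norm_num) ha0 hca.symm
  have hp0 : 3 + a ≠ 0 := left_ne_zero_of_mul hpr0
  have hq0' : 1 - a ≠ 0 := right_ne_zero_of_mul hpr0
  obtain ⟨p, hp⟩ := exists_E (v := v) hp0
  obtain ⟨r, hr⟩ := exists_E (v := v) hq0'
  have hord : 0 + (p + r) = 0 + α :=
    (hc.mul (hp.mul hr)).unique ((h16.mul hα).congr rfl hca.symm)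
  have hα0 : α = 0 := by
    rcases lt_trichotomy α 0 with h | h | h
    · have h1 : E v α (3 + a) := E.add' (h3.g le_rfl) hα h
      have h2 : E v α (1 - a) :=
        (E.add' (E.one.g le_rfl) hα.neg h).congr rfl (by ring)
      have := hp.unique h1
      have := hr.unique h2
      omega
    · exact h
    · have h1 : E v 0 (3 + a) := h3.add (hα.g le_rfl) h
      have h2 : E v 0 (1 - a) := (E.one.add (hα.neg.g le_rfl) h).congr rfl (by ring)
      have := hp.unique h1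
      have := hr.unique h2
      omega
  subst hα0
  have ga : G v 0 a := hα.g le_rfl
  have gc : G v 0 c := hc.g le_rfl
  have g4 : G v 0 (c - 4) := gc.sub (h4.g le_rfl)
  have gq : G v 0 (27 * (c ^ 2 + 4 * c + 16)) :=
    ((h27.g le_rfl).mul ((((gc.pow 2).mono (by norm_num)).add
      (((h4.g le_rfl).mul gc).mono (by norm_num))).add (h16.g le_rfl))).mono (by norm_num)
  have u4 : E v 0 (c - 4) := unit_of_mul g4 gq (hj.congr rfl (by ring))
  have hD : E v 0 (a ^ 2 + 6 * a - 3) := by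
    have h5 : E v (0 + (p + r)) ((c - 4) * ((3 + a) * (1 - a))) := u4.mul (hp.mul hr)
    have h6 : (c - 4) * ((3 + a) * (1 - a)) = 4 * (a ^ 2 + 6 * a - 3) := by
      linear_combination hca
    have h7 : E v 0 (4 * (a ^ 2 + 6 * a - 3)) := h5.congr (by omega) h6
    have h8 : G v 0 (a ^ 2 + 6 * a - 3) :=
      (((ga.pow 2).mono (by norm_num)).add (((G.ofNat 6).mul ga).mono (by norm_num))).sub
        (h3.g le_rfl)
    exact unit_of_mul h8 (h4.g le_rfl) (h7.congr rfl (by ring))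
  have e1 : (a + 3) ^ 2 - 4 * 3 = a ^ 2 + 6 * a - 3 := by ring
  refine ⟨a + 3, 3, q, ga.add (h3.g le_rfl), h3.g le_rfl, ?_, hq0, ?_⟩
  · rw [e1]; exact hD
  · rw [e1, mul_comm]; exact hDD

/-- the order of `j` when `t` is not a unit -/
theorem t_pole (h7 : E v 0 (7 : F)) {t j : F} {τ n : ℤ} (ht : E v τ t) (hτ : τ ≠ 0)
    (hj : E v n j) (hjt : j * t = (t ^ 2 + 13 * t + 49) * (t ^ 2 + 5 * t + 1) ^ 3) : n < 0 := by
  have g (m : ℕ) [m.AtLeastTwo] : G v 0 (OfNat.ofNat m : F) := G.ofNat m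
  have h49 : E v 0 (49 : F) := (h7.pow 2).congr (by norm_num) (by norm_num)
  have h1 := hj.mul ht
  rcases lt_or_gt_of_ne hτ with h | h
  · have e1 : E v (2 * τ) (t ^ 2 + 13 * t + 49) :=
      (((ht.pow 2).congr (by norm_num) rfl).add (((g 13).mul (ht.g le_rfl)).mono le_rfl)
        (by omega)).add ((g 49)) (by omega)
    have e2 : E v (2 * τ) (t ^ 2 + 5 * t + 1) :=
      (((ht.pow 2).congr (by norm_num) rfl).add (((g 5).mul (ht.g le_rfl)).mono le_rfl)
        (by omega)).add (E.one.g le_rfl) (by omega)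
    have h2 := h1.unique ((e1.mul (e2.pow 3)).congr rfl hjt.symm)
    push_cast at h2
    omega
  · have gt : G v τ t := ht.g le_rfl
    have e1 : E v 0 (t ^ 2 + 13 * t + 49) :=
      E.add' (n := 0) (m := τ) (((gt.pow 2).mono (by push_cast; omega)).add
        (((g 13).mul gt).mono (by omega))) h49 h
    have e2 : E v 0 (t ^ 2 + 5 * t + 1) :=
      E.add' (n := 0) (m := τ) (((gt.pow 2).mono (by push_cast; omega)).add
        (((g 5).mul gt).mono (by omega))) E.one h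
    have h2 := h1.unique ((e1.mul (e2.pow 3)).congr rfl hjt.symm)
    push_cast at h2
    omega

end Pool.Agent.L9
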