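import Pool.Agent.L9.Seven
import Pool.Agent.L9.OddDeg
import Pool.Agent.L9.Unr2

/-! # The quadratic field of a curve without 105-isogeny (helper81) -/

set_option autoImplicit false

namespace Pool.Agent.L9

open NumberField WeierstrassCurve WeierstrassCurve.Affine IsDedekindDomain WithZero
  Pool.Agent.H42M Pool.Agent.M7 Pool.Agent.H23T

section

variable {F : Type*} [Field F] [NumberField F]

lemma E_of_not_mem {n : ℕ} [n.AtLeastTwo] {P : HeightOneSpectrum (𝓞 F)}
    (hP : (OfNat.ofNat n : 𝓞 F) ∉ P.asIdeal) : E (P.valuation F) 0 (OfNat.ofNat n : F) := by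
  rw [E_iff_one]
  have hval : P.valuation F (OfNat.ofNat n : F) = P.intValuation (OfNat.ofNat n : 𝓞 F) := by
    have h1 : (OfNat.ofNat n : F) = algebraMap (𝓞 F) F (OfNat.ofNat n : 𝓞 F) :=
      (map_ofNat (algebraMap (𝓞 F) F) n).symm
    rw [h1]; exact P.valuation_of_algebraMap (K := F) _
  rw [hval]
  refine le_antisymm (P.intValuation_le_one _) (not_lt.mp ?_)
  rw [HeightOneSpectrum.intValuation_lt_one_iff_mem]
  exact hP

end

open scoped Classical in
/-- Let an elliptic curve over a totally real field `F` without `√5` have isogenies of degree 5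
and 7 and none of degree 3, and acquire a 3-isogeny over the quadratic extension `F(√δ)`. Then
`F(√δ)/F` is unramified at the primes that divide neither 3 nor 7 and at the primes whose norm is
an odd power of 7: it has there a generator, a root of `X ^ 2 - x X + y` with `x`, `y` integral
and `x ^ 2 - 4 y` a unit -/
theorem main_unr {F : Type*} [Field F] [NumberField F] [IsTotallyReal F]
    (hs : ∀ s : F, s ^ 2 ≠ 5) (W : WeierstrassCurve F) [W.IsElliptic]
    (h5 : ∃ C : AddSubgroup (W⁄(AlgebraicClosure F)).Point, Nat.card C = 5 ∧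
      ∀ σ : AlgebraicClosure F ≃ₐ[F] AlgebraicClosure F,
        C.map (Point.map (W' := W) (σ : AlgebraicClosure F →ₐ[F] AlgebraicClosure F)) = C)
    (h7 : ∃ C : AddSubgroup (W⁄(AlgebraicClosure F)).Point, Nat.card C = 7 ∧
      ∀ σ : AlgebraicClosure F ≃ₐ[F] AlgebraicClosure F,
        C.map (Point.map (W' := W) (σ : AlgebraicClosure F →ₐ[F] AlgebraicClosure F)) = C)
    (h3 : ¬ ∃ C : AddSubgroup (W⁄(AlgebraicClosure F)).Point, Nat.card C = 3 ∧
      ∀ σ : AlgebraicClosure F ≃ₐ[F] AlgebraicClosure F,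
        C.map (Point.map (W' := W) (σ : AlgebraicClosure F →ₐ[F] AlgebraicClosure F)) = C)
    {δ : F} (hδ : δ ≠ 0)
    (hC3 : ∃ C : AddSubgroup (W⁄(AlgebraicClosure F)).Point, Nat.card C = 3 ∧
      ∀ σ : AlgebraicClosure F ≃ₐ[F] AlgebraicClosure F,
        (∀ z : AlgebraicClosure F, z ^ 2 = algebraMap F (AlgebraicClosure F) δ → σ z = z) →
        C.map (Point.map (W' := W) (σ : AlgebraicClosure F →ₐ[F] AlgebraicClosure F)) = C)
    (w : HeightOneSpectrum (𝓞 F)) (hw3 : (3 : 𝓞 F) ∉ w.asIdeal)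
    (hw7 : (7 : 𝓞 F) ∉ w.asIdeal ∨ ∃ k : ℕ, Odd k ∧ Ideal.absNorm w.asIdeal = 7 ^ k) :
    ∃ x y q : F, w.valuation F x ≤ 1 ∧ w.valuation F y ≤ 1 ∧
      w.valuation F (x ^ 2 - 4 * y) = 1 ∧ q ≠ 0 ∧ δ * (x ^ 2 - 4 * y) = q ^ 2 := by
  obtain ⟨C, hC, hstC⟩ := hC3
  obtain ⟨C₅, hC₅, hst₅⟩ := h5
  obtain ⟨C₇, hC₇, hst₇⟩ := h7
  obtain ⟨k, hk0, hk⟩ := five_point (K := AlgebraicClosure F) W C₅ hC₅ hst₅
  obtain ⟨φ⟩ := exists_real F
  have hj0 : W.j ≠ 0 := by
    intro h0
    rw [h0, zero_mul] at hk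
    have h1 : k ^ 2 + 10 * k + 5 = 0 := (pow_eq_zero_iff (by norm_num)).mp hk.symm
    apply hs ((k + 5) / 2)
    linear_combination h1 / 4
  have hj1 : W.j ≠ 1728 := by
    intro h0
    rw [h0] at hk
    have h1 : (k ^ 2 + 22 * k + 125) * (k ^ 2 + 4 * k - 1) ^ 2 = 0 := by linear_combination -hk
    rcases mul_eq_zero.mp h1 with h2 | h2
    · have h3 := congrArg φ h2
      rw [map_add, map_add, map_mul, map_pow, map_ofNat, map_ofNat, map_zero] at h3
      nlinarith [sq_nonneg (φ k + 11)]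
    · have h3 : k ^ 2 + 4 * k - 1 = 0 := (pow_eq_zero_iff (by norm_num)).mp h2
      apply hs (k + 2)
      linear_combination h3
  have hA0 : -27 * W.c₄ ≠ 0 := by
    intro h0
    have hc : W.c₄ = 0 := (mul_eq_zero.mp h0).resolve_left (by norm_num)
    have h1 := Pool.Agent.H23T.j_mul_disc W
    rw [hc, zero_pow three_ne_zero] at h1
    rcases mul_eq_zero.mp h1 with h1 | h1
    · exact hj0 h1
    · exact W.isUnit_Δ.ne_zero h1
  have hdisc := disc_ne_zero W
  have hjr := Pool.Agent.H23T.j_eq W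
  -- the point of `X₀(7)`
  have hu7 : ∀ t : F, uu t ≠ 0 := by
    intro t ht
    have h2 := congrArg φ ht
    unfold uu at h2
    rw [map_add, map_add, map_mul, map_pow, map_ofNat, map_ofNat, map_zero] at h2
    nlinarith [sq_nonneg (φ t + 13 / 2)]
  obtain ⟨t₇, M, hM, hjt, hc4, hc6⟩ := borel7 hC₇ hst₇ (jrel' W) hu7
  have ht0 : t₇ ≠ 0 := by
    rintro rfl
    have h1 : uu (0 : F) * aa (0 : F) ^ 3 = 49 := by unfold uu aa; ring
    rw [h1, mul_zero] at hjt
    norm_num at hjt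
  unfold uu aa at hjt hc4
  unfold uu bb at hc6
  have haa : t₇ ^ 2 + 5 * t₇ + 1 ≠ 0 := by
    intro h0
    rw [h0] at hjt
    have : W.j * t₇ = 0 := by rw [hjt]; ring
    rcases mul_eq_zero.mp this with h | h
    · exact hj0 h
    · exact ht0 h
  -- the pair of subgroups
  obtain ⟨t, ht⟩ := IsAlgClosed.exists_pow_nat_eq (algebraMap F (AlgebraicClosure F) δ)
    (n := 2) two_pos
  have hst' : ∀ σ : AlgebraicClosure F ≃ₐ[F] AlgebraicClosure F, σ t = t →
      C.map (act W σ) = C := by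
    intro σ hσ
    apply hstC σ
    intro z hz
    have hz' : z = t ∨ z = -t := by
      apply sq_eq_sq_iff_eq_or_eq_neg.mp
      rw [hz, ht]
    rcases hz' with rfl | rfl
    · exact hσ
    · rw [map_neg, hσ]
  obtain ⟨x₁, x₂, u, v, w', hu, hv, hne, hp1, hp2, hw⟩ := quad_pair (K := AlgebraicClosure F)
    (W := W) hC ht hst' (fun h => h3 ⟨C, hC, h⟩)
  obtain ⟨hk3, hk4⟩ := sym3 hne hp1 hp2
  have hD : u ^ 2 - 4 * v ≠ 0 := by
    intro h0
    have h1 : algebraMap F (AlgebraicClosure F) (u ^ 2 - 4 * v) = 0 := by rw [h0, map_zero]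
    simp only [map_mul, map_sub, map_pow, map_ofNat, hu, hv] at h1
    have h2 : (x₁ - x₂) ^ 2 = 0 := by linear_combination h1
    exact hne (sub_eq_zero.mp (pow_eq_zero_iff (two_ne_zero) |>.mp h2))
  rw [← hu, ← hv] at hk3 hk4
  have r1 : 4 * (-54 * W.c₆) = 2 * u * v - u ^ 3 - 2 * (-27 * W.c₄) * u := by
    have h0 : 3 * (4 * (-54 * W.c₆)) = 3 * (2 * u * v - u ^ 3 - 2 * (-27 * W.c₄) * u) := by
      apply (algebraMap F (AlgebraicClosure F)).injective
      simpa only [map_add, map_mul, map_sub, map_pow, map_neg, map_ofNat, map_zero] using hk3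
    exact mul_left_cancel₀ three_ne_zero h0
  have r2 : (-27 * W.c₄) ^ 2 + 6 * (-27 * W.c₄) * v + 3 * u ^ 2 * v - 3 * v ^ 2 = 0 := by
    apply (algebraMap F (AlgebraicClosure F)).injective
    simpa only [map_add, map_mul, map_sub, map_pow, map_neg, map_ofNat, map_zero] using hk4
  -- the parameter
  have hA4 : -27 * W.c₄ = -27 * ((t₇ ^ 2 + 13 * t₇ + 49) * (t₇ ^ 2 + 5 * t₇ + 1) * M ^ 2) := by
    rw [hc4]
  have hB6 : -54 * W.c₆ = -54 * ((t₇ ^ 2 + 13 * t₇ + 49) *
      (t₇ ^ 4 + 14 * t₇ ^ 3 + 63 * t₇ ^ 2 + 70 * t₇ - 7) * M ^ 3) := by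
    rw [hc6]
  set A := -27 * W.c₄ with hA
  set B := -54 * W.c₆ with hB
  have hv0 : v ≠ 0 := by
    intro h0
    rw [h0] at r2
    apply hA0
    have : A ^ 2 = 0 := by linear_combination r2
    exact pow_eq_zero_iff (two_ne_zero) |>.mp this
  have hpd := pair_disc r1 r2
  have hne3 : (3 * v + A) * (v - A) ≠ 0 := by
    intro h0
    have h1 : 16 * v ^ 3 * (4 * A ^ 3 + 27 * B ^ 2) = 0 := by
      rw [hpd, ← mul_pow, h0]; ring
    exact mul_ne_zero (mul_ne_zero (by norm_num) (pow_ne_zero 3 hv0)) hdisc h1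
  have hne31 : 3 * v + A ≠ 0 := left_ne_zero_of_mul hne3
  have hne32 : v - A ≠ 0 := right_ne_zero_of_mul hne3
  have hu0 : u ≠ 0 := by
    rintro rfl
    apply hj1
    have hB0 : B = 0 := by
      have : 4 * B = 0 := by linear_combination r1
      exact (mul_eq_zero.mp this).resolve_left (by norm_num)
    rw [hB0] at hjr
    have h1 : (W.j - 1728) * (4 * A ^ 3) = 0 := by linear_combination -hjr
    exact sub_eq_zero.mp ((mul_eq_zero.mp h1).resolve_right
      (mul_ne_zero (by norm_num) (pow_ne_zero 3 hA0)))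
  set a : F := A / v with ha
  set c : F := 16 * A * v / ((3 * v + A) * (v - A)) with hc
  have ha0 : a ≠ 0 := div_ne_zero hA0 hv0
  have hc0 : c ≠ 0 := div_ne_zero (mul_ne_zero (mul_ne_zero (by norm_num) hA0) hv0) hne3
  have hcA : c * ((3 * v + A) * (v - A)) = 16 * A * v := by
    rw [hc]; exact div_mul_cancel₀ _ hne3
  have hca : c * ((3 + a) * (1 - a)) = 16 * a := by
    rw [hc, ha]
    exact ca_eq hv0 hne31 hne32
  have hjc : W.j = 27 * c ^ 3 := by
    have h1 : W.j * ((3 * v + A) ^ 3 * (v - A) ^ 3) = 27 * (16 * A * v) ^ 3 := by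
      rw [← hpd]
      linear_combination (-16 * v ^ 3) * hjr
    rw [hc, div_pow, mul_pow ((3 * v + A)), ← mul_div_assoc, eq_div_iff (mul_ne_zero
      (pow_ne_zero 3 hne31) (pow_ne_zero 3 hne32)), h1]
  have hDD : (u ^ 2 - 4 * v) * (a ^ 2 + 6 * a - 3) = (u * (A + 3 * v) / v) ^ 2 := by
    rw [ha]
    field_simp
    linear_combination (-4 * v) * r2
  have hq0 : u * (A + 3 * v) / v ≠ 0 := by
    refine div_ne_zero (mul_ne_zero hu0 ?_) hv0
    intro h0
    apply hne31
    linear_combination h0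
  clear_value a c
  have hw0 : w' ≠ 0 := by
    rintro rfl
    apply mul_ne_zero hD hδ
    rw [hw]; ring
  have e3 : E (w.valuation F) 0 (3 : F) := E_of_not_mem hw3
  have e27 : E (w.valuation F) 0 (27 : F) := (e3.pow 3).congr (by norm_num) (by norm_num)
  obtain ⟨γ, hγ⟩ := exists_E (v := w.valuation F) hc0
  have hjγ : E (w.valuation F) (3 * γ) W.j := by
    rw [hjc]
    exact (e27.mul (hγ.pow 3)).congr (by push_cast; ring) rfl
  -- it suffices to compare with the discriminant of the pair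
  suffices hmain : ∃ x y r : F, G (w.valuation F) 0 x ∧ G (w.valuation F) 0 y ∧
      E (w.valuation F) 0 (x ^ 2 - 4 * y) ∧ r ≠ 0 ∧
      (x ^ 2 - 4 * y) * (u ^ 2 - 4 * v) = r ^ 2 by
    obtain ⟨x, y, r, gx, gy, hxy, hr0, hr⟩ := hmain
    refine ⟨x, y, w' * r / (u ^ 2 - 4 * v), G_iff_one.mp gx, G_iff_one.mp gy,
      E_iff_one.mp hxy, div_ne_zero (mul_ne_zero hw0 hr0) hD, ?_⟩
    rw [div_pow, mul_pow, ← hw, ← hr, eq_div_iff (pow_ne_zero 2 hD)]
    ring
  rcases lt_or_ge γ 0 with hγ0 | hγ0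
  · exact pole_local e3 hγ hγ0 ha0 hca hq0 hDD
  rcases hw7 with hw7 | hw7
  · have e7 : E (w.valuation F) 0 (7 : F) := E_of_not_mem hw7
    obtain ⟨τ, hτ⟩ := exists_E (v := w.valuation F) ht0
    have hτ0 : τ = 0 := by
      by_contra hne
      have := t_pole e7 hτ hne hjγ hjt
      omega
    subst hτ0
    exact good_local e3 hτ hM haa (by rw [← hjc]; exact hjt) hA4 hB6 r1 r2 hcA hv0 hc0
  · obtain ⟨g7, hres⟩ := odd_seven hw7
    have k1 := five_odd7j g7 hres hk0 hk
    have k2 := five_odd7 g7 hres hk0 hk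
    rw [le_one_of_E hjγ] at k1
    have hγ' : γ = 0 := by omega
    subst hγ'
    have hJ : W.j - 1728 ≠ 0 := sub_ne_zero.mpr hj1
    obtain ⟨m, hm⟩ := exists_E (v := w.valuation F) hJ
    rw [le_one_of_E hm] at k2
    have hm0 : 0 ≤ m := hm.le ((hjγ.g (by norm_num)).sub (G.ofNat 1728))
    have hmz : m = 0 := by omega
    subst hmz
    have e2 : E (w.valuation F) 0 (2 : F) := by
      have := E.int (v := w.valuation F) (p := 7) (n := 2) (by exact_mod_cast g7) (by norm_num)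
      exact_mod_cast this
    exact unit_local e2 e3 hγ (by rw [← hjc]; exact hm) ha0 hca hq0 hDD

end Pool.Agent.L9
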